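import Pool.Agent.Q228.SAP.AreaP

/-!
# The chain inequality with areas, and weighted means of the number of cuts
-/

set_option autoImplicit false

namespace Pool.Agent.Q228.SAP

open Pool.Agent.W870.Pg Filter Topology
open H981 hiding SS sg
open Pool.Agent.TH546.PC (VF MG mem_VF mem_MG SS RS RL step)

noncomputable section

/-- sums and relations -/
lemma sum_le_of_rel {α β : Type*} {s : Finset α} {t : Finset β} (r : α → β → Prop) (W : α → ℝ)
    (W' : β → ℝ) (hW' : ∀ y ∈ t, 0 ≤ W' y) (h1 : ∀ x ∈ s, ∃ y ∈ t, r x y ∧ W x ≤ W' y)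
    (h2 : ∀ y ∈ t, ∀ x ∈ s, ∀ x' ∈ s, r x y → r x' y → x = x') :
    ∑ x ∈ s, W x ≤ ∑ y ∈ t, W' y := by
  classical
  rcases s.eq_empty_or_nonempty with rfl | ⟨x0, hx0⟩
  · rw [Finset.sum_empty]
    exact Finset.sum_nonneg hW'
  obtain ⟨y0, -, -⟩ := h1 x0 hx0
  have : Nonempty β := ⟨y0⟩
  choose! F hF using h1
  have hinj : Set.InjOn F (s : Set α) := by
    intro x hx x' hx' hxx
    have a1 := hF x hx
    have a2 := hF x' hx'
    exact h2 (F x) a1.1 x hx x' hx' a1.2.1 (by rw [hxx]; exact a2.2.1)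
  calc ∑ x ∈ s, W x ≤ ∑ x ∈ s, W' (F x) := Finset.sum_le_sum fun x hx => (hF x hx).2.2
    _ = ∑ y ∈ s.image F, W' y := (Finset.sum_image hinj).symm
    _ ≤ _ := Finset.sum_le_sum_of_subset_of_nonneg (by
        intro y hy
        rw [Finset.mem_image] at hy
        obtain ⟨x, hx, rfl⟩ := hy
        exact (hF x hx).1) (fun y hy _ => hW' y hy)

lemma can_XZ {X Y Z : List V} (hC : Can (X ++ Y ++ Z)) (c : Cut X Y Z) : Can (X ++ Z) := by
  obtain ⟨p, q, hp, hyh, hq, hyl, hpq1, hpq2⟩ := c.corr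
  have hnd := List.nodup_append.mp hC.nd
  have hnd2 := List.nodup_append.mp hnd.1
  have hch := hC.ch
  rw [List.isChain_append, List.isChain_append] at hch
  refine ⟨?_, ?_, ?_, ?_, ?_⟩
  · rw [List.nodup_append]
    exact ⟨hnd2.1, hnd.2.1, fun a ha b hb => hnd.2.2 a (List.mem_append_left _ ha) b hb⟩
  · rw [List.isChain_append]
    refine ⟨hch.1.1, hch.2.1, ?_⟩
    intro x hx z hz
    rw [hp] at hx
    rw [hq] at hz
    simp only [Option.mem_def, Option.some.injEq] at hx hz
    rw [← hx, ← hz]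
    unfold adj; omega
  · have := hC.hd
    rw [List.append_assoc, List.head?_append_of_ne_nil _ c.xn] at this
    rw [List.head?_append_of_ne_nil _ c.xn]
    exact this
  · have := hC.lt
    rw [List.getLast?_append_of_ne_nil _ c.zn] at this
    rw [List.getLast?_append_of_ne_nil _ c.zn]
    exact this
  · intro v hv
    apply hC.lp v
    simp only [List.mem_append] at hv ⊢
    tauto

lemma sg_or (b : Bool) : sg b = 1 ∨ sg b = -1 := by
  cases b <;> simp [sg]

/-- **the chain inequality with areas** -/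
theorem chain_w (w : ℕ → ℝ) (hw0 : ∀ x, 0 ≤ w x) (hmono : Monotone w) (h k n T : ℕ) :
    ∑ x ∈ SS h k n T, w (aL x.2.2.1.1 + aL x.2.1) ≤ ∑ y ∈ RS h k T, w (aL y.1.2.1 + 8) := by
  classical
  refine sum_le_of_rel RL _ _ (fun y _ => hw0 _) ?_ ?_
  · rintro ⟨m, A, ⟨g, S⟩, o⟩ hx
    simp only [SS, Finset.mem_sigma, Finset.mem_filter, Finset.mem_range, Finset.mem_product] at hx
    obtain ⟨⟨hmn, hmT⟩, hA, hg, ho⟩ := hx
    obtain ⟨X, Y, Z, d, h1, h2, h3, h4⟩ := step hg hA ho
    have hC : Can (X ++ Y ++ Z) := (mem_MG.mp h1).1.1.1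
    have hgC : Can g := (mem_MG.mp hg).1.1.1
    have hAC : Can A := (mem_VF.mp hA).1.1
    refine ⟨(⟨1 + cf d.1 + cf d.2.1, ⟨X ++ Y ++ Z, insert X.length S⟩⟩, d), ?_, ?_, ?_⟩
    · simp only [RS, Finset.mem_product, Finset.mem_sigma, Finset.mem_univ, and_true]
      refine ⟨?_, ?_⟩
      · unfold cf
        simp only [Finset.mem_insert, Finset.mem_singleton]
        split_ifs <;> omega
      · have e : T - m + m = T := by omega
        rw [e] at h1
        exact h1
    · exact ⟨X, Y, Z, rfl, h2, rfl, h3, h4⟩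
    · apply hmono
      exact area_join (sg_or _) (sg_or _) hgC hAC (can_XZ hC h2) h4 hC h2
  · rintro ⟨⟨c, ⟨g, S⟩⟩, d⟩ hy
    simp only [RS, Finset.mem_product, Finset.mem_sigma, Finset.mem_univ, and_true] at hy
    have hg := (mem_MG.mp hy.2).1.1.1
    simp only at hg
    rintro ⟨m, A, ⟨g1, S1⟩, o⟩ hx ⟨m', A', ⟨g1', S1'⟩, o'⟩ hx' hr hr'
    simp only [SS, Finset.mem_sigma, Finset.mem_filter, Finset.mem_range,
      Finset.mem_product] at hx hx'
    obtain ⟨⟨hmn, hmT⟩, hA, hg1, ho⟩ := hx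
    obtain ⟨X, Y, Z, h1, h2, h3, h4, h5⟩ := hr
    obtain ⟨⟨hmn', hmT'⟩, hA', hg1', ho'⟩ := hx'
    obtain ⟨X', Y', Z', h1', h2', h3', h4', h5'⟩ := hr'
    simp only at h1 h2 h3 h4 h5 h1' h2' h3' h4' h5'
    have hlen : X.length = X'.length := by
      have a1 : X.length ∈ insert X'.length S1' := by rw [← h3', h3]; simp
      have a2 : X'.length ∈ insert X.length S1 := by rw [← h3, h3']; simp
      rw [Finset.mem_insert] at a1 a2
      rcases a1 with a1 | a1
      · exact a1
      · rcases a2 with a2 | a2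
        · exact a2.symm
        · have b1 := h4' _ a1
          have b2 := h4 _ a2
          omega
    obtain ⟨rfl, rfl, rfl⟩ := Pool.Agent.TH546.PC.cut_unique hg h1 h1' h2 h2' hlen
    obtain ⟨rfl, rfl, f3⟩ := JR_inj h5 h5'
    have f4 : o = o' := by omega
    have hS : S1 = S1' := by
      have e1 : S1 = S.erase X.length := by
        rw [h3, Finset.erase_insert]
        intro hX
        exact lt_irrefl _ (h4 _ hX)
      have e2 : S1' = S.erase X.length := by
        rw [h3', Finset.erase_insert]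
        intro hX
        exact lt_irrefl _ (h4' _ hX)
      rw [e1, e2]
    have hm : m = m' := by
      have a1 := (mem_VF.mp hA).1.2
      have a2 := (mem_VF.mp hA').1.2
      omega
    subst f4 hS hm
    rfl

/-- pairs of high polygons -/
def JJ (w : ℕ → ℝ) (h j l : ℕ) : ℝ :=
  ∑ A ∈ VF h (2 * j - 1), ∑ B ∈ VF h (2 * l - 1), w (aL A + aL B)

lemma JJ_nonneg {w : ℕ → ℝ} (hw0 : ∀ x, 0 ≤ w x) (h j l : ℕ) : 0 ≤ JJ w h j l :=
  Finset.sum_nonneg fun _ _ => Finset.sum_nonneg fun _ _ => hw0 _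

/-- the sum over all pairs -/
theorem pairs_w (w : ℕ → ℝ) (hw0 : ∀ x, 0 ≤ w x) (hmono : Monotone w) (h n : ℕ) (hn : 2 ≤ n) :
    h * ∑ j ∈ Finset.Icc 2 (n - 2), JJ w h j (n - j) ≤
      800 * ∑ c ∈ ({9, 11, 13} : Finset ℕ), ∑ g ∈ CanF (2 * n - 2 + c),
        ((cutset g).card : ℝ) * w (aL g + 8) := by
  classical
  have hchain := chain_w w hw0 hmono h 0 (2 * n) (2 * n - 2)
  -- the right side
  have hR : ∑ y ∈ RS h 0 (2 * n - 2), w (aL y.1.2.1 + 8) ≤
      800 * ∑ c ∈ ({9, 11, 13} : Finset ℕ), ∑ g ∈ CanF (2 * n - 2 + c),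
        ((cutset g).card : ℝ) * w (aL g + 8) := by
    unfold RS
    rw [Finset.sum_product]
    have e1 : ∀ x ∈ (({9, 11, 13} : Finset ℕ).sigma (fun c => MG h (0 + 1) (2 * n - 2 + c))),
        ∑ y ∈ (Finset.univ : Finset JD), w (aL (x, y).1.2.1 + 8) = 800 * w (aL x.2.1 + 8) := by
      intro x _
      simp only
      rw [Finset.sum_const, card_JD, nsmul_eq_mul]
      norm_num
    rw [Finset.sum_congr rfl e1, ← Finset.mul_sum, Finset.sum_sigma]
    apply mul_le_mul_of_nonneg_left _ (by norm_num)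
    apply Finset.sum_le_sum
    intro c _
    calc ∑ x ∈ MG h (0 + 1) (2 * n - 2 + c), w (aL x.1 + 8) ≤
          ∑ x ∈ (CanF (2 * n - 2 + c)).sigma (fun g => Finset.powersetCard 1 (cutset g)),
            w (aL x.1 + 8) := by
            apply Finset.sum_le_sum_of_subset_of_nonneg
            · unfold MG
              exact Finset.filter_subset _ _
            · intro x _ _
              exact hw0 _
      _ = _ := by
          rw [Finset.sum_sigma]
          refine Finset.sum_congr rfl fun g _ => ?_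
          simp only
          rw [Finset.sum_const, Finset.card_powersetCard, Nat.choose_one_right, nsmul_eq_mul]
  refine le_trans ?_ (hchain.trans hR)
  -- the left side
  unfold SS
  rw [Finset.sum_sigma]
  have hL : ∀ m ∈ (Finset.range (2 * n)).filter (fun m => m ≤ 2 * n - 2),
      h * ∑ A ∈ VF h m, ∑ B ∈ VF h (2 * n - 2 - m), w (aL A + aL B) ≤
      ∑ x ∈ VF h m ×ˢ MG h 0 (2 * n - 2 - m) ×ˢ Finset.range h,
        w (aL x.2.1.1 + aL x.1) := by
    intro m _
    rw [Finset.sum_product, Finset.mul_sum]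
    apply Finset.sum_le_sum
    intro A _
    rw [Finset.sum_product]
    have e2 : ∀ x ∈ MG h 0 (2 * n - 2 - m), ∑ y ∈ Finset.range h,
        w (aL (x, y).1.1 + aL A) = h * w (aL x.1 + aL A) := by
      intro x _
      simp only
      rw [Finset.sum_const, Finset.card_range, nsmul_eq_mul]
    simp only at e2 ⊢
    rw [Finset.sum_congr rfl e2, ← Finset.mul_sum]
    apply mul_le_mul_of_nonneg_left _ (Nat.cast_nonneg _)
    have e3 : ∑ B ∈ VF h (2 * n - 2 - m), w (aL A + aL B) =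
        ∑ x ∈ (VF h (2 * n - 2 - m)).image (fun g => (⟨g, ∅⟩ : (_ : List V) × Finset ℕ)),
          w (aL x.1 + aL A) := by
      rw [Finset.sum_image]
      · refine Finset.sum_congr rfl fun B _ => ?_
        rw [add_comm]
      · intro g _ g' _ hgg
        simpa using hgg
    rw [e3]
    apply Finset.sum_le_sum_of_subset_of_nonneg
    · intro x hx
      rw [Finset.mem_image] at hx
      obtain ⟨g, hg, rfl⟩ := hx
      rw [mem_VF] at hg
      rw [mem_MG]
      refine ⟨⟨⟨hg.1.1, hg.1.2⟩, by simp, by simp⟩, ?_, ?_⟩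
      · have := hg.2
        simp only
        omega
      · intro a ha
        simp at ha
    · intro x _ _
      exact hw0 _
  calc h * ∑ j ∈ Finset.Icc 2 (n - 2), JJ w h j (n - j)
      = ∑ j ∈ Finset.Icc 2 (n - 2), h * JJ w h j (n - j) := Finset.mul_sum _ _ _
    _ = ∑ m ∈ (Finset.Icc 2 (n - 2)).image (fun j => 2 * j - 1),
          h * ∑ A ∈ VF h m, ∑ B ∈ VF h (2 * n - 2 - m), w (aL A + aL B) := by
        rw [Finset.sum_image]
        · refine Finset.sum_congr rfl fun j hj => ?_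
          rw [Finset.mem_Icc] at hj
          unfold JJ
          rw [show 2 * n - 2 - (2 * j - 1) = 2 * (n - j) - 1 by omega]
        · intro a ha b hb hab
          rw [Finset.mem_coe, Finset.mem_Icc] at ha hb
          simp only at hab
          omega
    _ ≤ ∑ m ∈ (Finset.range (2 * n)).filter (fun m => m ≤ 2 * n - 2),
          h * ∑ A ∈ VF h m, ∑ B ∈ VF h (2 * n - 2 - m), w (aL A + aL B) := by
        apply Finset.sum_le_sum_of_subset_of_nonneg
        · intro m hm
          rw [Finset.mem_image] at hm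
          obtain ⟨j, hj, rfl⟩ := hm
          rw [Finset.mem_Icc] at hj
          rw [Finset.mem_filter, Finset.mem_range]
          omega
        · intro m _ _
          exact mul_nonneg (Nat.cast_nonneg _) (Finset.sum_nonneg fun _ _ =>
            Finset.sum_nonneg fun _ _ => hw0 _)
    _ ≤ ∑ m ∈ (Finset.range (2 * n)).filter (fun m => m ≤ 2 * n - 2),
          ∑ x ∈ VF h m ×ˢ MG h 0 (2 * n - 2 - m) ×ˢ Finset.range h,
            w (aL x.2.1.1 + aL x.1) := Finset.sum_le_sum hL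
    _ ≤ _ := by
        apply le_of_eq
        congr

/-- **weighted means of the number of cuts** -/
theorem cut_w (d : ℕ) : ∃ C : ℝ, 0 ≤ C ∧ ∀ n : ℕ, 2 ≤ n → ∀ (v : List V → ℝ) (Vm : ℝ),
    (∀ g ∈ CanF (2 * n - 1), 0 ≤ v g ∧ v g ≤ Vm) →
    ∑ g ∈ CanF (2 * n - 1), ((cutset g).card : ℝ) * v g ≤
      C * Real.log n ^ 2 * ∑ g ∈ CanF (2 * n - 1), v g + Vm * PP n / n ^ d := by
  obtain ⟨K, hK, hPP⟩ := Pool.Agent.TH508.LT.sq_PP2
  have hmu := mu_pos
  have hmu1 : 1 ≤ mu := one_le_mu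
  have hy := yy_gt
  have hy0 : 0 < yy := by linarith
  have hly : 0 < Real.log yy := Real.log_pos hy
  have hl2 : 0 < Real.log 2 := Real.log_pos (by norm_num)
  set c0 : ℝ := Real.log (18 * mu ^ 4) with hc0
  have hc00 : 0 ≤ c0 := Real.log_nonneg (by
    have : 1 ≤ mu ^ 4 := one_le_pow₀ hmu1
    linarith)
  set C1 : ℝ := (K + (1 + d) / Real.log 2 + c0 / Real.log 2 ^ 2) / Real.log yy + 1 / Real.log 2 ^ 2
    with hC1
  have hC10 : 0 ≤ C1 := by positivity
  refine ⟨C1, hC10, fun n hn v Vm hv => ?_⟩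
  have hn' : (2 : ℝ) ≤ n := by exact_mod_cast hn
  have hn0 : (0 : ℝ) < n := by linarith
  set L := Real.log n with hL
  have hL2 : Real.log 2 ≤ L := Real.log_le_log (by norm_num) hn'
  have hL0 : 0 < L := by linarith
  obtain ⟨t, ht⟩ : ∃ t : ℕ, t = ⌈(K * L ^ 2 + (1 + d) * L + c0) / Real.log yy⌉₊ := ⟨_, rfl⟩
  have ht1 : (K * L ^ 2 + (1 + d) * L + c0) / Real.log yy ≤ t := by rw [ht]; exact Nat.le_ceil _
  have ht2 : (t : ℝ) < (K * L ^ 2 + (1 + d) * L + c0) / Real.log yy + 1 := by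
    rw [ht]; exact Nat.ceil_lt_add_one (by positivity)
  -- the power of the base
  have hyt : Real.exp (K * L ^ 2) * (n ^ d * (n * (18 * mu ^ 4))) ≤ yy ^ t := by
    rw [div_le_iff₀ hly] at ht1
    have e0 : (n : ℝ) ^ d = Real.exp (d * L) := by
      rw [hL, mul_comm, Real.exp_mul, Real.exp_log hn0, Real.rpow_natCast]
    have e1 : Real.exp (K * L ^ 2) * (n ^ d * (n * (18 * mu ^ 4))) =
        Real.exp (K * L ^ 2 + (1 + d) * L + c0) := by
      have e2 : K * L ^ 2 + (1 + d) * L + c0 = K * L ^ 2 + d * L + L + c0 := by ring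
      rw [e2, Real.exp_add, Real.exp_add, Real.exp_add, e0]
      rw [show Real.exp L = n by rw [hL, Real.exp_log hn0], hc0, Real.exp_log (by positivity)]
      ring
    have e2 : yy ^ t = Real.exp (t * Real.log yy) := by
      rw [mul_comm, Real.exp_mul, Real.exp_log hy0, Real.rpow_natCast]
    rw [e1, e2]
    exact Real.exp_le_exp.mpr ht1
  have hPn := (hPP n hn).1
  have hP0 : 0 < PP n := PP_pos hn
  have hy1 : 0 < yy - 1 := by linarith
  -- the maximal weight is not negative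
  have hVm : 0 ≤ Vm := by
    have hne : 0 < (CanF (2 * n - 1)).card := by
      have h1 := PP_le_nn hn
      unfold nn at h1
      have : (0 : ℝ) < ((CanF (2 * n - 1)).card : ℝ) := by linarith
      exact_mod_cast this
    obtain ⟨g, hg⟩ := Finset.card_pos.mp hne
    exact (hv g hg).1.trans (hv g hg).2
  -- the sum
  have h1 : ∑ g ∈ CanF (2 * n - 1), ((cutset g).card : ℝ) * v g ≤
      t * ∑ g ∈ CanF (2 * n - 1), v g +
        Vm * ((∑ g ∈ CanF (2 * n - 1), yy ^ (cutset g).card) / (yy ^ t * (yy - 1))) := by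
    calc ∑ g ∈ CanF (2 * n - 1), ((cutset g).card : ℝ) * v g ≤
          ∑ g ∈ CanF (2 * n - 1), (t * v g + Vm * (yy ^ (cutset g).card / (yy ^ t * (yy - 1)))) := by
            apply Finset.sum_le_sum
            intro g hg
            obtain ⟨a1, a2⟩ := hv g hg
            have a3 := q_le (cutset g).card t
            have a4 : 0 ≤ yy ^ (cutset g).card / (yy ^ t * (yy - 1)) := by positivity
            calc ((cutset g).card : ℝ) * v g ≤
                  (t + yy ^ (cutset g).card / (yy ^ t * (yy - 1))) * v g := by gcongr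
              _ = t * v g + v g * (yy ^ (cutset g).card / (yy ^ t * (yy - 1))) := by ring
              _ ≤ _ := by gcongr
      _ = _ := by
          rw [Finset.sum_add_distrib, ← Finset.mul_sum, ← Finset.mul_sum, ← Finset.sum_div]
  have h2 : (∑ g ∈ CanF (2 * n - 1), yy ^ (cutset g).card) / (yy ^ t * (yy - 1)) ≤ PP n / n ^ d := by
    have h3 := cut_exp (2 * n - 1)
    rw [div_le_div_iff₀ (by positivity) (by positivity)]
    have e1 : mu ^ (2 * n - 1 + 3) = mu ^ (2 * n) * mu ^ 2 := by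
      rw [← pow_add]; congr 1; omega
    have e2 : (2 : ℝ) * ((2 * n - 1 : ℕ) : ℝ) + 12 ≤ 9 * n := by
      have : 2 * (2 * n - 1) + 12 ≤ 9 * n := by omega
      exact_mod_cast this
    have e3 : yy - 1 = (mu ^ 2)⁻¹ / 2 := yy_sub
    calc (∑ g ∈ CanF (2 * n - 1), yy ^ (cutset g).card) * n ^ d ≤
          ((2 * ((2 * n - 1 : ℕ) : ℝ) + 12) * mu ^ (2 * n - 1 + 3)) * n ^ d := by gcongr
      _ ≤ (9 * n * (mu ^ (2 * n) * mu ^ 2)) * n ^ d := by rw [e1]; gcongr
      _ = (mu ^ (2 * n) * Real.exp (-(K * L ^ 2))) *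
          ((Real.exp (K * L ^ 2) * (n ^ d * (n * (18 * mu ^ 4)))) * ((mu ^ 2)⁻¹ / 2)) := by
          rw [Real.exp_neg]
          have := (Real.exp_pos (K * L ^ 2)).ne'
          field_simp
          ring
      _ ≤ PP n * (yy ^ t * (yy - 1)) := by
          rw [e3]
          apply mul_le_mul hPn _ (by positivity) hP0.le
          gcongr
  have h4 : (t : ℝ) ≤ C1 * L ^ 2 := by
    have a1 : 1 ≤ 1 / Real.log 2 ^ 2 * L ^ 2 := by
      rw [div_mul_eq_mul_div, one_mul, le_div_iff₀ (by positivity), one_mul]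
      exact pow_le_pow_left₀ hl2.le hL2 2
    have a2 : L ≤ L ^ 2 / Real.log 2 := by
      rw [le_div_iff₀ hl2]; nlinarith
    have a3 : c0 ≤ c0 / Real.log 2 ^ 2 * L ^ 2 := by
      calc c0 = c0 * 1 := (mul_one _).symm
        _ ≤ c0 * (1 / Real.log 2 ^ 2 * L ^ 2) := by gcongr
        _ = _ := by ring
    have a4 : (K * L ^ 2 + (1 + d) * L + c0) / Real.log yy ≤
        (K + (1 + d) / Real.log 2 + c0 / Real.log 2 ^ 2) / Real.log yy * L ^ 2 := by
      rw [div_mul_eq_mul_div]
      apply div_le_div_of_nonneg_right _ hly.le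
      have : (K + (1 + d) / Real.log 2 + c0 / Real.log 2 ^ 2) * L ^ 2 =
          K * L ^ 2 + (1 + d) * (L ^ 2 / Real.log 2) + c0 / Real.log 2 ^ 2 * L ^ 2 := by ring
      rw [this]
      have : (1 + (d : ℝ)) * L ≤ (1 + d) * (L ^ 2 / Real.log 2) := by gcongr
      linarith
    rw [hC1, add_mul]
    linarith
  have hv0 : 0 ≤ ∑ g ∈ CanF (2 * n - 1), v g := Finset.sum_nonneg fun g hg => (hv g hg).1
  calc _ ≤ _ := h1
    _ ≤ C1 * L ^ 2 * ∑ g ∈ CanF (2 * n - 1), v g + Vm * (PP n / n ^ d) := by gcongr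
    _ = _ := by ring

end

end Pool.Agent.Q228.SAP
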