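import Pool.Agent.Q228.SAP.AreaM

/-!
# Join inequalities for the moments of the area, final forms
-/

set_option autoImplicit false

namespace Pool.Agent.Q228.SAP

open Pool.Agent.H924P Pool.Agent.W870.Pg Filter Topology
open Pool.Agent.H739K.MOM (MK MK_pos)
open Pool.Agent.TH546.PC (VF MG mem_VF mem_MG)
open scoped Classical

noncomputable section

lemma PW_symm (w : ℕ → ℝ) (j l : ℕ) : PW w j l = PW w l j := by
  unfold PW
  rw [Finset.sum_comm]
  refine Finset.sum_congr rfl fun g _ => Finset.sum_congr rfl fun f _ => ?_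
  rw [add_comm]

lemma pk_symm (k j l : ℕ) : pk k j l = pk k l j := by
  unfold pk
  rw [PW_symm, add_comm j l]
  ring

/-- expansion -/
lemma pk_eq (k : ℕ) {j l : ℕ} (hj : 2 ≤ j) (hl : 2 ≤ l) :
    pk k j l = ∑ i ∈ Finset.range (k + 1), (k.choose i : ℝ) * (aG i j * aG (k - i) l) := by
  have hmu := H981.mu_pos
  have hj0 : (j : ℝ) ≠ 0 := by
    have : j ≠ 0 := by omega
    exact_mod_cast this
  have hl0 : (l : ℝ) ≠ 0 := by
    have : l ≠ 0 := by omega
    exact_mod_cast this
  have h1 : PW (fun x => (x : ℝ) ^ k) j l = ∑ i ∈ Finset.range (k + 1), (k.choose i : ℝ) *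
      ((∑ f ∈ LF (2 * j), (area (2 * j) f : ℝ) ^ i) *
        (∑ g ∈ LF (2 * l), (area (2 * l) g : ℝ) ^ (k - i))) := by
    unfold PW
    have e1 : ∀ f ∈ LF (2 * j), ∑ g ∈ LF (2 * l),
        (((area (2 * j) f + area (2 * l) g : ℕ) : ℝ)) ^ k =
        ∑ i ∈ Finset.range (k + 1), (k.choose i : ℝ) * ((area (2 * j) f : ℝ) ^ i *
          ∑ g ∈ LF (2 * l), (area (2 * l) g : ℝ) ^ (k - i)) := by
      intro f _
      calc ∑ g ∈ LF (2 * l), (((area (2 * j) f + area (2 * l) g : ℕ) : ℝ)) ^ k =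
            ∑ g ∈ LF (2 * l), ∑ i ∈ Finset.range (k + 1), (area (2 * j) f : ℝ) ^ i *
              (area (2 * l) g : ℝ) ^ (k - i) * (k.choose i : ℝ) := by
              refine Finset.sum_congr rfl fun g _ => ?_
              push_cast
              rw [add_pow]
        _ = _ := by
            rw [Finset.sum_comm]
            refine Finset.sum_congr rfl fun i _ => ?_
            rw [Finset.mul_sum, Finset.mul_sum]
            refine Finset.sum_congr rfl fun g _ => ?_
            ring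
    rw [Finset.sum_congr rfl e1, Finset.sum_comm]
    refine Finset.sum_congr rfl fun i _ => ?_
    rw [Finset.sum_mul, Finset.mul_sum]
  have h2 : ∀ (i : ℕ) {N : ℕ}, 2 ≤ N → ∑ f ∈ LF (2 * N), (area (2 * N) f : ℝ) ^ i =
      aG i N * H981.mu ^ (2 * N) * (4 * N) := by
    intro i N hN
    rw [aG_eq i hN]
    have : (N : ℝ) ≠ 0 := by
      have : N ≠ 0 := by omega
      exact_mod_cast this
    field_simp
  unfold pk
  rw [h1, Finset.sum_div, Finset.sum_div, Finset.sum_div]
  refine Finset.sum_congr rfl fun i _ => ?_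
  rw [h2 i hj, h2 (k - i) hl]
  have e3 : H981.mu ^ (2 * (j + l)) = H981.mu ^ (2 * j) * H981.mu ^ (2 * l) := by
    rw [← pow_add]; congr 1; ring
  rw [e3]
  field_simp

/-- a small polygon changes the moment by a constant factor -/
lemma pk_small (k a0 : ℕ) : ∃ C : ℝ, 0 ≤ C ∧ ∀ a b : ℕ, 2 ≤ a → 2 ≤ b → a < a0 →
    pk k a b ≤ C * aG k (a + b) := by
  obtain ⟨K, hK, hp⟩ := Pool.Agent.TH546.PC.point
  obtain ⟨C2, hC2, hsh⟩ := aG_shift k
  have hC20 : 0 ≤ C2 := by linarith
  obtain ⟨Q, hQ⟩ : ∃ Q : ℕ, Q = 16 * a0 ^ 2 := ⟨_, rfl⟩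
  refine ⟨((Q : ℝ) + 1) ^ k * (K * C2 ^ a0), by positivity, fun a b ha hb hab => ?_⟩
  have hmu := H981.mu_pos
  have ha0 : (0 : ℝ) < a := by
    have : 0 < a := by omega
    exact_mod_cast this
  have hb0 : (0 : ℝ) < b := by
    have : 0 < b := by omega
    exact_mod_cast this
  have : NeZero (2 * a) := ⟨by omega⟩
  have : NeZero (2 * b) := ⟨by omega⟩
  have hFK : Fp a ≤ K := by
    refine (hp a ha).trans (div_le_self hK ?_)
    have : 1 ≤ a := by omega
    exact_mod_cast this
  have hFa := Fp_pos ha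
  have h1 : pk k a b ≤ ((Q : ℝ) + 1) ^ k * (Fp a * aG k b) := by
    have h2 : PW (fun x => (x : ℝ) ^ k) a b ≤ ((Q : ℝ) + 1) ^ k *
        (((LF (2 * a)).card : ℝ) * ∑ g ∈ LF (2 * b), (area (2 * b) g : ℝ) ^ k) := by
      unfold PW
      have h3 : ∀ f ∈ LF (2 * a), ∑ g ∈ LF (2 * b),
          (((area (2 * a) f + area (2 * b) g : ℕ) : ℝ)) ^ k ≤
          ((Q : ℝ) + 1) ^ k * ∑ g ∈ LF (2 * b), (area (2 * b) g : ℝ) ^ k := by
        intro f hf
        rw [Finset.mul_sum]
        apply Finset.sum_le_sum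
        intro g hg
        have a1 := all_area (mem_LF.mp hf)
        have a2 := area_ge_quarter (by omega) (mem_LF.mp hg)
        have a3 : area (2 * a) f ≤ Q := by
          rw [hQ]
          refine a1.trans ?_
          have : (2 * (2 * a)) ^ 2 = 16 * a ^ 2 := by ring
          rw [this]
          gcongr
        have a4 : 1 ≤ area (2 * b) g := by omega
        have a5 : ((area (2 * a) f + area (2 * b) g : ℕ) : ℝ) ≤ ((Q : ℝ) + 1) * area (2 * b) g := by
          have : area (2 * a) f + area (2 * b) g ≤ (Q + 1) * area (2 * b) g := by nlinarith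
          exact_mod_cast this
        rw [← mul_pow]
        gcongr
      refine (Finset.sum_le_sum h3).trans (le_of_eq ?_)
      rw [Finset.sum_const, nsmul_eq_mul]
      ring
    rw [loops_eq (by omega)] at h2
    unfold pk
    have e4 : ∑ g ∈ LF (2 * b), (area (2 * b) g : ℝ) ^ k = aG k b * H981.mu ^ (2 * b) * (4 * b) := by
      rw [aG_eq k hb]; field_simp
    rw [e4] at h2
    have e5 : H981.mu ^ (2 * (a + b)) = H981.mu ^ (2 * a) * H981.mu ^ (2 * b) := by
      rw [← pow_add]; congr 1; ring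
    have e6 : H981.PP a = Fp a * H981.mu ^ (2 * a) := by
      unfold Fp; field_simp
    rw [e5, div_le_iff₀ (by positivity), div_le_iff₀ (by positivity), div_le_iff₀ (by positivity)]
    refine h2.trans (le_of_eq ?_)
    rw [e6]
    ring
  have hGb := aG_pos k hb
  have hGab := aG_pos k (show 2 ≤ a + b by omega)
  have h2 := (hsh a b hb).2
  rw [add_comm b a] at h2
  have h3 : C2 ^ a ≤ C2 ^ a0 := pow_le_pow_right₀ hC2 hab.le
  calc pk k a b ≤ ((Q : ℝ) + 1) ^ k * (Fp a * aG k b) := h1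
    _ ≤ ((Q : ℝ) + 1) ^ k * (K * (C2 ^ a0 * aG k (a + b))) := by
        gcongr
        exact h2.trans (mul_le_mul_of_nonneg_right h3 hGab.le)
    _ = _ := by ring

/-- **the join inequality for the moments** -/
theorem joinA_all (k : ℕ) : ∃ C : ℝ, 0 ≤ C ∧ ∀ i n : ℕ, 2 ≤ i → 2 * i ≤ n →
    Real.sqrt i * ∑ j ∈ Finset.Icc i (n - i), pk k j (n - j) ≤ C * Real.log n ^ 2 * aG k n := by
  obtain ⟨C1, hC1, hbig⟩ := joinA_big k
  obtain ⟨B, hB0, hsm⟩ := pk_small k 256
  have hl2 : 0 < Real.log 2 := Real.log_pos (by norm_num)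
  refine ⟨16 * C1 + 16 * 512 * B / Real.log 2 ^ 2, by positivity, fun i n hi hin => ?_⟩
  have hn2 : 2 ≤ n := by omega
  have hF := aG_pos k hn2
  have hn' : (2 : ℝ) ≤ n := by exact_mod_cast hn2
  have hL2 : Real.log 2 ≤ Real.log n := Real.log_le_log (by norm_num) hn'
  have hB1 : 0 ≤ 16 * 512 * B / Real.log 2 ^ 2 := by positivity
  by_cases hi256 : 256 ≤ i
  · have h1 := hbig i n hi256 hin
    have h2 : 0 ≤ (15 * C1 + 16 * 512 * B / Real.log 2 ^ 2) * (Real.log n ^ 2 * aG k n) := by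
      positivity
    nlinarith
  push Not at hi256
  -- small terms
  have hsmall : ∀ j ∈ Finset.Icc i (n - i), (j < 256 ∨ n - j < 256) →
      pk k j (n - j) ≤ B * aG k n := by
    intro j hj hc
    rw [Finset.mem_Icc] at hj
    rcases hc with hc | hc
    · have := hsm j (n - j) (by omega) (by omega) hc
      rwa [show j + (n - j) = n by omega] at this
    · rw [pk_symm]
      have := hsm (n - j) j (by omega) (by omega) hc
      rwa [show n - j + j = n by omega] at this
  have hsplit : ∑ j ∈ Finset.Icc i (n - i), pk k j (n - j) ≤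
      ∑ j ∈ Finset.Icc 256 (n - 256), pk k j (n - j) + 512 * (B * aG k n) := by
    rw [← Finset.sum_filter_add_sum_filter_not (Finset.Icc i (n - i))
      (fun j => 256 ≤ j ∧ 256 ≤ n - j)]
    apply add_le_add
    · apply Finset.sum_le_sum_of_subset_of_nonneg
      · intro j hj
        rw [Finset.mem_filter, Finset.mem_Icc] at hj
        rw [Finset.mem_Icc]
        omega
      · intro j _ _
        exact pk_nonneg _ _ _
    · have hcard : ((Finset.Icc i (n - i)).filter (fun j => ¬ (256 ≤ j ∧ 256 ≤ n - j))).card ≤ 512 := by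
        have h1 : (Finset.Icc i (n - i)).filter (fun j => ¬ (256 ≤ j ∧ 256 ≤ n - j)) ⊆
            Finset.range 256 ∪ (Finset.range 256).image (fun k => n - k) := by
          intro j hj
          rw [Finset.mem_filter, Finset.mem_Icc] at hj
          rw [Finset.mem_union, Finset.mem_range, Finset.mem_image]
          by_cases h2 : j < 256
          · exact Or.inl h2
          · right
            refine ⟨n - j, ?_, by omega⟩
            rw [Finset.mem_range]
            omega
        refine (Finset.card_le_card h1).trans ((Finset.card_union_le _ _).trans ?_)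
        have h2 := Finset.card_image_le (s := Finset.range 256) (f := fun k => n - k)
        rw [Finset.card_range] at h2 ⊢
        omega
      calc ∑ j ∈ (Finset.Icc i (n - i)).filter (fun j => ¬ (256 ≤ j ∧ 256 ≤ n - j)),
            pk k j (n - j) ≤
            ∑ j ∈ (Finset.Icc i (n - i)).filter (fun j => ¬ (256 ≤ j ∧ 256 ≤ n - j)), B * aG k n := by
              apply Finset.sum_le_sum
              intro j hj
              rw [Finset.mem_filter] at hj
              apply hsmall j hj.1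
              have := hj.2
              by_contra hcon
              push Not at hcon
              exact this ⟨hcon.1, hcon.2⟩
        _ = (((Finset.Icc i (n - i)).filter (fun j => ¬ (256 ≤ j ∧ 256 ≤ n - j))).card : ℝ) *
            (B * aG k n) := by rw [Finset.sum_const, nsmul_eq_mul]
        _ ≤ 512 * (B * aG k n) := by
            apply mul_le_mul_of_nonneg_right _ (by positivity)
            exact_mod_cast hcard
  have hsi : Real.sqrt i ≤ 16 := by
    apply Real.sqrt_le_iff.mpr ⟨by norm_num, ?_⟩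
    have : (i : ℝ) ≤ 256 := by exact_mod_cast hi256.le
    linarith
  have hmid : ∑ j ∈ Finset.Icc 256 (n - 256), pk k j (n - j) ≤ C1 * Real.log n ^ 2 * aG k n := by
    by_cases hn512 : 2 * 256 ≤ n
    · have h1 := hbig 256 n le_rfl hn512
      have h2 : (1 : ℝ) ≤ Real.sqrt ((256 : ℕ) : ℝ) := by
        rw [Real.one_le_sqrt]; norm_num
      refine le_trans ?_ h1
      apply le_mul_of_one_le_left _ h2
      exact Finset.sum_nonneg fun j _ => pk_nonneg _ _ _
    · rw [Finset.Icc_eq_empty (by omega), Finset.sum_empty]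
      positivity
  have hS0 : 0 ≤ ∑ j ∈ Finset.Icc i (n - i), pk k j (n - j) :=
    Finset.sum_nonneg fun j _ => pk_nonneg _ _ _
  have h5 : 512 * (B * aG k n) ≤ 512 * B / Real.log 2 ^ 2 * (Real.log n ^ 2 * aG k n) := by
    have h6 : Real.log 2 ^ 2 ≤ Real.log n ^ 2 := pow_le_pow_left₀ hl2.le hL2 2
    rw [div_mul_eq_mul_div, le_div_iff₀ (by positivity)]
    calc 512 * (B * aG k n) * Real.log 2 ^ 2 ≤ 512 * (B * aG k n) * Real.log n ^ 2 := by gcongr
      _ = _ := by ring
  calc Real.sqrt i * ∑ j ∈ Finset.Icc i (n - i), pk k j (n - j)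
      ≤ 16 * (C1 * Real.log n ^ 2 * aG k n + 512 * B / Real.log 2 ^ 2 * (Real.log n ^ 2 * aG k n)) := by
        apply mul_le_mul hsi _ hS0 (by norm_num)
        linarith
    _ = _ := by ring

/-! ### almost log-convexity -/

lemma conv_ratio {G : ℕ → ℝ} {q : ℝ} {m0 : ℕ} (hq : 0 ≤ q) (hpos : ∀ m, m0 ≤ m → 0 < G m)
    (hc : ∀ m, m0 ≤ m → G (m + 1) ^ 2 ≤ q * (G m * G (m + 2))) {a : ℕ} (ha : m0 ≤ a) :
    ∀ d : ℕ, G (a + 1) * G (a + d) ≤ q ^ d * (G a * G (a + d + 1)) := by
  intro d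
  induction d with
  | zero => simp [mul_comm]
  | succ d ih =>
    have h1 := hc (a + d) (by omega)
    have p0 := hpos a ha
    have p1 := hpos (a + 1) (by omega)
    have p2 := hpos (a + d) (by omega)
    have p3 := hpos (a + d + 1) (by omega)
    have p4 := hpos (a + d + 2) (by omega)
    rw [show a + (d + 1) = a + d + 1 by ring, show a + d + 1 + 1 = a + d + 2 by ring]
    have h2 : (G (a + 1) * G (a + d + 1)) * G (a + d + 1) ≤
        (q ^ (d + 1) * (G a * G (a + d + 2))) * G (a + d + 1) := by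
      calc (G (a + 1) * G (a + d + 1)) * G (a + d + 1) = G (a + 1) * G (a + d + 1) ^ 2 := by ring
        _ ≤ G (a + 1) * (q * (G (a + d) * G (a + d + 2))) := by gcongr
        _ = q * (G (a + 1) * G (a + d)) * G (a + d + 2) := by ring
        _ ≤ q * (q ^ d * (G a * G (a + d + 1))) * G (a + d + 2) := by gcongr
        _ = _ := by ring
    exact le_of_mul_le_mul_right h2 p3

lemma conv_pair {G : ℕ → ℝ} {K : ℝ} (hK : 0 ≤ K) (hpos : ∀ m, 2 ≤ m → 0 < G m)
    (hc : ∀ m : ℕ, 2 ≤ m → G (m + 1) ^ 2 ≤ (1 + K / m) * (G m * G (m + 2))) {n t : ℕ}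
    (hn : 4 ≤ n) (ht : 2 * t ≤ n) (hKt : 4 * K * t ^ 2 ≤ n) :
    G n ^ 2 ≤ 3 * (G (n + t) * G (n - t)) := by
  obtain ⟨m0, hm0⟩ : ∃ m0, m0 = n - t := ⟨_, rfl⟩
  have hm2 : 2 ≤ m0 := by omega
  have hm00 : (0 : ℝ) < m0 := by
    have : 0 < m0 := by omega
    exact_mod_cast this
  obtain ⟨q, hq⟩ : ∃ q : ℝ, q = 1 + K / m0 := ⟨_, rfl⟩
  have hq1 : 1 ≤ q := by
    have : 0 ≤ K / m0 := by positivity
    linarith
  have hq0 : 0 ≤ q := by linarith
  have hpos' : ∀ m, m0 ≤ m → 0 < G m := fun m hm => hpos m (by omega)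
  have hc' : ∀ m, m0 ≤ m → G (m + 1) ^ 2 ≤ q * (G m * G (m + 2)) := by
    intro m hm
    refine (hc m (by omega)).trans ?_
    have h1 : K / (m : ℝ) ≤ K / m0 := by
      apply div_le_div_of_nonneg_left hK hm00
      exact_mod_cast hm
    have := mul_pos (hpos m (by omega)) (hpos (m + 2) (by omega))
    rw [hq]
    gcongr
  have key : ∀ s : ℕ, s ≤ t → G n ^ 2 ≤ q ^ (s ^ 2) * (G (n + s) * G (n - s)) := by
    intro s hs
    induction s with
    | zero => simp [sq]
    | succ s ih =>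
      have h1 := ih (by omega)
      have h2 := conv_ratio hq0 hpos' hc' (a := n - s - 1) (by omega) (2 * s + 1)
      rw [show n - s - 1 + 1 = n - s by omega, show n - s - 1 + (2 * s + 1) = n + s by omega,
        show n + s + 1 = n + (s + 1) by ring] at h2
      rw [show n - (s + 1) = n - s - 1 by omega]
      calc G n ^ 2 ≤ q ^ (s ^ 2) * (G (n + s) * G (n - s)) := h1
        _ = q ^ (s ^ 2) * (G (n - s) * G (n + s)) := by ring
        _ ≤ q ^ (s ^ 2) * (q ^ (2 * s + 1) * (G (n - s - 1) * G (n + (s + 1)))) := by gcongr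
        _ = q ^ (s ^ 2 + (2 * s + 1)) * (G (n + (s + 1)) * G (n - s - 1)) := by
            rw [pow_add]; ring
        _ = _ := by
            congr 2
            ring
  have h3 := key t le_rfl
  have h4 : q ^ (t ^ 2) ≤ 3 := by
    have h5 : q ≤ Real.exp (K / m0) := by
      have := Real.add_one_le_exp (K / (m0 : ℝ))
      rw [hq]; linarith
    have h6 : (n : ℝ) ≤ 2 * m0 := by
      have : n ≤ 2 * m0 := by omega
      exact_mod_cast this
    have h7 : K / m0 * ((t ^ 2 : ℕ) : ℝ) ≤ 1 / 2 := by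
      push_cast
      rw [div_mul_eq_mul_div, div_le_iff₀ hm00]
      linarith
    calc q ^ (t ^ 2) ≤ Real.exp (K / m0) ^ (t ^ 2) := pow_le_pow_left₀ hq0 h5 _
      _ = Real.exp (K / m0 * ((t ^ 2 : ℕ) : ℝ)) := by
          rw [mul_comm, Real.exp_nat_mul]
      _ ≤ Real.exp 1 := Real.exp_le_exp.mpr (by linarith)
      _ ≤ 3 := by
          have := Real.exp_one_lt_d9
          linarith
  have h5 : 0 < G (n + t) * G (n - t) := mul_pos (hpos _ (by omega)) (hpos _ (by omega))
  calc G n ^ 2 ≤ q ^ (t ^ 2) * (G (n + t) * G (n - t)) := h3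
    _ ≤ 3 * (G (n + t) * G (n - t)) := by gcongr

lemma aG_conv (k : ℕ) : ∃ K : ℝ, 0 ≤ K ∧ ∀ m : ℕ, 2 ≤ m →
    aG k (m + 1) ^ 2 ≤ (1 + K / m) * (aG k m * aG k (m + 2)) := by
  obtain ⟨K, hK, h⟩ := area_conv k
  refine ⟨K, hK, fun m hm => ?_⟩
  have h1 := h m hm
  have hmu := H981.mu_pos
  have e : ∀ N, Pool.Agent.H739K.me N (fun f => (area (2 * N) f : ℝ) ^ k) * H981.PP N =
      aG k N * H981.mu ^ (2 * N) := by
    intro N
    unfold aG Fp MK
    field_simp
  rw [e, e, e] at h1
  set P := H981.mu ^ (2 * m) with hP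
  have hP0 : 0 < P := pow_pos hmu _
  have e3 : H981.mu ^ (2 * (m + 1)) = P * H981.mu ^ 2 := by rw [hP, ← pow_add]; congr 1
  have e4 : H981.mu ^ (2 * (m + 2)) = P * H981.mu ^ 4 := by rw [hP, ← pow_add]; congr 1
  rw [e3, e4] at h1
  have h2 : (P ^ 2 * H981.mu ^ 4) * aG k (m + 1) ^ 2 ≤
      (P ^ 2 * H981.mu ^ 4) * ((1 + K / m) * (aG k m * aG k (m + 2))) := by
    calc (P ^ 2 * H981.mu ^ 4) * aG k (m + 1) ^ 2 = (aG k (m + 1) * (P * H981.mu ^ 2)) ^ 2 := by ring
      _ ≤ _ := h1
      _ = _ := by ring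
  exact le_of_mul_le_mul_left h2 (by positivity)

/-- **super-multiplicativity of the moments with a gain** -/
theorem superA (k : ℕ) : ∃ C : ℝ, 0 ≤ C ∧ ∀ n m : ℕ, 2 ≤ n → n ≤ m →
    n * pk k n m ≤ C * Real.log m ^ 2 * aG k (n + m) := by
  obtain ⟨C1, hC1, hjoin⟩ := joinA_all k
  choose Kc hKc0 hKc using aG_conv
  obtain ⟨D, hD⟩ : ∃ D : ℝ, D = 1 + ∑ i ∈ Finset.range (k + 1), Kc i := ⟨_, rfl⟩
  have hDi : ∀ i, i ≤ k → Kc i ≤ D := by
    intro i hi
    have := Finset.single_le_sum (f := Kc) (fun i _ => hKc0 i)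
      (Finset.mem_range.mpr (Nat.lt_succ_of_le hi))
    linarith
  have hD1 : 1 ≤ D := by
    have : 0 ≤ ∑ i ∈ Finset.range (k + 1), Kc i := Finset.sum_nonneg fun i _ => hKc0 i
    linarith
  obtain ⟨M0, hM0⟩ : ∃ M0 : ℕ, M0 = ⌈64 * D⌉₊ := ⟨_, rfl⟩
  obtain ⟨B, hB0, hsm⟩ := pk_small k M0
  have hl2 : 0 < Real.log 2 := Real.log_pos (by norm_num)
  refine ⟨256 * Real.sqrt D * C1 + M0 * B / Real.log 2 ^ 2, by positivity,
    fun n m hn hnm => ?_⟩
  have hm : 2 ≤ m := hn.trans hnm
  have hn0 : (0 : ℝ) < n := by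
    have : 0 < n := by omega
    exact_mod_cast this
  have hm' : (2 : ℝ) ≤ m := by exact_mod_cast hm
  have hG := aG_pos k (show 2 ≤ n + m by omega)
  have hL2 : Real.log 2 ≤ Real.log m := Real.log_le_log (by norm_num) hm'
  have hL0 : 0 < Real.log m := by linarith
  by_cases hc : n < M0
  · -- small `n`
    have h1 := hsm n m hn hm hc
    have h2 : (n : ℝ) ≤ M0 := by exact_mod_cast hc.le
    have h6 : (1 : ℝ) ≤ Real.log m ^ 2 / Real.log 2 ^ 2 := by
      rw [le_div_iff₀ (by positivity), one_mul]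
      exact pow_le_pow_left₀ hl2.le hL2 2
    have h7 : 0 ≤ 256 * Real.sqrt D * C1 * Real.log m ^ 2 * aG k (n + m) := by positivity
    calc n * pk k n m ≤ M0 * (B * aG k (n + m)) :=
          mul_le_mul h2 h1 (pk_nonneg _ _ _) (by positivity)
      _ ≤ M0 * (B * aG k (n + m)) * (Real.log m ^ 2 / Real.log 2 ^ 2) :=
          le_mul_of_one_le_right (by positivity) h6
      _ = M0 * B / Real.log 2 ^ 2 * Real.log m ^ 2 * aG k (n + m) := by ring
      _ ≤ _ := by linarith
  push Not at hc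
  have hn64 : 64 * D ≤ n := by
    have h1 : ⌈64 * D⌉₊ ≤ n := hM0 ▸ hc
    exact (Nat.le_ceil _).trans (by exact_mod_cast h1)
  obtain ⟨κ, hκ⟩ : ∃ κ : ℕ, κ = ⌊Real.sqrt (n / (16 * D))⌋₊ := ⟨_, rfl⟩
  have hκ1 : (κ : ℝ) ≤ Real.sqrt (n / (16 * D)) := by rw [hκ]; exact Nat.floor_le (by positivity)
  have hκ2 : Real.sqrt (n / (16 * D)) < κ + 1 := by rw [hκ]; exact Nat.lt_floor_add_one _
  have hsq2 : (2 : ℝ) ≤ Real.sqrt (n / (16 * D)) := by
    apply Real.le_sqrt_of_sq_le
    rw [le_div_iff₀ (by positivity)]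
    linarith
  have hκ3 : Real.sqrt (n / (16 * D)) / 2 ≤ κ := by linarith
  have hκsq : (κ : ℝ) ^ 2 ≤ n / (16 * D) := by
    calc (κ : ℝ) ^ 2 ≤ Real.sqrt (n / (16 * D)) ^ 2 := by gcongr
      _ = n / (16 * D) := Real.sq_sqrt (by positivity)
  have hκn : 16 * D * (κ : ℝ) ^ 2 ≤ n := by
    rw [le_div_iff₀ (by positivity)] at hκsq
    linarith
  have hκ16 : 16 * κ ≤ n := by
    have h1 : (κ : ℝ) ≤ κ ^ 2 := by
      have h2 : κ ≤ κ ^ 2 := Nat.le_self_pow (by norm_num) κ
      exact_mod_cast h2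
    have h3 : (16 : ℝ) * κ ≤ n := by nlinarith
    exact_mod_cast h3
  have hn4 : 4 ≤ n := by
    have h1 : (4 : ℝ) ≤ n := by linarith
    exact_mod_cast h1
  -- pairs
  have hpair : ∀ t ∈ Finset.Icc 1 κ, pk k n m ≤
      2 * (pk k (n + t) (n + m - (n + t)) + pk k (n - t) (n + m - (n - t))) := by
    intro t ht
    rw [Finset.mem_Icc] at ht
    rw [show n + m - (n + t) = m - t by omega, show n + m - (n - t) = m + t by omega]
    rw [pk_eq k hn hm, pk_eq k (show 2 ≤ n + t by omega) (show 2 ≤ m - t by omega),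
      pk_eq k (show 2 ≤ n - t by omega) (show 2 ≤ m + t by omega), ← Finset.sum_add_distrib,
      Finset.mul_sum]
    apply Finset.sum_le_sum
    intro i hi
    rw [Finset.mem_range] at hi
    have htκ : (t : ℝ) ≤ κ := by exact_mod_cast ht.2
    have one : ∀ (i' N : ℕ), i' ≤ k → n ≤ N → aG i' N ^ 2 ≤ 3 * (aG i' (N + t) * aG i' (N - t)) := by
      intro i' N hi' hN
      apply conv_pair (hKc0 i') (fun m hm => aG_pos i' hm) (hKc i') (by omega) (by omega)
      have h1 : (n : ℝ) ≤ N := by exact_mod_cast hN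
      refine le_trans ?_ (hκn.trans h1)
      have h2 := hDi i' hi'
      have h3 := hKc0 i'
      have h4 : (4 : ℝ) * Kc i' ≤ 16 * D := by linarith
      gcongr
    have h1 := one i n (by omega) le_rfl
    have h2 := one (k - i) m (by omega) hnm
    have a0 := aG_pos i hn
    have a0' := aG_pos (k - i) hm
    have a1 := aG_pos i (show 2 ≤ n + t by omega)
    have a2 := aG_pos i (show 2 ≤ n - t by omega)
    have a3 := aG_pos (k - i) (show 2 ≤ m + t by omega)
    have a4 := aG_pos (k - i) (show 2 ≤ m - t by omega)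
    have h3 : (aG i n * aG (k - i) m) ^ 2 ≤
        9 * ((aG i (n + t) * aG (k - i) (m - t)) * (aG i (n - t) * aG (k - i) (m + t))) := by
      calc (aG i n * aG (k - i) m) ^ 2 = aG i n ^ 2 * aG (k - i) m ^ 2 := by ring
        _ ≤ (3 * (aG i (n + t) * aG i (n - t))) * (3 * (aG (k - i) (m + t) * aG (k - i) (m - t))) :=
            mul_le_mul h1 h2 (by positivity) (by positivity)
        _ = _ := by ring
    have h4 : 0 < aG i (n + t) * aG (k - i) (m - t) := by positivity
    have h5 : 0 < aG i (n - t) * aG (k - i) (m + t) := by positivity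
    have h6 : 0 < aG i n * aG (k - i) m := by positivity
    have h8 : aG i n * aG (k - i) m ≤
        2 * (aG i (n + t) * aG (k - i) (m - t) + aG i (n - t) * aG (k - i) (m + t)) := by
      generalize aG i (n + t) * aG (k - i) (m - t) = u at *
      generalize aG i (n - t) * aG (k - i) (m + t) = v at *
      generalize aG i n * aG (k - i) m = w at *
      have h7 : w ^ 2 ≤ (2 * (u + v)) ^ 2 := by nlinarith [sq_nonneg (u - v)]
      exact (pow_le_pow_iff_left₀ h6.le (by linarith) (by norm_num)).mp h7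
    have h9 : (0 : ℝ) ≤ (k.choose i : ℝ) := Nat.cast_nonneg _
    calc (k.choose i : ℝ) * (aG i n * aG (k - i) m) ≤ (k.choose i : ℝ) *
          (2 * (aG i (n + t) * aG (k - i) (m - t) + aG i (n - t) * aG (k - i) (m + t))) := by
          gcongr
      _ = _ := by ring
  have hsum : κ * pk k n m ≤ 2 * ∑ t ∈ Finset.Icc 1 κ,
      (pk k (n + t) (n + m - (n + t)) + pk k (n - t) (n + m - (n - t))) := by
    calc κ * pk k n m = ∑ t ∈ Finset.Icc 1 κ, pk k n m := by
          rw [Finset.sum_const, Nat.card_Icc, nsmul_eq_mul, Nat.add_sub_cancel]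
      _ ≤ _ := by
          rw [Finset.mul_sum]
          exact Finset.sum_le_sum hpair
  rw [Finset.sum_add_distrib] at hsum
  obtain ⟨i, hi⟩ : ∃ i, i = n - κ := ⟨_, rfl⟩
  have hi2 : n ≤ 2 * i := by omega
  set S := ∑ j ∈ Finset.Icc i (n + m - i), pk k j (n + m - j) with hS
  have ha : ∑ t ∈ Finset.Icc 1 κ, pk k (n + t) (n + m - (n + t)) ≤ S := by
    have e : ∑ t ∈ Finset.Icc 1 κ, pk k (n + t) (n + m - (n + t)) =
        ∑ j ∈ (Finset.Icc 1 κ).image (fun t => n + t), pk k j (n + m - j) := by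
      rw [Finset.sum_image]
      intro a _ b _ hab
      simpa using hab
    rw [e]
    apply Finset.sum_le_sum_of_subset_of_nonneg
    · intro j hj
      rw [Finset.mem_image] at hj
      obtain ⟨t, ht, rfl⟩ := hj
      rw [Finset.mem_Icc] at ht ⊢
      omega
    · intro j _ _
      exact pk_nonneg _ _ _
  have hb : ∑ t ∈ Finset.Icc 1 κ, pk k (n - t) (n + m - (n - t)) ≤ S := by
    have e : ∑ t ∈ Finset.Icc 1 κ, pk k (n - t) (n + m - (n - t)) =
        ∑ j ∈ (Finset.Icc 1 κ).image (fun t => n - t), pk k j (n + m - j) := by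
      rw [Finset.sum_image]
      intro a ha b hb hab
      rw [Finset.mem_coe, Finset.mem_Icc] at ha hb
      simp only at hab
      omega
    rw [e]
    apply Finset.sum_le_sum_of_subset_of_nonneg
    · intro j hj
      rw [Finset.mem_image] at hj
      obtain ⟨t, ht, rfl⟩ := hj
      rw [Finset.mem_Icc] at ht ⊢
      omega
    · intro j _ _
      exact pk_nonneg _ _ _
  have hjo := hjoin i (n + m) (by omega) (by omega)
  rw [← hS] at hjo
  have hS0 : 0 ≤ S := Finset.sum_nonneg fun j _ => pk_nonneg _ _ _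
  have h1 : κ * pk k n m ≤ 4 * S := by linarith
  have hsn : 0 < Real.sqrt n := Real.sqrt_pos.mpr hn0
  have hsD0 : 0 < Real.sqrt D := Real.sqrt_pos.mpr (by linarith)
  have h2 : Real.sqrt n / (8 * Real.sqrt D) ≤ κ := by
    refine le_trans (le_of_eq ?_) hκ3
    rw [Real.sqrt_div hn0.le, Real.sqrt_mul (by norm_num)]
    have : Real.sqrt 16 = 4 := by
      rw [show (16 : ℝ) = 4 ^ 2 by norm_num, Real.sqrt_sq (by norm_num)]
    rw [this]
    field_simp
    norm_num
  have hsi : Real.sqrt n / 2 ≤ Real.sqrt i := by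
    apply Real.le_sqrt_of_sq_le
    rw [div_pow, Real.sq_sqrt hn0.le]
    have : (n : ℝ) ≤ 2 * i := by exact_mod_cast hi2
    have hi0 : (0 : ℝ) ≤ i := Nat.cast_nonneg _
    linarith
  have hlog : Real.log ((n + m : ℕ) : ℝ) ≤ 2 * Real.log m := by
    have h3 : ((n + m : ℕ) : ℝ) ≤ (m : ℝ) ^ 2 := by
      have : n + m ≤ m ^ 2 := by nlinarith
      exact_mod_cast this
    have h4 := Real.log_le_log (by push_cast; positivity) h3
    rw [Real.log_pow] at h4
    exact_mod_cast h4
  have hlog0 : 0 ≤ Real.log ((n + m : ℕ) : ℝ) := Real.log_natCast_nonneg _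
  have hpk0 := pk_nonneg k n m
  have h3 : Real.sqrt n / 2 * (Real.sqrt n / (8 * Real.sqrt D) * pk k n m) ≤
      4 * (C1 * (2 * Real.log m) ^ 2 * aG k (n + m)) := by
    calc Real.sqrt n / 2 * (Real.sqrt n / (8 * Real.sqrt D) * pk k n m) ≤
          Real.sqrt i * (κ * pk k n m) := by gcongr
      _ ≤ Real.sqrt i * (4 * S) := by gcongr
      _ = 4 * (Real.sqrt i * S) := by ring
      _ ≤ 4 * (C1 * Real.log ((n + m : ℕ) : ℝ) ^ 2 * aG k (n + m)) := by gcongr
      _ ≤ _ := by gcongr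
  have h4 : Real.sqrt n * Real.sqrt n = n := Real.mul_self_sqrt hn0.le
  have h5 : n * pk k n m ≤ 256 * Real.sqrt D * C1 * Real.log m ^ 2 * aG k (n + m) := by
    have e : Real.sqrt n / 2 * (Real.sqrt n / (8 * Real.sqrt D) * pk k n m) =
        (Real.sqrt n * Real.sqrt n) * pk k n m / (16 * Real.sqrt D) := by
      field_simp
      ring
    rw [e, h4, div_le_iff₀ (by positivity)] at h3
    calc n * pk k n m ≤ _ := h3
      _ = _ := by ring
  have h6 : 0 ≤ M0 * B / Real.log 2 ^ 2 * Real.log m ^ 2 * aG k (n + m) := by positivity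
  linarith

end

end Pool.Agent.Q228.SAP
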