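import Pool.Agent.Q228.SAP.AreaL

/-!
# The area of a join, in terms of the areas of the two polygons
-/

set_option autoImplicit false

namespace Pool.Agent.Q228.SAP

open Pool.Agent.W870.Pg

lemma ex_head {l : List V} (h : l ≠ []) : ∃ x, l.head? = some x := by
  cases l with
  | nil => exact absurd rfl h
  | cons a t => exact ⟨a, rfl⟩

/-! ### rotation by 180 degrees -/

lemma pe_map (K : V) (l : List V) (d : ℤ × ℤ) {b0 : ℤ} (hb : ∀ v ∈ l, b0 < v.2) :
    pe (l.map (fun v => K - v)) d + pe l (K.1 - d.1 - 1, K.2 - d.2 - 1) =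
      pe l (K.1 - d.1 - 1, b0) := by
  induction l with
  | nil => rfl
  | cons a t ih =>
    cases t with
    | nil => rfl
    | cons b t' =>
      have h3 := ih (fun v hv => hb v (List.mem_cons_of_mem _ hv))
      have ha := hb a (by simp)
      simp only [List.map_cons, pe] at h3 ⊢
      have h4 : ce (K - a) (K - b) d + ce a b (K.1 - d.1 - 1, K.2 - d.2 - 1) =
          ce a b (K.1 - d.1 - 1, b0) := by
        unfold ce
        simp only [Prod.fst_sub, Prod.snd_sub]
        split_ifs <;> omega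
      omega

lemma exists_low (l : List V) : ∃ b0 : ℤ, ∀ v ∈ l, b0 < v.2 := by
  induction l with
  | nil => exact ⟨0, by simp⟩
  | cons a t ih =>
    obtain ⟨b, hb⟩ := ih
    refine ⟨min b (a.2 - 1), fun v hv => ?_⟩
    rcases List.mem_cons.mp hv with rfl | hv
    · have := min_le_right b (v.2 - 1)
      omega
    · have := hb v hv
      have := min_le_left b (a.2 - 1)
      omega

lemma odd_map (K : V) {l : List V} (h : Cl l) (d : ℤ × ℤ) :
    Odd (pe (l.map (fun v => K - v)) d) ↔ Odd (pe l (K.1 - d.1 - 1, K.2 - d.2 - 1)) := by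
  obtain ⟨b0, hb0⟩ := exists_low l
  have h1 := pe_map K l d hb0
  have h2 : Even (pe l (K.1 - d.1 - 1, b0)) := h.even (fun v hv _ => hb0 v hv)
  rw [Nat.odd_iff, Nat.odd_iff]
  rw [Nat.even_iff] at h2
  omega

lemma ncard_map (K : V) {l : List V} (h : Cl l) :
    (cs (l.map (fun v => K - v))).ncard = (cs l).ncard := by
  have e : cs (l.map (fun v => K - v)) =
      (fun d : ℤ × ℤ => ((K.1 - d.1 - 1, K.2 - d.2 - 1) : ℤ × ℤ)) '' cs l := by
    ext d
    constructor
    · intro hd
      refine ⟨(K.1 - d.1 - 1, K.2 - d.2 - 1), (odd_map K h d).mp hd, ?_⟩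
      ext <;> simp only <;> ring
    · rintro ⟨d', hd', rfl⟩
      apply (odd_map K h _).mpr
      have e1 : ((K.1 - (K.1 - d'.1 - 1, K.2 - d'.2 - 1).1 - 1,
          K.2 - (K.1 - d'.1 - 1, K.2 - d'.2 - 1).2 - 1) : ℤ × ℤ) = d' := by
        ext <;> simp only <;> ring
      rw [e1]
      exact hd'
  rw [e, Set.ncard_image_of_injective]
  intro a b hab
  simp only [Prod.mk.injEq] at hab
  ext <;> omega

/-! ### the second polygon of a join -/

lemma rot_ncard {P R : List V} (hC : Can (P ++ R)) (hP : P ≠ []) (hR : R ≠ []) (K : V)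
    {Y : List V} (hY : Y = (R ++ (0, 0) :: P).map (fun v => K - v) ∨
      Y = ((R ++ (0, 0) :: P).map (fun v => K - v)).reverse)
    (hYc : Cl (Y ++ Y.take 1)) :
    (cs (Y ++ Y.take 1)).ncard = aL (P ++ R) := by
  obtain ⟨x, hx⟩ : ∃ x, P.getLast? = some x := by
    rw [← Option.isSome_iff_exists, List.getLast?_isSome]; exact hP
  obtain ⟨r, hr⟩ : ∃ r, R.head? = some r := ex_head hR
  have hl : R.getLast? = some (0, 1) := by
    have := hC.lt
    rwa [List.getLast?_append_of_ne_nil _ hR] at this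
  have htk : R.take 1 = [r] := by
    cases R with
    | nil => exact absurd rfl hR
    | cons a t =>
      simp only [List.head?_cons, Option.some.injEq] at hr
      simp [hr]
  have hcl := Can.cl hC
  have e0 : cl (P ++ R) = ((0, 0) :: P) ++ (R ++ [(0, 0)]) := by
    unfold cl; simp
  have h0P : ((0, 0) :: P).getLast? = some x := by
    rw [List.getLast?_cons, hx]; rfl
  have hR0 : (R ++ [((0 : ℤ), (0 : ℤ))]).head? = some r := by
    rw [List.head?_append_of_ne_nil _ hR]; exact hr
  -- the rotated list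
  have hLL : ∀ d, pe ((R ++ (0, 0) :: P) ++ [r]) d = pe (cl (P ++ R)) d := by
    intro d
    have h1 : (R ++ (0, 0) :: P).getLast? = some x := by
      rw [List.getLast?_append_of_ne_nil _ (by simp)]; exact h0P
    rw [e0, pe_append d h1 (by simp : [r].head? = some r),
      pe_append d hl (by simp : (((0 : ℤ), (0 : ℤ)) :: P).head? = some (0, 0)),
      pe_append d h0P hR0, pe_append d hl (by simp : [((0 : ℤ), (0 : ℤ))].head? = some (0, 0))]
    simp only [pe]
    ring
  have hcsL : cs ((R ++ (0, 0) :: P) ++ [r]) = cs (cl (P ++ R)) := by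
    ext d
    unfold cs
    simp only [Set.mem_ofPred_eq]
    rw [hLL d]
  have hadj : adj x r ∧ adj (0, 1) (0, 0) := by
    have h1 := hcl.ch
    rw [e0, List.isChain_append] at h1
    exact ⟨h1.2.2 x h0P r hR0, by unfold adj; simp⟩
  have hLc : Cl ((R ++ (0, 0) :: P) ++ [r]) := by
    have h1 := hcl.ch
    rw [e0, List.isChain_append, List.isChain_append] at h1
    obtain ⟨h0c, ⟨hRc, -, -⟩, -⟩ := h1
    refine ⟨?_, r, ?_, ?_⟩
    · rw [List.isChain_append, List.isChain_append]
      refine ⟨⟨hRc, h0c, ?_⟩, by simp, ?_⟩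
      · intro u hu v hv
        rw [hl] at hu
        simp only [Option.mem_def, Option.some.injEq, List.head?_cons] at hu hv
        rw [← hu, ← hv]
        exact hadj.2
      · intro u hu v hv
        rw [List.getLast?_append_of_ne_nil _ (by simp), h0P] at hu
        simp only [Option.mem_def, Option.some.injEq, List.head?_cons] at hu hv
        rw [← hu, ← hv]
        exact hadj.1
    · rw [List.append_assoc, List.head?_append_of_ne_nil _ hR]; exact hr
    · rw [List.getLast?_append_of_ne_nil _ (by simp)]; rfl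
  set M : List V := (R ++ (0, 0) :: P).map (fun v => K - v) with hM
  have hMr : M ++ [K - r] = ((R ++ (0, 0) :: P) ++ [r]).map (fun v => K - v) := by
    rw [hM]; simp
  have hMn : (cs (M ++ [K - r])).ncard = aL (P ++ R) := by
    rw [hMr, ncard_map K hLc, hcsL]
    rfl
  have hMh : M.head? = some (K - r) := by
    rw [hM, List.head?_map, List.head?_append_of_ne_nil _ hR, hr]; rfl
  rcases hY with hY | hY
  · have : Y.take 1 = [K - r] := by
      rw [hY]
      cases hMM : M with
      | nil => rw [hMM] at hMh; simp at hMh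
      | cons a t =>
        rw [hMM] at hMh
        simp only [List.head?_cons, Option.some.injEq] at hMh
        simp [hMh]
    rw [this, hY]
    exact hMn
  · obtain ⟨z, hz⟩ : ∃ z, M.getLast? = some z := by
      rw [← Option.isSome_iff_exists, List.getLast?_isSome]
      intro h
      rw [h] at hMh
      simp at hMh
    have hYh : Y.head? = some z := by rw [hY, List.head?_reverse]; exact hz
    have h1 : Y.take 1 = [z] := by
      cases hYY : Y with
      | nil => rw [hYY] at hYh; simp at hYh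
      | cons a t =>
        rw [hYY] at hYh
        simp only [List.head?_cons, Option.some.injEq] at hYh
        simp [hYh]
    have hrev : Y ++ Y.take 1 = (z :: M).reverse := by
      rw [h1, hY]; simp
    have hzM : (z :: M).IsChain adj := by
      have := hYc.ch
      rw [hrev] at this
      have h2 := chain_symm this
      rwa [List.reverse_reverse] at h2
    have h2 : ∀ d, pe (Y ++ Y.take 1) d = pe (M ++ [K - r]) d := by
      intro d
      have e1 : z :: M = [z] ++ M := rfl
      rw [hrev, pe_reverse hzM, e1, pe_append d (by simp : [z].getLast? = some z) hMh,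
        pe_append d hz (by simp : [K - r].head? = some (K - r))]
      simp only [pe]
      ring
    have h3 : cs (Y ++ Y.take 1) = cs (M ++ [K - r]) := by
      ext d
      unfold cs
      simp only [Set.mem_ofPred_eq]
      rw [h2 d]
    rw [h3]
    exact hMn

/-! ### the finger -/

lemma old_chain (k : Fin 5) {σ : ℤ} (hσ : σ = 1 ∨ σ = -1) (y a : ℤ) :
    (old k σ y a).IsChain adj := by
  rcases hσ with rfl | rfl <;> fin_cases k <;> simp [old, adj] <;> omega

lemma old_pos (k : Fin 5) (σ y a : ℤ) : ∀ v ∈ old k σ y a, a ≤ v.2 ∧ v.2 ≤ a + 2 := by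
  fin_cases k <;> simp [old]

lemma nw_pos (k : Fin 5) (σ y a : ℤ) : ∀ v ∈ n1 k σ y a ++ n2 k σ y a, a ≤ v.2 ∧ v.2 ≤ a + 2 := by
  fin_cases k <;> simp [n1, n2]

lemma nw_lev {k : Fin 5} {σ y a : ℤ} (hσ : σ = 1 ∨ σ = -1) :
    ∀ v ∈ n1 k σ y a ++ n2 k σ y a, |v.1 - y| ≤ 1 := by
  intro v hv
  rcases List.mem_append.mp hv with h | h
  · exact Pool.Agent.TH546.PC.n1_lev hσ v h
  · exact Pool.Agent.TH546.PC.n2_lev hσ v h

/-- the exceptional cells -/
def ex (y a : ℤ) : Finset (ℤ × ℤ) := {(y - 1, a), (y - 1, a + 1), (y, a), (y, a + 1)}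

lemma mem_ex (y a : ℤ) (d : ℤ × ℤ) : d ∈ ex y a ↔ (d.1 = y - 1 ∨ d.1 = y) ∧ (d.2 = a ∨ d.2 = a + 1) := by
  unfold ex
  obtain ⟨d1, d2⟩ := d
  simp only [Finset.mem_insert, Finset.mem_singleton, Prod.mk.injEq]
  tauto

lemma finger_par (k : Fin 5) {σ : ℤ} (hσ : σ = 1 ∨ σ = -1) (y a : ℤ) {d : ℤ × ℤ}
    (hd : d ∉ ex y a) : Even (pe (old k σ y a) d + pe (n1 k σ y a ++ n2 k σ y a) d) := by
  rw [mem_ex] at hd
  obtain ⟨x, hx⟩ : ∃ x, (old k σ y a).head? = some x := ex_head (old_ne _ _ _ _)
  obtain ⟨z, hz⟩ : ∃ z, (old k σ y a).getLast? = some z := by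
    rw [← Option.isSome_iff_exists, List.getLast?_isSome]; exact old_ne _ _ _ _
  by_cases h1 : d.2 < a
  · have h2 := pe_par (old_chain k hσ y a) (c := d) (fun v hv _ => by
      have := old_pos k σ y a v hv; omega) hx hz
    have h3 := pe_par (nw_chain k hσ y a) (c := d) (fun v hv _ => by
      have := nw_pos k σ y a v hv; omega) (x := x) (y := z) (by rw [nw_head]; exact hx)
      (by rw [nw_last]; exact hz)
    rw [Nat.even_iff] at h2 h3 ⊢
    omega
  · by_cases h2 : a + 2 ≤ d.2
    · rw [pe_zero (old_chain k hσ y a) (c := d) (fun v hv _ => by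
        have := old_pos k σ y a v hv; omega), pe_zero (nw_chain k hσ y a) (c := d) (fun v hv _ => by
        have := nw_pos k σ y a v hv; omega)]
      exact ⟨0, rfl⟩
    · by_cases h3 : y + 1 ≤ d.1
      · rw [pe_zero' (fun v hv => by
          have := abs_le.mp (Pool.Agent.TH546.PC.old_lev hσ v hv); omega),
          pe_zero' (fun v hv => by
          have := abs_le.mp (nw_lev hσ v hv); omega)]
        exact ⟨0, rfl⟩
      · rw [pe_zero (old_chain k hσ y a) (c := d) (fun v hv h4 => by
          have := abs_le.mp (Pool.Agent.TH546.PC.old_lev hσ v hv); omega),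
          pe_zero (nw_chain k hσ y a) (c := d) (fun v hv h4 => by
          have := abs_le.mp (nw_lev hσ v hv); omega)]
        exact ⟨0, rfl⟩

lemma replace_par {T1 T2 : List V} (hT1 : T1 ≠ []) (hT2 : T2 ≠ []) (k : Fin 5) {σ : ℤ}
    (hσ : σ = 1 ∨ σ = -1) (y a : ℤ) {d : ℤ × ℤ} (hd : d ∉ ex y a) :
    Odd (pe (T1 ++ old k σ y a ++ T2) d) ↔ Odd (pe (T1 ++ (n1 k σ y a ++ n2 k σ y a) ++ T2) d) := by
  obtain ⟨x, hx⟩ : ∃ x, (old k σ y a).head? = some x := ex_head (old_ne _ _ _ _)
  obtain ⟨z, hz⟩ : ∃ z, (old k σ y a).getLast? = some z := by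
    rw [← Option.isSome_iff_exists, List.getLast?_isSome]; exact old_ne _ _ _ _
  obtain ⟨s, hs⟩ : ∃ s, T1.getLast? = some s := by
    rw [← Option.isSome_iff_exists, List.getLast?_isSome]; exact hT1
  obtain ⟨t, ht⟩ : ∃ t, T2.head? = some t := ex_head hT2
  have hx' : (n1 k σ y a ++ n2 k σ y a).head? = some x := by rw [nw_head]; exact hx
  have hz' : (n1 k σ y a ++ n2 k σ y a).getLast? = some z := by rw [nw_last]; exact hz
  have hnn : n1 k σ y a ++ n2 k σ y a ≠ [] := by simp [n1_ne]
  have e1 := pe_append d (by rw [List.getLast?_append_of_ne_nil _ (old_ne _ _ _ _)]; exact hz :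
    (T1 ++ old k σ y a).getLast? = some z) ht
  have e2 := pe_append d hs hx
  have e3 := pe_append d (by rw [List.getLast?_append_of_ne_nil _ hnn]; exact hz' :
    (T1 ++ (n1 k σ y a ++ n2 k σ y a)).getLast? = some z) ht
  have e4 := pe_append d hs hx'
  have h5 := finger_par k hσ y a hd
  rw [Nat.even_iff] at h5
  rw [Nat.odd_iff, Nat.odd_iff]
  omega

lemma area_FS {m P R : List V} {k : Fin 5} {σ : ℤ} {b : Bool} {y a : ℤ} (hσ : σ = 1 ∨ σ = -1)
    (hm : Can m) (hC : Can (P ++ R)) (h : FS m P R k σ b y a) : aL m ≤ aL (P ++ R) + 4 := by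
  have hfin := (Can.cl hC).finite
  have key : ∀ d, d ∉ ex y a → (Odd (pe (cl m) d) ↔ Odd (pe (cl (P ++ R)) d)) := by
    intro d hd
    obtain ⟨L1, L2, h | h⟩ := h
    · obtain ⟨-, h1, h2, h3⟩ := h
      have e1 : cl m = ((0, 0) :: L1) ++ old k σ y a ++ (L2 ++ [(0, 0)]) := by
        rw [h1]; unfold cl; simp
      have e2 : cl (P ++ R) = ((0, 0) :: L1) ++ (n1 k σ y a ++ n2 k σ y a) ++ (L2 ++ [(0, 0)]) := by
        rw [h2, h3]; unfold cl; simp
      rw [e1, e2]
      exact replace_par (by simp) (by simp) k hσ y a hd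
    · obtain ⟨-, h1, h2, h3⟩ := h
      have e0 : P ++ R = (L1 ++ (n1 k σ y a ++ n2 k σ y a) ++ L2).reverse := by
        rw [h2, h3]; simp
      have e1 : cl m.reverse = ((0, 0) :: L1) ++ old k σ y a ++ (L2 ++ [(0, 0)]) := by
        rw [h1]; unfold cl; simp
      have e2 : cl (P ++ R).reverse = ((0, 0) :: L1) ++ (n1 k σ y a ++ n2 k σ y a) ++
          (L2 ++ [(0, 0)]) := by
        rw [e0, List.reverse_reverse]; unfold cl; simp
      rw [← pe_cl_reverse (Can.cl hm).ch d, ← pe_cl_reverse (Can.cl hC).ch d, e1, e2]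
      exact replace_par (by simp) (by simp) k hσ y a hd
  have hsub : cs (cl m) ⊆ cs (cl (P ++ R)) ∪ (ex y a : Set (ℤ × ℤ)) := by
    intro d hd
    by_cases hde : d ∈ ex y a
    · exact Or.inr (Finset.mem_coe.mpr hde)
    · exact Or.inl ((key d hde).mp hd)
  calc aL m = (cs (cl m)).ncard := rfl
    _ ≤ (cs (cl (P ++ R)) ∪ (ex y a : Set (ℤ × ℤ))).ncard :=
        Set.ncard_le_ncard hsub (hfin.union (Finset.finite_toSet _))
    _ ≤ (cs (cl (P ++ R))).ncard + (ex y a : Set (ℤ × ℤ)).ncard := Set.ncard_union_le _ _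
    _ ≤ aL (P ++ R) + 4 := by
        rw [Set.ncard_coe_finset]
        have : (ex y a).card ≤ 4 := by
          unfold ex
          refine (Finset.card_insert_le _ _).trans ?_
          have := Finset.card_insert_le (y - 1, a + 1) ({(y, a), (y, a + 1)} : Finset (ℤ × ℤ))
          have := Finset.card_insert_le (y, a) ({(y, a + 1)} : Finset (ℤ × ℤ))
          have := Finset.card_singleton ((y, a + 1) : ℤ × ℤ)
          omega
        unfold aL
        omega

/-- **the area of a join** -/
theorem area_join {A B : List V} {s : ℤ} {X Y Z : List V} {kA kB : Fin 5} {bA bB bM : Bool}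
    {σA σB : ℤ} (hσA : σA = 1 ∨ σA = -1) (hσB : σB = 1 ∨ σB = -1) (hA : Can A) (hB : Can B)
    (hXZ : Can (X ++ Z)) (h : JR A B s X Y Z kA kB bA bB bM σA σB) (hC : Can (X ++ Y ++ Z))
    (c : Cut X Y Z) : aL A + aL B ≤ aL (X ++ Y ++ Z) + 8 := by
  obtain ⟨K, P, R, y, a, yb, ab, hK, hFA, hFB, hPR, htop, hM⟩ := h
  have h1 := area_FS hσA hA hXZ hFA
  have h2 := area_FS hσB hB hPR hFB
  have h3 := join_cells hC c
  obtain ⟨P0, R0, md, m1, m2, e1, e2, e3, e4, e5, e6, -⟩ :=
    Pool.Agent.TH546.PC.FS_split hσB hFB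
  have hP : P ≠ [] := by rw [e2]; simp [e5]
  have hR : R ≠ [] := by rw [e3]; simp [e6]
  have hY : Y = (R ++ (0, 0) :: P).map (fun v => K - v) ∨
      Y = ((R ++ (0, 0) :: P).map (fun v => K - v)).reverse := by
    rcases hM with ⟨-, h⟩ | ⟨-, h⟩
    · exact Or.inl h
    · exact Or.inr h
  have hYc : Cl (Y ++ Y.take 1) := by
    obtain ⟨p, q, hp, hyh, hq, hyl, hpq1, hpq2⟩ := c.corr
    have hYn : Y ≠ [] := by
      intro h; rw [h] at hyh; simp at hyh
    have htk : Y.take 1 = [(p.1, p.2 + 1)] := by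
      cases Y with
      | nil => simp at hyh
      | cons a t =>
        simp only [List.head?_cons, Option.some.injEq] at hyh
        simp [hyh]
    have hch := hC.ch
    rw [List.isChain_append, List.isChain_append] at hch
    refine ⟨?_, (p.1, p.2 + 1), ?_, ?_⟩
    · rw [htk, List.isChain_append]
      refine ⟨hch.1.2.1, by simp, ?_⟩
      intro x hx z hz
      rw [hyl] at hx
      simp only [Option.mem_def, Option.some.injEq, List.head?_cons] at hx hz
      rw [← hx, ← hz]
      unfold adj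
      simp only
      omega
    · rw [List.head?_append_of_ne_nil _ hYn]; exact hyh
    · rw [htk, List.getLast?_append_of_ne_nil _ (by simp)]; rfl
  have h4 := rot_ncard hPR hP hR K hY hYc
  have h5 : (cs (cl (X ++ Z))).ncard = aL (X ++ Z) := rfl
  omega

end Pool.Agent.Q228.SAP
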