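import Pool.Agent.Q228.SAP.WJoin

/-!
# The area of a polygon given as a list of sites; additivity at a join
-/

set_option autoImplicit false

namespace Pool.Agent.Q228.SAP

open Pool.Agent.W870.Pg

/-- contribution of an edge to the number of edges above the cell `c` -/
def ce (u v : V) (c : ℤ × ℤ) : ℕ :=
  if ((u.1 = c.1 ∧ v.1 = c.1 + 1) ∨ (u.1 = c.1 + 1 ∧ v.1 = c.1)) ∧ c.2 < u.2 then 1 else 0

/-- number of edges of a path above the cell `c` -/
def pe : List V → ℤ × ℤ → ℕ
  | [], _ => 0
  | [_], _ => 0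
  | u :: v :: t, c => ce u v c + pe (v :: t) c

lemma pe_append {l1 l2 : List V} {x y : V} (c : ℤ × ℤ) (h1 : l1.getLast? = some x)
    (h2 : l2.head? = some y) : pe (l1 ++ l2) c = pe l1 c + ce x y c + pe l2 c := by
  induction l1 with
  | nil => simp at h1
  | cons a t ih =>
    cases t with
    | nil =>
      simp only [List.getLast?_singleton, Option.some.injEq] at h1
      subst h1
      cases l2 with
      | nil => simp at h2
      | cons b t' =>
        simp only [List.head?_cons, Option.some.injEq] at h2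
        subst h2
        simp [pe]
    | cons b t' =>
      have h3 : (b :: t').getLast? = some x := by
        rw [← h1, List.getLast?_cons_cons]
      have h4 := ih h3
      simp only [List.cons_append, pe] at h4 ⊢
      rw [h4]
      ring

/-- indicator of the levels up to `a` -/
def idc (v : V) (a : ℤ) : ℕ := if v.1 ≤ a then 1 else 0

lemma ce_even {u v : V} (h : adj u v) {c : ℤ × ℤ} (h1 : u.1 = c.1 → c.2 < u.2)
    (h2 : v.1 = c.1 → c.2 < v.2) : Even (ce u v c + idc u c.1 + idc v c.1) := by
  rw [Nat.even_iff]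
  unfold ce idc
  unfold adj at h
  split_ifs <;> omega

lemma ce_zero {u v : V} (h : adj u v) {c : ℤ × ℤ} (h1 : u.1 = c.1 → u.2 ≤ c.2)
    (h2 : v.1 = c.1 → v.2 ≤ c.2) : ce u v c = 0 := by
  unfold ce
  unfold adj at h
  rw [if_neg]
  omega

lemma pe_par {l : List V} (h : l.IsChain adj) {c : ℤ × ℤ} (hl : ∀ v ∈ l, v.1 = c.1 → c.2 < v.2)
    {x y : V} (hx : l.head? = some x) (hy : l.getLast? = some y) :
    Even (pe l c + idc x c.1 + idc y c.1) := by
  induction l generalizing x with
  | nil => simp at hx
  | cons a t ih =>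
    simp only [List.head?_cons, Option.some.injEq] at hx
    subst hx
    cases t with
    | nil =>
      simp only [List.getLast?_singleton, Option.some.injEq] at hy
      subst hy
      simp only [pe, zero_add]
      exact ⟨_, rfl⟩
    | cons b t' =>
      rw [List.isChain_cons_cons] at h
      have h3 := ih h.2 (fun v hv => hl v (List.mem_cons_of_mem _ hv)) (x := b) (by simp)
        (by rw [← hy, List.getLast?_cons_cons])
      have h4 := ce_even h.1 (hl a (by simp)) (hl b (by simp))
      simp only [pe]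
      rw [Nat.even_iff] at h3 h4 ⊢
      omega

lemma pe_zero {l : List V} (h : l.IsChain adj) {c : ℤ × ℤ} (hl : ∀ v ∈ l, v.1 = c.1 → v.2 ≤ c.2) :
    pe l c = 0 := by
  induction l with
  | nil => rfl
  | cons a t ih =>
    cases t with
    | nil => rfl
    | cons b t' =>
      rw [List.isChain_cons_cons] at h
      have h3 := ih h.2 (fun v hv => hl v (List.mem_cons_of_mem _ hv))
      have h4 := ce_zero h.1 (hl a (by simp)) (hl b (by simp))
      simp only [pe]
      omega

lemma pe_zero' {l : List V} {c : ℤ × ℤ} (hl : ∀ v ∈ l, v.1 ≠ c.1 + 1) :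
    pe l c = 0 := by
  induction l with
  | nil => rfl
  | cons a t ih =>
    cases t with
    | nil => rfl
    | cons b t' =>
      have h3 := ih (fun v hv => hl v (List.mem_cons_of_mem _ hv))
      have h1 := hl a (by simp)
      have h2 := hl b (by simp)
      simp only [pe]
      rw [h3, add_zero]
      unfold ce
      rw [if_neg]
      tauto

lemma ce_symm {u v : V} (h : adj u v) (c : ℤ × ℤ) : ce u v c = ce v u c := by
  unfold ce
  unfold adj at h
  split_ifs <;> omega

lemma pe_reverse {l : List V} (h : l.IsChain adj) (c : ℤ × ℤ) : pe l.reverse c = pe l c := by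
  induction l with
  | nil => rfl
  | cons a t ih =>
    cases t with
    | nil => rfl
    | cons b t' =>
      rw [List.isChain_cons_cons] at h
      have h3 := ih h.2
      rw [List.reverse_cons, pe_append (x := b) (y := a) c (by simp) (by simp), h3,
        ce_symm (adj_symm h.1)]
      simp only [pe]
      ring

/-- enclosed cells -/
def cs (L : List V) : Set (ℤ × ℤ) := {c | Odd (pe L c)}

/-- closed walks -/
structure Cl (L : List V) : Prop where
  ch : L.IsChain adj
  e : ∃ x, L.head? = some x ∧ L.getLast? = some x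

lemma Cl.even {L : List V} (h : Cl L) {c : ℤ × ℤ} (hl : ∀ v ∈ L, v.1 = c.1 → c.2 < v.2) :
    Even (pe L c) := by
  obtain ⟨x, hx, hy⟩ := h.e
  have := pe_par h.ch hl hx hy
  rw [Nat.even_iff] at this ⊢
  omega

lemma Cl.two {L : List V} (h : Cl L) {c : ℤ × ℤ} (hc : c ∈ cs L) :
    (∃ v ∈ L, v.1 = c.1 ∧ c.2 < v.2) ∧ (∃ v ∈ L, v.1 = c.1 ∧ v.2 ≤ c.2) := by
  have hc' : Odd (pe L c) := hc
  constructor
  · by_contra hcon
    push Not at hcon
    have := pe_zero h.ch (c := c) hcon
    rw [this] at hc'
    exact absurd hc' (by decide)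
  · by_contra hcon
    push Not at hcon
    exact (Nat.not_odd_iff_even.mpr (h.even (c := c) hcon)) hc'

lemma Cl.finite {L : List V} (h : Cl L) : (cs L).Finite := by
  classical
  refine Set.Finite.subset (Finset.finite_toSet ((L.toFinset ×ˢ L.toFinset).biUnion
    (fun p => (Finset.Ico p.2.2 p.1.2).image (fun b => (p.1.1, b))))) ?_
  intro c hc
  obtain ⟨⟨v, hv, hv1, hv2⟩, w, hw, hw1, hw2⟩ := h.two hc
  rw [Finset.mem_coe, Finset.mem_biUnion]
  refine ⟨(v, w), ?_, ?_⟩
  · rw [Finset.mem_product]
    exact ⟨List.mem_toFinset.mpr hv, List.mem_toFinset.mpr hw⟩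
  · rw [Finset.mem_image]
    exact ⟨c.2, Finset.mem_Ico.mpr ⟨hw2, hv2⟩, Prod.ext hv1 rfl⟩

/-- the closed walk of a list -/
def cl (g : List V) : List V := (0, 0) :: (g ++ [(0, 0)])

lemma Can.cl {g : List V} (hg : Can g) : Cl (cl g) := by
  refine ⟨?_, (0, 0), rfl, ?_⟩
  · unfold SAP.cl
    rw [← List.cons_append, List.isChain_append]
    refine ⟨hg.chain0, by simp, ?_⟩
    intro x hx z hz
    rw [List.getLast?_cons, hg.lt] at hx
    simp only [Option.getD_some, Option.mem_def, Option.some.injEq, List.head?_cons] at hx hz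
    rw [← hx, ← hz]
    unfold adj; simp
  · have e : SAP.cl g = ((0, 0) :: g) ++ [(0, 0)] := by unfold SAP.cl; simp
    rw [e, List.getLast?_append_of_ne_nil _ (by simp)]
    rfl

/-- area of a list -/
noncomputable def aL (g : List V) : ℕ := (cs (cl g)).ncard

/-! ### reversal -/

lemma cl_reverse (g : List V) : cl g.reverse = (cl g).reverse := by
  unfold cl
  simp

lemma pe_cl_reverse {g : List V} (h : (cl g).IsChain adj) (c : ℤ × ℤ) :
    pe (cl g.reverse) c = pe (cl g) c := by
  rw [cl_reverse, pe_reverse h]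

/-! ### the join -/

theorem join_cells {X Y Z : List V} (hC : Can (X ++ Y ++ Z)) (c : Cut X Y Z) :
    (cs (cl (X ++ Z))).ncard + (cs (Y ++ Y.take 1)).ncard ≤ aL (X ++ Y ++ Z) := by
  obtain ⟨p, q, hp, hyh, hq, hyl, hpq1, hpq2⟩ := c.corr
  have hYn : Y ≠ [] := by
    intro h; rw [h] at hyh; simp at hyh
  have htk : Y.take 1 = [(p.1, p.2 + 1)] := by
    cases Y with
    | nil => simp at hyh
    | cons a t =>
      simp only [List.head?_cons, Option.some.injEq] at hyh
      simp [hyh]
  have hch := hC.ch
  rw [List.isChain_append, List.isChain_append] at hch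
  obtain ⟨⟨hXc, hYc, -⟩, hZc, -⟩ := hch
  have h0X : ((0, 0) :: X).getLast? = some p := by
    rw [List.getLast?_cons, hp]; rfl
  have hZ0 : (Z ++ [((0 : ℤ), (0 : ℤ))]).head? = some q := by
    rw [List.head?_append_of_ne_nil _ c.zn]; exact hq
  have hZ0l : (Z ++ [((0 : ℤ), (0 : ℤ))]).getLast? = some (0, 0) := by simp
  have hclJ := Can.cl hC
  have eJ : cl (X ++ Y ++ Z) = (((0, 0) :: X) ++ Y) ++ (Z ++ [(0, 0)]) := by
    unfold cl; simp
  have eA : cl (X ++ Z) = ((0, 0) :: X) ++ (Z ++ [(0, 0)]) := by
    unfold cl; simp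
  have hJc := hclJ.ch
  rw [eJ, List.isChain_append, List.isChain_append] at hJc
  obtain ⟨⟨h0Xc, -, -⟩, hZ0c, -⟩ := hJc
  have hclA : Cl (cl (X ++ Z)) := by
    refine ⟨?_, (0, 0), rfl, ?_⟩
    · rw [eA, List.isChain_append]
      refine ⟨h0Xc, hZ0c, ?_⟩
      intro x hx z hz
      rw [h0X] at hx
      rw [hZ0] at hz
      simp only [Option.mem_def, Option.some.injEq] at hx hz
      rw [← hx, ← hz]
      unfold adj; omega
    · rw [eA, List.getLast?_append_of_ne_nil _ (by simp)]
      exact hZ0l
  have hclB : Cl (Y ++ Y.take 1) := by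
    refine ⟨?_, (p.1, p.2 + 1), ?_, ?_⟩
    · rw [htk, List.isChain_append]
      refine ⟨hYc, by simp, ?_⟩
      intro x hx z hz
      rw [hyl] at hx
      simp only [Option.mem_def, Option.some.injEq, List.head?_cons] at hx hz
      rw [← hx, ← hz]
      unfold adj
      simp only
      omega
    · rw [List.head?_append_of_ne_nil _ hYn]; exact hyh
    · rw [htk, List.getLast?_append_of_ne_nil _ (by simp)]; rfl
  -- right-of relation
  have hr : ∀ v ∈ cl (X ++ Z), ∀ w ∈ Y ++ Y.take 1, v.1 = w.1 → v.2 < w.2 := by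
    intro v hv w hw hvw
    have hw' : w ∈ Y := by
      rcases List.mem_append.mp hw with h | h
      · exact h
      · exact List.mem_of_mem_take h
    have hv' : v = (0, 0) ∨ v ∈ X ++ Z := by
      rw [eA] at hv
      simp only [List.cons_append, List.mem_cons, List.mem_append, List.not_mem_nil, or_false] at hv ⊢
      tauto
    rcases hv' with rfl | hv'
    · have := hC.lp w (by simp [hw'])
      unfold lexpos at this
      simp only at hvw ⊢
      omega
    · exact c.right v hv' w hw' hvw
  have hpm : p ∈ cl (X ++ Z) := by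
    rw [eA]; simp [List.mem_of_getLast? hp]
  have hqm : q ∈ cl (X ++ Z) := by
    rw [eA]; simp [List.mem_of_head? hq]
  have hp1m : (p.1, p.2 + 1) ∈ Y ++ Y.take 1 := List.mem_append_left _ (List.mem_of_head? hyh)
  have hq1m : (q.1, q.2 + 1) ∈ Y ++ Y.take 1 := List.mem_append_left _ (List.mem_of_getLast? hyl)
  -- the numbers of edges
  have hsum : ∀ d : ℤ × ℤ, pe (cl (X ++ Y ++ Z)) d + ce p q d + ce (q.1, q.2 + 1) (p.1, p.2 + 1) d =
      pe (cl (X ++ Z)) d + pe (Y ++ Y.take 1) d := by
    intro d
    have h0XY : (((0, 0) :: X) ++ Y).getLast? = some (q.1, q.2 + 1) := by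
      rw [List.getLast?_append_of_ne_nil _ hYn]; exact hyl
    rw [eJ, eA, htk, pe_append d h0XY hZ0, pe_append d h0X hyh, pe_append d h0X hZ0,
      pe_append d hyl (by simp : [(p.1, p.2 + 1)].head? = some (p.1, p.2 + 1))]
    have e1 : ce p (p.1, p.2 + 1) d = 0 := by
      unfold ce; rw [if_neg]; simp only; omega
    have e2 : ce (q.1, q.2 + 1) q d = 0 := by
      unfold ce; rw [if_neg]; simp only; omega
    rw [e1, e2]
    simp only [pe]
    ring
  have hA : ∀ d ∈ cs (cl (X ++ Z)), d ∈ cs (cl (X ++ Y ++ Z)) ∧ d ∉ cs (Y ++ Y.take 1) := by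
    intro d hd
    obtain ⟨⟨v, hv, hv1, hv2⟩, -⟩ := hclA.two hd
    have hev : Even (pe (Y ++ Y.take 1) d) := hclB.even (fun w hw hw1 => by
      have := hr v hv w hw (by rw [hv1, hw1])
      omega)
    have hodd : Odd (pe (cl (X ++ Z)) d) := hd
    refine ⟨?_, fun h => (Nat.not_odd_iff_even.mpr hev) h⟩
    have h1 := hsum d
    have h2 : ce p q d + ce (q.1, q.2 + 1) (p.1, p.2 + 1) d = 0 ∨
        ce p q d + ce (q.1, q.2 + 1) (p.1, p.2 + 1) d = 2 := by
      by_cases hg : (p.1 = d.1 ∧ q.1 = d.1 + 1) ∨ (p.1 = d.1 + 1 ∧ q.1 = d.1)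
      · right
        have h3 : d.2 < p.2 := by
          rcases hg with hg | hg
          · have := hr v hv _ hp1m (by simp only; omega)
            simp only at this
            omega
          · have := hr v hv _ hq1m (by simp only; omega)
            simp only at this
            omega
        unfold ce
        rw [if_pos ⟨hg, h3⟩, if_pos (by simp only; omega)]
      · left
        unfold ce
        rw [if_neg (fun h => hg h.1), if_neg]
        simp only
        omega
    change Odd (pe (cl (X ++ Y ++ Z)) d)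
    rw [Nat.odd_iff] at hodd ⊢
    rw [Nat.even_iff] at hev
    omega
  have hB : ∀ d ∈ cs (Y ++ Y.take 1), d ∈ cs (cl (X ++ Y ++ Z)) := by
    intro d hd
    obtain ⟨-, w, hw, hw1, hw2⟩ := hclB.two hd
    have hz : pe (cl (X ++ Z)) d = 0 := pe_zero hclA.ch (fun v hv hv1 => by
      have := hr v hv w hw (by rw [hv1, hw1])
      omega)
    have hodd : Odd (pe (Y ++ Y.take 1) d) := hd
    have h1 := hsum d
    have h2 : ce p q d + ce (q.1, q.2 + 1) (p.1, p.2 + 1) d = 0 := by
      by_cases hg : (p.1 = d.1 ∧ q.1 = d.1 + 1) ∨ (p.1 = d.1 + 1 ∧ q.1 = d.1)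
      · have h3 : p.2 < d.2 := by
          rcases hg with hg | hg
          · have := hr p hpm w hw (by omega)
            omega
          · have := hr q hqm w hw (by omega)
            omega
        unfold ce
        rw [if_neg (fun h => by have := h.2; omega), if_neg (fun h => by
          have := h.2
          simp only at this
          omega)]
      · unfold ce
        rw [if_neg (fun h => hg h.1), if_neg]
        simp only
        omega
    change Odd (pe (cl (X ++ Y ++ Z)) d)
    have h3 : pe (cl (X ++ Y ++ Z)) d = pe (Y ++ Y.take 1) d := by omega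
    rw [h3]
    exact hodd
  have hdisj : Disjoint (cs (cl (X ++ Z))) (cs (Y ++ Y.take 1)) := by
    rw [Set.disjoint_left]
    intro d hd hd2
    exact (hA d hd).2 hd2
  rw [← Set.ncard_union_eq hdisj hclA.finite hclB.finite]
  unfold aL
  apply Set.ncard_le_ncard _ hclJ.finite
  intro d hd
  rcases hd with hd | hd
  · exact (hA d hd).1
  · exact hB d hd

end Pool.Agent.Q228.SAP
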