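import Pool.Agent.Q228.SAP.CTail

/-!
# Counting functions of the wide polygons in terms of subtypes
-/

set_option autoImplicit false

namespace Pool.Agent.Q228.SAP

open Finset Pool.Agent.H976R2 Pool.Agent.H924P Pool.Agent.H739K Filter Topology
open Pool.Agent.W870.Pg (LF mem_LF loops_eq Fp Fp_pos)
open scoped Classical

noncomputable section

lemma card_bn {N : ℕ} (hN : 2 ≤ N) (x : ℕ) :
    Nat.card {f : ZMod (2 * N) → ℤ × ℤ // IsLoop (2 * N) f ∧
      x ≤ width (2 * N) f + height (2 * N) f} = bn N x := by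
  have : NeZero (2 * N) := ⟨by omega⟩
  unfold bn
  refine Nat.subtype_card _ fun f => ?_
  rw [Finset.mem_filter, mem_LF]

lemma card_wn {N : ℕ} (hN : 2 ≤ N) (x : ℕ) :
    Nat.card {f : ZMod (2 * N) → ℤ × ℤ // IsLoop (2 * N) f ∧ x ≤ width (2 * N) f} = wn N x := by
  have : NeZero (2 * N) := ⟨by omega⟩
  unfold wn
  refine Nat.subtype_card _ fun f => ?_
  rw [Finset.mem_filter, mem_LF]

/-- sums over the loops -/
lemma finsum_LF {N : ℕ} (hN : 2 ≤ N) (F : (ZMod (2 * N) → ℤ × ℤ) → ℝ) :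
    ∑ᶠ f ∈ {f : ZMod (2 * N) → ℤ × ℤ | IsLoop (2 * N) f}, F f = ∑ f ∈ LF (2 * N), F f := by
  rw [sum_LF hN, (CONV_proof N hN).1 F]

lemma ncard_LF {N : ℕ} (hN : 2 ≤ N) :
    {f : ZMod (2 * N) → ℤ × ℤ | IsLoop (2 * N) f}.ncard = (LF (2 * N)).card := by
  rw [(CONV_proof N hN).2.1]
  have h := sum_LF hN (fun _ => 1)
  rw [Finset.sum_const, Finset.sum_const, nsmul_eq_mul, nsmul_eq_mul, mul_one, mul_one] at h
  exact_mod_cast h.symm

/-- a mean times the number of polygons -/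
lemma me_mul_PP {N : ℕ} (hN : 2 ≤ N) (F : (ZMod (2 * N) → ℤ × ℤ) → ℝ) :
    me N F * H981.PP N = (∑ f ∈ LF (2 * N), F f) / (4 * N) := by
  have h1 : ((LF (2 * N)).card : ℝ) = 4 * N * H981.PP N := loops_eq (by omega)
  have hN0 : (0 : ℝ) < N := by
    have : 0 < N := by omega
    exact_mod_cast this
  have hP := PP_pos hN
  unfold me
  rw [finsum_LF hN, ncard_LF hN, h1]
  field_simp

end

end Pool.Agent.Q228.SAP
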