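import Pool.Agent.Q228.SAP.BV
import Pool.Agent.Q228.SAP.Fin

/-!
# Almost log-convexity of the total area
-/

set_option autoImplicit false

namespace Pool.Agent.Q228.SAP

open Finset Pool.Agent.H976R2 Pool.Agent.H924P Pool.Agent.H739K Filter Topology
open Pool.Agent.W870.Pg (LF)
open scoped Classical

noncomputable section

/-- almost log-convexity of weighted numbers of polygons, in product form -/
theorem conv_gg {q : ℝ} (hq : 0 ≤ q) {p : ℕ} {L : ℝ} (hL : 0 ≤ L) {φ : List Dir → ℝ}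
    (hφ : ∀ m, 3 ≤ m → NiceP L q p m φ) : ∃ K : ℝ, 0 ≤ K ∧ ∀ m : ℕ, 2 ≤ m →
      mm φ (2 * (m + 1) - 1) ^ 2 ≤ (1 + K / m) * (mm φ (2 * m - 1) * mm φ (2 * (m + 2) - 1)) := by
  obtain ⟨D, hD, h⟩ := PR.ratio (p := p) bnd hq L hL
  obtain ⟨b, hb0, hb⟩ := (bvar_gg hq hL hφ).low
  have hmu1 := mu1
  have hmu : 0 < H981.mu := by linarith
  have hmp : ∀ N, 2 ≤ N → 0 < mm φ (2 * N - 1) := fun N hN =>
    Pool.Agent.H739K.MOM.mm_pos (hφ (2 * N - 1) (by omega)) le_rfl (by omega)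
      (F0_card_pos bnd (2 * N - 1) (by omega) (by omega))
  refine ⟨D / b ^ 2, by positivity, fun m hm => ?_⟩
  have hm00 : (0 : ℝ) < m := by
    have : 0 < m := by omega
    exact_mod_cast this
  have p0 := hmp m hm
  have p1 := hmp (m + 1) (by omega)
  have p2 := hmp (m + 2) (by omega)
  have h3 := h (2 * m - 1) φ (by omega) (by omega) (hφ _ (by omega))
  have e1 : 2 * m - 1 + 2 = 2 * (m + 1) - 1 := by omega
  have e2 : 2 * m - 1 + 4 = 2 * (m + 2) - 1 := by omega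
  rw [e1, e2] at h3
  have h4 : D / ((2 * m - 1 : ℕ) : ℝ) ≤ D / m := by
    have h5 : (m : ℝ) ≤ ((2 * m - 1 : ℕ) : ℝ) := by
      have : m ≤ 2 * m - 1 := by omega
      exact_mod_cast this
    exact div_le_div_of_nonneg_left hD hm00 h5
  -- lower bounds for the ratios
  have step : ∀ N, 2 ≤ N → b * mm φ (2 * N - 1) ≤ mm φ (2 * (N + 1) - 1) := by
    intro N hN
    have q0 := hmp N hN
    have q1 := hmp (N + 1) (by omega)
    have h5 := hb N hN
    unfold gg at h5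
    have e3 : H981.mu ^ (2 * (N + 1)) = H981.mu ^ (2 * N) * H981.mu ^ 2 := by
      rw [← pow_add]; congr 1
    have h6 : mm φ (2 * (N + 1) - 1) / H981.mu ^ (2 * (N + 1)) / (mm φ (2 * N - 1) / H981.mu ^ (2 * N)) =
        mm φ (2 * (N + 1) - 1) / (mm φ (2 * N - 1) * H981.mu ^ 2) := by
      rw [e3]; field_simp
    rw [h6, le_div_iff₀ (by positivity)] at h5
    have h7 : 1 ≤ H981.mu ^ 2 := one_le_pow₀ hmu1
    calc b * mm φ (2 * N - 1) ≤ b * mm φ (2 * N - 1) * H981.mu ^ 2 :=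
          le_mul_of_one_le_right (by positivity) h7
      _ = b * (mm φ (2 * N - 1) * H981.mu ^ 2) := by ring
      _ ≤ _ := h5
  have s1 := step m hm
  have s2 := step (m + 1) (by omega)
  rw [show m + 1 + 1 = m + 2 by ring] at s2
  have h8 : mm φ (2 * m - 1) ≤ mm φ (2 * (m + 2) - 1) / b ^ 2 := by
    rw [le_div_iff₀ (by positivity)]
    calc mm φ (2 * m - 1) * b ^ 2 = b * (b * mm φ (2 * m - 1)) := by ring
      _ ≤ b * mm φ (2 * (m + 1) - 1) := by gcongr
      _ ≤ _ := s2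
  calc mm φ (2 * (m + 1) - 1) ^ 2 ≤ mm φ (2 * m - 1) * mm φ (2 * (m + 2) - 1) +
        D / ((2 * m - 1 : ℕ) : ℝ) * mm φ (2 * m - 1) ^ 2 := h3
    _ ≤ mm φ (2 * m - 1) * mm φ (2 * (m + 2) - 1) +
        D / m * (mm φ (2 * m - 1) * (mm φ (2 * (m + 2) - 1) / b ^ 2)) := by
        have : mm φ (2 * m - 1) ^ 2 ≤ mm φ (2 * m - 1) * (mm φ (2 * (m + 2) - 1) / b ^ 2) := by
          rw [pow_two]; gcongr
        gcongr
    _ = _ := by field_simp

/-- total powers of the area -/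
lemma mm_area {N : ℕ} (hN : 2 ≤ N) (k : ℕ) : mm (pP k 0) (2 * N - 1) =
    4 * N * (me N (fun f => (area (2 * N) f : ℝ) ^ k) * H981.PP N) := by
  have hN0 : (0 : ℝ) < N := by
    have : 0 < N := by omega
    exact_mod_cast this
  rw [me_mul_PP hN, sum_LF hN]
  have : mm (pP k 0) (2 * N - 1) = ∑ w ∈ KP (2 * N - 1), (area (2 * N) (lp (2 * N) w) : ℝ) ^ k := by
    unfold mm pP
    refine Finset.sum_congr rfl fun w hw => ?_
    rw [F4x.ar_eq hN hw, pow_zero, mul_one]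
  rw [this]
  field_simp

/-- **almost log-convexity of the total powers of the area** -/
theorem area_conv (k : ℕ) : ∃ K : ℝ, 0 ≤ K ∧ ∀ m : ℕ, 2 ≤ m →
    (me (m + 1) (fun f => (area (2 * (m + 1)) f : ℝ) ^ k) * H981.PP (m + 1)) ^ 2 ≤ (1 + K / m) *
      ((me m (fun f => (area (2 * m) f : ℝ) ^ k) * H981.PP m) *
        (me (m + 2) (fun f => (area (2 * (m + 2)) f : ℝ) ^ k) * H981.PP (m + 2))) := by
  obtain ⟨K, hK, h⟩ := conv_gg (q := 2 * 4 ^ (k + 0)) (p := 2 * k + 0)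
    (L := 2 * ((8 * k + 6 * 0) * 2 ^ (k + 0))) (by positivity) (by positivity)
    (φ := pP k 0) (fun m hm => by
      have := niceP k 0 m hm
      push_cast at this
      exact this)
  refine ⟨K, hK, fun m hm => ?_⟩
  have h1 := h m hm
  rw [mm_area hm, mm_area (show 2 ≤ m + 1 by omega), mm_area (show 2 ≤ m + 2 by omega)] at h1
  have hm0 : (0 : ℝ) < m := by
    have : 0 < m := by omega
    exact_mod_cast this
  have hp : ∀ N, 2 ≤ N → 0 < me N (fun f => (area (2 * N) f : ℝ) ^ k) * H981.PP N := fun N hN =>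
    mul_pos (Pool.Agent.H739K.MOM.MK_pos k N hN) (PP_pos hN)
  have q0 := hp m hm
  have q1 := hp (m + 1) (by omega)
  have q2 := hp (m + 2) (by omega)
  generalize me m (fun f => (area (2 * m) f : ℝ) ^ k) * H981.PP m = a at *
  generalize me (m + 1) (fun f => (area (2 * (m + 1)) f : ℝ) ^ k) * H981.PP (m + 1) = b at *
  generalize me (m + 2) (fun f => (area (2 * (m + 2)) f : ℝ) ^ k) * H981.PP (m + 2) = c at *
  push_cast at h1
  have h2 : (16 * ((m : ℝ) + 1) ^ 2) * b ^ 2 ≤ (16 * ((m : ℝ) + 1) ^ 2) * ((1 + K / m) * (a * c)) := by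
    calc (16 * ((m : ℝ) + 1) ^ 2) * b ^ 2 = (4 * ((m : ℝ) + 1) * b) ^ 2 := by ring
      _ ≤ (1 + K / m) * (4 * (m : ℝ) * a * (4 * ((m : ℝ) + 2) * c)) := h1
      _ = (16 * ((m : ℝ) * (m + 2))) * ((1 + K / m) * (a * c)) := by ring
      _ ≤ _ := by
          have : (m : ℝ) * (m + 2) ≤ ((m : ℝ) + 1) ^ 2 := by nlinarith
          gcongr
  exact le_of_mul_le_mul_left h2 (by positivity)

end

end Pool.Agent.Q228.SAP
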