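import Pool.Agent.Q228.SAP.AreaC
import Pool.Agent.Q228.SAP.BV2

/-!
# Join inequalities for the moments of the area
-/

set_option autoImplicit false

namespace Pool.Agent.Q228.SAP

open Pool.Agent.H924P Pool.Agent.W870.Pg Filter Topology
open Pool.Agent.H739K.MOM (MK MK_pos)
open Pool.Agent.TH546.PC (VF MG mem_VF mem_MG)
open scoped Classical

noncomputable section

/-- normalised total power of the area -/
def aG (k n : ℕ) : ℝ := MK k n * Fp n

lemma aG_pos (k : ℕ) {n : ℕ} (hn : 2 ≤ n) : 0 < aG k n := mul_pos (MK_pos k n hn) (Fp_pos hn)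

lemma aG_eq (k : ℕ) {n : ℕ} (hn : 2 ≤ n) :
    aG k n * H981.mu ^ (2 * n) = (∑ f ∈ LF (2 * n), (area (2 * n) f : ℝ) ^ k) / (4 * n) := by
  rw [← me_mul_PP hn]
  have := H981.mu_pos
  unfold aG Fp MK
  field_simp

lemma aG_step (k : ℕ) : ∃ C : ℝ, 1 ≤ C ∧ ∀ n : ℕ, 2 ≤ n →
    aG k (n + 1) ≤ C * aG k n ∧ aG k n ≤ C * aG k (n + 1) := by
  obtain ⟨B, hB⟩ := (bvar_area k).bd
  obtain ⟨b, hb0, hb⟩ := (bvar_area k).low
  obtain ⟨C, hC, hs⟩ := shift_one
  have hC0 : 0 < C := by linarith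
  refine ⟨max 1 (max (|B| * C) (C / b)), le_max_left _ _, fun n hn => ?_⟩
  have hM := MK_pos k n hn
  have hM1 := MK_pos k (n + 1) (by omega)
  have hF := Fp_pos hn
  have hF1 := Fp_pos (N := n + 1) (by omega)
  have h1 := hB n hn
  have h2 := hb n hn
  rw [div_le_iff₀ hM] at h1
  rw [le_div_iff₀ hM] at h2
  obtain ⟨h3, h4⟩ := hs n hn
  have hm1 : |B| * C ≤ max 1 (max (|B| * C) (C / b)) :=
    (le_max_left _ _).trans (le_max_right _ _)
  have hm2 : C / b ≤ max 1 (max (|B| * C) (C / b)) :=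
    (le_max_right _ _).trans (le_max_right _ _)
  have hB' : MK k (n + 1) ≤ |B| * MK k n := h1.trans (by
    apply mul_le_mul_of_nonneg_right (le_abs_self B) hM.le)
  constructor
  · unfold aG
    calc MK k (n + 1) * Fp (n + 1) ≤ (|B| * MK k n) * (C * Fp n) := by gcongr
      _ = (|B| * C) * (MK k n * Fp n) := by ring
      _ ≤ _ := by gcongr
  · have h5 : MK k n ≤ MK k (n + 1) / b := by
      rw [le_div_iff₀ hb0, mul_comm]; exact h2
    unfold aG
    calc MK k n * Fp n ≤ (MK k (n + 1) / b) * (C * Fp (n + 1)) := by gcongr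
      _ = (C / b) * (MK k (n + 1) * Fp (n + 1)) := by ring
      _ ≤ _ := by gcongr

lemma aG_shift (k : ℕ) : ∃ C : ℝ, 1 ≤ C ∧ ∀ t n : ℕ, 2 ≤ n →
    aG k (n + t) ≤ C ^ t * aG k n ∧ aG k n ≤ C ^ t * aG k (n + t) := by
  obtain ⟨C, hC, h⟩ := aG_step k
  refine ⟨C, hC, fun t n hn => ?_⟩
  induction t with
  | zero => simp
  | succ t ih =>
    have h1 := h (n + t) (by omega)
    have hC0 : 0 ≤ C := by linarith
    rw [show n + (t + 1) = n + t + 1 by ring]
    constructor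
    · calc aG k (n + t + 1) ≤ C * aG k (n + t) := h1.1
        _ ≤ C * (C ^ t * aG k n) := by gcongr; exact ih.1
        _ = _ := by ring
    · calc aG k n ≤ C ^ t * aG k (n + t) := ih.2
        _ ≤ C ^ t * (C * aG k (n + t + 1)) := by gcongr; exact h1.2
        _ = _ := by ring

/-! ### bounds for the area of a list -/

lemma cyc_loop {g : List V} (hg : Can g) {m : ℕ} [NeZero m] (hl : g.length + 1 = m) :
    IsLoop m (cyc g m) := by
  refine ⟨by rw [cyc_zero]; rfl, cyc_inj hg hl, fun i => ?_⟩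
  rw [← adj_iff_abs]
  exact cyc_adj hg hl i

lemma aL_bounds {n : ℕ} (hn : 2 ≤ n) {g : List V} (hg : g ∈ CanF (2 * n - 1)) :
    1 ≤ aL g ∧ aL g ≤ 16 * n ^ 2 := by
  rw [mem_CanF] at hg
  have : NeZero (2 * n) := ⟨by omega⟩
  have hl : g.length + 1 = 2 * n := by omega
  have h1 := cyc_loop hg.1 hl
  have h2 := area_ge_quarter (by omega) h1
  have h3 := all_area h1
  rw [area_cyc hl] at h2 h3
  refine ⟨by omega, h3.trans (le_of_eq (by ring))⟩

/-- sums of powers over the lists -/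
def sL (k n : ℕ) : ℝ := ∑ g ∈ CanF (2 * n - 1), (aL g : ℝ) ^ k

lemma sL_le (k : ℕ) {n : ℕ} (hn : 2 ≤ n) : sL k n ≤ 2 * (aG k n * H981.mu ^ (2 * n)) := by
  have : NeZero (2 * n) := ⟨by omega⟩
  have h1 := lists_le (m := 2 * n) (fun x => (x : ℝ) ^ k) (fun x => by positivity)
  have hn0 : (0 : ℝ) < n := by
    have : 0 < n := by omega
    exact_mod_cast this
  rw [aG_eq k hn]
  unfold sL
  push_cast at h1
  rw [mul_div_assoc', le_div_iff₀ (by positivity)]
  linarith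

lemma PP_le_sL (k : ℕ) {n : ℕ} (hn : 2 ≤ n) : H981.PP n ≤ sL k n := by
  refine (PP_le_nn hn).trans ?_
  unfold nn sL
  have h1 : ((CanF (2 * n - 1)).card : ℝ) = ∑ g ∈ CanF (2 * n - 1), (1 : ℝ) := by simp
  rw [h1]
  apply Finset.sum_le_sum
  intro g hg
  have h2 := (aL_bounds hn hg).1
  exact one_le_pow₀ (by exact_mod_cast h2)

/-- **weighted number of cuts** -/
lemma cut_area (k : ℕ) : ∃ C : ℝ, 0 ≤ C ∧ ∀ n : ℕ, 2 ≤ n →
    ∑ g ∈ CanF (2 * n - 1), ((cutset g).card : ℝ) * (((aL g + 8 : ℕ) : ℝ)) ^ k ≤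
      C * Real.log n ^ 2 * (aG k n * H981.mu ^ (2 * n)) := by
  obtain ⟨C, hC, h⟩ := cut_w (2 * k)
  have hl2 : 0 < Real.log 2 := Real.log_pos (by norm_num)
  refine ⟨9 ^ k * (C + 16 ^ k / Real.log 2 ^ 2) * 2, by positivity, fun n hn => ?_⟩
  have hn' : (2 : ℝ) ≤ n := by exact_mod_cast hn
  have hn0 : (0 : ℝ) < n := by linarith
  have hL2 : Real.log 2 ≤ Real.log n := Real.log_le_log (by norm_num) hn'
  have h1 := h n hn (fun g => (aL g : ℝ) ^ k) ((16 * (n : ℝ) ^ 2) ^ k) (fun g hg => by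
    have h2 := (aL_bounds hn hg).2
    have h3 : (aL g : ℝ) ≤ 16 * (n : ℝ) ^ 2 := by exact_mod_cast h2
    exact ⟨by positivity, pow_le_pow_left₀ (Nat.cast_nonneg _) h3 k⟩)
  have h2 : (16 * (n : ℝ) ^ 2) ^ k * H981.PP n / (n : ℝ) ^ (2 * k) = 16 ^ k * H981.PP n := by
    rw [mul_pow, ← pow_mul]
    field_simp
  rw [h2] at h1
  have h3 := PP_le_sL k hn
  have h4 := sL_le k hn
  have hs0 : 0 ≤ sL k n := by unfold sL; positivity
  have h5 : (1 : ℝ) ≤ Real.log n ^ 2 / Real.log 2 ^ 2 := by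
    rw [le_div_iff₀ (by positivity), one_mul]
    exact pow_le_pow_left₀ hl2.le hL2 2
  have h6 : 16 ^ k * H981.PP n ≤ 16 ^ k / Real.log 2 ^ 2 * Real.log n ^ 2 * sL k n := by
    calc 16 ^ k * H981.PP n ≤ 16 ^ k * sL k n := by gcongr
      _ ≤ 16 ^ k * sL k n * (Real.log n ^ 2 / Real.log 2 ^ 2) :=
          le_mul_of_one_le_right (by positivity) h5
      _ = _ := by ring
  calc ∑ g ∈ CanF (2 * n - 1), ((cutset g).card : ℝ) * (((aL g + 8 : ℕ) : ℝ)) ^ k ≤
        ∑ g ∈ CanF (2 * n - 1), 9 ^ k * (((cutset g).card : ℝ) * (aL g : ℝ) ^ k) := by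
          apply Finset.sum_le_sum
          intro g hg
          have h7 := (aL_bounds hn hg).1
          have h8 : ((aL g + 8 : ℕ) : ℝ) ≤ 9 * aL g := by
            have : aL g + 8 ≤ 9 * aL g := by omega
            exact_mod_cast this
          calc ((cutset g).card : ℝ) * (((aL g + 8 : ℕ) : ℝ)) ^ k ≤
                ((cutset g).card : ℝ) * (9 * (aL g : ℝ)) ^ k := by gcongr
            _ = _ := by rw [mul_pow]; ring
    _ = 9 ^ k * ∑ g ∈ CanF (2 * n - 1), ((cutset g).card : ℝ) * (aL g : ℝ) ^ k := by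
        rw [Finset.mul_sum]
    _ ≤ 9 ^ k * (C * Real.log n ^ 2 * sL k n + 16 ^ k / Real.log 2 ^ 2 * Real.log n ^ 2 * sL k n) := by
        apply mul_le_mul_of_nonneg_left _ (by positivity)
        unfold sL at h6 ⊢
        linarith
    _ = 9 ^ k * (C + 16 ^ k / Real.log 2 ^ 2) * Real.log n ^ 2 * sL k n := by ring
    _ ≤ 9 ^ k * (C + 16 ^ k / Real.log 2 ^ 2) * Real.log n ^ 2 *
        (2 * (aG k n * H981.mu ^ (2 * n))) := by gcongr
    _ = _ := by ring

/-- **pairs of high polygons** -/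
theorem pairs_k (k : ℕ) : ∃ C : ℝ, 0 ≤ C ∧ ∀ h n : ℕ, 2 ≤ n →
    h * ∑ j ∈ Finset.Icc 2 (n - 2), JJ (fun x => (x : ℝ) ^ k) h j (n - j) ≤
      C * Real.log n ^ 2 * (aG k n * H981.mu ^ (2 * n)) := by
  obtain ⟨C1, hC1, h1⟩ := cut_area k
  obtain ⟨C2, hC2, h2⟩ := aG_shift k
  have hmu := H981.mu_pos
  have hmu1 : 1 ≤ H981.mu := mu1
  have hC20 : 0 ≤ C2 := by linarith
  refine ⟨800 * (3 * (C1 * 9 * (C2 ^ 6 * H981.mu ^ 12))), by positivity, fun h n hn => ?_⟩
  have hn' : (2 : ℝ) ≤ n := by exact_mod_cast hn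
  have hG := aG_pos k hn
  refine (pairs_w (fun x => (x : ℝ) ^ k) (fun x => by positivity) (fun a b hab => by
    have : (a : ℝ) ≤ b := by exact_mod_cast hab
    simp only
    gcongr) h n hn).trans ?_
  have hR : ∀ a : ℕ, a ≤ 6 → ∑ g ∈ CanF (2 * (n + a) - 1),
      ((cutset g).card : ℝ) * (((aL g + 8 : ℕ) : ℝ)) ^ k ≤
      C1 * 9 * (C2 ^ 6 * H981.mu ^ 12) * (Real.log n ^ 2 * (aG k n * H981.mu ^ (2 * n))) := by
    intro a ha
    refine (h1 (n + a) (by omega)).trans ?_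
    have hlog : Real.log ((n + a : ℕ) : ℝ) ≤ 3 * Real.log n := by
      have h3 : ((n + a : ℕ) : ℝ) ≤ (n : ℝ) ^ 3 := by
        have : n + a ≤ n ^ 3 := by
          have h4 : n * 4 ≤ n ^ 3 := by
            have : 2 * 2 ≤ n * n := Nat.mul_le_mul hn hn
            calc n * 4 ≤ n * (n * n) := Nat.mul_le_mul_left n this
              _ = n ^ 3 := by ring
          omega
        exact_mod_cast this
      have h4 := Real.log_le_log (by push_cast; positivity) h3
      rw [Real.log_pow] at h4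
      exact_mod_cast h4
    have hlog0 : 0 ≤ Real.log ((n + a : ℕ) : ℝ) := Real.log_natCast_nonneg _
    have h5 := (h2 a n hn).1
    have e2 : H981.mu ^ (2 * (n + a)) = H981.mu ^ (2 * a) * H981.mu ^ (2 * n) := by
      rw [← pow_add]; congr 1; ring
    have h6 : C2 ^ a ≤ C2 ^ 6 := pow_le_pow_right₀ hC2 ha
    have h7 : H981.mu ^ (2 * a) ≤ H981.mu ^ 12 := pow_le_pow_right₀ hmu1 (by omega)
    have h8 : aG k (n + a) * H981.mu ^ (2 * (n + a)) ≤
        C2 ^ 6 * H981.mu ^ 12 * (aG k n * H981.mu ^ (2 * n)) := by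
      rw [e2]
      calc aG k (n + a) * (H981.mu ^ (2 * a) * H981.mu ^ (2 * n)) ≤
            (C2 ^ 6 * aG k n) * (H981.mu ^ 12 * H981.mu ^ (2 * n)) := by
              apply mul_le_mul _ _ (by positivity) (by positivity)
              · exact h5.trans (mul_le_mul_of_nonneg_right h6 hG.le)
              · exact mul_le_mul_of_nonneg_right h7 (by positivity)
        _ = _ := by ring
    have h9 : 0 ≤ aG k (n + a) * H981.mu ^ (2 * (n + a)) :=
      mul_nonneg (aG_pos k (by omega)).le (by positivity)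
    calc C1 * Real.log ((n + a : ℕ) : ℝ) ^ 2 * (aG k (n + a) * H981.mu ^ (2 * (n + a))) ≤
          C1 * (3 * Real.log n) ^ 2 * (C2 ^ 6 * H981.mu ^ 12 * (aG k n * H981.mu ^ (2 * n))) := by
            gcongr
      _ = _ := by ring
  have e : ∑ c ∈ ({9, 11, 13} : Finset ℕ), ∑ g ∈ CanF (2 * n - 2 + c),
      ((cutset g).card : ℝ) * (((aL g + 8 : ℕ) : ℝ)) ^ k =
      (∑ g ∈ CanF (2 * (n + 4) - 1), ((cutset g).card : ℝ) * (((aL g + 8 : ℕ) : ℝ)) ^ k) +
      (∑ g ∈ CanF (2 * (n + 5) - 1), ((cutset g).card : ℝ) * (((aL g + 8 : ℕ) : ℝ)) ^ k) +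
      (∑ g ∈ CanF (2 * (n + 6) - 1), ((cutset g).card : ℝ) * (((aL g + 8 : ℕ) : ℝ)) ^ k) := by
    rw [Finset.sum_insert (by decide), Finset.sum_insert (by decide), Finset.sum_singleton]
    rw [show 2 * n - 2 + 9 = 2 * (n + 4) - 1 by omega,
      show 2 * n - 2 + 11 = 2 * (n + 5) - 1 by omega,
      show 2 * n - 2 + 13 = 2 * (n + 6) - 1 by omega, add_assoc]
  have a1 := hR 4 (by norm_num)
  have a2 := hR 5 (by norm_num)
  have a3 := hR 6 (by norm_num)
  calc 800 * ∑ c ∈ ({9, 11, 13} : Finset ℕ), ∑ g ∈ CanF (2 * n - 2 + c),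
        ((cutset g).card : ℝ) * (((aL g + 8 : ℕ) : ℝ)) ^ k
      ≤ 800 * (3 * (C1 * 9 * (C2 ^ 6 * H981.mu ^ 12) *
        (Real.log n ^ 2 * (aG k n * H981.mu ^ (2 * n))))) := by
        rw [e]
        linarith
    _ = _ := by ring

/-! ### sums over pairs of loops -/

lemma VF_filter (h m : ℕ) (F : List V → ℝ) :
    ∑ A ∈ CanF m, (if 2 * h + 6 ≤ ht A then F A else 0) = ∑ A ∈ VF h m, F A := by
  unfold VF
  rw [Finset.sum_filter]

lemma loops_le_VF {N : ℕ} (hN : 2 ≤ N) {x h : ℕ} (hx : 2 * h + 6 ≤ x) (w : ℕ → ℝ)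
    (hw : ∀ y, 0 ≤ w y) : ∑ f ∈ LF (2 * N), (if x ≤ width (2 * N) f then w (area (2 * N) f) else 0) ≤
      4 * N * ∑ A ∈ VF h (2 * N - 1), w (aL A) := by
  have : NeZero (2 * N) := ⟨by omega⟩
  have h1 := loops_le (m := 2 * N) (by omega)
    (fun f => if x ≤ width (2 * N) f then w (area (2 * N) f) else 0)
    (fun A => if 2 * h + 6 ≤ ht A then w (aL A) else 0)
    (fun g _ => by split_ifs; exacts [hw _, le_rfl])
    (fun f g _ _ h1 h2 => by
      rw [h2]
      split_ifs with a1 a2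
      · exact le_rfl
      · omega
      · exact hw _
      · exact le_rfl)
  refine h1.trans (le_of_eq ?_)
  rw [VF_filter h (2 * N - 1) (fun A => w (aL A))]
  push_cast
  ring

/-- pairs of wide loops -/
def WW (w : ℕ → ℝ) (x j l : ℕ) : ℝ :=
  ∑ f ∈ LF (2 * j), ∑ g ∈ LF (2 * l),
    (if x ≤ width (2 * j) f ∧ x ≤ width (2 * l) g then w (area (2 * j) f + area (2 * l) g) else 0)

lemma WW_le {w : ℕ → ℝ} (hw : ∀ y, 0 ≤ w y) {x h j l : ℕ} (hj : 2 ≤ j) (hl : 2 ≤ l)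
    (hx : 2 * h + 6 ≤ x) : WW w x j l ≤ (4 * j) * ((4 * l) * JJ w h j l) := by
  unfold WW JJ
  set I : ℕ → ℝ := fun a => ∑ B ∈ VF h (2 * l - 1), w (a + aL B) with hI
  have hI0 : ∀ a, 0 ≤ I a := fun a => Finset.sum_nonneg fun _ _ => hw _
  have h1 : ∀ f ∈ LF (2 * j), ∑ g ∈ LF (2 * l),
      (if x ≤ width (2 * j) f ∧ x ≤ width (2 * l) g then w (area (2 * j) f + area (2 * l) g) else 0)
      ≤ (if x ≤ width (2 * j) f then 4 * l * I (area (2 * j) f) else 0) := by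
    intro f _
    by_cases hf : x ≤ width (2 * j) f
    · rw [if_pos hf]
      refine le_trans (le_of_eq ?_) (loops_le_VF hl hx (fun y => w (area (2 * j) f + y))
        (fun y => hw _))
      refine Finset.sum_congr rfl fun g _ => ?_
      by_cases hg : x ≤ width (2 * l) g
      · rw [if_pos ⟨hf, hg⟩, if_pos hg]
      · rw [if_neg (fun h => hg h.2), if_neg hg]
    · rw [if_neg hf]
      apply le_of_eq
      apply Finset.sum_eq_zero
      intro g _
      rw [if_neg (fun h => hf h.1)]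
  refine (Finset.sum_le_sum h1).trans ?_
  have h2 := loops_le_VF hj hx (fun a => 4 * l * I a) (fun a => mul_nonneg (by positivity) (hI0 a))
  refine h2.trans (le_of_eq ?_)
  rw [← Finset.mul_sum]

lemma sum_swR {m : ℕ} [NeZero m] (u : (ZMod m → V) → ℝ) :
    ∑ f ∈ LF m, u (swp f) = ∑ f ∈ LF m, u f := by
  refine Finset.sum_nbij' (fun f => swp f) (fun f => swp f) ?_ ?_ ?_ ?_ ?_
  · intro f hf
    rw [mem_LF] at hf ⊢
    exact swp_loop hf
  · intro f hf
    rw [mem_LF] at hf ⊢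
    exact swp_loop hf
  · intro f _; rfl
  · intro f _; rfl
  · intro f _; rfl

lemma half_wide {N M : ℕ} (hN : 2 ≤ N) (hM : (M + 1) ^ 2 ≤ 2 * N) (u : ℕ → ℝ)
    (hu : ∀ y, 0 ≤ u y) : ∑ f ∈ LF (2 * N), u (area (2 * N) f) ≤
      2 * ∑ f ∈ LF (2 * N), (if M ≤ width (2 * N) f then u (area (2 * N) f) else 0) := by
  have : NeZero (2 * N) := ⟨by omega⟩
  have h1 : ∑ f ∈ LF (2 * N), (if M ≤ height (2 * N) f then u (area (2 * N) f) else 0) =
      ∑ f ∈ LF (2 * N), (if M ≤ width (2 * N) f then u (area (2 * N) f) else 0) := by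
    rw [← sum_swR (fun f => if M ≤ width (2 * N) f then u (area (2 * N) f) else 0)]
    refine Finset.sum_congr rfl fun f hf => ?_
    have e : area (2 * N) (swp f) = area (2 * N) f := area_sw (mem_LF.mp hf).2.2
    rw [e, width_swp]
  have h0 : 2 * ∑ f ∈ LF (2 * N), (if M ≤ width (2 * N) f then u (area (2 * N) f) else 0) =
      ∑ f ∈ LF (2 * N), (if M ≤ width (2 * N) f then u (area (2 * N) f) else 0) +
      ∑ f ∈ LF (2 * N), (if M ≤ height (2 * N) f then u (area (2 * N) f) else 0) := by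
    rw [h1]; ring
  rw [h0, ← Finset.sum_add_distrib]
  apply Finset.sum_le_sum
  intro f hf
  have hb := box_card (mem_LF.mp hf).2.1
  have hor : M ≤ width (2 * N) f ∨ M ≤ height (2 * N) f := by
    by_contra hcon
    push Not at hcon
    have h2 : (width (2 * N) f + 1) * (height (2 * N) f + 1) ≤ M * M :=
      Nat.mul_le_mul (by omega) (by omega)
    nlinarith
  have hu0 := hu (area (2 * N) f)
  split_ifs with a1 a2
  · linarith
  · linarith
  · linarith
  · omega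

/-- pairs of loops -/
def PW (w : ℕ → ℝ) (j l : ℕ) : ℝ :=
  ∑ f ∈ LF (2 * j), ∑ g ∈ LF (2 * l), w (area (2 * j) f + area (2 * l) g)

lemma PW_le {w : ℕ → ℝ} (hw : ∀ y, 0 ≤ w y) {M j l : ℕ} (hj : 2 ≤ j) (hl : 2 ≤ l)
    (hMj : (M + 1) ^ 2 ≤ 2 * j) (hMl : (M + 1) ^ 2 ≤ 2 * l) : PW w j l ≤ 4 * WW w M j l := by
  unfold PW WW
  have h1 : ∀ f ∈ LF (2 * j), ∑ g ∈ LF (2 * l), w (area (2 * j) f + area (2 * l) g) ≤
      2 * ∑ g ∈ LF (2 * l), (if M ≤ width (2 * l) g then w (area (2 * j) f + area (2 * l) g) else 0) :=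
    fun f _ => half_wide hl hMl (fun y => w (area (2 * j) f + y)) (fun y => hw _)
  have h2 := half_wide hj hMj (fun a => 2 * ∑ g ∈ LF (2 * l),
    (if M ≤ width (2 * l) g then w (a + area (2 * l) g) else 0)) (fun a => by
      apply mul_nonneg (by norm_num)
      exact Finset.sum_nonneg fun g _ => by split_ifs; exacts [hw _, le_rfl])
  refine ((Finset.sum_le_sum h1).trans h2).trans (le_of_eq ?_)
  rw [show (4 : ℝ) = 2 * 2 by norm_num, mul_assoc]
  congr 1
  rw [Finset.mul_sum]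
  refine Finset.sum_congr rfl fun f _ => ?_
  by_cases hf : M ≤ width (2 * j) f
  · rw [if_pos hf]
    congr 1
    refine Finset.sum_congr rfl fun g _ => ?_
    by_cases hg : M ≤ width (2 * l) g
    · rw [if_pos hg, if_pos ⟨hf, hg⟩]
    · rw [if_neg hg, if_neg (fun h => hg h.2)]
  · rw [if_neg hf]
    symm
    rw [mul_eq_zero]
    right
    apply Finset.sum_eq_zero
    intro g _
    rw [if_neg (fun h => hf h.1)]

/-- normalised sums over pairs -/
def pk (k j l : ℕ) : ℝ := PW (fun x => (x : ℝ) ^ k) j l / (4 * j) / (4 * l) / H981.mu ^ (2 * (j + l))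

lemma pk_nonneg (k j l : ℕ) : 0 ≤ pk k j l := by
  have := H981.mu_pos
  unfold pk PW
  positivity

theorem joinA_big (k : ℕ) : ∃ C : ℝ, 0 ≤ C ∧ ∀ i n : ℕ, 256 ≤ i → 2 * i ≤ n →
    Real.sqrt i * ∑ j ∈ Finset.Icc i (n - i), pk k j (n - j) ≤ C * Real.log n ^ 2 * aG k n := by
  obtain ⟨C, hC, hj⟩ := pairs_k k
  have hmu := H981.mu_pos
  refine ⟨128 * C, by positivity, fun i n hi hin => ?_⟩
  obtain ⟨s, hs⟩ : ∃ s, s = Nat.sqrt i := ⟨_, rfl⟩
  have hs1 : s * s ≤ i := by rw [hs]; exact Nat.sqrt_le i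
  have hs2 : i < (s + 1) * (s + 1) := by rw [hs]; exact Nat.lt_succ_sqrt i
  have hs16 : 16 ≤ s := by
    by_contra hcon
    push Not at hcon
    have : (s + 1) * (s + 1) ≤ 16 * 16 := Nat.mul_le_mul (by omega) (by omega)
    omega
  obtain ⟨h, hh⟩ : ∃ h, h = s / 8 := ⟨_, rfl⟩
  have hh1 : 8 * h ≤ s := by omega
  have hh2 : s ≤ 16 * h := by omega
  have hh3 : (2 * h + 7) ^ 2 ≤ i := by
    have h1 : 2 * h + 7 ≤ s := by omega
    calc (2 * h + 7) ^ 2 ≤ s ^ 2 := Nat.pow_le_pow_left h1 2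
      _ = s * s := by ring
      _ ≤ i := hs1
  have hsq : Real.sqrt i ≤ 32 * h := by
    apply Real.sqrt_le_iff.mpr ⟨by positivity, ?_⟩
    have h1 : i ≤ (32 * h) ^ 2 := by
      have h2 : s + 1 ≤ 32 * h := by omega
      calc i ≤ (s + 1) * (s + 1) := hs2.le
        _ ≤ (32 * h) * (32 * h) := Nat.mul_le_mul h2 h2
        _ = _ := by ring
    exact_mod_cast h1
  have h1 := hj h n (by omega)
  have hw : ∀ y : ℕ, (0 : ℝ) ≤ (fun x : ℕ => (x : ℝ) ^ k) y := fun y => by positivity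
  have h2 : ∀ j ∈ Finset.Icc i (n - i), pk k j (n - j) ≤
      4 * JJ (fun x => (x : ℝ) ^ k) h j (n - j) / H981.mu ^ (2 * n) := by
    intro j hj
    rw [Finset.mem_Icc] at hj
    have hj2 : 2 ≤ j := by omega
    have hl2 : 2 ≤ n - j := by omega
    have hj0 : (0 : ℝ) < 4 * j := by
      have : (0 : ℝ) < j := by
        have : 0 < j := by omega
        exact_mod_cast this
      linarith
    have hl0 : (0 : ℝ) < 4 * ((n - j : ℕ) : ℝ) := by
      have : (0 : ℝ) < ((n - j : ℕ) : ℝ) := by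
        have : 0 < n - j := by omega
        exact_mod_cast this
      linarith
    have a1 := PW_le hw (M := 2 * h + 6) hj2 hl2 (by
      have : 2 * h + 6 + 1 = 2 * h + 7 := by ring
      rw [this]; omega) (by
      have : 2 * h + 6 + 1 = 2 * h + 7 := by ring
      rw [this]; omega)
    have a2 := WW_le hw (x := 2 * h + 6) (h := h) hj2 hl2 le_rfl
    unfold pk
    rw [show 2 * (j + (n - j)) = 2 * n by omega]
    apply div_le_div_of_nonneg_right _ (by positivity)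
    rw [div_le_iff₀ hl0, div_le_iff₀ hj0]
    refine a1.trans ?_
    calc 4 * WW (fun x => (x : ℝ) ^ k) (2 * h + 6) j (n - j) ≤
          4 * ((4 * j) * ((4 * ((n - j : ℕ) : ℝ)) * JJ (fun x => (x : ℝ) ^ k) h j (n - j))) := by
            gcongr
      _ = _ := by ring
  have h3 : ∑ j ∈ Finset.Icc i (n - i), pk k j (n - j) ≤
      4 * (∑ j ∈ Finset.Icc 2 (n - 2), JJ (fun x => (x : ℝ) ^ k) h j (n - j)) /
        H981.mu ^ (2 * n) := by
    calc ∑ j ∈ Finset.Icc i (n - i), pk k j (n - j) ≤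
          ∑ j ∈ Finset.Icc i (n - i),
            4 * JJ (fun x => (x : ℝ) ^ k) h j (n - j) / H981.mu ^ (2 * n) := Finset.sum_le_sum h2
      _ ≤ ∑ j ∈ Finset.Icc 2 (n - 2),
            4 * JJ (fun x => (x : ℝ) ^ k) h j (n - j) / H981.mu ^ (2 * n) := by
            apply Finset.sum_le_sum_of_subset_of_nonneg
            · intro j hj
              rw [Finset.mem_Icc] at hj ⊢
              omega
            · intro j _ _
              have := JJ_nonneg hw h j (n - j)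
              positivity
      _ = _ := by rw [← Finset.sum_div, ← Finset.mul_sum]
  have hS0 : 0 ≤ ∑ j ∈ Finset.Icc i (n - i), pk k j (n - j) :=
    Finset.sum_nonneg fun j _ => pk_nonneg _ _ _
  calc Real.sqrt i * ∑ j ∈ Finset.Icc i (n - i), pk k j (n - j)
      ≤ (32 * h) * (4 * (∑ j ∈ Finset.Icc 2 (n - 2), JJ (fun x => (x : ℝ) ^ k) h j (n - j)) /
        H981.mu ^ (2 * n)) := mul_le_mul hsq h3 hS0 (by positivity)
    _ = 128 * (h * ∑ j ∈ Finset.Icc 2 (n - 2), JJ (fun x => (x : ℝ) ^ k) h j (n - j)) /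
        H981.mu ^ (2 * n) := by ring
    _ ≤ 128 * (C * Real.log n ^ 2 * (aG k n * H981.mu ^ (2 * n))) / H981.mu ^ (2 * n) := by
        gcongr
    _ = _ := by field_simp

end

end Pool.Agent.Q228.SAP
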