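import Pool.Agent.Q228.SAP.AreaJ

/-!
# The area of a loop and of its list; sums over loops and sums over lists
-/

set_option autoImplicit false

namespace Pool.Agent.Q228.SAP

open Pool.Agent.H924P Pool.Agent.W870.Pg
open scoped Classical

noncomputable section

lemma pe_sum (L : List V) (c : ℤ × ℤ) :
    pe L c = ∑ i ∈ Finset.range (L.length - 1), ce (L.getD i (0, 0)) (L.getD (i + 1) (0, 0)) c := by
  induction L with
  | nil => rfl
  | cons a t ih =>
    cases t with
    | nil => simp [pe]
    | cons b t' =>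
      simp only [pe]
      rw [ih]
      have e : (a :: b :: t').length - 1 = ((b :: t').length - 1) + 1 := by simp
      rw [e, Finset.sum_range_succ']
      simp only [List.getD_cons_succ, List.getD_cons_zero]
      rw [add_comm]

lemma sum_zmod {m : ℕ} [NeZero m] (φ : ℕ → ℕ) :
    ∑ k : ZMod m, φ k.val = ∑ i ∈ Finset.range m, φ i := by
  refine Finset.sum_nbij' (fun k => k.val) (fun i => (i : ZMod m)) ?_ ?_ ?_ ?_ ?_
  · intro k _
    exact Finset.mem_range.mpr (ZMod.val_lt k)
  · intro i _
    exact Finset.mem_univ _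
  · intro k _
    simp
  · intro i hi
    exact ZMod.val_cast_of_lt (Finset.mem_range.mp hi)
  · intro k _
    rfl

/-- number of edges of a loop above a cell -/
def se {m : ℕ} [NeZero m] (F : ZMod m → V) (c : ℤ × ℤ) : ℕ := ∑ k : ZMod m, ce (F k) (F (k + 1)) c

lemma se_card {m : ℕ} [NeZero m] (F : ZMod m → V) (c : ℤ × ℤ) :
    Nat.card {k : ZMod m // Above m F c.1 c.2 k} = se F c := by
  rw [Nat.card_eq_fintype_card, Fintype.card_subtype, Finset.card_filter]
  unfold se
  refine Finset.sum_congr rfl fun k _ => ?_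
  unfold ce Above
  split_ifs <;> rfl

lemma area_se {m : ℕ} [NeZero m] (F : ZMod m → V) : area m F = Nat.card {c : ℤ × ℤ // Odd (se F c)} := by
  unfold area Encl
  refine Nat.card_congr (Equiv.subtypeEquivRight fun c => ?_)
  rw [se_card]

lemma se_cyc {g : List V} {m : ℕ} [NeZero m] (hl : g.length + 1 = m) (c : ℤ × ℤ) :
    se (cyc g m) c = pe (cl g) c := by
  have hL : (cl g).length - 1 = m := by unfold cl; simp [hl]
  have ecl : cl g = ((0, 0) :: g) ++ [(0, 0)] := by unfold cl; simp
  have hlen : ((0, 0) :: g).length = m := by simp [hl]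
  rw [pe_sum, hL, ← sum_zmod]
  unfold se
  refine Finset.sum_congr rfl fun k _ => ?_
  have hk := ZMod.val_lt k
  have h1 : cyc g m k = (cl g).getD k.val (0, 0) := by
    unfold cyc
    rw [ecl, List.getD_append _ _ _ _ (by omega)]
  have h2 : cyc g m (k + 1) = (cl g).getD (k.val + 1) (0, 0) := by
    by_cases h : k.val + 1 < m
    · have e : (k + 1).val = k.val + 1 := by
        rw [ZMod.val_add, ZMod.val_one'']
        · exact Nat.mod_eq_of_lt h
        · omega
      unfold cyc
      rw [e, ecl, List.getD_append _ _ _ _ (by omega)]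
    · have e : k + 1 = 0 := by
        have h1 : k.val + 1 = m := by omega
        have h2 : ((k.val + 1 : ℕ) : ZMod m) = 0 := by rw [h1]; exact ZMod.natCast_self m
        push_cast at h2
        rwa [ZMod.natCast_zmod_val] at h2
      rw [e, cyc_zero, ecl, List.getD_append_right _ _ _ _ (by omega)]
      have : k.val + 1 - ((0, 0) :: g).length = 0 := by omega
      rw [this]
      rfl
  rw [h1, h2]

lemma area_cyc {g : List V} {m : ℕ} [NeZero m] (hl : g.length + 1 = m) :
    area m (cyc g m) = aL g := by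
  rw [area_se]
  unfold aL
  rw [← Nat.card_coe_set_eq]
  refine Nat.card_congr (Equiv.subtypeEquivRight fun c => ?_)
  rw [se_cyc hl]
  rfl

lemma ce_sub (u v w : V) (c : ℤ × ℤ) : ce (u - w) (v - w) c = ce u v (c + w) := by
  unfold ce
  simp only [Prod.fst_sub, Prod.snd_sub, Prod.fst_add, Prod.snd_add]
  split_ifs <;> omega

/-- the area of a loop given by a list -/
lemma area_loop {g : List V} (hg : Can g) {m : ℕ} [NeZero m] (hl : g.length + 1 = m)
    {f : ZMod m → V} {k0 : ZMod m} {e : Bool}
    (hf : ∀ i, f i = cyc g m (dr e (i - k0)) - cyc g m (dr e (-k0))) : area m f = aL g := by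
  rw [← area_cyc hl, area_se, area_se]
  set w := cyc g m (dr e (-k0)) with hw
  refine Nat.card_congr ((Equiv.addRight w).subtypeEquiv fun c => ?_)
  simp only [Equiv.coe_addRight]
  have key : se f c = se (cyc g m) (c + w) := by
    unfold se
    have h1 : ∀ i, ce (f i) (f (i + 1)) c =
        ce (cyc g m (dr e (i - k0))) (cyc g m (dr e (i + 1 - k0))) (c + w) := by
      intro i
      rw [hf i, hf (i + 1), ce_sub]
    rw [Finset.sum_congr rfl fun i _ => h1 i]
    cases e with
    | false =>
      simp only [dr, Bool.false_eq_true, if_false]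
      refine Fintype.sum_equiv (Equiv.subRight k0) _ _ fun i => ?_
      rw [Equiv.subRight_apply, show i + 1 - k0 = i - k0 + 1 by ring]
    | true =>
      simp only [dr, if_true]
      refine Fintype.sum_equiv (Equiv.subLeft (k0 - 1)) _ _ fun i => ?_
      simp only [Equiv.subLeft_apply]
      rw [show -(i + 1 - k0) = k0 - 1 - i by ring, show -(i - k0) = k0 - 1 - i + 1 by ring]
      exact ce_symm (adj_symm (cyc_adj hg hl _)) _
  rw [key]

/-- a choice of a list for a loop, with the area -/
lemma exists_phi' (m : ℕ) (hm : 3 ≤ m) : ∃ φ : (ZMod m → V) → List V × ZMod m × Bool,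
    ∀ f, IsLoop m f → (Can (φ f).1 ∧ (φ f).1.length + 1 = m ∧
      (∀ i, f i = cyc (φ f).1 m (dr (φ f).2.2 (i - (φ f).2.1)) -
        cyc (φ f).1 m (dr (φ f).2.2 (-(φ f).2.1))) ∧ width m f ≤ ht (φ f).1 ∧
      area m f = aL (φ f).1) := by
  have : NeZero m := ⟨by omega⟩
  obtain ⟨φ, hφ⟩ := exists_phi m hm
  refine ⟨φ, fun f hf => ?_⟩
  obtain ⟨h1, h2, h3, h4⟩ := hφ f hf
  exact ⟨h1, h2, h3, h4, area_loop h1 h2 h3⟩

/-- sums over loops are bounded by sums over lists -/
lemma loops_le {m : ℕ} [NeZero m] (hm : 3 ≤ m) (u : (ZMod m → V) → ℝ) (w : List V → ℝ)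
    (hw : ∀ g ∈ CanF (m - 1), 0 ≤ w g)
    (h : ∀ f g, IsLoop m f → Can g → width m f ≤ ht g → area m f = aL g → u f ≤ w g) :
    ∑ f ∈ LF m, u f ≤ 2 * m * ∑ g ∈ CanF (m - 1), w g := by
  obtain ⟨φ, hφ⟩ := exists_phi' m hm
  have h1 : ∑ f ∈ LF m, u f ≤ ∑ f ∈ LF m, w (φ f).1 := by
    apply Finset.sum_le_sum
    intro f hf
    rw [mem_LF] at hf
    obtain ⟨a1, a2, a3, a4, a5⟩ := hφ f hf
    exact h f _ hf a1 a4 a5
  have h2 : ∑ f ∈ LF m, w (φ f).1 = ∑ x ∈ (LF m).image φ, w x.1 := by
    rw [Finset.sum_image]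
    intro f hf f' hf' he
    rw [Finset.mem_coe, mem_LF] at hf hf'
    funext i
    rw [(hφ f hf).2.2.1 i, (hφ f' hf').2.2.1 i, he]
  have h3 : (LF m).image φ ⊆ (CanF (m - 1)) ×ˢ ((Finset.univ : Finset (ZMod m)) ×ˢ
      (Finset.univ : Finset Bool)) := by
    intro x hx
    rw [Finset.mem_image] at hx
    obtain ⟨f, hf, rfl⟩ := hx
    rw [mem_LF] at hf
    obtain ⟨a1, a2, a3, a4, a5⟩ := hφ f hf
    simp only [Finset.mem_product, Finset.mem_univ, and_true, mem_CanF]
    exact ⟨a1, by omega⟩
  calc ∑ f ∈ LF m, u f ≤ ∑ x ∈ (LF m).image φ, w x.1 := by rw [← h2]; exact h1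
    _ ≤ ∑ x ∈ (CanF (m - 1)) ×ˢ ((Finset.univ : Finset (ZMod m)) ×ˢ
      (Finset.univ : Finset Bool)), w x.1 := by
        apply Finset.sum_le_sum_of_subset_of_nonneg h3
        intro x hx _
        rw [Finset.mem_product] at hx
        exact hw _ hx.1
    _ = 2 * m * ∑ g ∈ CanF (m - 1), w g := by
      rw [Finset.sum_product]
      simp only [Finset.sum_const, Finset.card_product, Finset.card_univ, ZMod.card,
        Fintype.card_bool, nsmul_eq_mul]
      rw [← Finset.mul_sum]
      push_cast
      ring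

/-- sums over lists are bounded by sums over loops -/
lemma lists_le {m : ℕ} [NeZero m] (w : ℕ → ℝ) (hw : ∀ x, 0 ≤ w x) :
    m * ∑ g ∈ CanF (m - 1), w (aL g) ≤ ∑ f ∈ LF m, w (area m f) := by
  have hm0 : 0 < m := Nat.pos_of_ne_zero (NeZero.ne m)
  set Ψ : List V × ZMod m → (ZMod m → V) :=
    fun x => fun i => cyc x.1 m (i - x.2) - cyc x.1 m (-x.2) with hΨ
  have hmem : ∀ x ∈ (CanF (m - 1)) ×ˢ (Finset.univ : Finset (ZMod m)), Can x.1 ∧
      x.1.length + 1 = m := by
    intro x hx
    rw [Finset.mem_product, mem_CanF] at hx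
    have hg0 : 0 < x.1.length := List.length_pos_iff.mpr hx.1.1.ne
    exact ⟨hx.1.1, by omega⟩
  have e1 : (m : ℝ) * ∑ g ∈ CanF (m - 1), w (aL g) =
      ∑ x ∈ (CanF (m - 1)) ×ˢ (Finset.univ : Finset (ZMod m)), w (area m (Ψ x)) := by
    rw [Finset.sum_product, Finset.mul_sum]
    refine Finset.sum_congr rfl fun g hg => ?_
    have h1 : ∀ k : ZMod m, area m (Ψ (g, k)) = aL g := by
      intro k
      obtain ⟨a1, a2⟩ := hmem (g, k) (Finset.mem_product.mpr ⟨hg, Finset.mem_univ _⟩)
      exact area_loop (e := false) a1 a2 (fun i => rfl)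
    rw [Finset.sum_congr rfl fun k _ => by rw [h1 k], Finset.sum_const, Finset.card_univ,
      ZMod.card, nsmul_eq_mul]
  rw [e1]
  have hinj : Set.InjOn Ψ ((CanF (m - 1)) ×ˢ (Finset.univ : Finset (ZMod m)) : Finset _) := by
    rintro ⟨g, k⟩ hx ⟨g', k'⟩ hx' h
    obtain ⟨hg, hm1⟩ := hmem _ (Finset.mem_coe.mp hx)
    obtain ⟨hg', hm1'⟩ := hmem _ (Finset.mem_coe.mp hx')
    simp only at hg hm1 hg' hm1'
    simp only [hΨ] at h
    have hk : k = k' := by
      by_contra hne
      have h1 := congrFun h k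
      have h2 := congrFun h k'
      simp only [sub_self, cyc_zero] at h1 h2
      have a1 := cyc_lp hg hm1 (i := k' - k) (sub_ne_zero.mpr (Ne.symm hne))
      have a2 := cyc_lp hg' hm1' (i := k - k') (sub_ne_zero.mpr hne)
      have b1 := congrArg Prod.fst h1
      have b2 := congrArg Prod.snd h1
      have b3 := congrArg Prod.fst h2
      have b4 := congrArg Prod.snd h2
      simp only [Prod.fst_sub, Prod.snd_sub] at b1 b2 b3 b4
      unfold lexpos at a1 a2
      omega
    subst hk
    have hc : cyc g m (-k) = cyc g' m (-k) := by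
      have := congrFun h k
      simp only [sub_self, cyc_zero] at this
      simpa using this
    have hcc : ∀ i, cyc g m i = cyc g' m i := by
      intro i
      have := congrFun h (i + k)
      simp only [add_sub_cancel_right] at this
      rw [hc] at this
      simpa using this
    have hgg : g = g' := by
      apply List.ext_getElem (by omega)
      intro i hi hi'
      have h1 := hcc ((i + 1 : ℕ) : ZMod m)
      unfold cyc at h1
      rw [ZMod.val_natCast, Nat.mod_eq_of_lt (by omega)] at h1
      rw [List.getD_cons_succ, List.getD_cons_succ, List.getD_eq_getElem _ _ hi,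
        List.getD_eq_getElem _ _ hi'] at h1
      exact h1
    subst hgg
    rfl
  rw [← Finset.sum_image (f := fun f => w (area m f)) hinj]
  apply Finset.sum_le_sum_of_subset_of_nonneg
  · intro f hf
    rw [Finset.mem_image] at hf
    obtain ⟨⟨g, k⟩, hx, rfl⟩ := hf
    obtain ⟨hg, hl'⟩ := hmem _ hx
    simp only at hg hl'
    rw [mem_LF]
    refine ⟨by simp [hΨ], ?_, ?_⟩
    · intro i j hij
      simp only [hΨ, sub_left_inj] at hij
      exact sub_left_injective (cyc_inj hg hl' hij)
    · intro i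
      rw [← adj_iff_abs]
      apply adj_sub
      have := cyc_adj hg hl' (i - k)
      have e2 : i - k + 1 = i + 1 - k := by ring
      rwa [e2] at this
  · intro f _ _
    exact hw _

end

end Pool.Agent.Q228.SAP
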