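import Pool.Agent.Q228.SAP.AreaW

/-!
# Joins and areas: means over pairs of loops
-/

set_option autoImplicit false

namespace Pool.Agent.Q228.SAP

open Pool.Agent.H924P Pool.Agent.W870.Pg Filter Topology
open Pool.Agent.H739K.MOM (MK MK_pos)
open Pool.Agent.H739K (me)
open scoped Classical

noncomputable section

lemma MK_zero {n : ℕ} (hn : 2 ≤ n) : MK 0 n = 1 := by
  have h := me_mul_PP hn (fun f => (area (2 * n) f : ℝ) ^ 0)
  have hP := Pool.Agent.H739K.PP_pos hn
  have hn0 : (0 : ℝ) < n := by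
    have : 0 < n := by omega
    exact_mod_cast this
  have h1 : ∑ f ∈ LF (2 * n), (area (2 * n) f : ℝ) ^ 0 = 4 * n * H981.PP n := by
    simp only [pow_zero]
    rw [Finset.sum_const, nsmul_eq_mul, mul_one]
    exact loops_eq (by omega)
  rw [h1] at h
  have h2 : MK 0 n * H981.PP n = 1 * H981.PP n := by
    unfold MK
    rw [h]
    field_simp
  exact mul_right_cancel₀ hP.ne' h2

lemma aG_zero {n : ℕ} (hn : 2 ≤ n) : aG 0 n = Fp n := by
  unfold aG
  rw [MK_zero hn, one_mul]

lemma pk_one {j l : ℕ} (hj : 2 ≤ j) (hl : 2 ≤ l) :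
    pk 1 j l * H981.mu ^ (2 * (j + l)) = H981.PP j * H981.PP l * (MK 1 j + MK 1 l) := by
  rw [pk_eq 1 hj hl]
  have hmu := H981.mu_pos
  have e : H981.mu ^ (2 * (j + l)) = H981.mu ^ (2 * j) * H981.mu ^ (2 * l) := by
    rw [← pow_add]; congr 1; ring
  rw [Finset.sum_range_succ, Finset.sum_range_one, e, aG_zero hj]
  simp only [Nat.choose_zero_right, Nat.cast_one, Nat.sub_zero, Nat.choose_self, Nat.sub_self,
    one_mul]
  rw [aG_zero hl]
  unfold aG Fp
  field_simp
  ring

lemma aG_PP (k n : ℕ) : aG k n * H981.mu ^ (2 * n) = H981.PP n * MK k n := by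
  have hmu := H981.mu_pos
  unfold aG Fp
  field_simp

/-- double means -/
lemma me2 {j l : ℕ} (hj : 2 ≤ j) (hl : 2 ≤ l)
    (F : (ZMod (2 * j) → ℤ × ℤ) → (ZMod (2 * l) → ℤ × ℤ) → ℝ) :
    H981.PP j * H981.PP l * me j (fun f => me l (fun g => F f g)) =
      (∑ f ∈ LF (2 * j), ∑ g ∈ LF (2 * l), F f g) / (4 * j) / (4 * (l : ℝ)) := by
  have h1 := me_mul_PP hj (fun f => me l (fun g => F f g))
  have h2 : ∀ f : ZMod (2 * j) → ℤ × ℤ,
      me l (fun g => F f g) * H981.PP l = (∑ g ∈ LF (2 * l), F f g) / (4 * l) := fun f =>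
    me_mul_PP hl (fun g => F f g)
  calc H981.PP j * H981.PP l * me j (fun f => me l (fun g => F f g)) =
        (me j (fun f => me l (fun g => F f g)) * H981.PP j) * H981.PP l := by ring
    _ = (∑ f ∈ LF (2 * j), me l (fun g => F f g) * H981.PP l) / (4 * j) := by
        rw [h1, ← Finset.sum_mul]
        ring
    _ = _ := by
        rw [Finset.sum_congr rfl fun f _ => h2 f, ← Finset.sum_div, div_right_comm]

/-- the moments of the sum of two independent areas -/
lemma pk_me (k : ℕ) {j l : ℕ} (hj : 2 ≤ j) (hl : 2 ≤ l) :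
    pk k j l * H981.mu ^ (2 * (j + l)) = H981.PP j * H981.PP l *
      me j (fun f => me l (fun g => (((area (2 * j) f + area (2 * l) g : ℕ) : ℝ)) ^ k)) := by
  rw [me2 hj hl]
  have hmu := H981.mu_pos
  unfold pk PW
  field_simp

end

end Pool.Agent.Q228.SAP
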