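import Pool.Agent.Q228.SAP.AreaF

/-!
# Join inequalities for the area: wide polygons, and the law of the area
-/

set_option autoImplicit false

namespace Pool.Agent.Q228.SAP

open Pool.Agent.H924P Pool.Agent.W870.Pg Filter Topology
open Pool.Agent.H739K.MOM (MK MK_pos)
open Pool.Agent.TH546.PC (VF MG mem_VF mem_MG)
open scoped Classical

noncomputable section

/-- normalised sums over pairs of wide polygons -/
def wk (k x j l : ℕ) : ℝ :=
  WW (fun x => (x : ℝ) ^ k) x j l / (4 * j) / (4 * l) / H981.mu ^ (2 * (j + l))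

lemma WW_nonneg {w : ℕ → ℝ} (hw : ∀ y, 0 ≤ w y) (x j l : ℕ) : 0 ≤ WW w x j l :=
  Finset.sum_nonneg fun _ _ => Finset.sum_nonneg fun _ _ => by split_ifs; exacts [hw _, le_rfl]

lemma WW_le_PW {w : ℕ → ℝ} (hw : ∀ y, 0 ≤ w y) (x j l : ℕ) : WW w x j l ≤ PW w j l := by
  unfold WW PW
  refine Finset.sum_le_sum fun f _ => Finset.sum_le_sum fun g _ => ?_
  split_ifs
  exacts [le_rfl, hw _]

lemma wk_nonneg (k x j l : ℕ) : 0 ≤ wk k x j l := by
  have := H981.mu_pos
  have h1 : 0 ≤ WW (fun x => (x : ℝ) ^ k) x j l := WW_nonneg (fun y => by positivity) x j l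
  unfold wk
  positivity

theorem wide_k (k : ℕ) : ∃ C : ℝ, 0 ≤ C ∧ ∀ x n : ℕ, 2 ≤ n →
    x * ∑ j ∈ Finset.Icc 2 (n - 2), wk k x j (n - j) ≤ C * Real.log n ^ 2 * aG k n := by
  obtain ⟨C1, hC1, h1⟩ := pairs_k k
  obtain ⟨C2, hC2, h2⟩ := joinA_all k
  have hmu := H981.mu_pos
  refine ⟨16 * C1 + 8 * C2, by positivity, fun x n hn => ?_⟩
  have hF := aG_pos k hn
  have hw : ∀ y : ℕ, (0 : ℝ) ≤ (fun x : ℕ => (x : ℝ) ^ k) y := fun y => by positivity
  by_cases hx8 : 8 ≤ x
  · obtain ⟨h, hh⟩ : ∃ h, h = (x - 6) / 2 := ⟨_, rfl⟩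
    have hx16 : x ≤ 16 * h := by omega
    have h3 := h1 h n hn
    have h4 : ∑ j ∈ Finset.Icc 2 (n - 2), wk k x j (n - j) ≤
        (∑ j ∈ Finset.Icc 2 (n - 2), JJ (fun x => (x : ℝ) ^ k) h j (n - j)) / H981.mu ^ (2 * n) := by
      rw [Finset.sum_div]
      apply Finset.sum_le_sum
      intro j hj
      rw [Finset.mem_Icc] at hj
      have hj0 : (0 : ℝ) < 4 * j := by
        have : (0 : ℝ) < j := by
          have : 0 < j := by omega
          exact_mod_cast this
        linarith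
      have hl0 : (0 : ℝ) < 4 * ((n - j : ℕ) : ℝ) := by
        have : (0 : ℝ) < ((n - j : ℕ) : ℝ) := by
          have : 0 < n - j := by omega
          exact_mod_cast this
        linarith
      have a2 := WW_le hw (x := x) (h := h) hj.1 (show 2 ≤ n - j by omega) (by omega)
      unfold wk
      rw [show 2 * (j + (n - j)) = 2 * n by omega]
      apply div_le_div_of_nonneg_right _ (by positivity)
      rw [div_le_iff₀ hl0, div_le_iff₀ hj0]
      refine a2.trans (le_of_eq (by ring))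
    have h5 : 0 ≤ ∑ j ∈ Finset.Icc 2 (n - 2), wk k x j (n - j) :=
      Finset.sum_nonneg fun j _ => wk_nonneg _ _ _ _
    have h6 : (x : ℝ) ≤ 16 * h := by exact_mod_cast hx16
    calc x * ∑ j ∈ Finset.Icc 2 (n - 2), wk k x j (n - j)
        ≤ 16 * h * ((∑ j ∈ Finset.Icc 2 (n - 2), JJ (fun x => (x : ℝ) ^ k) h j (n - j)) /
            H981.mu ^ (2 * n)) := mul_le_mul h6 h4 h5 (by positivity)
      _ = 16 * (h * ∑ j ∈ Finset.Icc 2 (n - 2), JJ (fun x => (x : ℝ) ^ k) h j (n - j)) /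
            H981.mu ^ (2 * n) := by ring
      _ ≤ 16 * (C1 * Real.log n ^ 2 * (aG k n * H981.mu ^ (2 * n))) / H981.mu ^ (2 * n) := by
          gcongr
      _ = 16 * C1 * Real.log n ^ 2 * aG k n := by field_simp
      _ ≤ _ := by
          have : 0 ≤ 8 * C2 * Real.log n ^ 2 * aG k n := by positivity
          linarith
  · push Not at hx8
    by_cases hn4 : 4 ≤ n
    · have h3 := h2 2 n le_rfl (by omega)
      have h4 : ∑ j ∈ Finset.Icc 2 (n - 2), wk k x j (n - j) ≤
          ∑ j ∈ Finset.Icc 2 (n - 2), pk k j (n - j) := by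
        apply Finset.sum_le_sum
        intro j _
        have := WW_le_PW hw x j (n - j)
        unfold wk pk
        gcongr
      have h5 : 0 ≤ ∑ j ∈ Finset.Icc 2 (n - 2), pk k j (n - j) :=
        Finset.sum_nonneg fun j _ => pk_nonneg _ _ _
      have h6 : (1 : ℝ) ≤ Real.sqrt ((2 : ℕ) : ℝ) := by
        rw [Real.one_le_sqrt]; norm_num
      have h7 : ∑ j ∈ Finset.Icc 2 (n - 2), pk k j (n - j) ≤ C2 * Real.log n ^ 2 * aG k n :=
        (le_mul_of_one_le_left h5 h6).trans h3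
      have h8 : (x : ℝ) ≤ 8 := by exact_mod_cast hx8.le
      calc x * ∑ j ∈ Finset.Icc 2 (n - 2), wk k x j (n - j)
          ≤ 8 * (C2 * Real.log n ^ 2 * aG k n) := by
            apply mul_le_mul h8 (h4.trans h7) _ (by norm_num)
            exact Finset.sum_nonneg fun j _ => wk_nonneg _ _ _ _
        _ ≤ _ := by
            have : 0 ≤ 16 * C1 * Real.log n ^ 2 * aG k n := by positivity
            linarith
    · rw [Finset.Icc_eq_empty (by omega), Finset.sum_empty, mul_zero]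
      positivity

/-- sums over pairs weighted with the smaller width -/
def MW2 (k j l : ℕ) : ℝ := ∑ f ∈ LF (2 * j), ∑ g ∈ LF (2 * l),
  ((min (width (2 * j) f) (width (2 * l) g) : ℕ) : ℝ) *
    (((area (2 * j) f + area (2 * l) g : ℕ) : ℝ)) ^ k

/-- **the smaller of two independent widths, weighted with the area** -/
theorem min_k (k : ℕ) : ∃ C : ℝ, 0 ≤ C ∧ ∀ n : ℕ, 2 ≤ n →
    ∑ j ∈ Finset.Icc 2 (n - 2), MW2 k j (n - j) / (4 * j) / (4 * ((n - j : ℕ) : ℝ)) ≤
      C * Real.log n ^ 3 * (aG k n * H981.mu ^ (2 * n)) := by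
  obtain ⟨C, hC, h⟩ := wide_k k
  have hl2 : 0 < Real.log 2 := Real.log_pos (by norm_num)
  refine ⟨2 * C * (4 / Real.log 2), by positivity, fun n hn => ?_⟩
  have hmu := H981.mu_pos
  have hF := aG_pos k hn
  have hn' : (2 : ℝ) ≤ n := by exact_mod_cast hn
  have hL2 : Real.log 2 ≤ Real.log n := Real.log_le_log (by norm_num) hn'
  obtain ⟨R, hR⟩ : ∃ R, R = Nat.log 2 (4 * n) + 1 := ⟨_, rfl⟩
  have hR1 : 4 * n < 2 ^ R := by rw [hR]; exact Nat.lt_pow_succ_log_self (by norm_num) _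
  have hR2 : (R : ℝ) ≤ 4 / Real.log 2 * Real.log n := by
    have h2 : ((Nat.log 2 (4 * n) : ℕ) : ℝ) * Real.log 2 ≤ Real.log (4 * n) := by
      rw [← Real.log_pow]
      apply Real.log_le_log (by positivity)
      exact_mod_cast Nat.pow_log_le_self 2 (by omega : 4 * n ≠ 0)
    have h3 : Real.log (4 * n) = 2 * Real.log 2 + Real.log n := by
      rw [Real.log_mul (by norm_num) (by linarith)]
      congr 1
      rw [show (4 : ℝ) = 2 ^ 2 by norm_num, Real.log_pow]; norm_num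
    rw [hR, div_mul_eq_mul_div, le_div_iff₀ hl2]
    push_cast
    nlinarith
  -- each term
  have hterm : ∀ j ∈ Finset.Icc 2 (n - 2),
      MW2 k j (n - j) / (4 * j) / (4 * ((n - j : ℕ) : ℝ)) ≤
      2 * ∑ r ∈ Finset.range R, (2 : ℝ) ^ r * wk k (2 ^ r) j (n - j) * H981.mu ^ (2 * n) := by
    intro j hj
    rw [Finset.mem_Icc] at hj
    have : NeZero (2 * j) := ⟨by omega⟩
    have hj0 : (0 : ℝ) < 4 * j := by
      have : (2 : ℝ) ≤ j := by exact_mod_cast hj.1
      linarith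
    have hnj : 2 ≤ n - j := by omega
    have hnj0 : (0 : ℝ) < 4 * ((n - j : ℕ) : ℝ) := by
      have : (2 : ℝ) ≤ ((n - j : ℕ) : ℝ) := by exact_mod_cast hnj
      linarith
    have h1 : ∀ f ∈ LF (2 * j), ∀ g ∈ LF (2 * (n - j)),
        ((min (width (2 * j) f) (width (2 * (n - j)) g) : ℕ) : ℝ) *
          (((area (2 * j) f + area (2 * (n - j)) g : ℕ) : ℝ)) ^ k ≤
        2 * ∑ r ∈ Finset.range R, (2 : ℝ) ^ r *
          (if 2 ^ r ≤ width (2 * j) f ∧ 2 ^ r ≤ width (2 * (n - j)) g then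
            (((area (2 * j) f + area (2 * (n - j)) g : ℕ) : ℝ)) ^ k else 0) := by
      intro f hf g _
      have hw := (all_width (mem_LF.mp hf))
      have h2 := dyadic (min (width (2 * j) f) (width (2 * (n - j)) g)) R (by
        refine lt_of_le_of_lt (min_le_left _ _) ?_
        omega)
      set b : ℝ := (((area (2 * j) f + area (2 * (n - j)) g : ℕ) : ℝ)) ^ k with hb
      have hb0 : 0 ≤ b := by rw [hb]; positivity
      calc ((min (width (2 * j) f) (width (2 * (n - j)) g) : ℕ) : ℝ) * b ≤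
            (2 * ∑ r ∈ Finset.range R,
              (if 2 ^ r ≤ min (width (2 * j) f) (width (2 * (n - j)) g) then (2 : ℝ) ^ r else 0)) * b := by
              gcongr
        _ = _ := by
            rw [mul_assoc, Finset.sum_mul]
            congr 1
            refine Finset.sum_congr rfl fun r _ => ?_
            by_cases a1 : 2 ^ r ≤ width (2 * j) f ∧ 2 ^ r ≤ width (2 * (n - j)) g
            · rw [if_pos (le_min a1.1 a1.2), if_pos a1]
            · rw [if_neg (fun h => a1 ⟨h.trans (min_le_left _ _), h.trans (min_le_right _ _)⟩),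
                if_neg a1]
              ring
    have h2 : MW2 k j (n - j) ≤ 2 * ∑ r ∈ Finset.range R, (2 : ℝ) ^ r *
        WW (fun x => (x : ℝ) ^ k) (2 ^ r) j (n - j) := by
      unfold MW2 WW
      calc _ ≤ ∑ f ∈ LF (2 * j), ∑ g ∈ LF (2 * (n - j)),
            2 * ∑ r ∈ Finset.range R, (2 : ℝ) ^ r *
          (if 2 ^ r ≤ width (2 * j) f ∧ 2 ^ r ≤ width (2 * (n - j)) g then
            (((area (2 * j) f + area (2 * (n - j)) g : ℕ) : ℝ)) ^ k else 0) :=
            Finset.sum_le_sum fun f hf => Finset.sum_le_sum fun g hg => h1 f hf g hg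
        _ = _ := by
            simp only [← Finset.mul_sum]
            congr 1
            rw [Finset.sum_congr rfl fun f _ => Finset.sum_comm, Finset.sum_comm]
            refine Finset.sum_congr rfl fun r _ => ?_
            rw [Finset.mul_sum]
            refine Finset.sum_congr rfl fun f _ => ?_
            rw [Finset.mul_sum]
    rw [div_le_iff₀ hnj0, div_le_iff₀ hj0]
    refine h2.trans (le_of_eq ?_)
    rw [Finset.mul_sum, Finset.mul_sum, Finset.sum_mul, Finset.sum_mul]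
    refine Finset.sum_congr rfl fun r _ => ?_
    unfold wk
    rw [show 2 * (j + (n - j)) = 2 * n by omega]
    have hj1 : (j : ℝ) ≠ 0 := by intro h0; rw [h0] at hj0; linarith
    have hnj1 : ((n - j : ℕ) : ℝ) ≠ 0 := by intro h0; rw [h0] at hnj0; linarith
    field_simp
  refine (Finset.sum_le_sum hterm).trans ?_
  rw [← Finset.mul_sum, Finset.sum_comm]
  have h5 : ∀ r ∈ Finset.range R, ∑ j ∈ Finset.Icc 2 (n - 2),
      (2 : ℝ) ^ r * wk k (2 ^ r) j (n - j) * H981.mu ^ (2 * n) ≤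
      C * Real.log n ^ 2 * (aG k n * H981.mu ^ (2 * n)) := by
    intro r _
    have h6 := h (2 ^ r) n hn
    push_cast at h6
    calc ∑ j ∈ Finset.Icc 2 (n - 2), (2 : ℝ) ^ r * wk k (2 ^ r) j (n - j) * H981.mu ^ (2 * n) =
          (2 ^ r * ∑ j ∈ Finset.Icc 2 (n - 2), wk k (2 ^ r) j (n - j)) * H981.mu ^ (2 * n) := by
            rw [Finset.mul_sum, Finset.sum_mul]
      _ ≤ (C * Real.log n ^ 2 * aG k n) * H981.mu ^ (2 * n) := by gcongr
      _ = _ := by ring
  calc 2 * ∑ r ∈ Finset.range R, ∑ j ∈ Finset.Icc 2 (n - 2),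
        (2 : ℝ) ^ r * wk k (2 ^ r) j (n - j) * H981.mu ^ (2 * n)
      ≤ 2 * ∑ r ∈ Finset.range R, C * Real.log n ^ 2 * (aG k n * H981.mu ^ (2 * n)) := by
        gcongr with r hr
        exact h5 r hr
    _ = 2 * (R * (C * Real.log n ^ 2 * (aG k n * H981.mu ^ (2 * n)))) := by
        rw [Finset.sum_const, Finset.card_range, nsmul_eq_mul]
    _ ≤ 2 * (4 / Real.log 2 * Real.log n * (C * Real.log n ^ 2 * (aG k n * H981.mu ^ (2 * n)))) := by
        gcongr
    _ = _ := by ring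

/-! ### the law of the area -/

/-- **the join inequality for the law of the area** -/
theorem join_law (d : ℕ) : ∃ C : ℝ, 0 ≤ C ∧ ∀ i n : ℕ, 256 ≤ i → 2 * i ≤ n →
    ∀ w : ℕ → ℝ, Monotone w → (∀ x, 0 ≤ w x ∧ w x ≤ 1) →
    Real.sqrt i * ∑ j ∈ Finset.Icc i (n - i), PW w j (n - j) / (4 * j) / (4 * ((n - j : ℕ) : ℝ)) ≤
      C * (Real.log n ^ 2 * ∑ c ∈ ({4, 5, 6} : Finset ℕ),
        (∑ f ∈ LF (2 * (n + c)), w (area (2 * (n + c)) f + 8)) / (4 * ((n + c : ℕ) : ℝ)) +
        H981.PP n / (n : ℝ) ^ d) := by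
  obtain ⟨C1, hC1, hcut⟩ := cut_w d
  obtain ⟨C2, hC2, hsh⟩ := shift
  have hmu := H981.mu_pos
  have hmu1 : 1 ≤ H981.mu := mu1
  have hC20 : 0 ≤ C2 := by linarith
  refine ⟨128 * 800 * (18 * C1 + 3 * (C2 ^ 6 * H981.mu ^ 12)), by positivity,
    fun i n hi hin w hmono hw => ?_⟩
  have hw0 : ∀ x, 0 ≤ w x := fun x => (hw x).1
  have hn : 2 ≤ n := by omega
  have hn' : (2 : ℝ) ≤ n := by exact_mod_cast hn
  have hn0 : (0 : ℝ) < n := by linarith
  obtain ⟨s, hs⟩ : ∃ s, s = Nat.sqrt i := ⟨_, rfl⟩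
  have hs1 : s * s ≤ i := by rw [hs]; exact Nat.sqrt_le i
  have hs2 : i < (s + 1) * (s + 1) := by rw [hs]; exact Nat.lt_succ_sqrt i
  have hs16 : 16 ≤ s := by
    by_contra hcon
    push Not at hcon
    have : (s + 1) * (s + 1) ≤ 16 * 16 := Nat.mul_le_mul (by omega) (by omega)
    omega
  obtain ⟨h, hh⟩ : ∃ h, h = s / 8 := ⟨_, rfl⟩
  have hh1 : 8 * h ≤ s := by omega
  have hh2 : s ≤ 16 * h := by omega
  have hh3 : (2 * h + 7) ^ 2 ≤ i := by
    have h1 : 2 * h + 7 ≤ s := by omega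
    calc (2 * h + 7) ^ 2 ≤ s ^ 2 := Nat.pow_le_pow_left h1 2
      _ = s * s := by ring
      _ ≤ i := hs1
  have hsq : Real.sqrt i ≤ 32 * h := by
    apply Real.sqrt_le_iff.mpr ⟨by positivity, ?_⟩
    have h1 : i ≤ (32 * h) ^ 2 := by
      have h2 : s + 1 ≤ 32 * h := by omega
      calc i ≤ (s + 1) * (s + 1) := hs2.le
        _ ≤ (32 * h) * (32 * h) := Nat.mul_le_mul h2 h2
        _ = _ := by ring
    exact_mod_cast h1
  have hlog0 : 0 ≤ Real.log (n : ℝ) := Real.log_natCast_nonneg _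
  -- the right side
  have hPn : 0 < H981.PP n := PP_pos hn
  obtain ⟨T, hT⟩ : ∃ T : ℕ → ℝ, T = fun c =>
    (∑ f ∈ LF (2 * (n + c)), w (area (2 * (n + c)) f + 8)) / (4 * ((n + c : ℕ) : ℝ)) := ⟨_, rfl⟩
  have hT0 : ∀ c, 0 ≤ T c := fun c => by
    rw [hT]
    exact div_nonneg (Finset.sum_nonneg fun _ _ => hw0 _) (by positivity)
  have hR : ∀ a : ℕ, a ≤ 6 → ∑ g ∈ CanF (2 * (n + a) - 1), ((cutset g).card : ℝ) * w (aL g + 8) ≤
      18 * C1 * (Real.log n ^ 2 * T a) + C2 ^ 6 * H981.mu ^ 12 * (H981.PP n / (n : ℝ) ^ d) := by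
    intro a ha
    have hN : 2 ≤ n + a := by omega
    have : NeZero (2 * (n + a)) := ⟨by omega⟩
    have h1 := hcut (n + a) hN (fun g => w (aL g + 8)) 1 (fun g _ => hw _)
    have hlog : Real.log ((n + a : ℕ) : ℝ) ≤ 3 * Real.log n := by
      have h3 : ((n + a : ℕ) : ℝ) ≤ (n : ℝ) ^ 3 := by
        have : n + a ≤ n ^ 3 := by
          have h4 : n * 4 ≤ n ^ 3 := by
            have : 2 * 2 ≤ n * n := Nat.mul_le_mul hn hn
            calc n * 4 ≤ n * (n * n) := Nat.mul_le_mul_left n this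
              _ = n ^ 3 := by ring
          omega
        exact_mod_cast this
      have h4 := Real.log_le_log (by push_cast; positivity) h3
      rw [Real.log_pow] at h4
      exact_mod_cast h4
    have hlog1 : 0 ≤ Real.log ((n + a : ℕ) : ℝ) := Real.log_natCast_nonneg _
    have h2 : ∑ g ∈ CanF (2 * (n + a) - 1), w (aL g + 8) ≤ 2 * T a := by
      have h3 := lists_le (m := 2 * (n + a)) (fun x => w (x + 8)) (fun x => hw0 _)
      have hNa : (0 : ℝ) < 4 * ((n + a : ℕ) : ℝ) := by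
        have : (0 : ℝ) < ((n + a : ℕ) : ℝ) := by
          have : 0 < n + a := by omega
          exact_mod_cast this
        linarith
      rw [hT]
      simp only
      rw [mul_div_assoc', le_div_iff₀ hNa]
      push_cast at h3 ⊢
      linarith
    have h4 : H981.PP (n + a) / ((n + a : ℕ) : ℝ) ^ d ≤
        C2 ^ 6 * H981.mu ^ 12 * (H981.PP n / (n : ℝ) ^ d) := by
      have h5 := (hsh a n hn).1
      have hFn := Fp_pos hn
      have e : ∀ N, H981.PP N = Fp N * H981.mu ^ (2 * N) := fun N => by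
        unfold Fp; field_simp
      have e2 : H981.mu ^ (2 * (n + a)) = H981.mu ^ (2 * a) * H981.mu ^ (2 * n) := by
        rw [← pow_add]; congr 1; ring
      have h6 : C2 ^ a ≤ C2 ^ 6 := pow_le_pow_right₀ hC2 ha
      have h7 : H981.mu ^ (2 * a) ≤ H981.mu ^ 12 := pow_le_pow_right₀ hmu1 (by omega)
      have h8 : H981.PP (n + a) ≤ C2 ^ 6 * H981.mu ^ 12 * H981.PP n := by
        rw [e (n + a), e n, e2]
        calc Fp (n + a) * (H981.mu ^ (2 * a) * H981.mu ^ (2 * n)) ≤
              (C2 ^ 6 * Fp n) * (H981.mu ^ 12 * H981.mu ^ (2 * n)) := by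
                apply mul_le_mul _ _ (by positivity) (by positivity)
                · exact h5.trans (mul_le_mul_of_nonneg_right h6 hFn.le)
                · exact mul_le_mul_of_nonneg_right h7 (by positivity)
          _ = _ := by ring
      have h9 : (n : ℝ) ≤ ((n + a : ℕ) : ℝ) := by
        have : n ≤ n + a := by omega
        exact_mod_cast this
      calc H981.PP (n + a) / ((n + a : ℕ) : ℝ) ^ d ≤
            (C2 ^ 6 * H981.mu ^ 12 * H981.PP n) / (n : ℝ) ^ d := by gcongr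
        _ = _ := by ring
    rw [one_mul] at h1
    have hs0 : 0 ≤ ∑ g ∈ CanF (2 * (n + a) - 1), w (aL g + 8) :=
      Finset.sum_nonneg fun _ _ => hw0 _
    have hTa := hT0 a
    calc _ ≤ _ := h1
      _ ≤ C1 * (3 * Real.log n) ^ 2 * (2 * T a) +
          C2 ^ 6 * H981.mu ^ 12 * (H981.PP n / (n : ℝ) ^ d) := by gcongr
      _ = _ := by ring
  have hpairs := pairs_w w hw0 hmono h n hn
  have e : ∑ c ∈ ({9, 11, 13} : Finset ℕ), ∑ g ∈ CanF (2 * n - 2 + c),
      ((cutset g).card : ℝ) * w (aL g + 8) =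
      (∑ g ∈ CanF (2 * (n + 4) - 1), ((cutset g).card : ℝ) * w (aL g + 8)) +
      (∑ g ∈ CanF (2 * (n + 5) - 1), ((cutset g).card : ℝ) * w (aL g + 8)) +
      (∑ g ∈ CanF (2 * (n + 6) - 1), ((cutset g).card : ℝ) * w (aL g + 8)) := by
    rw [Finset.sum_insert (by decide), Finset.sum_insert (by decide), Finset.sum_singleton]
    rw [show 2 * n - 2 + 9 = 2 * (n + 4) - 1 by omega,
      show 2 * n - 2 + 11 = 2 * (n + 5) - 1 by omega,
      show 2 * n - 2 + 13 = 2 * (n + 6) - 1 by omega, add_assoc]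
  have a1 := hR 4 (by norm_num)
  have a2 := hR 5 (by norm_num)
  have a3 := hR 6 (by norm_num)
  rw [e] at hpairs
  have eT : ∑ c ∈ ({4, 5, 6} : Finset ℕ), T c = T 4 + T 5 + T 6 := by
    rw [Finset.sum_insert (by decide), Finset.sum_insert (by decide), Finset.sum_singleton,
      add_assoc]
  set E0 := H981.PP n / (n : ℝ) ^ d with hE0
  have hE00 : 0 ≤ E0 := by positivity
  have hRR : h * ∑ j ∈ Finset.Icc 2 (n - 2), JJ w h j (n - j) ≤
      800 * (18 * C1 * (Real.log n ^ 2 * (T 4 + T 5 + T 6)) +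
        3 * (C2 ^ 6 * H981.mu ^ 12 * E0)) := by
    refine hpairs.trans ?_
    linarith
  -- the left side
  have h2 : ∀ j ∈ Finset.Icc i (n - i), PW w j (n - j) / (4 * j) / (4 * ((n - j : ℕ) : ℝ)) ≤
      4 * JJ w h j (n - j) := by
    intro j hj
    rw [Finset.mem_Icc] at hj
    have hj2 : 2 ≤ j := by omega
    have hl2 : 2 ≤ n - j := by omega
    have hj0 : (0 : ℝ) < 4 * j := by
      have : (0 : ℝ) < j := by
        have : 0 < j := by omega
        exact_mod_cast this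
      linarith
    have hl0 : (0 : ℝ) < 4 * ((n - j : ℕ) : ℝ) := by
      have : (0 : ℝ) < ((n - j : ℕ) : ℝ) := by
        have : 0 < n - j := by omega
        exact_mod_cast this
      linarith
    have a1 := PW_le hw0 (M := 2 * h + 6) hj2 hl2 (by
      have : 2 * h + 6 + 1 = 2 * h + 7 := by ring
      rw [this]; omega) (by
      have : 2 * h + 6 + 1 = 2 * h + 7 := by ring
      rw [this]; omega)
    have a2 := WW_le hw0 (x := 2 * h + 6) (h := h) hj2 hl2 le_rfl
    rw [div_le_iff₀ hl0, div_le_iff₀ hj0]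
    refine a1.trans ?_
    calc 4 * WW w (2 * h + 6) j (n - j) ≤
          4 * ((4 * j) * ((4 * ((n - j : ℕ) : ℝ)) * JJ w h j (n - j))) := by gcongr
      _ = _ := by ring
  have h3 : ∑ j ∈ Finset.Icc i (n - i), PW w j (n - j) / (4 * j) / (4 * ((n - j : ℕ) : ℝ)) ≤
      4 * ∑ j ∈ Finset.Icc 2 (n - 2), JJ w h j (n - j) := by
    rw [Finset.mul_sum]
    refine (Finset.sum_le_sum h2).trans ?_
    apply Finset.sum_le_sum_of_subset_of_nonneg
    · intro j hj
      rw [Finset.mem_Icc] at hj ⊢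
      omega
    · intro j _ _
      have := JJ_nonneg hw0 h j (n - j)
      positivity
  have hS0 : 0 ≤ ∑ j ∈ Finset.Icc i (n - i),
      PW w j (n - j) / (4 * j) / (4 * ((n - j : ℕ) : ℝ)) := by
    apply Finset.sum_nonneg
    intro j _
    have : 0 ≤ PW w j (n - j) := Finset.sum_nonneg fun _ _ => Finset.sum_nonneg fun _ _ => hw0 _
    positivity
  have hTT : 0 ≤ Real.log n ^ 2 * (T 4 + T 5 + T 6) := by
    have := hT0 4
    have := hT0 5
    have := hT0 6
    positivity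
  have hM : 0 ≤ C2 ^ 6 * H981.mu ^ 12 := by positivity
  calc _ ≤ (32 * h) * (4 * ∑ j ∈ Finset.Icc 2 (n - 2), JJ w h j (n - j)) :=
        mul_le_mul hsq h3 hS0 (by positivity)
    _ = 128 * (h * ∑ j ∈ Finset.Icc 2 (n - 2), JJ w h j (n - j)) := by ring
    _ ≤ 128 * (800 * (18 * C1 * (Real.log n ^ 2 * (T 4 + T 5 + T 6)) +
        3 * (C2 ^ 6 * H981.mu ^ 12 * E0))) := by gcongr
    _ ≤ 128 * 800 * (18 * C1 + 3 * (C2 ^ 6 * H981.mu ^ 12)) *
        (Real.log n ^ 2 * (T 4 + T 5 + T 6) + E0) := by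
        have b1 : 0 ≤ C1 * E0 := by positivity
        have b2 : 0 ≤ (C2 ^ 6 * H981.mu ^ 12) * (Real.log n ^ 2 * (T 4 + T 5 + T 6)) := by positivity
        nlinarith
    _ = _ := by
        rw [← eT, hT]

end

end Pool.Agent.Q228.SAP
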