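import Pool.Agent.Q228.SAP.Swap
import Pool.Agent.W387.Q.Mom
import Pool.Agent.W387.Q.Hyp

/-!
# Joint moments of area and width of self-avoiding polygons
-/

set_option autoImplicit false
set_option linter.unusedVariables false
set_option linter.unusedSectionVars false

namespace Pool.Agent.Q228.SAP

open Finset Pool.Agent.H976R2 Pool.Agent.H976R2.Lip Pool.Agent.H924P
open Pool.Agent.H739K hiding rN f0 f1 f2 f3 f4
open scoped Classical

noncomputable section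

/-- the area of the polygon of a word is at least a quarter of the perimeter -/
lemma ar_ge {w : List Dir} (h3 : 3 ≤ w.length) (hs : Saw w) (hq : sq w = 1) :
    (w.length : ℝ) + 1 ≤ 4 * ar w := by
  have hl := F2aux.loop_of CONV_proof h3 hs hq
  have h := area_ge_quarter (m := w.length + 1) (by omega) hl
  exact_mod_cast h

lemma ar_le {w : List Dir} {m : ℕ} (h3 : 3 ≤ w.length) (hs : Saw w) (hq : sq w = 1)
    (h2 : w.length ≤ m + 4) : (ar w : ℝ) ≤ 4 * ((m : ℝ) + 5) ^ 2 := by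
  have hl := F2aux.loop_of CONV_proof h3 hs hq
  have h3 : ar w ≤ (2 * (w.length + 1)) ^ 2 := by
    have : NeZero (w.length + 1) := ⟨by omega⟩
    exact all_area hl
  have h4 : (ar w : ℝ) ≤ (2 * ((w.length : ℝ) + 1)) ^ 2 := by exact_mod_cast h3
  have h5 : (w.length : ℝ) ≤ (m : ℝ) + 4 := by exact_mod_cast h2
  refine h4.trans ?_
  calc (2 * ((w.length : ℝ) + 1)) ^ 2 ≤ (2 * ((m : ℝ) + 5)) ^ 2 :=
        pow_le_pow_left₀ (by positivity) (by linarith) 2
    _ = _ := by ring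

lemma bx_le' {w : List Dir} {m : ℕ} (h2 : w.length ≤ m + 4) : (bx w : ℝ) ≤ 4 * ((m : ℝ) + 5) := by
  have h3 : (bx w : ℝ) ≤ 4 * w.length := by exact_mod_cast F3x.bx_le w
  have h4 : (w.length : ℝ) ≤ m + 4 := by exact_mod_cast h2
  linarith

lemma bx_ins_le {w : List Dir} (hs : Saw w) {i : ℕ} {e : Dir} (hp : (i, e) ∈ adm w) :
    bx (ins w i e) ≤ bx w + 1 := by
  obtain ⟨Mx, mx, My, my, hb, h1, h2, h3, h4⟩ := BOXx.exists_box w
  rw [Pool.Agent.H976R2.Lip.mem_adm hs] at hp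
  have := BOXx.bx_ins w i e hp.1 hp.2.1 Mx mx My my hb h1 h2 h3 h4
  split_ifs at this <;> omega

/-- the algebraic estimate -/
lemma alg {A A' B V V' : ℝ} (i j : ℕ) (hA : 1 ≤ A) (hA' : |A' - A| ≤ 1) (hA0 : 0 ≤ A')
    (hB : 1 ≤ B) (hV : 0 ≤ V) (hVV : V ≤ V') (hV' : V' ≤ 2 * B) :
    |A' ^ i * V' ^ j - A ^ i * V ^ j| ≤
      i * (2 * A) ^ (i - 1) * (2 * B) ^ j + A ^ i * (j * (2 * B) ^ (j - 1) * (V' - V)) := by
  have h1 : A' ^ i * V' ^ j - A ^ i * V ^ j = (A' ^ i - A ^ i) * V' ^ j + A ^ i * (V' ^ j - V ^ j) := by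
    ring
  have hV'0 : 0 ≤ V' := hV.trans hVV
  have h2 : |A' ^ i - A ^ i| ≤ i * (2 * A) ^ (i - 1) := by
    refine (abs_pow_sub_pow_le A' A i).trans ?_
    have h3 : max |A'| |A| ≤ 2 * A := by
      rw [abs_of_nonneg hA0, abs_of_nonneg (by linarith)]
      have := (abs_le.mp hA').2
      exact max_le (by linarith) (by linarith)
    calc |A' - A| * i * max |A'| |A| ^ (i - 1) ≤ 1 * i * (2 * A) ^ (i - 1) := by gcongr
      _ = _ := by ring
  have h3 : |V' ^ j - V ^ j| ≤ j * (2 * B) ^ (j - 1) * (V' - V) := by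
    refine (abs_pow_sub_pow_le V' V j).trans ?_
    have h4 : max |V'| |V| ≤ 2 * B := by
      rw [abs_of_nonneg hV'0, abs_of_nonneg hV]
      exact max_le hV' (by linarith)
    rw [abs_of_nonneg (sub_nonneg.mpr hVV)]
    calc (V' - V) * j * max |V'| |V| ^ (j - 1) ≤ (V' - V) * j * (2 * B) ^ (j - 1) := by
          have : 0 ≤ (V' - V) * j := mul_nonneg (sub_nonneg.mpr hVV) (Nat.cast_nonneg _)
          gcongr
      _ = _ := by ring
  rw [h1]
  refine (abs_add_le _ _).trans ?_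
  rw [abs_mul, abs_mul, abs_of_nonneg (pow_nonneg hV'0 j), abs_of_nonneg (pow_nonneg (by linarith : 0 ≤ A) i)]
  apply add_le_add
  · apply mul_le_mul h2 (pow_le_pow_left₀ hV'0 hV' j) (pow_nonneg hV'0 j) (by positivity)
  · exact mul_le_mul_of_nonneg_left h3 (by positivity)

/-- total influence of the insertions on a product of powers -/
lemma infl {w : List Dir} (h3 : 3 ≤ w.length) (hs : Saw w) (hq : sq w = 1) (i j : ℕ)
    (v : List Dir → ℝ) (hv0 : ∀ u, 0 ≤ v u) (hvb : ∀ u, v u ≤ bx u)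
    (hv1 : ∀ p ∈ adm w, v w ≤ v (ins w p.1 p.2))
    (hv2 : ∀ p ∈ adm w, v (ins w p.1 p.2) - v w ≤ (bx (ins w p.1 p.2) : ℝ) - bx w) :
    ∑ p ∈ adm w, |(ar (ins w p.1 p.2) : ℝ) ^ i * v (ins w p.1 p.2) ^ j - (ar w : ℝ) ^ i * v w ^ j| ≤
      (8 * i + 6 * j) * 2 ^ (i + j) * ((ar w : ℝ) ^ i * (bx w : ℝ) ^ j) := by
  have hA4 := ar_ge h3 hs hq
  have hl3 : (3 : ℝ) ≤ w.length := by exact_mod_cast h3
  have hA1 : (1 : ℝ) ≤ ar w := by linarith
  have hB1 : (1 : ℝ) ≤ bx w := by exact_mod_cast F3x.bx_pos w (by omega)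
  have key : ∀ p ∈ adm w, |(ar (ins w p.1 p.2) : ℝ) ^ i * v (ins w p.1 p.2) ^ j -
      (ar w : ℝ) ^ i * v w ^ j| ≤ i * (2 * (ar w : ℝ)) ^ (i - 1) * (2 * (bx w : ℝ)) ^ j +
        (ar w : ℝ) ^ i * (j * (2 * (bx w : ℝ)) ^ (j - 1)) *
          ((bx (ins w p.1 p.2) : ℝ) - bx w) := by
    rintro ⟨k, e⟩ hp
    obtain ⟨a1, a2⟩ := AREA_proof w k e h3 hs hq hp
    have b1 : (ar (ins w k e) : ℝ) ≤ ar w + 1 := by exact_mod_cast a1
    have b2 : (ar w : ℝ) ≤ ar (ins w k e) + 1 := by exact_mod_cast a2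
    have b3 : (bx (ins w k e) : ℝ) ≤ bx w + 1 := by exact_mod_cast bx_ins_le hs hp
    have c1 := hv1 _ hp
    have c2 := hv2 _ hp
    have c3 := hvb (ins w k e)
    have h := alg (A := ar w) (A' := ar (ins w k e)) (B := bx w) (V := v w) (V' := v (ins w k e)) i j
      hA1 (by rw [abs_le]; constructor <;> linarith) (Nat.cast_nonneg _) hB1 (hv0 w) c1 (by
        linarith)
    refine h.trans ?_
    apply add_le_add le_rfl
    rw [mul_assoc ((ar w : ℝ) ^ i)]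
    apply mul_le_mul_of_nonneg_left _ (by positivity)
    exact mul_le_mul_of_nonneg_left c2 (by positivity)
  refine (Finset.sum_le_sum key).trans ?_
  rw [Finset.sum_add_distrib, Finset.sum_const, nsmul_eq_mul, ← Finset.mul_sum]
  have h4 : ((adm w).card : ℝ) ≤ 2 * w.length := by exact_mod_cast AA_le w
  have h5 : ((adm w).card : ℝ) ≤ 8 * ar w := by linarith
  have h6 := (BOX_proof w h3 hs hq).2
  have e1 : ((adm w).card : ℝ) * (i * (2 * (ar w : ℝ)) ^ (i - 1) * (2 * (bx w : ℝ)) ^ j) ≤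
      8 * i * 2 ^ (i + j) * ((ar w : ℝ) ^ i * (bx w : ℝ) ^ j) := by
    rcases Nat.eq_zero_or_pos i with rfl | hi
    · simp
    · have e2 : (2 * (ar w : ℝ)) ^ i = 2 * ar w * (2 * (ar w : ℝ)) ^ (i - 1) := by
        obtain ⟨k, rfl⟩ : ∃ k, i = k + 1 := ⟨i - 1, by omega⟩
        rw [Nat.add_sub_cancel, pow_succ, mul_comm]
      calc ((adm w).card : ℝ) * (i * (2 * (ar w : ℝ)) ^ (i - 1) * (2 * (bx w : ℝ)) ^ j)
          ≤ (8 * ar w) * (i * (2 * (ar w : ℝ)) ^ (i - 1) * (2 * (bx w : ℝ)) ^ j) := by gcongr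
        _ = 4 * i * (2 * ar w * (2 * (ar w : ℝ)) ^ (i - 1)) * (2 * (bx w : ℝ)) ^ j := by ring
        _ = 4 * i * (2 * (ar w : ℝ)) ^ i * (2 * (bx w : ℝ)) ^ j := by rw [e2]
        _ ≤ 8 * i * (2 * (ar w : ℝ)) ^ i * (2 * (bx w : ℝ)) ^ j := by gcongr; norm_num
        _ = _ := by rw [mul_pow, mul_pow, pow_add]; ring
  have e3 : (ar w : ℝ) ^ i * (j * (2 * (bx w : ℝ)) ^ (j - 1)) *
      ∑ p ∈ adm w, ((bx (ins w p.1 p.2) : ℝ) - bx w) ≤
      6 * j * 2 ^ (i + j) * ((ar w : ℝ) ^ i * (bx w : ℝ) ^ j) := by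
    rcases Nat.eq_zero_or_pos j with rfl | hj
    · simp
    · have e2 : (2 * (bx w : ℝ)) ^ j = 2 * bx w * (2 * (bx w : ℝ)) ^ (j - 1) := by
        obtain ⟨k, rfl⟩ : ∃ k, j = k + 1 := ⟨j - 1, by omega⟩
        rw [Nat.add_sub_cancel, pow_succ, mul_comm]
      calc (ar w : ℝ) ^ i * (j * (2 * (bx w : ℝ)) ^ (j - 1)) *
            ∑ p ∈ adm w, ((bx (ins w p.1 p.2) : ℝ) - bx w)
          ≤ (ar w : ℝ) ^ i * (j * (2 * (bx w : ℝ)) ^ (j - 1)) * (6 * bx w) := by gcongr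
        _ = 3 * j * (ar w : ℝ) ^ i * (2 * bx w * (2 * (bx w : ℝ)) ^ (j - 1)) := by ring
        _ = 3 * j * (ar w : ℝ) ^ i * (2 * (bx w : ℝ)) ^ j := by rw [e2]
        _ ≤ 6 * j * (ar w : ℝ) ^ i * (2 * (bx w : ℝ)) ^ j := by gcongr; norm_num
        _ = 6 * j * 2 ^ j * ((ar w : ℝ) ^ i * (bx w : ℝ) ^ j) := by rw [mul_pow]; ring
        _ ≤ 6 * j * 2 ^ (i + j) * ((ar w : ℝ) ^ i * (bx w : ℝ) ^ j) := by
            have : (2 : ℝ) ^ j ≤ 2 ^ (i + j) := pow_le_pow_right₀ (by norm_num) (by omega)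
            gcongr
  calc _ ≤ _ := add_le_add e1 e3
    _ = _ := by ring

/-- first weight -/
def pP (i j : ℕ) (w : List Dir) : ℝ := (ar w : ℝ) ^ i * (bx w : ℝ) ^ j

/-- second weight -/
def pQ (i j : ℕ) (w : List Dir) : ℝ := (ar w : ℝ) ^ i * (bx w : ℝ) ^ j + (ar w : ℝ) ^ i * (wi w : ℝ) ^ j

lemma wi_le_bx (w : List Dir) : wi w ≤ bx w := by rw [bx_eq_add]; omega

lemma pP_ge {w : List Dir} (h3 : 3 ≤ w.length) (hs : Saw w) (hq : sq w = 1) (i j : ℕ) :
    1 ≤ pP i j w := by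
  have hA4 := ar_ge h3 hs hq
  have hl3 : (3 : ℝ) ≤ w.length := by exact_mod_cast h3
  have hA1 : (1 : ℝ) ≤ ar w := by linarith
  have hB1 : (1 : ℝ) ≤ bx w := by exact_mod_cast F3x.bx_pos w (by omega)
  unfold pP
  exact one_le_mul_of_one_le_of_one_le (one_le_pow₀ hA1) (one_le_pow₀ hB1)

lemma pP_le {w : List Dir} {m : ℕ} (h3 : 3 ≤ w.length) (hs : Saw w) (hq : sq w = 1)
    (h2 : w.length ≤ m + 4) (i j : ℕ) : pP i j w ≤ 4 ^ (i + j) * ((m : ℝ) + 5) ^ (2 * i + j) := by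
  have h4 := ar_le h3 hs hq h2
  have h5 := bx_le' h2
  unfold pP
  calc (ar w : ℝ) ^ i * (bx w : ℝ) ^ j ≤ (4 * ((m : ℝ) + 5) ^ 2) ^ i * (4 * ((m : ℝ) + 5)) ^ j := by
        gcongr
    _ = _ := by rw [mul_pow, mul_pow, ← pow_mul, pow_add, pow_add]; ring

lemma niceP (i j m : ℕ) (hm : 3 ≤ m) :
    NiceP (2 * ((8 * i + 6 * j) * 2 ^ (i + j))) (2 * 4 ^ (i + j)) (2 * i + j) m (pP i j) where
  one_le := fun w h1 _ hs hq => pP_ge (by omega) hs hq i j
  le := by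
    intro w h1 h2 hs hq
    refine (pP_le (by omega) hs hq h2 i j).trans ?_
    have : (0 : ℝ) ≤ 4 ^ (i + j) * ((m : ℝ) + 5) ^ (2 * i + j) := by positivity
    linarith
  lip := by
    intro w h1 h2 hs hq
    have h := infl (by omega) hs hq i j (fun u => (bx u : ℝ)) (fun u => Nat.cast_nonneg _)
      (fun u => le_rfl) (fun p hp => by exact_mod_cast (BOX_proof w (by omega) hs hq).1 p hp)
      (fun p hp => le_rfl)
    have h0 : 0 ≤ pP i j w := le_trans zero_le_one (pP_ge (by omega) hs hq i j)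
    refine h.trans ?_
    have h3 : (0 : ℝ) ≤ (8 * i + 6 * j) * 2 ^ (i + j) := by positivity
    unfold pP at h0 ⊢
    nlinarith [mul_nonneg h3 h0]

lemma niceQ (i j m : ℕ) (hm : 3 ≤ m) :
    NiceP (2 * ((8 * i + 6 * j) * 2 ^ (i + j))) (2 * 4 ^ (i + j)) (2 * i + j) m (pQ i j) where
  one_le := by
    intro w h1 _ hs hq
    have h := pP_ge (by omega) hs hq i j
    have h2 : (0 : ℝ) ≤ (ar w : ℝ) ^ i * (wi w : ℝ) ^ j := by positivity
    unfold pP at h
    unfold pQ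
    linarith
  le := by
    intro w h1 h2 hs hq
    have h := pP_le (by omega) hs hq h2 i j
    have h3 : (ar w : ℝ) ^ i * (wi w : ℝ) ^ j ≤ (ar w : ℝ) ^ i * (bx w : ℝ) ^ j := by
      have : (wi w : ℝ) ≤ bx w := by exact_mod_cast wi_le_bx w
      gcongr
    unfold pP at h
    unfold pQ
    linarith
  lip := by
    intro w h1 h2 hs hq
    have h := infl (by omega) hs hq i j (fun u => (bx u : ℝ)) (fun u => Nat.cast_nonneg _)
      (fun u => le_rfl) (fun p hp => by exact_mod_cast (BOX_proof w (by omega) hs hq).1 p hp)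
      (fun p hp => le_rfl)
    have h' := infl (by omega) hs hq i j (fun u => (wi u : ℝ)) (fun u => Nat.cast_nonneg _)
      (fun u => by exact_mod_cast wi_le_bx u) (fun p hp => by
        have hi : p.1 < w.length :=
          ((Pool.Agent.H976R2.Lip.mem_adm hs p.1 p.2).mp hp).1
        exact_mod_cast wi_mono w p.1 p.2 hi)
      (fun p hp => by
        have hi : p.1 < w.length :=
          ((Pool.Agent.H976R2.Lip.mem_adm hs p.1 p.2).mp hp).1
        have h5 : (he w : ℝ) ≤ he (ins w p.1 p.2) := by exact_mod_cast he_mono w p.1 p.2 hi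
        rw [bx_eq_add, bx_eq_add]
        push_cast
        linarith)
    have h0 : (0 : ℝ) ≤ (ar w : ℝ) ^ i * (bx w : ℝ) ^ j := by positivity
    have h0' : (0 : ℝ) ≤ (ar w : ℝ) ^ i * (wi w : ℝ) ^ j := by positivity
    have h3 : (0 : ℝ) ≤ (8 * i + 6 * j) * 2 ^ (i + j) := by positivity
    have h4 : ∑ p ∈ adm w, |pQ i j (ins w p.1 p.2) - pQ i j w| ≤
        ∑ p ∈ adm w, |(ar (ins w p.1 p.2) : ℝ) ^ i * (bx (ins w p.1 p.2) : ℝ) ^ j -
          (ar w : ℝ) ^ i * (bx w : ℝ) ^ j| +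
        ∑ p ∈ adm w, |(ar (ins w p.1 p.2) : ℝ) ^ i * (wi (ins w p.1 p.2) : ℝ) ^ j -
          (ar w : ℝ) ^ i * (wi w : ℝ) ^ j| := by
      rw [← Finset.sum_add_distrib]
      refine Finset.sum_le_sum fun p hp => ?_
      refine le_trans (le_of_eq ?_) (abs_add_le _ _)
      congr 1
      unfold pQ
      ring
    refine h4.trans ((add_le_add h h').trans ?_)
    unfold pQ
    nlinarith [mul_nonneg h3 h0, mul_nonneg h3 h0']

/-- the joint moments -/
def JM (i j N : ℕ) : ℝ := me N (fun f => (area (2 * N) f : ℝ) ^ i * (width (2 * N) f : ℝ) ^ j)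

/-- the mean of the first weight -/
def MP (i j N : ℕ) : ℝ := mm (pP i j) (2 * N - 1) / ((KP (2 * N - 1)).card : ℝ)

lemma mean_Q {N : ℕ} (hN : 2 ≤ N) (i j : ℕ) :
    mm (pQ i j) (2 * N - 1) / ((KP (2 * N - 1)).card : ℝ) = MP i j N + JM i j N := by
  unfold MP JM
  rw [F4x.me_eq CONV_proof hN, ← add_div]
  unfold mm pQ pP
  rw [Finset.sum_add_distrib]
  congr 2
  refine Finset.sum_congr rfl fun w hw => ?_
  rw [F4x.ar_eq hN hw, wi_eq hN hw]

lemma MP_eq {N : ℕ} (hN : 2 ≤ N) (i j : ℕ) : MP i j N = me N (fun f => (area (2 * N) f : ℝ) ^ i *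
    ((width (2 * N) f : ℝ) + (height (2 * N) f : ℝ)) ^ j) := by
  unfold MP
  rw [F4x.me_eq CONV_proof hN]
  unfold mm pP
  congr 1
  refine Finset.sum_congr rfl fun w hw => ?_
  rw [F4x.ar_eq hN hw, bx_eq_add, wi_eq hN hw, he_eq hN hw]
  push_cast
  rfl

/-- the moments with the height instead of the width -/
lemma JM_height {N : ℕ} (hN : 2 ≤ N) (i j : ℕ) :
    me N (fun f => (area (2 * N) f : ℝ) ^ i * (height (2 * N) f : ℝ) ^ j) = JM i j N := by
  have h := me_sw hN (fun f => (area (2 * N) f : ℝ) ^ i * (height (2 * N) f : ℝ) ^ j)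
  rw [← h]
  unfold JM me
  congr 1
  refine finsum_mem_congr rfl fun f hf => ?_
  have : NeZero (2 * N) := ⟨by omega⟩
  rw [area_sw hf.2.2]
  rfl

lemma MP_ge {N : ℕ} (hN : 2 ≤ N) (i j : ℕ) : 1 ≤ MP i j N := by
  have hp := F4x.card_pos CONV_proof f2a hN
  unfold MP
  rw [le_div_iff₀ hp, one_mul]
  unfold mm
  have : ((KP (2 * N - 1)).card : ℝ) = ∑ w ∈ KP (2 * N - 1), (1 : ℝ) := by simp
  rw [this]
  refine Finset.sum_le_sum fun w hw => ?_
  obtain ⟨hl, hs, hc⟩ := RATIO.mem_KP.mp hw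
  exact pP_ge (by omega) hs hc i j

lemma MP_le {N : ℕ} (hN : 2 ≤ N) (i j : ℕ) : MP i j N ≤ 2 ^ (j + 1) * JM i j N := by
  have h1 : me N (fun f => (area (2 * N) f : ℝ) ^ i * (width (2 * N) f : ℝ) ^ j * 2 ^ j +
      (area (2 * N) f : ℝ) ^ i * (height (2 * N) f : ℝ) ^ j * 2 ^ j) = 2 ^ (j + 1) * JM i j N := by
    rw [me_add hN, F4x.me_mul CONV_proof hN, F4x.me_mul CONV_proof hN, JM_height hN]
    unfold JM
    rw [pow_succ]
    ring
  rw [← h1, MP_eq hN]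
  have h2 := F4x.me_abs_le_me CONV_proof f2a hN (fun f => (area (2 * N) f : ℝ) ^ i *
    ((width (2 * N) f : ℝ) + (height (2 * N) f : ℝ)) ^ j)
    (fun f => (area (2 * N) f : ℝ) ^ i * (width (2 * N) f : ℝ) ^ j * 2 ^ j +
      (area (2 * N) f : ℝ) ^ i * (height (2 * N) f : ℝ) ^ j * 2 ^ j) (fun f => by
    rw [abs_of_nonneg (by positivity)]
    have hW : (0 : ℝ) ≤ width (2 * N) f := Nat.cast_nonneg _
    have hH : (0 : ℝ) ≤ height (2 * N) f := Nat.cast_nonneg _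
    have hA : (0 : ℝ) ≤ (area (2 * N) f : ℝ) ^ i := by positivity
    generalize (width (2 * N) f : ℝ) = W at *
    generalize (height (2 * N) f : ℝ) = H at *
    generalize (area (2 * N) f : ℝ) ^ i = A at *
    have h5 : (W + H) ^ j ≤ W ^ j * 2 ^ j + H ^ j * 2 ^ j := by
      rcases le_total W H with h | h
      · calc (W + H) ^ j ≤ (H * 2) ^ j := pow_le_pow_left₀ (by positivity) (by linarith) j
          _ = H ^ j * 2 ^ j := mul_pow _ _ _
          _ ≤ _ := by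
            have : 0 ≤ W ^ j * 2 ^ j := by positivity
            linarith
      · calc (W + H) ^ j ≤ (W * 2) ^ j := pow_le_pow_left₀ (by positivity) (by linarith) j
          _ = W ^ j * 2 ^ j := mul_pow _ _ _
          _ ≤ _ := by
            have : 0 ≤ H ^ j * 2 ^ j := by positivity
            linarith
    calc A * (W + H) ^ j ≤ A * (W ^ j * 2 ^ j + H ^ j * 2 ^ j) := mul_le_mul_of_nonneg_left h5 hA
      _ = _ := by ring)
  exact (le_abs_self _).trans h2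

lemma JM_pos {N : ℕ} (hN : 2 ≤ N) (i j : ℕ) : 0 < JM i j N := by
  have h1 := MP_ge hN i j
  have h2 := MP_le hN i j
  by_contra h
  push Not at h
  have h3 : (0 : ℝ) < 2 ^ (j + 1) := by positivity
  nlinarith

variable [X : Pool.Agent.W387.Q.Ex]

open Pool.Agent.W387.Q (rN f2 f3)

/-- **ratios of the joint moments** -/
theorem JM_ratio (i j : ℕ) : ∃ K : ℝ, ∀ N : ℕ, 2 ≤ N →
    |JM i j (N + 1) / JM i j N - 1| ≤ K * rN N := by
  obtain ⟨C, hC⟩ := Pool.Agent.W387.Q.MOM.pf0 (2 * 4 ^ (i + j)) (by positivity) (2 * i + j)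
    (2 * ((8 * i + 6 * j) * 2 ^ (i + j))) (by positivity)
  refine ⟨|C| * (2 * 2 ^ (j + 1) + 1), fun N hN => ?_⟩
  have h1 := hC N (pP i j) hN (fun m hm _ _ => niceP i j m hm)
  have h2 := hC N (pQ i j) hN (fun m hm _ _ => niceQ i j m hm)
  have e : 2 * N + 1 = 2 * (N + 1) - 1 := by omega
  rw [e] at h1 h2
  rw [mean_Q hN, mean_Q (show 2 ≤ N + 1 by omega)] at h2
  change |MP i j (N + 1) / MP i j N - 1| ≤ C * rN N at h1
  have hJ := JM_pos hN i j
  have hP : 0 < MP i j N := lt_of_lt_of_le one_pos (MP_ge hN i j)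
  have hPJ := MP_le hN i j
  have hr0 : 0 ≤ rN N := Pool.Agent.W387.Q.F0_rN_nonneg N
  have hCr : C * rN N ≤ |C| * rN N := mul_le_mul_of_nonneg_right (le_abs_self _) hr0
  generalize JM i j (N + 1) = J' at *
  generalize JM i j N = J at *
  generalize MP i j (N + 1) = P' at *
  generalize MP i j N = P at *
  have key : ∀ x y : ℝ, 0 < y → |x / y - 1| ≤ C * rN N → |x - y| ≤ |C| * rN N * y := by
    intro x y hy h
    have h5 : x - y = (x / y - 1) * y := by field_simp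
    rw [h5, abs_mul, abs_of_pos hy]
    exact mul_le_mul_of_nonneg_right (h.trans hCr) hy.le
  have k1 := key _ _ hP h1
  have k2 := key _ _ (by linarith) h2
  have e3 : J' / J - 1 = ((P' + J' - (P + J)) - (P' - P)) / J := by
    field_simp
    ring
  rw [e3, abs_div, abs_of_pos hJ, div_le_iff₀ hJ]
  refine (abs_sub _ _).trans ?_
  have h6 : |C| * rN N * (2 * P + J) ≤ |C| * rN N * ((2 * 2 ^ (j + 1) + 1) * J) := by
    apply mul_le_mul_of_nonneg_left _ (by positivity)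
    nlinarith
  calc _ ≤ |C| * rN N * (P + J) + |C| * rN N * P := add_le_add k2 k1
    _ = |C| * rN N * (2 * P + J) := by ring
    _ ≤ _ := h6
    _ = _ := by ring

/-- division by powers -/
theorem quot_pow {x y : ℕ → ℝ} (hx : ∃ C : ℝ, ∀ n : ℕ, 2 ≤ n → |x n - 1| ≤ C * rN n)
    (hy : ∃ C : ℝ, ∀ n : ℕ, 2 ≤ n → |y n - 1| ≤ C * rN n) (hy0 : ∀ n : ℕ, 2 ≤ n → 0 < y n)
    (k : ℕ) : ∃ C : ℝ, ∀ n : ℕ, 2 ≤ n → |x n / y n ^ k - 1| ≤ C * rN n := by
  induction k with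
  | zero => simpa using hx
  | succ k ih =>
    obtain ⟨C1, h1⟩ := ih
    obtain ⟨C2, h2⟩ := hy
    obtain ⟨C, h⟩ := Pool.Agent.W387.Q.HYP.quot h1 h2 hy0
    refine ⟨C, fun n hn => ?_⟩
    have h3 := h n hn
    rw [div_div, ← pow_succ] at h3
    exact h3

/-- the normalised joint moments -/
def NJ (i j N : ℕ) : ℝ := JM i j N / (MA N ^ i * MW N ^ j)

lemma NJ_pos {N : ℕ} (hN : 2 ≤ N) (i j : ℕ) : 0 < NJ i j N := by
  have h1 := JM_pos hN i j
  have h2 := MA_pos hN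
  have h3 := MW_pos hN
  unfold NJ
  positivity

/-- **ratios of the normalised joint moments** -/
theorem NJ_ratio (i j : ℕ) : ∃ K : ℝ, ∀ N : ℕ, 2 ≤ N →
    |NJ i j (N + 1) / NJ i j N - 1| ≤ K * rN N := by
  have h1 := quot_pow (x := fun N => JM i j (N + 1) / JM i j N) (y := fun N => MA (N + 1) / MA N)
    (JM_ratio i j) f2 (fun n hn => div_pos (MA_pos (show 2 ≤ n + 1 by omega)) (MA_pos hn)) i
  obtain ⟨K, hK⟩ := quot_pow (y := fun N => MW (N + 1) / MW N) h1 f3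
    (fun n hn => div_pos (MW_pos (show 2 ≤ n + 1 by omega)) (MW_pos hn)) j
  refine ⟨K, fun N hN => ?_⟩
  have h := hK N hN
  have a1 := JM_pos hN i j
  have a2 := MA_pos hN
  have a3 := MW_pos hN
  have b2 := MA_pos (show 2 ≤ N + 1 by omega)
  have b3 := MW_pos (show 2 ≤ N + 1 by omega)
  have e : NJ i j (N + 1) / NJ i j N =
      JM i j (N + 1) / JM i j N / (MA (N + 1) / MA N) ^ i / (MW (N + 1) / MW N) ^ j := by
    unfold NJ
    rw [div_pow, div_pow]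
    field_simp
  rw [e]
  exact h

end

end Pool.Agent.Q228.SAP
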