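import Pool.Agent.Q228.SAP.Window
import Pool.Agent.Q228.SAP.JMom
import Pool.Agent.H739K.MOM3

/-!
# Consecutive ratios have bounded variation on dyadic blocks
-/

set_option autoImplicit false

namespace Pool.Agent.Q228.SAP

open Finset Pool.Agent.H976R2 Pool.Agent.H924P Pool.Agent.H739K Filter Topology
open scoped Classical

noncomputable section

/-- positive sequences, bounded above and away from zero, of bounded variation on dyadic blocks -/
structure BVar (u : ℕ → ℝ) : Prop where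
  bd : ∃ B : ℝ, ∀ m : ℕ, 2 ≤ m → u m ≤ B
  low : ∃ b : ℝ, 0 < b ∧ ∀ m : ℕ, 2 ≤ m → b ≤ u m
  var : ∃ K : ℝ, ∀ n : ℕ, 2 ≤ n → ∑ m ∈ Finset.Icc n (2 * n), |u (m + 1) - u m| ≤ K

/-- quotients -/
lemma BVar.div {u v : ℕ → ℝ} (hu : BVar u) (hv : BVar v) : BVar (fun m => u m / v m) := by
  obtain ⟨Bu, hBu⟩ := hu.bd
  obtain ⟨bu, hbu0, hbu⟩ := hu.low
  obtain ⟨Ku, hKu⟩ := hu.var
  obtain ⟨Bv, hBv⟩ := hv.bd
  obtain ⟨bv, hbv0, hbv⟩ := hv.low
  obtain ⟨Kv, hKv⟩ := hv.var
  have hu0 : ∀ m, 2 ≤ m → 0 < u m := fun m hm => hbu0.trans_le (hbu m hm)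
  have hv0 : ∀ m, 2 ≤ m → 0 < v m := fun m hm => hbv0.trans_le (hbv m hm)
  have hBu0 : 0 < Bu := (hu0 2 le_rfl).trans_le (hBu 2 le_rfl)
  have hBv0 : 0 < Bv := (hv0 2 le_rfl).trans_le (hBv 2 le_rfl)
  refine ⟨⟨Bu / bv, fun m hm => ?_⟩, ⟨bu / Bv, by positivity, fun m hm => ?_⟩,
    ⟨Ku / bv + Bu / bv ^ 2 * Kv, fun n hn => ?_⟩⟩
  · exact div_le_div₀ hBu0.le (hBu m hm) hbv0 (hbv m hm)
  · exact div_le_div₀ (hu0 m hm).le (hbu m hm) (hv0 m hm) (hBv m hm)
  · have key : ∀ m ∈ Finset.Icc n (2 * n), |u (m + 1) / v (m + 1) - u m / v m| ≤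
        |u (m + 1) - u m| / bv + Bu / bv ^ 2 * |v (m + 1) - v m| := by
      intro m hm
      rw [Finset.mem_Icc] at hm
      have hm2 : 2 ≤ m := by omega
      have a1 := hu0 m hm2
      have a2 := hv0 m hm2
      have a3 := hv0 (m + 1) (by omega)
      have a4 := hbv m hm2
      have a5 := hbv (m + 1) (by omega)
      have a6 := hBu m hm2
      have e : u (m + 1) / v (m + 1) - u m / v m =
          (u (m + 1) - u m) / v (m + 1) - u m * (v (m + 1) - v m) / (v m * v (m + 1)) := by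
        field_simp
        ring
      rw [e]
      refine (abs_sub _ _).trans ?_
      rw [abs_div, abs_div, abs_mul, abs_of_pos a3, abs_of_pos a1, abs_of_pos (mul_pos a2 a3)]
      apply add_le_add
      · exact div_le_div_of_nonneg_left (abs_nonneg _) hbv0 a5
      · rw [div_mul_eq_mul_div]
        apply div_le_div₀ (by positivity)
        · exact mul_le_mul_of_nonneg_right a6 (abs_nonneg _)
        · positivity
        · rw [pow_two]
          exact mul_le_mul a4 a5 hbv0.le a2.le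
    refine (Finset.sum_le_sum key).trans ?_
    rw [Finset.sum_add_distrib, ← Finset.sum_div, ← Finset.mul_sum]
    have h1 := hKu n hn
    have h2 := hKv n hn
    have h3 : 0 ≤ Bu / bv ^ 2 := by positivity
    exact add_le_add (div_le_div_of_nonneg_right h1 hbv0.le) (mul_le_mul_of_nonneg_left h2 h3)

/-- division by powers -/
lemma BVar.div_pow {u v : ℕ → ℝ} (hu : BVar u) (hv : BVar v) (k : ℕ) :
    BVar (fun m => u m / v m ^ k) := by
  induction k with
  | zero => simpa using hu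
  | succ k ih =>
    have h := ih.div hv
    have e : (fun m => u m / v m ^ k / v m) = (fun m => u m / v m ^ (k + 1)) := by
      funext m
      rw [div_div, ← pow_succ]
    rwa [e] at h

/-- a criterion -/
lemma bvar_of {u : ℕ → ℝ} (hpos : ∀ m, 2 ≤ m → 0 < u m) {C : ℝ}
    (hrate : ∀ m, 2 ≤ m → |u m - 1| ≤ C * rt (2 * m - 1)) {N0 : ℕ} {D : ℝ} (hD : 0 ≤ D)
    (hstep : ∀ m, N0 ≤ m → 2 ≤ m → u m - D / m ≤ u (m + 1)) : BVar u := by
  -- bounds
  have htend : Tendsto u atTop (𝓝 1) := by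
    have h1 : Tendsto (fun m : ℕ => C * rt (2 * m - 1)) atTop (𝓝 0) := by
      have h2 : Tendsto (fun m : ℕ => 2 * m - 1) atTop atTop := by
        apply tendsto_atTop_mono (f := fun m : ℕ => m - 1)
        · intro m; omega
        · exact tendsto_sub_atTop_nat 1
      simpa using (F0_rt_tendsto.comp h2).const_mul C
    rw [tendsto_iff_norm_sub_tendsto_zero]
    refine squeeze_zero' (Eventually.of_forall fun _ => norm_nonneg _) ?_ h1
    filter_upwards [eventually_ge_atTop 2] with m hm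
    exact hrate m hm
  obtain ⟨B, hB⟩ := htend.bddAbove_range
  have hBu : ∀ m, u m ≤ B := fun m => hB ⟨m, rfl⟩
  obtain ⟨B', hB'⟩ := (htend.inv₀ one_ne_zero).bddAbove_range
  have hBu' : ∀ m, (u m)⁻¹ ≤ B' := fun m => hB' ⟨m, rfl⟩
  have hB0 : 0 < B := (hpos 2 le_rfl).trans_le (hBu 2)
  have hB0' : 0 < B' := (inv_pos.mpr (hpos 2 le_rfl)).trans_le (hBu' 2)
  refine ⟨⟨B, fun m _ => hBu m⟩, ⟨B'⁻¹, by positivity, fun m hm => ?_⟩, ?_⟩
  · rw [inv_le_comm₀ hB0' (hpos m hm)]
    exact hBu' m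
  -- variation
  refine ⟨(N0 + 1) * (2 * B) + (B + 4 * D), fun n hn => ?_⟩
  have hn0 : (0 : ℝ) < n := by
    have : 0 < n := by omega
    exact_mod_cast this
  by_cases hc : n < N0
  · have h1 : ∑ m ∈ Finset.Icc n (2 * n), |u (m + 1) - u m| ≤ ∑ m ∈ Finset.Icc n (2 * n), B := by
      apply Finset.sum_le_sum
      intro m hm
      rw [Finset.mem_Icc] at hm
      have a1 := hpos m (by omega)
      have a2 := hpos (m + 1) (by omega)
      have a3 := hBu m
      have a4 := hBu (m + 1)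
      rw [abs_le]
      constructor <;> linarith
    rw [Finset.sum_const, Nat.card_Icc, nsmul_eq_mul] at h1
    have h2 : ((2 * n + 1 - n : ℕ) : ℝ) ≤ N0 + 1 := by
      have : 2 * n + 1 - n ≤ N0 + 1 := by omega
      exact_mod_cast this
    have h3 : ((2 * n + 1 - n : ℕ) : ℝ) * B ≤ (N0 + 1) * B := by gcongr
    have h4 : (0 : ℝ) ≤ (N0 + 1) * B := by positivity
    linarith
  · push Not at hc
    have h1 : ∀ m ∈ Finset.Icc n (2 * n), |u (m + 1) - u m| ≤ (u (m + 1) - u m) + 2 * (D / n) := by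
      intro m hm
      rw [Finset.mem_Icc] at hm
      have h2 := hstep m (by omega) (by omega)
      have hm0 : (n : ℝ) ≤ m := by exact_mod_cast hm.1
      have h3 : D / m ≤ D / n := div_le_div_of_nonneg_left hD hn0 hm0
      have h4 : 0 ≤ D / n := by positivity
      rw [abs_le]
      constructor <;> linarith
    refine (Finset.sum_le_sum h1).trans ?_
    rw [Finset.sum_add_distrib, Finset.sum_const, Nat.card_Icc, nsmul_eq_mul]
    have h5 : ∑ m ∈ Finset.Icc n (2 * n), (u (m + 1) - u m) = u (2 * n + 1) - u n := by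
      have : Finset.Icc n (2 * n) = Finset.Ico n (2 * n + 1) := by
        ext m; simp only [Finset.mem_Icc, Finset.mem_Ico]; omega
      rw [this, Finset.sum_Ico_sub u (by omega)]
    rw [h5]
    have h6 := hBu (2 * n + 1)
    have h7 := hpos n hn
    have h8 : ((2 * n + 1 - n : ℕ) : ℝ) * (2 * (D / n)) ≤ 4 * D := by
      have : ((2 * n + 1 - n : ℕ) : ℝ) ≤ 2 * n := by
        have : 2 * n + 1 - n ≤ 2 * n := by omega
        exact_mod_cast this
      calc ((2 * n + 1 - n : ℕ) : ℝ) * (2 * (D / n)) ≤ 2 * n * (2 * (D / n)) := by gcongr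
        _ = 4 * D := by field_simp; ring
    have h9 : (0 : ℝ) ≤ (N0 + 1) * (2 * B) := by positivity
    linarith

/-- **ratios of weighted numbers of polygons** -/
theorem bvar_gg {q : ℝ} (hq : 0 ≤ q) {p : ℕ} {L : ℝ} (hL : 0 ≤ L) {φ : List Dir → ℝ}
    (hφ : ∀ m, 3 ≤ m → NiceP L q p m φ) : BVar (fun m => gg φ (m + 1) / gg φ m) := by
  obtain ⟨C, hC⟩ := Pool.Agent.H739K.MOM.pmain q hq p L hL
  obtain ⟨D, hD, h⟩ := PR.ratio (p := p) bnd hq L hL
  have hmu1 := mu1
  have hmu : 0 < H981.mu := by linarith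
  have hmp : ∀ N, 2 ≤ N → 0 < mm φ (2 * N - 1) := fun N hN =>
    Pool.Agent.H739K.MOM.mm_pos (hφ (2 * N - 1) (by omega)) le_rfl (by omega)
      (F0_card_pos bnd (2 * N - 1) (by omega) (by omega))
  have hgp : ∀ N, 2 ≤ N → 0 < gg φ N := fun N hN => by
    have := hmp N hN
    unfold gg; positivity
  have hrate : ∀ m, 2 ≤ m → |gg φ (m + 1) / gg φ m - 1| ≤ C * rt (2 * m - 1) := by
    intro m hm
    have h2 := hC (2 * m - 1) φ (by omega) (by omega) (fun k hk _ _ => hφ k hk)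
    have e : 2 * m - 1 + 2 = 2 * (m + 1) - 1 := by omega
    rw [e] at h2
    have h7 := hmp m hm
    have e2 : mm φ (2 * (m + 1) - 1) / (H981.mu ^ 2 * mm φ (2 * m - 1)) =
        gg φ (m + 1) / gg φ m := by
      unfold gg
      have : H981.mu ^ (2 * (m + 1)) = H981.mu ^ (2 * m) * H981.mu ^ 2 := by
        rw [← pow_add]; congr 1
      rw [this]
      field_simp
    rwa [e2] at h2
  -- ratios at least one half from `N0` on
  have hev : ∀ᶠ m : ℕ in atTop, rt m < 1 / (2 * (|C| + 1)) :=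
    F0_rt_tendsto.eventually (gt_mem_nhds (by positivity))
  obtain ⟨n0, hn0⟩ := eventually_atTop.mp hev
  have hhalf : ∀ m, max 2 n0 ≤ m → 1 / 2 ≤ gg φ (m + 1) / gg φ m := by
    intro m hm
    have hm2 : 2 ≤ m := (le_max_left _ _).trans hm
    have hmn : n0 ≤ m := (le_max_right _ _).trans hm
    have h1 := hn0 (2 * m - 1) (by omega)
    have h2 := hrate m hm2
    have h3 : C * rt (2 * m - 1) ≤ 1 / 2 := by
      have h4 : 0 ≤ rt (2 * m - 1) := F0_rt_nonneg _
      calc C * rt (2 * m - 1) ≤ (|C| + 1) * (1 / (2 * (|C| + 1))) := by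
            apply mul_le_mul _ h1.le h4 (by positivity)
            have := le_abs_self C
            linarith
        _ = 1 / 2 := by field_simp
    have h5 := (abs_le.mp (h2.trans h3)).1
    linarith
  refine bvar_of (N0 := max 2 n0) (D := 2 * (D * H981.mu ^ 4)) (C := C)
    (fun m hm => div_pos (hgp _ (by omega)) (hgp m hm)) hrate (by positivity) ?_
  intro m hm0 hm
  have h0 := hgp m hm
  have h1 := hgp (m + 1) (by omega)
  have h2 := hgp (m + 2) (by omega)
  have hm00 : (0 : ℝ) < m := by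
    have : 0 < m := by omega
    exact_mod_cast this
  -- almost convexity
  have hconv : gg φ (m + 1) ^ 2 ≤ gg φ m * gg φ (m + 2) + D * H981.mu ^ 4 / m * gg φ m ^ 2 := by
    have h3 := h (2 * m - 1) φ (by omega) (by omega) (hφ _ (by omega))
    have e1 : 2 * m - 1 + 2 = 2 * (m + 1) - 1 := by omega
    have e2 : 2 * m - 1 + 4 = 2 * (m + 2) - 1 := by omega
    rw [e1, e2] at h3
    have h4 : D / ((2 * m - 1 : ℕ) : ℝ) ≤ D / m := by
      have h5 : (m : ℝ) ≤ ((2 * m - 1 : ℕ) : ℝ) := by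
        have : m ≤ 2 * m - 1 := by omega
        exact_mod_cast this
      exact div_le_div_of_nonneg_left hD hm00 h5
    unfold gg
    set P := H981.mu ^ (2 * m) with hP
    have hP0 : 0 < P := pow_pos hmu _
    have e3 : H981.mu ^ (2 * (m + 1)) = P * H981.mu ^ 2 := by rw [hP, ← pow_add]; congr 1
    have e4 : H981.mu ^ (2 * (m + 2)) = P * H981.mu ^ 4 := by rw [hP, ← pow_add]; congr 1
    rw [e3, e4]
    have hmu4 : 1 ≤ H981.mu ^ 4 := one_le_pow₀ hmu1
    set a := mm φ (2 * m - 1)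
    set b := mm φ (2 * (m + 1) - 1)
    set c := mm φ (2 * (m + 2) - 1)
    have hmu4' : 0 < H981.mu ^ 4 := by positivity
    have h6 : b ^ 2 ≤ a * c + D / m * a ^ 2 * (H981.mu ^ 4 * H981.mu ^ 4) := by
      calc b ^ 2 ≤ a * c + D / ((2 * m - 1 : ℕ) : ℝ) * a ^ 2 := h3
        _ ≤ a * c + D / m * a ^ 2 := by gcongr
        _ ≤ a * c + D / m * a ^ 2 * (H981.mu ^ 4 * H981.mu ^ 4) := by
            have h8 : 0 ≤ D / m * a ^ 2 := by positivity
            have h9 : 1 ≤ H981.mu ^ 4 * H981.mu ^ 4 := one_le_mul_of_one_le_of_one_le hmu4 hmu4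
            have := le_mul_of_one_le_right h8 h9
            linarith
    have e5 : (b / (P * H981.mu ^ 2)) ^ 2 = b ^ 2 / (P ^ 2 * H981.mu ^ 4) := by
      rw [_root_.div_pow]; ring_nf
    have e6 : a / P * (c / (P * H981.mu ^ 4)) + D * H981.mu ^ 4 / m * (a / P) ^ 2 =
        (a * c + D / m * a ^ 2 * (H981.mu ^ 4 * H981.mu ^ 4)) / (P ^ 2 * H981.mu ^ 4) := by
      field_simp
    rw [e5, e6]
    exact div_le_div_of_nonneg_right h6 (by positivity)
  have hh := hhalf m hm0
  rw [div_le_div_iff₀ (by norm_num) h0] at hh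
  -- the step
  rw [sub_le_iff_le_add, div_le_iff₀ h0]
  have e7 : (gg φ (m + 1 + 1) / gg φ (m + 1) + 2 * (D * H981.mu ^ 4) / m) * gg φ m =
      gg φ m * gg φ (m + 2) / gg φ (m + 1) + 2 * (D * H981.mu ^ 4) / m * gg φ m := by
    rw [show m + 1 + 1 = m + 2 by ring]; ring
  rw [e7, ← sub_le_iff_le_add, le_div_iff₀ h1, sub_mul]
  set E := D * H981.mu ^ 4 / m with hE
  have hE0 : 0 ≤ E := by rw [hE]; positivity
  have e8 : 2 * (D * H981.mu ^ 4) / m = 2 * E := by rw [hE]; ring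
  rw [e8]
  have h10 : E * gg φ m ^ 2 ≤ 2 * E * gg φ m * gg φ (m + 1) := by
    have : gg φ m ^ 2 ≤ 2 * (gg φ m * gg φ (m + 1)) := by nlinarith
    calc E * gg φ m ^ 2 ≤ E * (2 * (gg φ m * gg φ (m + 1))) := by gcongr
      _ = _ := by ring
  nlinarith

lemma niceP_one (m : ℕ) : NiceP 0 1 0 m (fun _ => 1) where
  one_le := fun _ _ _ _ _ => le_rfl
  le := fun w _ _ _ _ => by simp
  lip := fun w _ _ _ _ => by simp

lemma bvar_one : BVar (fun m => gg (fun _ => 1) (m + 1) / gg (fun _ => 1) m) :=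
  bvar_gg (q := 1) (p := 0) (L := 0) (by norm_num) le_rfl (fun m _ => niceP_one m)

/-- **the ratios of the means of a power of the area** -/
theorem bvar_area (k : ℕ) : BVar (fun m => Pool.Agent.H739K.MOM.MK k (m + 1) /
    Pool.Agent.H739K.MOM.MK k m) := by
  have h1 := bvar_gg (q := 2 * 4 ^ (k + 0)) (p := 2 * k + 0)
    (L := 2 * ((8 * k + 6 * 0) * 2 ^ (k + 0))) (by positivity) (by positivity)
    (φ := pP k 0) (fun m hm => by
      have := niceP k 0 m hm
      push_cast at this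
      exact this)
  have h2 := h1.div bvar_one
  have hmu := mu1
  have key : ∀ m, 2 ≤ m → Pool.Agent.H739K.MOM.MK k m = gg (pP k 0) m / gg (fun _ => 1) m := by
    intro m hm
    have h3 : Pool.Agent.H739K.MOM.MK k m = MP k 0 m := by
      rw [MP_eq hm]
      unfold Pool.Agent.H739K.MOM.MK
      simp only [pow_zero, mul_one]
    rw [h3]
    unfold MP gg
    rw [F0_mm_one]
    have : 0 < H981.mu ^ (2 * m) := by positivity
    rw [div_div_div_cancel_right₀ this.ne']
  have hgp : ∀ m, 2 ≤ m → 0 < gg (fun _ => 1) m := fun m hm =>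
    gg_pos (L := 0) (fun k _ => F0_nice_one k) hm
  have e : ∀ m, 2 ≤ m → Pool.Agent.H739K.MOM.MK k (m + 1) / Pool.Agent.H739K.MOM.MK k m =
      gg (pP k 0) (m + 1) / gg (pP k 0) m / (gg (fun _ => 1) (m + 1) / gg (fun _ => 1) m) := by
    intro m hm
    rw [key m hm, key (m + 1) (by omega)]
    have a1 := (hgp m hm).ne'
    have a2 := (hgp (m + 1) (by omega)).ne'
    field_simp
  refine ⟨?_, ?_, ?_⟩
  · obtain ⟨B, hB⟩ := h2.bd
    exact ⟨B, fun m hm => by rw [e m hm]; exact hB m hm⟩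
  · obtain ⟨b, hb0, hb⟩ := h2.low
    exact ⟨b, hb0, fun m hm => by rw [e m hm]; exact hb m hm⟩
  · obtain ⟨K, hK⟩ := h2.var
    refine ⟨K, fun n hn => le_trans (le_of_eq ?_) (hK n hn)⟩
    refine Finset.sum_congr rfl fun m hm => ?_
    rw [Finset.mem_Icc] at hm
    rw [e m (by omega), e (m + 1) (by omega)]

/-- **the ratios of the normalised moments of the area** -/
theorem bvar_narea (k : ℕ) : BVar (fun m => Pool.Agent.H739K.MOM.NK k (m + 1) /
    Pool.Agent.H739K.MOM.NK k m) := by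
  have h1 := (bvar_area k).div_pow (bvar_area 1) k
  have e : ∀ m, 2 ≤ m → Pool.Agent.H739K.MOM.NK k (m + 1) / Pool.Agent.H739K.MOM.NK k m =
      Pool.Agent.H739K.MOM.MK k (m + 1) / Pool.Agent.H739K.MOM.MK k m /
        (Pool.Agent.H739K.MOM.MK 1 (m + 1) / Pool.Agent.H739K.MOM.MK 1 m) ^ k := by
    intro m hm
    have hA : ∀ N, MA N = Pool.Agent.H739K.MOM.MK 1 N := by
      intro N
      unfold MA Pool.Agent.H739K.MOM.MK
      simp only [pow_one]
    rw [Pool.Agent.H739K.MOM.NK_eq k m hm, Pool.Agent.H739K.MOM.NK_eq k (m + 1) (by omega), hA, hA]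
    have a1 := (Pool.Agent.H739K.MOM.MK_pos 1 m hm).ne'
    have a2 := (Pool.Agent.H739K.MOM.MK_pos 1 (m + 1) (by omega)).ne'
    have a3 := (Pool.Agent.H739K.MOM.MK_pos k m hm).ne'
    rw [_root_.div_pow]
    field_simp
  refine ⟨?_, ?_, ?_⟩
  · obtain ⟨B, hB⟩ := h1.bd
    exact ⟨B, fun m hm => by rw [e m hm]; exact hB m hm⟩
  · obtain ⟨b, hb0, hb⟩ := h1.low
    exact ⟨b, hb0, fun m hm => by rw [e m hm]; exact hb m hm⟩
  · obtain ⟨K, hK⟩ := h1.var
    refine ⟨K, fun n hn => le_trans (le_of_eq ?_) (hK n hn)⟩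
    refine Finset.sum_congr rfl fun m hm => ?_
    rw [Finset.mem_Icc] at hm
    rw [e m (by omega), e (m + 1) (by omega)]

end

end Pool.Agent.Q228.SAP
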