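import Pool.Agent.W387.Q.Poly

/-!
# The joint laws of area, width and height of long self-avoiding polygons merge
-/

set_option autoImplicit false
set_option linter.unusedVariables false
set_option linter.unusedSectionVars false

namespace Pool.Agent.Q228.SAP

open Finset Pool.Agent.H976R2 Pool.Agent.H976R2.Lip Pool.Agent.H924P
open Pool.Agent.H739K hiding rN f0 f1 f2 f3 f4
open scoped Classical

noncomputable section

/-- width of the polygon of a word -/
def wi (w : List Dir) : ℕ := width (w.length + 1) (lp (w.length + 1) w)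

/-- height of the polygon of a word -/
def he (w : List Dir) : ℕ := height (w.length + 1) (lp (w.length + 1) w)

lemma bx_eq_add (w : List Dir) : bx w = wi w + he w := rfl

lemma wi_mono (w : List Dir) (i : ℕ) (e : Dir) (hi : i < w.length) : wi w ≤ wi (ins w i e) := by
  obtain ⟨Mx, mx, My, my, hb, h1, h2, h3, h4⟩ := BOXx.exists_box w
  obtain ⟨Mx', mx', My', my', hb', h1', h2', h3', h4'⟩ := BOXx.exists_box (ins w i e)
  have e1 : (wi w : ℤ) = Mx - mx :=
    BOXx.width_of w Mx mx (fun p hp => ⟨(hb p hp).1, (hb p hp).2.1⟩) h1 h2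
  have e2 : (wi (ins w i e) : ℤ) = Mx' - mx' :=
    BOXx.width_of _ Mx' mx' (fun p hp => ⟨(hb' p hp).1, (hb' p hp).2.1⟩) h1' h2'
  obtain ⟨p, hp, hpM⟩ := h1
  obtain ⟨q, hq, hqm⟩ := h2
  have a1 := hb' p ((vis_ins w i e hi p).mpr (Or.inl hp))
  have a2 := hb' q ((vis_ins w i e hi q).mpr (Or.inl hq))
  omega

lemma he_mono (w : List Dir) (i : ℕ) (e : Dir) (hi : i < w.length) : he w ≤ he (ins w i e) := by
  obtain ⟨Mx, mx, My, my, hb, h1, h2, h3, h4⟩ := BOXx.exists_box w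
  obtain ⟨Mx', mx', My', my', hb', h1', h2', h3', h4'⟩ := BOXx.exists_box (ins w i e)
  have e1 : (he w : ℤ) = My - my :=
    BOXx.height_of w My my (fun p hp => ⟨(hb p hp).2.2.1, (hb p hp).2.2.2⟩) h3 h4
  have e2 : (he (ins w i e) : ℤ) = My' - my' :=
    BOXx.height_of _ My' my' (fun p hp => ⟨(hb' p hp).2.2.1, (hb' p hp).2.2.2⟩) h3' h4'
  obtain ⟨p, hp, hpM⟩ := h3
  obtain ⟨q, hq, hqm⟩ := h4
  have a1 := hb' p ((vis_ins w i e hi p).mpr (Or.inl hp))
  have a2 := hb' q ((vis_ins w i e hi q).mpr (Or.inl hq))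
  omega

/-- the effect of the insertions on the box -/
lemma box_sum {w : List Dir} (h3 : 3 ≤ w.length) (hs : Saw w) (hq : sq w = 1) :
    ∑ p ∈ adm w, (((wi (ins w p.1 p.2) : ℝ) - wi w) + ((he (ins w p.1 p.2) : ℝ) - he w)) ≤
      6 * (bx w : ℝ) := by
  refine le_trans (le_of_eq ?_) (BOX_proof w h3 hs hq).2
  refine Finset.sum_congr rfl fun p hp => ?_
  rw [bx_eq_add, bx_eq_add]
  push_cast
  ring

/-- the weight -/
def ph (G : ℝ → ℝ → ℝ → ℝ) (a b : ℝ) (w : List Dir) : ℝ :=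
  2 + (bx w : ℝ) / b + G ((ar w : ℝ) / a) ((wi w : ℝ) / b) ((he w : ℝ) / b)

/-- Lipschitz functions of three variables with values in `[-1, 1]` -/
structure Lip (G : ℝ → ℝ → ℝ → ℝ) : Prop where
  lip : ∀ x y z x' y' z', |G x y z - G x' y' z'| ≤ |x - x'| + |y - y'| + |z - z'|
  one : ∀ x y z, |G x y z| ≤ 1

lemma nice_ph {N : ℕ} (hN : 2 ≤ N) {a b : ℝ} (haN : (N : ℝ) / 2 ≤ a) (hb : 1 / 2 ≤ b)
    {G : ℝ → ℝ → ℝ → ℝ} (hG : Lip G) (m : ℕ) (hm : 3 ≤ m) (hmN : m ≤ 4 * N) :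
    Nice 40 m (ph G a b) where
  one_le := by
    intro w _ _ _ _
    have := (abs_le.mp (hG.one ((ar w : ℝ) / a) ((wi w : ℝ) / b) ((he w : ℝ) / b))).1
    have h2 : 0 ≤ (bx w : ℝ) / b := by positivity
    unfold ph
    linarith
  le := by
    intro w _ hw2 _ _
    have h1 := (abs_le.mp (hG.one ((ar w : ℝ) / a) ((wi w : ℝ) / b) ((he w : ℝ) / b))).2
    have h5 : (3 : ℝ) ≤ m := by exact_mod_cast hm
    have h6 : (bx w : ℝ) ≤ 4 * (m + 4) := by
      have h3 : (bx w : ℝ) ≤ 4 * w.length := by exact_mod_cast F3x.bx_le w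
      have h4 : (w.length : ℝ) ≤ m + 4 := by exact_mod_cast hw2
      linarith
    have h7 : (bx w : ℝ) / b ≤ 8 * (m + 4) := by
      rw [div_le_iff₀ (by linarith)]
      have h8 : (0 : ℝ) ≤ 8 * (m + 4) := by linarith
      nlinarith
    have h8 : (8 : ℝ) ^ 2 * (m + 5) ≤ ((m : ℝ) + 5) ^ 3 := by
      have : (8 : ℝ) ^ 2 ≤ ((m : ℝ) + 5) ^ 2 := pow_le_pow_left₀ (by norm_num) (by linarith) 2
      calc (8 : ℝ) ^ 2 * (m + 5) ≤ ((m : ℝ) + 5) ^ 2 * (m + 5) := by gcongr
        _ = _ := by ring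
    unfold ph
    linarith
  lip := by
    intro w hw1 hw2 hs hq
    have hN' : (2 : ℝ) ≤ N := by exact_mod_cast hN
    have ha0 : 0 < a := by linarith
    have hb0 : 0 < b := by linarith
    have h1 : ∀ p ∈ adm w, |ph G a b (ins w p.1 p.2) - ph G a b w| ≤
        2 / b * (((wi (ins w p.1 p.2) : ℝ) - wi w) + ((he (ins w p.1 p.2) : ℝ) - he w)) + 2 / N := by
      rintro ⟨i, e⟩ hp
      have hi : i < w.length := (Pool.Agent.H976R2.Lip.mem_adm hs i e).mp hp |>.1
      obtain ⟨h2, h3⟩ := AREA_proof w i e (by omega) hs hq hp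
      have h2' : (ar (ins w i e) : ℝ) ≤ ar w + 1 := by exact_mod_cast h2
      have h3' : (ar w : ℝ) ≤ ar (ins w i e) + 1 := by exact_mod_cast h3
      have w1 : (wi w : ℝ) ≤ wi (ins w i e) := by exact_mod_cast wi_mono w i e hi
      have w2 : (he w : ℝ) ≤ he (ins w i e) := by exact_mod_cast he_mono w i e hi
      show |ph G a b (ins w i e) - ph G a b w| ≤
        2 / b * (((wi (ins w i e) : ℝ) - wi w) + ((he (ins w i e) : ℝ) - he w)) + 2 / N
      have h4 : ph G a b (ins w i e) - ph G a b w =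
          ((bx (ins w i e) : ℝ) - bx w) / b +
            (G ((ar (ins w i e) : ℝ) / a) ((wi (ins w i e) : ℝ) / b) ((he (ins w i e) : ℝ) / b) -
              G ((ar w : ℝ) / a) ((wi w : ℝ) / b) ((he w : ℝ) / b)) := by
        unfold ph; ring
      rw [h4]
      have h5 : |(ar (ins w i e) : ℝ) / a - (ar w : ℝ) / a| ≤ 2 / N := by
        rw [← sub_div, abs_div, abs_of_pos ha0, div_le_div_iff₀ ha0 (by linarith)]
        have h5 : |(ar (ins w i e) : ℝ) - ar w| ≤ 1 := by
          rw [abs_le]; constructor <;> linarith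
        nlinarith [abs_nonneg ((ar (ins w i e) : ℝ) - ar w)]
      have h6 : |(wi (ins w i e) : ℝ) / b - (wi w : ℝ) / b| =
          ((wi (ins w i e) : ℝ) - wi w) / b := by
        rw [← sub_div, abs_of_nonneg]
        apply div_nonneg _ hb0.le
        linarith
      have h7 : |(he (ins w i e) : ℝ) / b - (he w : ℝ) / b| =
          ((he (ins w i e) : ℝ) - he w) / b := by
        rw [← sub_div, abs_of_nonneg]
        apply div_nonneg _ hb0.le
        linarith
      have h8 := hG.lip ((ar (ins w i e) : ℝ) / a) ((wi (ins w i e) : ℝ) / b)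
        ((he (ins w i e) : ℝ) / b) ((ar w : ℝ) / a) ((wi w : ℝ) / b) ((he w : ℝ) / b)
      rw [h6, h7] at h8
      have h9 : ((bx (ins w i e) : ℝ) - bx w) / b =
          ((wi (ins w i e) : ℝ) - wi w) / b + ((he (ins w i e) : ℝ) - he w) / b := by
        rw [bx_eq_add, bx_eq_add]
        push_cast
        ring
      have h10 : |((bx (ins w i e) : ℝ) - bx w) / b| = ((bx (ins w i e) : ℝ) - bx w) / b := by
        rw [abs_of_nonneg]
        rw [h9]
        have g1 : 0 ≤ ((wi (ins w i e) : ℝ) - wi w) / b := div_nonneg (by linarith) hb0.le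
        have g2 : 0 ≤ ((he (ins w i e) : ℝ) - he w) / b := div_nonneg (by linarith) hb0.le
        linarith
      refine (abs_add_le _ _).trans ?_
      rw [h10, h9]
      have e1 : 2 / b * (((wi (ins w i e) : ℝ) - wi w) + ((he (ins w i e) : ℝ) - he w)) =
          2 * (((wi (ins w i e) : ℝ) - wi w) / b) + 2 * (((he (ins w i e) : ℝ) - he w) / b) := by
        ring
      rw [e1]
      linarith
    have h2 := Finset.sum_le_sum h1
    rw [Finset.sum_add_distrib, ← Finset.mul_sum, Finset.sum_const, nsmul_eq_mul] at h2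
    have h3 : ((adm w).card : ℝ) ≤ 4 * (4 * N + 2) := by
      have h4 : (adm w).card ≤ 4 * (4 * N + 2) := (F4x.card_adm w).trans (by omega)
      exact_mod_cast h4
    have h4 : ((adm w).card : ℝ) * (2 / N) ≤ 40 := by
      have h5 : (0 : ℝ) < 2 / N := by positivity
      have h6 : (4 * (4 * (N : ℝ) + 2)) * (2 / N) ≤ 40 := by
        rw [mul_div_assoc', div_le_iff₀ (by linarith)]
        nlinarith
      exact (mul_le_mul_of_nonneg_right h3 h5.le).trans h6
    have h5 : 2 / b * ∑ p ∈ adm w, (((wi (ins w p.1 p.2) : ℝ) - wi w) +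
        ((he (ins w p.1 p.2) : ℝ) - he w)) ≤ 12 * ((bx w : ℝ) / b) := by
      calc _ ≤ 2 / b * (6 * (bx w : ℝ)) :=
            mul_le_mul_of_nonneg_left (box_sum (by omega) hs hq) (by positivity)
        _ = _ := by ring
    have h6 : 1 + (bx w : ℝ) / b ≤ ph G a b w := by
      have := (abs_le.mp (hG.one ((ar w : ℝ) / a) ((wi w : ℝ) / b) ((he w : ℝ) / b))).1
      unfold ph
      linarith
    have h7 : 0 ≤ (bx w : ℝ) / b := by positivity
    linarith

lemma he_eq {N : ℕ} (hN : 2 ≤ N) {w : List Dir} (h : w ∈ KP (2 * N - 1)) :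
    he w = height (2 * N) (lp (2 * N) w) := by
  have hl := F4x.len_of_KP h
  have e : w.length + 1 = 2 * N := by omega
  unfold he
  rw [e]

lemma wi_eq {N : ℕ} (hN : 2 ≤ N) {w : List Dir} (h : w ∈ KP (2 * N - 1)) :
    wi w = width (2 * N) (lp (2 * N) w) := by
  have hl := F4x.len_of_KP h
  have e : w.length + 1 = 2 * N := by omega
  unfold wi
  rw [e]

/-- the mean of a function of area, width and height -/
def mG (N : ℕ) (G : ℝ → ℝ → ℝ → ℝ) (a b : ℝ) : ℝ :=
  me N (fun f => G ((area (2 * N) f : ℝ) / a) ((width (2 * N) f : ℝ) / b)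
    ((height (2 * N) f : ℝ) / b))

lemma mean_ph {N : ℕ} (hN : 2 ≤ N) (G : ℝ → ℝ → ℝ → ℝ) (a b : ℝ) :
    mm (ph G a b) (2 * N - 1) / ((KP (2 * N - 1)).card : ℝ) = 2 + 2 * MW N / b + mG N G a b := by
  have hp := F4x.card_pos CONV_proof f2a hN
  have h1 := F3x.mean_eq CONV_proof SWAP_proof hN
  unfold mG
  rw [F4x.me_eq CONV_proof hN, ← h1]
  unfold mm ph
  rw [Finset.sum_add_distrib, Finset.sum_add_distrib, Finset.sum_const, nsmul_eq_mul, add_div,
    add_div]
  congr 1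
  · congr 1
    · field_simp
    · rw [← Finset.sum_div]
      field_simp
  · congr 1
    refine Finset.sum_congr rfl fun w hw => ?_
    rw [F4x.ar_eq hN hw, wi_eq hN hw, he_eq hN hw]

lemma MW_half {N : ℕ} (hN : 2 ≤ N) : 1 / 2 ≤ MW N := by
  have hp := F4x.card_pos CONV_proof f2a hN
  have h1 := F3x.mean_eq CONV_proof SWAP_proof hN
  have h2 : (1 : ℝ) ≤ mm (fun w => (bx w : ℝ)) (2 * N - 1) / ((KP (2 * N - 1)).card : ℝ) := by
    rw [le_div_iff₀ hp, one_mul]
    unfold mm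
    have : ((KP (2 * N - 1)).card : ℝ) = ∑ w ∈ KP (2 * N - 1), (1 : ℝ) := by simp
    rw [this]
    refine Finset.sum_le_sum fun w hw => ?_
    have hl := F4x.len_of_KP hw
    exact_mod_cast F3x.bx_pos w (by omega)
  linarith

lemma height_mean {N : ℕ} (hN : 2 ≤ N) : me N (fun f => (height (2 * N) f : ℝ)) = MW N := by
  symm
  unfold MW me
  congr 1
  have := SWAP_proof (2 * N) (by omega) (fun f => (width (2 * N) f : ℝ))
  rw [← this]
  rfl

lemma me_add {N : ℕ} (hN : 2 ≤ N) (F G : (ZMod (2 * N) → ℤ × ℤ) → ℝ) :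
    me N (fun f => F f + G f) = me N F + me N G := by
  rw [F4x.me_eq CONV_proof hN, F4x.me_eq CONV_proof hN, F4x.me_eq CONV_proof hN, ← add_div,
    ← Finset.sum_add_distrib]

lemma abs_mG_le {N : ℕ} (hN : 2 ≤ N) {G : ℝ → ℝ → ℝ → ℝ} (hG : Lip G) (a b : ℝ) :
    |mG N G a b| ≤ 1 :=
  F4x.me_abs_le CONV_proof f2a hN _ 1 fun f => hG.one _ _ _

/-- change of the normalisation -/
lemma mG_change {N : ℕ} (hN : 2 ≤ N) {G : ℝ → ℝ → ℝ → ℝ} (hG : Lip G) {a b : ℝ} (ha : 0 < a)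
    (hb : 0 < b) :
    |mG N G (MA N) (MW N) - mG N G a b| ≤ |MA N / a - 1| + 2 * |MW N / b - 1| := by
  have hA := MA_pos hN
  have hW := MW_pos hN
  unfold mG
  rw [F4x.me_sub CONV_proof hN]
  have h5 : me N (fun f => ((area (2 * N) f : ℝ)) * (|MA N / a - 1| / MA N) +
      (((width (2 * N) f : ℝ)) * (|MW N / b - 1| / MW N) +
        ((height (2 * N) f : ℝ)) * (|MW N / b - 1| / MW N))) =
      |MA N / a - 1| + 2 * |MW N / b - 1| := by
    rw [me_add hN, me_add hN, F4x.me_mul CONV_proof hN, F4x.me_mul CONV_proof hN,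
      F4x.me_mul CONV_proof hN, height_mean hN]
    change MA N * (|MA N / a - 1| / MA N) + (MW N * (|MW N / b - 1| / MW N) +
      MW N * (|MW N / b - 1| / MW N)) = _
    rw [mul_div_cancel₀ _ hA.ne', mul_div_cancel₀ _ hW.ne']
    ring
  refine le_trans (F4x.me_abs_le_me CONV_proof f2a hN _ _ fun f => ?_) (le_of_eq h5)
  refine (hG.lip _ _ _ _ _ _).trans ?_
  have key : ∀ (u c d : ℝ), 0 ≤ u → 0 < c → 0 < d → |u / c - u / d| = u * (|c / d - 1| / c) := by
    intro u c d hu hc hd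
    have h6 : u / c - u / d = -((u / c) * (c / d - 1)) := by
      field_simp
      ring
    rw [h6, abs_neg, abs_mul, abs_of_nonneg (by positivity)]
    ring
  rw [key _ _ _ (Nat.cast_nonneg _) hA ha, key _ _ _ (Nat.cast_nonneg _) hW hb,
    key _ _ _ (Nat.cast_nonneg _) hW hb]
  linarith

variable [X : Pool.Agent.W387.Q.Ex]

open Pool.Agent.W387.Q (rN f0 f2 f3)

/-- **the joint laws of the normalised area, width and height merge** -/
theorem joint : ∃ C : ℝ, 0 ≤ C ∧ ∀ N : ℕ, 2 ≤ N → ∀ G : ℝ → ℝ → ℝ → ℝ, Lip G →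
    |mG (N + 1) G (MA (N + 1)) (MW (N + 1)) - mG N G (MA N) (MW N)| ≤ C * rN N := by
  obtain ⟨C0, hC0⟩ := f0 40 (by norm_num)
  obtain ⟨C2, hC2⟩ := f2
  obtain ⟨C3, hC3⟩ := f3
  refine ⟨5 * |C0| + |C2| + 4 * |C3|, by positivity, fun N hN G hG => ?_⟩
  have haN := f2a N hN
  have hN' : (2 : ℝ) ≤ N := by exact_mod_cast hN
  have hr0 : 0 ≤ rN N := Pool.Agent.W387.Q.F0_rN_nonneg N
  have ha0 := MA_pos hN
  have hb0 := MW_pos hN
  have ha'0 := MA_pos (show 2 ≤ N + 1 by omega)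
  have hb'0 := MW_pos (show 2 ≤ N + 1 by omega)
  have h1 := hC0 N (ph G (MA N) (MW N)) hN
    (fun m h3 h4 _ => nice_ph hN haN (MW_half hN) hG m h3 h4)
  have e : 2 * (N + 1) - 1 = 2 * N + 1 := by omega
  have m1 := mean_ph hN G (MA N) (MW N)
  have m2 := mean_ph (N := N + 1) (by omega) G (MA N) (MW N)
  rw [e] at m2
  rw [m1, m2] at h1
  have h2 := hC2 N hN
  have h3 := hC3 N hN
  have hch := mG_change (N := N + 1) (by omega) hG ha0 hb0
  have hx1 := abs_le.mp (abs_mG_le hN hG (MA N) (MW N))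
  clear m1 m2 e
  generalize mG (N + 1) G (MA (N + 1)) (MW (N + 1)) = z at *
  generalize mG (N + 1) G (MA N) (MW N) = y at *
  generalize mG N G (MA N) (MW N) = x at *
  generalize MA (N + 1) = a' at *
  generalize MW (N + 1) = b' at *
  generalize MA N = a at *
  generalize MW N = b at *
  have e2 : 2 * b / b = 2 := mul_div_cancel_right₀ _ hb0.ne'
  rw [e2] at h1
  have hpos : 0 < 2 + 2 + x := by linarith [hx1.1]
  have g1 : |C0 * rN N| = |C0| * rN N := by rw [abs_mul, abs_of_nonneg hr0]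
  have g2 : C2 * rN N ≤ |C2| * rN N := mul_le_mul_of_nonneg_right (le_abs_self _) hr0
  have g3 : C3 * rN N ≤ |C3| * rN N := mul_le_mul_of_nonneg_right (le_abs_self _) hr0
  have g4 : C0 * rN N ≤ |C0| * rN N := mul_le_mul_of_nonneg_right (le_abs_self _) hr0
  obtain ⟨δ, hδ⟩ : ∃ δ, δ = (2 + 2 * b' / b + y) / (2 + 2 + x) - 1 := ⟨_, rfl⟩
  rw [← hδ] at h1
  have e3 : y - x = (4 + x) * δ - 2 * (b' / b - 1) := by
    have h0 : 4 + x ≠ 0 := by linarith
    have h5 : (4 + x) * δ = (2 + 2 * b' / b + y) - (4 + x) := by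
      rw [hδ, show (2 : ℝ) + 2 + x = 4 + x by ring, mul_sub, mul_div_cancel₀ _ h0, mul_one]
    rw [h5]
    ring
  have h4 : |y - x| ≤ 5 * (|C0| * rN N) + 2 * (|C3| * rN N) := by
    rw [e3]
    refine (abs_sub _ _).trans ?_
    rw [abs_mul, abs_mul]
    have g5 : |4 + x| ≤ 5 := by rw [abs_le]; constructor <;> linarith [hx1.1, hx1.2]
    have g6 : |4 + x| * |δ| ≤ 5 * (|C0| * rN N) :=
      mul_le_mul g5 (h1.trans g4) (abs_nonneg _) (by norm_num)
    have g7 : |(2 : ℝ)| * |b' / b - 1| ≤ 2 * (|C3| * rN N) := by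
      rw [abs_of_pos (by norm_num : (0 : ℝ) < 2)]
      exact mul_le_mul_of_nonneg_left (h3.trans g3) (by norm_num)
    linarith
  calc |z - x| = |(z - y) + (y - x)| := by congr 1; ring
    _ ≤ |z - y| + |y - x| := abs_add_le _ _
    _ ≤ (|a' / a - 1| + 2 * |b' / b - 1|) + (5 * (|C0| * rN N) + 2 * (|C3| * rN N)) :=
        add_le_add hch h4
    _ ≤ _ := by nlinarith

end

end Pool.Agent.Q228.SAP
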