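import Pool.Agent.Q228.SAP.Window
import Pool.Agent.Q228.SAP.Joint

/-!
# Wide polygons: critical tails and counts at fixed perimeter
-/

set_option autoImplicit false

namespace Pool.Agent.Q228.SAP

open Finset Pool.Agent.H976R2 Pool.Agent.H924P Pool.Agent.H739K Filter Topology
open Pool.Agent.W870.Pg (LF CanF ht mem_LF mem_CanF sum_loops_le loops_eq Fp Fp_pos nn nn_le_PP sum_swp)
open scoped Classical

noncomputable section

/-- number of loops of width at least `x` -/
def wn (N x : ℕ) : ℕ := ((LF (2 * N)).filter (fun f => x ≤ width (2 * N) f)).card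

/-- number of loops of total extent at least `x` -/
def bn (N x : ℕ) : ℕ :=
  ((LF (2 * N)).filter (fun f => x ≤ width (2 * N) f + height (2 * N) f)).card

/-- number of canonical words of height at least `x` -/
def cn (N x : ℕ) : ℕ := ((CanF (2 * N - 1)).filter (fun g => x ≤ ht g)).card

lemma wn_le {N : ℕ} (hN : 2 ≤ N) (x : ℕ) : (wn N x : ℝ) ≤ 4 * N * cn N x := by
  have : NeZero (2 * N) := ⟨by omega⟩
  have h1 := sum_loops_le (m := 2 * N) (by omega) (fun f => if x ≤ width (2 * N) f then 1 else 0)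
    (fun g => if x ≤ ht g then 1 else 0) (by
      intro f g _ _ h
      split_ifs with h1 h2
      · exact le_rfl
      · exact absurd (h1.trans h) h2
      · exact Nat.zero_le _
      · exact le_rfl)
  rw [← Finset.card_filter, ← Finset.card_filter] at h1
  have h2 : ((wn N x : ℕ) : ℝ) ≤ ((2 * (2 * N) * cn N x : ℕ) : ℝ) := by
    unfold wn cn
    exact_mod_cast h1
  refine h2.trans (le_of_eq ?_)
  push_cast
  ring

/-- critical tail for the canonical words -/
lemma cn_tail : ∃ C : ℝ, 0 ≤ C ∧ ∀ x : ℕ, 1 ≤ x → ∀ n : ℕ,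
    ∑ j ∈ Finset.Icc 2 n, (cn j x : ℝ) / H981.mu ^ (2 * j) ≤ C / x := by
  have hmu := H981.mu_pos
  have hmu1 : 1 ≤ H981.mu := mu1
  obtain ⟨K0, hK0, htail⟩ := Pool.Agent.TH546.PC.tail
  obtain ⟨C1, hC1⟩ : ∃ C1 : ℝ, C1 = 38400 * H981.mu ^ 15 := ⟨_, rfl⟩
  have hC10 : 0 ≤ C1 := by rw [hC1]; positivity
  refine ⟨16 * K0 + C1, by positivity, fun x hx n => ?_⟩
  have hx0 : (0 : ℝ) < x := by exact_mod_cast hx
  have hinv : ∀ j : ℕ, (cn j x : ℝ) / H981.mu ^ (2 * j) = (cn j x : ℝ) * H981.mu⁻¹ ^ (2 * j) := by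
    intro j; rw [inv_pow, div_eq_mul_inv]
  by_cases hx8 : 8 ≤ x
  · obtain ⟨h, hh⟩ : ∃ h, h = (x - 6) / 2 := ⟨_, rfl⟩
    have h1 : ∑ j ∈ Finset.Icc 2 n, (cn j x : ℝ) / H981.mu ^ (2 * j) ≤
        Pool.Agent.TH546.PC.VV h (2 * n) := by
      unfold Pool.Agent.TH546.PC.VV
      have e : ∀ j ∈ Finset.Icc 2 n, (cn j x : ℝ) / H981.mu ^ (2 * j) ≤
          ((Pool.Agent.TH546.PC.VF h (2 * j - 1)).card : ℝ) * H981.mu⁻¹ ^ (2 * j - 1) := by
        intro j hj
        rw [Finset.mem_Icc] at hj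
        have h2 : cn j x ≤ (Pool.Agent.TH546.PC.VF h (2 * j - 1)).card := by
          apply Finset.card_le_card
          intro g hg
          rw [Finset.mem_filter, mem_CanF] at hg
          rw [Pool.Agent.TH546.PC.mem_VF]
          exact ⟨hg.1, by omega⟩
        have h3 : H981.mu⁻¹ ^ (2 * j) ≤ H981.mu⁻¹ ^ (2 * j - 1) := by
          apply pow_le_pow_of_le_one (by positivity) (inv_le_one_of_one_le₀ hmu1) (by omega)
        have h4 : (cn j x : ℝ) ≤ ((Pool.Agent.TH546.PC.VF h (2 * j - 1)).card : ℝ) := by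
          exact_mod_cast h2
        rw [hinv]
        exact mul_le_mul h4 h3 (pow_nonneg (inv_nonneg.mpr hmu.le) _) (Nat.cast_nonneg _)
      refine (Finset.sum_le_sum e).trans ?_
      have e2 : ∑ j ∈ Finset.Icc 2 n,
          ((Pool.Agent.TH546.PC.VF h (2 * j - 1)).card : ℝ) * H981.mu⁻¹ ^ (2 * j - 1) =
          ∑ m ∈ (Finset.Icc 2 n).image (fun j => 2 * j - 1),
            ((Pool.Agent.TH546.PC.VF h m).card : ℝ) * H981.mu⁻¹ ^ m := by
        rw [Finset.sum_image]
        intro a ha b hb hab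
        rw [Finset.mem_coe, Finset.mem_Icc] at ha hb
        simp only at hab
        omega
      rw [e2]
      apply Finset.sum_le_sum_of_subset_of_nonneg
      · intro m hm
        rw [Finset.mem_image] at hm
        obtain ⟨j, hj, rfl⟩ := hm
        rw [Finset.mem_Icc] at hj
        rw [Finset.mem_range]
        omega
      · intro m _ _
        exact mul_nonneg (Nat.cast_nonneg _) (pow_nonneg (inv_nonneg.mpr hmu.le) _)
    have h2 := Pool.Agent.TH546.PC.VV_bound h (2 * n)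
    have h3 : x ≤ 16 * h := by omega
    have h4 : (x : ℝ) ≤ 16 * h := by exact_mod_cast h3
    have h5 := Pool.Agent.TH546.PC.VV_nonneg h (2 * n)
    rw [le_div_iff₀ hx0]
    calc (∑ j ∈ Finset.Icc 2 n, (cn j x : ℝ) / H981.mu ^ (2 * j)) * x ≤
          Pool.Agent.TH546.PC.VV h (2 * n) * (16 * h) := by
            apply mul_le_mul h1 h4 hx0.le h5
      _ = 16 * (h * Pool.Agent.TH546.PC.VV h (2 * n)) := by ring
      _ ≤ 16 * (2400 * H981.mu ^ 15) := by gcongr
      _ = C1 := by rw [hC1]; ring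
      _ ≤ 16 * K0 + C1 := by linarith
  · push Not at hx8
    have h1 : ∑ j ∈ Finset.Icc 2 n, (cn j x : ℝ) / H981.mu ^ (2 * j) ≤
        ∑ j ∈ Finset.Icc 2 n, 2 * Fp j := by
      apply Finset.sum_le_sum
      intro j hj
      rw [Finset.mem_Icc] at hj
      have h2 := nn_le_PP hj.1
      have h3 : (cn j x : ℝ) ≤ nn j := by
        unfold nn cn
        exact_mod_cast Finset.card_le_card (Finset.filter_subset _ _)
      unfold Fp
      have h4 : 0 < H981.mu ^ (2 * j) := pow_pos hmu _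
      rw [mul_div_assoc']
      exact div_le_div_of_nonneg_right (h3.trans h2) h4.le
    have h2 := htail 2 n le_rfl
    have h3 : K0 / Real.sqrt ((2 : ℕ) : ℝ) ≤ K0 := by
      apply div_le_self hK0
      rw [Real.one_le_sqrt]
      norm_num
    rw [← Finset.mul_sum] at h1
    have h4 : ∑ j ∈ Finset.Icc 2 n, (cn j x : ℝ) / H981.mu ^ (2 * j) ≤ 2 * K0 := by linarith
    have hx' : (x : ℝ) ≤ 8 := by exact_mod_cast hx8.le
    rw [le_div_iff₀ hx0]
    calc (∑ j ∈ Finset.Icc 2 n, (cn j x : ℝ) / H981.mu ^ (2 * j)) * x ≤ 2 * K0 * 8 := by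
          apply mul_le_mul h4 hx' hx0.le (by positivity)
      _ ≤ 16 * K0 + C1 := by linarith

/-- critical tail for the width -/
theorem wn_tail : ∃ C : ℝ, 0 ≤ C ∧ ∀ x : ℕ, 1 ≤ x → ∀ n : ℕ,
    ∑ j ∈ Finset.Icc 2 n, (wn j x : ℝ) / (4 * j) / H981.mu ^ (2 * j) ≤ C / x := by
  obtain ⟨C, hC, h⟩ := cn_tail
  refine ⟨C, hC, fun x hx n => le_trans ?_ (h x hx n)⟩
  apply Finset.sum_le_sum
  intro j hj
  rw [Finset.mem_Icc] at hj
  have hmu := H981.mu_pos
  have h1 := wn_le hj.1 x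
  have hj0 : (0 : ℝ) < 4 * j := by
    have : 0 < j := by omega
    have : (0 : ℝ) < j := by exact_mod_cast this
    linarith
  apply div_le_div_of_nonneg_right _ (pow_pos hmu _).le
  rw [div_le_iff₀ hj0]
  linarith

lemma bn_le {N : ℕ} (hN : 2 ≤ N) (x : ℕ) : bn N x ≤ 2 * wn N ((x + 1) / 2) := by
  have : NeZero (2 * N) := ⟨by omega⟩
  have h2 : (∑ f ∈ LF (2 * N), if (x + 1) / 2 ≤ height (2 * N) f then 1 else 0) =
      ∑ f ∈ LF (2 * N), if (x + 1) / 2 ≤ width (2 * N) f then 1 else 0 :=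
    sum_swp (m := 2 * N) (fun f => if (x + 1) / 2 ≤ width (2 * N) f then 1 else 0)
  have h3 : bn N x ≤ ∑ f ∈ LF (2 * N), ((if (x + 1) / 2 ≤ width (2 * N) f then 1 else 0) +
      (if (x + 1) / 2 ≤ height (2 * N) f then 1 else 0)) := by
    unfold bn
    rw [Finset.card_filter]
    apply Finset.sum_le_sum
    intro f _
    split_ifs with h1 h2 h3 <;> omega
  have h4 : (∑ f ∈ LF (2 * N), if (x + 1) / 2 ≤ width (2 * N) f then 1 else 0) =
      wn N ((x + 1) / 2) := by
    unfold wn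
    rw [Finset.card_filter]
  rw [Finset.sum_add_distrib, h2, h4] at h3
  omega

/-- critical tail for the extent -/
theorem bn_tail : ∃ C : ℝ, 0 ≤ C ∧ ∀ x : ℕ, 1 ≤ x → ∀ n : ℕ,
    ∑ j ∈ Finset.Icc 2 n, (bn j x : ℝ) / (4 * j) / H981.mu ^ (2 * j) ≤ C / x := by
  obtain ⟨C, hC, h⟩ := wn_tail
  refine ⟨4 * C, by positivity, fun x hx n => ?_⟩
  have hx0 : (0 : ℝ) < x := by exact_mod_cast hx
  have hmu := H981.mu_pos
  have h1 := h ((x + 1) / 2) (by omega) n
  have h2 : (x : ℝ) ≤ 2 * (((x + 1) / 2 : ℕ) : ℝ) := by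
    have : x ≤ 2 * ((x + 1) / 2) := by omega
    exact_mod_cast this
  have h3 : (0 : ℝ) < (((x + 1) / 2 : ℕ) : ℝ) := by linarith
  have h4 : ∑ j ∈ Finset.Icc 2 n, (bn j x : ℝ) / (4 * j) / H981.mu ^ (2 * j) ≤
      2 * ∑ j ∈ Finset.Icc 2 n, (wn j ((x + 1) / 2) : ℝ) / (4 * j) / H981.mu ^ (2 * j) := by
    rw [Finset.mul_sum]
    apply Finset.sum_le_sum
    intro j hj
    rw [Finset.mem_Icc] at hj
    have h5 : (bn j x : ℝ) ≤ 2 * wn j ((x + 1) / 2) := by exact_mod_cast bn_le hj.1 x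
    have hj0 : (0 : ℝ) < 4 * j := by
      have : 0 < j := by omega
      have : (0 : ℝ) < j := by exact_mod_cast this
      linarith
    calc (bn j x : ℝ) / (4 * j) / H981.mu ^ (2 * j) ≤
          (2 * wn j ((x + 1) / 2)) / (4 * j) / H981.mu ^ (2 * j) := by gcongr
      _ = _ := by ring
  have h5 : C / (((x + 1) / 2 : ℕ) : ℝ) ≤ 2 * C / x := by
    rw [div_le_div_iff₀ h3 hx0]
    nlinarith
  calc _ ≤ _ := h4
    _ ≤ 2 * (2 * C / x) := by linarith
    _ = _ := by ring

/-- sums over loops are sums over words -/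
lemma sum_LF {N : ℕ} (hN : 2 ≤ N) (F : (ZMod (2 * N) → ℤ × ℤ) → ℝ) :
    ∑ f ∈ LF (2 * N), F f = ∑ w ∈ KP (2 * N - 1), F (lp (2 * N) w) := by
  have : NeZero (2 * N) := ⟨by omega⟩
  rw [← (CONV_proof N hN).1 F, finsum_mem_eq_sum_of_inter_support_eq]
  ext f
  simp only [Set.mem_inter_iff, Set.mem_ofPred_eq, Finset.mem_coe, mem_LF]

/-- the truncated square of the extent -/
def ty (y : ℕ) (w : List Dir) : ℝ := ((min (bx w) y : ℕ) : ℝ) ^ 2

lemma nice_ty {y : ℕ} (hy : 1 ≤ y) (m : ℕ) (hm : 3 ≤ m) : Nice 24 m (ty y) where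
  one_le := by
    intro w h1 _ hs hq
    have hb := F3x.bx_pos w (by omega)
    unfold ty
    have : 1 ≤ min (bx w) y := le_min hb hy
    have h2 : (1 : ℝ) ≤ ((min (bx w) y : ℕ) : ℝ) := by exact_mod_cast this
    nlinarith
  le := by
    intro w h1 h2 hs hq
    have hb : (bx w : ℝ) ≤ 4 * w.length := by exact_mod_cast F3x.bx_le w
    have h4 : (w.length : ℝ) ≤ m + 4 := by exact_mod_cast h2
    have h5 : ((min (bx w) y : ℕ) : ℝ) ≤ bx w := by exact_mod_cast min_le_left _ _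
    unfold ty
    have hm0 : (0 : ℝ) ≤ m := Nat.cast_nonneg m
    calc ((min (bx w) y : ℕ) : ℝ) ^ 2 ≤ (4 * ((m : ℝ) + 5)) ^ 2 := by
          apply pow_le_pow_left₀ (Nat.cast_nonneg _)
          linarith
      _ = 16 * ((m : ℝ) + 5) ^ 2 := by ring
      _ ≤ 100 * ((m : ℝ) + 5) ^ 3 := by nlinarith [sq_nonneg ((m : ℝ) + 5)]
  lip := by
    intro w h1 h2 hs hq
    have hb := F3x.bx_pos w (by omega)
    have key : ∀ p ∈ adm w, |ty y (ins w p.1 p.2) - ty y w| ≤
        4 * ((min (bx w) y : ℕ) : ℝ) ^ 2 / bx w * ((bx (ins w p.1 p.2) : ℝ) - bx w) := by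
      rintro ⟨k, e⟩ hp
      have b1 := (BOX_proof w (by omega) hs hq).1 _ hp
      have b2 : bx (ins w k e) ≤ bx w + 1 := by
        obtain ⟨Mx, mx, My, my, hb, h1, h2, h3, h4⟩ := BOXx.exists_box w
        rw [Pool.Agent.H976R2.Lip.mem_adm hs] at hp
        have := BOXx.bx_ins w k e hp.1 hp.2.1 Mx mx My my hb h1 h2 h3 h4
        split_ifs at this <;> omega
      simp only at b1
      unfold ty
      simp only
      generalize bx (ins w k e) = b' at *
      generalize bx w = b at *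
      have hb0 : (0 : ℝ) < b := by exact_mod_cast hb
      rcases Nat.lt_or_ge b y with hby | hby
      · -- below the level
        rw [min_eq_left hby.le, min_eq_left (show b' ≤ y by omega)]
        have c1 : (b : ℝ) ≤ b' := by exact_mod_cast b1
        have c2 : (b' : ℝ) ≤ b + 1 := by exact_mod_cast b2
        have c3 : (1 : ℝ) ≤ b := by exact_mod_cast hb
        have e1 : 4 * (b : ℝ) ^ 2 / b = 4 * b := by field_simp
        rw [e1, abs_of_nonneg (by nlinarith)]
        nlinarith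
      · rw [min_eq_right hby, min_eq_right (show y ≤ b' by omega), sub_self, abs_zero]
        have c1 : (b : ℝ) ≤ b' := by exact_mod_cast b1
        have : 0 ≤ (b' : ℝ) - b := by linarith
        positivity
    refine (Finset.sum_le_sum key).trans ?_
    rw [← Finset.mul_sum]
    have h3 := (BOX_proof w (by omega) hs hq).2
    have hb0 : (0 : ℝ) < bx w := by exact_mod_cast hb
    calc 4 * ((min (bx w) y : ℕ) : ℝ) ^ 2 / bx w *
          ∑ p ∈ adm w, ((bx (ins w p.1 p.2) : ℝ) - bx w)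
        ≤ 4 * ((min (bx w) y : ℕ) : ℝ) ^ 2 / bx w * (6 * bx w) := by gcongr
      _ = 24 * ((min (bx w) y : ℕ) : ℝ) ^ 2 := by field_simp; ring
      _ = _ := rfl

lemma sq_sum (b y : ℕ) : ((min b y : ℕ) : ℝ) ^ 2 =
    ∑ i ∈ Finset.Icc 1 y, (if i ≤ b then (2 * (i : ℝ) - 1) else 0) := by
  induction y with
  | zero => simp
  | succ y ih =>
    rw [Finset.sum_Icc_succ_top (by omega), ← ih]
    split_ifs with h
    · rw [min_eq_right h, min_eq_right (show y ≤ b by omega)]
      push_cast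
      ring
    · rw [min_eq_left (show b ≤ y + 1 by omega), min_eq_left (show b ≤ y by omega), add_zero]

lemma mm_ty {N : ℕ} (hN : 2 ≤ N) (y : ℕ) :
    mm (ty y) (2 * N - 1) = ∑ i ∈ Finset.Icc 1 y, (2 * (i : ℝ) - 1) * bn N i := by
  have h1 : mm (ty y) (2 * N - 1) =
      ∑ f ∈ LF (2 * N), ((min (width (2 * N) f + height (2 * N) f) y : ℕ) : ℝ) ^ 2 := by
    rw [sum_LF hN (fun f => ((min (width (2 * N) f + height (2 * N) f) y : ℕ) : ℝ) ^ 2)]
    unfold mm
    refine Finset.sum_congr rfl fun w hw => ?_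
    unfold ty
    rw [bx_eq_add, wi_eq hN hw, he_eq hN hw]
  rw [h1]
  have h2 : ∀ f ∈ LF (2 * N), ((min (width (2 * N) f + height (2 * N) f) y : ℕ) : ℝ) ^ 2 =
      ∑ i ∈ Finset.Icc 1 y, (if i ≤ width (2 * N) f + height (2 * N) f then (2 * (i : ℝ) - 1) else 0) :=
    fun f _ => sq_sum _ _
  rw [Finset.sum_congr rfl h2, Finset.sum_comm]
  refine Finset.sum_congr rfl fun i _ => ?_
  unfold bn
  rw [← Finset.sum_filter, Finset.sum_const, nsmul_eq_mul, mul_comm]

lemma bn_le_mm {N : ℕ} (hN : 2 ≤ N) (y : ℕ) : (y : ℝ) ^ 2 * bn N y ≤ mm (ty y) (2 * N - 1) := by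
  have h1 : mm (ty y) (2 * N - 1) =
      ∑ f ∈ LF (2 * N), ((min (width (2 * N) f + height (2 * N) f) y : ℕ) : ℝ) ^ 2 := by
    rw [sum_LF hN (fun f => ((min (width (2 * N) f + height (2 * N) f) y : ℕ) : ℝ) ^ 2)]
    unfold mm
    refine Finset.sum_congr rfl fun w hw => ?_
    unfold ty
    rw [bx_eq_add, wi_eq hN hw, he_eq hN hw]
  rw [h1]
  unfold bn
  calc (y : ℝ) ^ 2 * ((LF (2 * N)).filter
          (fun f => y ≤ width (2 * N) f + height (2 * N) f)).card
      = ∑ f ∈ (LF (2 * N)).filter (fun f => y ≤ width (2 * N) f + height (2 * N) f),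
          (y : ℝ) ^ 2 := by rw [Finset.sum_const, nsmul_eq_mul, mul_comm]
    _ ≤ ∑ f ∈ (LF (2 * N)).filter (fun f => y ≤ width (2 * N) f + height (2 * N) f),
          ((min (width (2 * N) f + height (2 * N) f) y : ℕ) : ℝ) ^ 2 := by
        apply Finset.sum_le_sum
        intro f hf
        rw [Finset.mem_filter] at hf
        rw [min_eq_right hf.2]
    _ ≤ _ := by
        apply Finset.sum_le_sum_of_subset_of_nonneg (Finset.filter_subset _ _)
        intro f _ _
        positivity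

/-- **the number of wide polygons of given perimeter** -/
theorem bn_bound : ∃ C : ℝ, 0 ≤ C ∧ ∀ n : ℕ, 2 ≤ n → ∀ y : ℕ, 1 ≤ y →
    (bn n y : ℝ) / (4 * n) ≤ C / (y * Real.sqrt n) * H981.mu ^ (2 * n) := by
  obtain ⟨C1, hC1, hwin⟩ := window 24 (by norm_num)
  obtain ⟨C2, hC2, htail⟩ := bn_tail
  refine ⟨4 * C1 * C2, by positivity, fun n hn y hy => ?_⟩
  have hmu := H981.mu_pos
  have hn0 : (0 : ℝ) < n := by
    have : 0 < n := by omega
    exact_mod_cast this
  have hy0 : (0 : ℝ) < y := by exact_mod_cast hy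
  have hsn : 0 < Real.sqrt n := Real.sqrt_pos.mpr hn0
  have h1 := hwin (ty y) (fun m hm => nice_ty hy m hm) n hn
  -- the sum over the window
  have h2 : ∑ j ∈ Finset.Icc (n / 2 + 1) (2 * n), gg (ty y) j ≤
      8 * n * ∑ j ∈ Finset.Icc 2 (2 * n), gg (ty y) j / (4 * j) := by
    rw [Finset.mul_sum]
    have hpos : ∀ j ∈ Finset.Icc 2 (2 * n), 0 ≤ gg (ty y) j := fun j hj =>
      (gg_pos (fun m hm => nice_ty hy m hm) (Finset.mem_Icc.mp hj).1).le
    calc ∑ j ∈ Finset.Icc (n / 2 + 1) (2 * n), gg (ty y) j ≤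
          ∑ j ∈ Finset.Icc 2 (2 * n), gg (ty y) j := by
            apply Finset.sum_le_sum_of_subset_of_nonneg
            · intro j hj
              rw [Finset.mem_Icc] at hj ⊢
              omega
            · intro j hj _
              exact hpos j hj
      _ ≤ _ := by
          apply Finset.sum_le_sum
          intro j hj
          have h3 := hpos j hj
          rw [Finset.mem_Icc] at hj
          have hj0 : (0 : ℝ) < j := by
            have : 0 < j := by omega
            exact_mod_cast this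
          have hj2 : (j : ℝ) ≤ 2 * n := by exact_mod_cast hj.2
          rw [mul_div_assoc', le_div_iff₀ (by linarith)]
          nlinarith
  have h3 : ∑ j ∈ Finset.Icc 2 (2 * n), gg (ty y) j / (4 * j) ≤ 2 * C2 * y := by
    have e : ∀ j ∈ Finset.Icc 2 (2 * n), gg (ty y) j / (4 * j) =
        ∑ i ∈ Finset.Icc 1 y, (2 * (i : ℝ) - 1) * ((bn j i : ℝ) / (4 * j) / H981.mu ^ (2 * j)) := by
      intro j hj
      unfold gg
      rw [mm_ty (Finset.mem_Icc.mp hj).1, Finset.sum_div, Finset.sum_div]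
      refine Finset.sum_congr rfl fun i _ => ?_
      ring
    rw [Finset.sum_congr rfl e, Finset.sum_comm]
    calc ∑ i ∈ Finset.Icc 1 y, ∑ j ∈ Finset.Icc 2 (2 * n),
          (2 * (i : ℝ) - 1) * ((bn j i : ℝ) / (4 * j) / H981.mu ^ (2 * j))
        ≤ ∑ i ∈ Finset.Icc 1 y, 2 * C2 := by
          apply Finset.sum_le_sum
          intro i hi
          rw [Finset.mem_Icc] at hi
          rw [← Finset.mul_sum]
          have h4 := htail i hi.1 (2 * n)
          have hi1 : (1 : ℝ) ≤ i := by exact_mod_cast hi.1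
          have h5 : 0 ≤ 2 * (i : ℝ) - 1 := by linarith
          calc (2 * (i : ℝ) - 1) * ∑ j ∈ Finset.Icc 2 (2 * n), (bn j i : ℝ) / (4 * j) / H981.mu ^ (2 * j)
              ≤ (2 * (i : ℝ) - 1) * (C2 / i) := mul_le_mul_of_nonneg_left h4 h5
            _ ≤ (2 * (i : ℝ)) * (C2 / i) := by
                apply mul_le_mul_of_nonneg_right (by linarith) (by positivity)
            _ = 2 * C2 := by field_simp
      _ = 2 * C2 * y := by
          rw [Finset.sum_const, Nat.card_Icc, nsmul_eq_mul, Nat.add_sub_cancel, mul_comm]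
  have h4 : gg (ty y) n ≤ C1 / Real.sqrt n * (8 * n * (2 * C2 * y)) := by
    refine h1.trans ?_
    gcongr
    exact h2.trans (by gcongr)
  have h5 := bn_le_mm hn y
  have h6 : mm (ty y) (2 * n - 1) = gg (ty y) n * H981.mu ^ (2 * n) := by
    unfold gg
    field_simp
  rw [h6] at h5
  have h7 : (y : ℝ) ^ 2 * bn n y ≤ C1 / Real.sqrt n * (8 * n * (2 * C2 * y)) * H981.mu ^ (2 * n) :=
    h5.trans (mul_le_mul_of_nonneg_right h4 (by positivity))
  have h8 : (bn n y : ℝ) ≤ C1 / Real.sqrt n * (8 * n * (2 * C2 * y)) * H981.mu ^ (2 * n) / y ^ 2 := by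
    rw [le_div_iff₀ (by positivity)]
    linarith
  calc (bn n y : ℝ) / (4 * n) ≤
        (C1 / Real.sqrt n * (8 * n * (2 * C2 * y)) * H981.mu ^ (2 * n) / y ^ 2) / (4 * n) := by gcongr
    _ = 4 * C1 * C2 / (y * Real.sqrt n) * H981.mu ^ (2 * n) := by
        field_simp
        ring

end

end Pool.Agent.Q228.SAP
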