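import Pool.Agent.Q228.SAP.Mean

/-!
# Fractional moments of the width times the number of polygons
-/

set_option autoImplicit false

namespace Pool.Agent.Q228.SAP

open Finset Pool.Agent.H976R2 Pool.Agent.H924P Pool.Agent.H739K Filter Topology
open Pool.Agent.W870.Pg (LF mem_LF loops_eq le_width le_height sum_swp)
open scoped Classical

noncomputable section

/-- increments of a concave power from below -/
lemma rpow_inc {s : ℝ} (hs0 : 0 < s) (hs1 : s ≤ 1) {a : ℝ} (ha : 1 ≤ a) :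
    s * a ^ (s - 1) ≤ a ^ s - (a - 1) ^ s := by
  have ha0 : 0 < a := by linarith
  have h1 := rpow_one_add_le_one_add_mul_self (s := -(1 / a)) (by
    rw [neg_le_neg_iff, div_le_one ha0]; exact ha) hs0.le hs1
  have h2 : a - 1 = a * (1 + -(1 / a)) := by field_simp; ring
  have h3 : 0 ≤ 1 + -(1 / a) := by
    have : 1 / a ≤ 1 := by rw [div_le_one ha0]; exact ha
    linarith
  rw [h2, Real.mul_rpow ha0.le h3, Real.rpow_sub ha0, Real.rpow_one]
  have h4 : 0 < a ^ s := Real.rpow_pos_of_pos ha0 s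
  have h5 := mul_le_mul_of_nonneg_left h1 h4.le
  have h6 : s * (a ^ s / a) = a ^ s * (s * (1 / a)) := by ring
  rw [h6]
  nlinarith

/-- increments of a concave power from above -/
lemma rpow_inc_le {s : ℝ} (hs0 : 0 < s) (hs1 : s ≤ 1) {a : ℝ} (ha : 1 ≤ a) :
    a ^ s - (a - 1) ^ s ≤ a ^ (s - 1) := by
  have ha0 : 0 < a := by linarith
  have h2 : a - 1 = a * (1 + -(1 / a)) := by field_simp; ring
  have h3 : 0 ≤ 1 + -(1 / a) := by
    have : 1 / a ≤ 1 := by rw [div_le_one ha0]; exact ha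
    linarith
  have h3' : 1 + -(1 / a) ≤ 1 := by
    have : 0 < 1 / a := by positivity
    linarith
  have h1 : 1 + -(1 / a) ≤ (1 + -(1 / a)) ^ s := by
    rcases h3.eq_or_lt with h | h
    · rw [← h]
      exact Real.rpow_nonneg le_rfl s
    · calc 1 + -(1 / a) = (1 + -(1 / a)) ^ (1 : ℝ) := (Real.rpow_one _).symm
        _ ≤ _ := Real.rpow_le_rpow_of_exponent_ge h h3' hs1
  rw [h2, Real.mul_rpow ha0.le h3, Real.rpow_sub ha0, Real.rpow_one]
  have h4 : 0 < a ^ s := Real.rpow_pos_of_pos ha0 s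
  have h5 := mul_le_mul_of_nonneg_left h1 h4.le
  have h6 : a ^ s / a = a ^ s * (1 / a) := by ring
  rw [h6]
  nlinarith

/-- decrements of a negative power -/
lemma rpow_dec {t : ℝ} (ht : 0 < t) {a : ℝ} (ha : 1 < a) :
    t * a ^ (-t - 1) ≤ (a - 1) ^ (-t) - a ^ (-t) := by
  have ha0 : 0 < a := by linarith
  have h2 : a - 1 = a * (1 - 1 / a) := by field_simp
  have h3 : 0 < 1 - 1 / a := by
    have : 1 / a < 1 := by rw [div_lt_one ha0]; exact ha
    linarith
  have h1 : 1 + t * (1 / a) ≤ (1 - 1 / a) ^ (-t) := by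
    rw [Real.rpow_def_of_pos h3]
    have h4 := Real.log_le_sub_one_of_pos h3
    have h5 : t * (1 / a) ≤ Real.log (1 - 1 / a) * -t := by nlinarith
    have h6 := Real.add_one_le_exp (t * (1 / a))
    have h7 := Real.exp_le_exp.mpr h5
    linarith
  rw [h2, Real.mul_rpow ha0.le h3.le, Real.rpow_sub ha0, Real.rpow_one]
  have h4 : 0 < a ^ (-t) := Real.rpow_pos_of_pos ha0 _
  have h5 := mul_le_mul_of_nonneg_left h1 h4.le
  have h6 : t * (a ^ (-t) / a) = a ^ (-t) * (t * (1 / a)) := by ring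
  rw [h6]
  nlinarith

lemma sum_rpow_low {s : ℝ} (hs0 : 0 < s) (hs1 : s ≤ 1) (A : ℕ) :
    ∑ a ∈ Finset.Icc 1 A, (a : ℝ) ^ (s - 1) ≤ (A : ℝ) ^ s / s := by
  induction A with
  | zero => simp [Real.zero_rpow hs0.ne']
  | succ A ih =>
    rw [Finset.sum_Icc_succ_top (by omega)]
    have h := rpow_inc hs0 hs1 (a := ((A + 1 : ℕ) : ℝ)) (by push_cast; linarith [Nat.cast_nonneg (α := ℝ) A])
    have e : ((A + 1 : ℕ) : ℝ) - 1 = A := by push_cast; ring
    rw [e] at h
    rw [le_div_iff₀ hs0] at ih ⊢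
    nlinarith

lemma sum_rpow_high {t : ℝ} (ht : 0 < t) {A : ℕ} (hA : 1 ≤ A) (M : ℕ) :
    ∑ a ∈ Finset.Icc (A + 1) (A + M), (a : ℝ) ^ (-t - 1) ≤ (A : ℝ) ^ (-t) / t := by
  have key : t * ∑ a ∈ Finset.Icc (A + 1) (A + M), (a : ℝ) ^ (-t - 1) ≤
      (A : ℝ) ^ (-t) - ((A + M : ℕ) : ℝ) ^ (-t) := by
    induction M with
    | zero => simp
    | succ M ih =>
      rw [← add_assoc, Finset.sum_Icc_succ_top (by omega)]
      have hA' : (1 : ℝ) ≤ A := by exact_mod_cast hA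
      have h := rpow_dec ht (a := ((A + M + 1 : ℕ) : ℝ)) (by
        push_cast; linarith [Nat.cast_nonneg (α := ℝ) M])
      have e : ((A + M + 1 : ℕ) : ℝ) - 1 = ((A + M : ℕ) : ℝ) := by push_cast; ring
      rw [e] at h
      rw [mul_add]
      linarith
  have h1 : 0 ≤ ((A + M : ℕ) : ℝ) ^ (-t) := Real.rpow_nonneg (Nat.cast_nonneg _) _
  rw [le_div_iff₀ ht]
  linarith

lemma rpow_layer_one {s : ℝ} (hs0 : 0 < s) (hs1 : s ≤ 1) (b M : ℕ) :
    ((min b M : ℕ) : ℝ) ^ s ≤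
      ∑ a ∈ Finset.Icc 1 M, (if a ≤ b then (a : ℝ) ^ (s - 1) else 0) := by
  induction M with
  | zero => simp [Real.zero_rpow hs0.ne']
  | succ M ih =>
    rw [Finset.sum_Icc_succ_top (by omega)]
    split_ifs with h
    · rw [min_eq_right h]
      rw [min_eq_right (show M ≤ b by omega)] at ih
      have h1 := rpow_inc_le hs0 hs1 (a := ((M + 1 : ℕ) : ℝ)) (by
        push_cast; linarith [Nat.cast_nonneg (α := ℝ) M])
      have e : ((M + 1 : ℕ) : ℝ) - 1 = M := by push_cast; ring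
      rw [e] at h1
      linarith
    · rw [min_eq_left (show b ≤ M + 1 by omega), add_zero]
      rwa [min_eq_left (show b ≤ M by omega)] at ih

/-- **fractional moments of the width times the number of polygons** -/
theorem width_frac {s : ℝ} (hs0 : 0 < s) (hs1 : s < 1) : ∃ C : ℝ, 0 ≤ C ∧ ∀ n : ℕ, 2 ≤ n →
    me n (fun f => (width (2 * n) f : ℝ) ^ s) * H981.PP n ≤
      C * (n : ℝ) ^ (s / 2 - 1) * H981.mu ^ (2 * n) := by
  obtain ⟨C, hC, h⟩ := wn_bound
  obtain ⟨K, hK, hp⟩ := Pool.Agent.TH546.PC.point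
  refine ⟨K / s + 2 * C / (1 - s), by
    have : 0 < 1 - s := by linarith
    positivity, fun n hn => ?_⟩
  have : NeZero (2 * n) := ⟨by omega⟩
  have hn0 : (0 : ℝ) < n := by
    have : 0 < n := by omega
    exact_mod_cast this
  have hsn : 0 < Real.sqrt n := Real.sqrt_pos.mpr hn0
  have hmu := H981.mu_pos
  have hP := PP_pos hn
  have h1s : 0 < 1 - s := by linarith
  obtain ⟨A, hA⟩ : ∃ A, A = Nat.sqrt n := ⟨_, rfl⟩
  have hA1 : 1 ≤ A := by rw [hA]; exact Nat.sqrt_pos.mpr (by omega)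
  have hAn : (A : ℝ) ≤ Real.sqrt n := by
    apply Real.le_sqrt_of_sq_le
    have : A ^ 2 ≤ n := by rw [hA, pow_two]; exact Nat.sqrt_le n
    exact_mod_cast this
  have hAn2 : Real.sqrt n ≤ 2 * A := by
    apply Real.sqrt_le_iff.mpr ⟨by positivity, ?_⟩
    have h2 := Nat.lt_succ_sqrt n
    rw [← hA] at h2
    have h3 : n ≤ (2 * A) ^ 2 := by
      have : A.succ = A + 1 := rfl
      rw [this] at h2
      nlinarith
    exact_mod_cast h3
  -- the layers
  rw [me_mul_PP hn]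
  have h1 : ∑ f ∈ LF (2 * n), (width (2 * n) f : ℝ) ^ s ≤
      ∑ a ∈ Finset.Icc 1 (A + 4 * n), (a : ℝ) ^ (s - 1) * (wn n a : ℝ) := by
    have h2 : ∀ f ∈ LF (2 * n), (width (2 * n) f : ℝ) ^ s ≤
        ∑ a ∈ Finset.Icc 1 (A + 4 * n),
          (if a ≤ width (2 * n) f then (a : ℝ) ^ (s - 1) else 0) := by
      intro f hf
      have := rpow_layer_one hs0 hs1.le (width (2 * n) f) (A + 4 * n)
      rwa [min_eq_left ((width_le_lin hn (mem_LF.mp hf)).trans (by omega))] at this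
    refine (Finset.sum_le_sum h2).trans (le_of_eq ?_)
    rw [Finset.sum_comm]
    refine Finset.sum_congr rfl fun a _ => ?_
    unfold wn
    rw [← Finset.sum_filter, Finset.sum_const, nsmul_eq_mul, mul_comm]
  have h4n : (0 : ℝ) < 4 * n := by linarith
  have h2 : (∑ f ∈ LF (2 * n), (width (2 * n) f : ℝ) ^ s) / (4 * n) ≤
      ∑ a ∈ Finset.Icc 1 (A + 4 * n), (a : ℝ) ^ (s - 1) * ((wn n a : ℝ) / (4 * n)) := by
    rw [div_le_iff₀ h4n]
    refine h1.trans (le_of_eq ?_)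
    rw [Finset.sum_mul]
    refine Finset.sum_congr rfl fun a _ => ?_
    field_simp
  refine h2.trans ?_
  -- split the sum
  have hsplit : ∑ a ∈ Finset.Icc 1 (A + 4 * n), (a : ℝ) ^ (s - 1) * ((wn n a : ℝ) / (4 * n)) =
      ∑ a ∈ Finset.Icc 1 A, (a : ℝ) ^ (s - 1) * ((wn n a : ℝ) / (4 * n)) +
      ∑ a ∈ Finset.Icc (A + 1) (A + 4 * n), (a : ℝ) ^ (s - 1) * ((wn n a : ℝ) / (4 * n)) := by
    rw [← Finset.sum_union]
    · congr 1
      ext a
      simp only [Finset.mem_union, Finset.mem_Icc]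
      omega
    · rw [Finset.disjoint_left]
      intro a ha hb
      rw [Finset.mem_Icc] at ha hb
      omega
  rw [hsplit]
  have hlow : ∑ a ∈ Finset.Icc 1 A, (a : ℝ) ^ (s - 1) * ((wn n a : ℝ) / (4 * n)) ≤
      K / s * (n : ℝ) ^ (s / 2 - 1) * H981.mu ^ (2 * n) := by
    have h3 : ∀ a ∈ Finset.Icc 1 A, (a : ℝ) ^ (s - 1) * ((wn n a : ℝ) / (4 * n)) ≤
        (a : ℝ) ^ (s - 1) * (K / n * H981.mu ^ (2 * n)) := by
      intro a ha
      have ha0 : (0 : ℝ) < a := by exact_mod_cast (Finset.mem_Icc.mp ha).1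
      apply mul_le_mul_of_nonneg_left _ (Real.rpow_nonneg ha0.le _)
      have h4 : (wn n a : ℝ) ≤ ((LF (2 * n)).card : ℝ) := by
        unfold wn; exact_mod_cast Finset.card_le_card (Finset.filter_subset _ _)
      rw [loops_eq (by omega)] at h4
      have h5 := hp n hn
      unfold Pool.Agent.W870.Pg.Fp at h5
      rw [div_le_iff₀ (pow_pos hmu _)] at h5
      rw [div_le_iff₀ h4n]
      calc (wn n a : ℝ) ≤ 4 * n * H981.PP n := h4
        _ ≤ 4 * n * (K / n * H981.mu ^ (2 * n)) := by gcongr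
        _ = _ := by ring
    refine (Finset.sum_le_sum h3).trans ?_
    rw [← Finset.sum_mul]
    have h5 := sum_rpow_low hs0 hs1.le A
    have h6 : (A : ℝ) ^ s ≤ (n : ℝ) ^ (s / 2) := by
      calc (A : ℝ) ^ s ≤ (Real.sqrt n) ^ s := Real.rpow_le_rpow (Nat.cast_nonneg _) hAn hs0.le
        _ = (n : ℝ) ^ (s / 2) := by
          rw [Real.sqrt_eq_rpow, ← Real.rpow_mul hn0.le]
          congr 1; ring
    calc (∑ a ∈ Finset.Icc 1 A, (a : ℝ) ^ (s - 1)) * (K / n * H981.mu ^ (2 * n))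
        ≤ ((n : ℝ) ^ (s / 2) / s) * (K / n * H981.mu ^ (2 * n)) := by
          apply mul_le_mul_of_nonneg_right _ (by positivity)
          exact h5.trans (div_le_div_of_nonneg_right h6 hs0.le)
      _ = _ := by
          rw [Real.rpow_sub hn0, Real.rpow_one]
          ring
  have hhigh : ∑ a ∈ Finset.Icc (A + 1) (A + 4 * n), (a : ℝ) ^ (s - 1) * ((wn n a : ℝ) / (4 * n)) ≤
      2 * C / (1 - s) * (n : ℝ) ^ (s / 2 - 1) * H981.mu ^ (2 * n) := by
    have h3 : ∀ a ∈ Finset.Icc (A + 1) (A + 4 * n), (a : ℝ) ^ (s - 1) * ((wn n a : ℝ) / (4 * n)) ≤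
        (a : ℝ) ^ (-(1 - s) - 1) * (C / Real.sqrt n * H981.mu ^ (2 * n)) := by
      intro a ha
      rw [Finset.mem_Icc] at ha
      have ha1 : 1 ≤ a := by omega
      have ha0 : (0 : ℝ) < a := by exact_mod_cast ha1
      have h4 := h n hn a ha1
      have e : (a : ℝ) ^ (-(1 - s) - 1) = (a : ℝ) ^ (s - 1) / a := by
        rw [show -(1 - s) - 1 = (s - 1) - 1 by ring, Real.rpow_sub ha0, Real.rpow_one]
      rw [e]
      calc (a : ℝ) ^ (s - 1) * ((wn n a : ℝ) / (4 * n)) ≤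
            (a : ℝ) ^ (s - 1) * (C / (a * Real.sqrt n) * H981.mu ^ (2 * n)) :=
            mul_le_mul_of_nonneg_left h4 (Real.rpow_nonneg ha0.le _)
        _ = _ := by field_simp
    refine (Finset.sum_le_sum h3).trans ?_
    rw [← Finset.sum_mul]
    have h5 := sum_rpow_high h1s hA1 (4 * n)
    have hA0 : (0 : ℝ) < A := by exact_mod_cast hA1
    have h6 : (A : ℝ) ^ (-(1 - s)) ≤ 2 * (n : ℝ) ^ ((s - 1) / 2) := by
      have h7 : Real.sqrt n / 2 ≤ A := by linarith
      calc (A : ℝ) ^ (-(1 - s)) ≤ (Real.sqrt n / 2) ^ (-(1 - s)) :=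
            Real.rpow_le_rpow_of_nonpos (by positivity) h7 (by linarith)
        _ = (Real.sqrt n) ^ (-(1 - s)) * 2 ^ (1 - s) := by
            rw [Real.div_rpow hsn.le (by norm_num), Real.rpow_neg (by norm_num : (0 : ℝ) ≤ 2),
              div_inv_eq_mul]
        _ ≤ (Real.sqrt n) ^ (-(1 - s)) * 2 := by
            apply mul_le_mul_of_nonneg_left _ (Real.rpow_nonneg hsn.le _)
            calc (2 : ℝ) ^ (1 - s) ≤ 2 ^ (1 : ℝ) :=
                  Real.rpow_le_rpow_of_exponent_le (by norm_num) (by linarith)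
              _ = 2 := Real.rpow_one 2
        _ = 2 * (n : ℝ) ^ ((s - 1) / 2) := by
            rw [Real.sqrt_eq_rpow, ← Real.rpow_mul hn0.le, mul_comm]
            congr 2; ring
    calc (∑ a ∈ Finset.Icc (A + 1) (A + 4 * n), (a : ℝ) ^ (-(1 - s) - 1)) *
          (C / Real.sqrt n * H981.mu ^ (2 * n))
        ≤ (2 * (n : ℝ) ^ ((s - 1) / 2) / (1 - s)) * (C / Real.sqrt n * H981.mu ^ (2 * n)) := by
          apply mul_le_mul_of_nonneg_right _ (by positivity)
          exact h5.trans (div_le_div_of_nonneg_right h6 h1s.le)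
      _ = 2 * C / (1 - s) * ((n : ℝ) ^ ((s - 1) / 2) / Real.sqrt n) * H981.mu ^ (2 * n) := by
          ring
      _ = _ := by
          rw [Real.sqrt_eq_rpow, ← Real.rpow_sub hn0]
          congr 3; ring
  calc _ ≤ K / s * (n : ℝ) ^ (s / 2 - 1) * H981.mu ^ (2 * n) +
        2 * C / (1 - s) * (n : ℝ) ^ (s / 2 - 1) * H981.mu ^ (2 * n) := add_le_add hlow hhigh
    _ = _ := by ring

end

end Pool.Agent.Q228.SAP
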