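import Pool.Agent.Q228.SAP.JoinP

/-!
# Join inequalities, final form
-/

set_option autoImplicit false

namespace Pool.Agent.Q228.SAP

open Pool.Agent.W870.Pg H981 Filter Topology
open Pool.Agent.TH546.PC (VF MG mem_VF mem_MG GG_pos GG_conv GG_ratio almost_convex)

noncomputable section

lemma vf_ge {h j : ℕ} (hj : 2 ≤ j) (hh : (2 * h + 7) ^ 2 ≤ 2 * j) : Fp j / 2 ≤ vf h j := by
  classical
  have hmu := mu_pos
  have h1 := high_le (N := j) (M := 2 * h + 6) hj (by
    have : 2 * h + 6 + 1 = 2 * h + 7 := by ring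
    rw [this]; exact hh)
  unfold Fp vf VF
  rw [div_div, mul_comm (mu ^ (2 * j)) 2, ← div_div]
  apply div_le_div_of_nonneg_right _ (by positivity)
  convert h1

/-- the sum over pairs of large polygons -/
theorem join_big : ∃ C : ℝ, 0 ≤ C ∧ ∀ i n : ℕ, 256 ≤ i → 2 * i ≤ n →
    Real.sqrt i * ∑ j ∈ Finset.Icc i (n - i), Fp j * Fp (n - j) ≤ C * Real.log n ^ 2 * Fp n := by
  obtain ⟨C, hC, hj⟩ := join_vf
  refine ⟨128 * C, by positivity, fun i n hi hin => ?_⟩
  obtain ⟨s, hs⟩ : ∃ s, s = Nat.sqrt i := ⟨_, rfl⟩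
  have hs1 : s * s ≤ i := by rw [hs]; exact Nat.sqrt_le i
  have hs2 : i < (s + 1) * (s + 1) := by rw [hs]; exact Nat.lt_succ_sqrt i
  have hs16 : 16 ≤ s := by
    by_contra hcon
    push Not at hcon
    have : (s + 1) * (s + 1) ≤ 16 * 16 := Nat.mul_le_mul (by omega) (by omega)
    omega
  obtain ⟨h, hh⟩ : ∃ h, h = s / 8 := ⟨_, rfl⟩
  have hh1 : 8 * h ≤ s := by omega
  have hh2 : s ≤ 16 * h := by omega
  have hh3 : (2 * h + 7) ^ 2 ≤ i := by
    have h1 : 2 * h + 7 ≤ s := by omega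
    calc (2 * h + 7) ^ 2 ≤ s ^ 2 := Nat.pow_le_pow_left h1 2
      _ = s * s := by ring
      _ ≤ i := hs1
  have hsq : Real.sqrt i ≤ 32 * h := by
    apply Real.sqrt_le_iff.mpr ⟨by positivity, ?_⟩
    have h1 : i ≤ (32 * h) ^ 2 := by
      have h2 : s + 1 ≤ 32 * h := by omega
      calc i ≤ (s + 1) * (s + 1) := hs2.le
        _ ≤ (32 * h) * (32 * h) := Nat.mul_le_mul h2 h2
        _ = _ := by ring
    exact_mod_cast h1
  have h1 := hj h n (by omega)
  have h2 : ∑ j ∈ Finset.Icc i (n - i), Fp j * Fp (n - j) ≤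
      4 * ∑ j ∈ Finset.Icc 2 (n - 2), vf h j * vf h (n - j) := by
    rw [Finset.mul_sum]
    calc ∑ j ∈ Finset.Icc i (n - i), Fp j * Fp (n - j) ≤
          ∑ j ∈ Finset.Icc i (n - i), 4 * (vf h j * vf h (n - j)) := by
            apply Finset.sum_le_sum
            intro j hj
            rw [Finset.mem_Icc] at hj
            have a1 := vf_ge (h := h) (j := j) (by omega) (by omega)
            have a2 := vf_ge (h := h) (j := n - j) (by omega) (by omega)
            have a3 := Fp_pos (N := j) (by omega)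
            have a4 := Fp_pos (N := n - j) (by omega)
            have a5 : Fp j / 2 * (Fp (n - j) / 2) ≤ vf h j * vf h (n - j) :=
              mul_le_mul a1 a2 (by positivity) (vf_nonneg _ _)
            linarith
      _ ≤ _ := by
            apply Finset.sum_le_sum_of_subset_of_nonneg
            · intro j hj
              rw [Finset.mem_Icc] at hj ⊢
              omega
            · intro j _ _
              have := vf_nonneg h j
              have := vf_nonneg h (n - j)
              positivity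
  have hS0 : 0 ≤ ∑ j ∈ Finset.Icc 2 (n - 2), vf h j * vf h (n - j) :=
    Finset.sum_nonneg fun j _ => mul_nonneg (vf_nonneg _ _) (vf_nonneg _ _)
  calc Real.sqrt i * ∑ j ∈ Finset.Icc i (n - i), Fp j * Fp (n - j)
      ≤ (32 * h) * (4 * ∑ j ∈ Finset.Icc 2 (n - 2), vf h j * vf h (n - j)) := by
        apply mul_le_mul hsq h2 _ (by positivity)
        exact Finset.sum_nonneg fun j hj => by
          rw [Finset.mem_Icc] at hj
          exact (mul_pos (Fp_pos (by omega)) (Fp_pos (by omega))).le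
    _ = 128 * (h * ∑ j ∈ Finset.Icc 2 (n - 2), vf h j * vf h (n - j)) := by ring
    _ ≤ 128 * (C * Real.log n ^ 2 * Fp n) := by gcongr
    _ = _ := by ring

/-- **the join inequality** -/
theorem join_all : ∃ C : ℝ, 0 ≤ C ∧ ∀ i n : ℕ, 2 ≤ i → 2 * i ≤ n →
    Real.sqrt i * ∑ j ∈ Finset.Icc i (n - i), Fp j * Fp (n - j) ≤ C * Real.log n ^ 2 * Fp n := by
  obtain ⟨C1, hC1, hbig⟩ := join_big
  obtain ⟨C2, hC2, hsh⟩ := shift
  obtain ⟨K, hK, hp⟩ := Pool.Agent.TH546.PC.point
  have hl2 : 0 < Real.log 2 := Real.log_pos (by norm_num)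
  have hC20 : 0 ≤ C2 := by linarith
  have hFK : ∀ j, 2 ≤ j → Fp j ≤ K := fun j hj => by
    refine (hp j hj).trans (div_le_self hK ?_)
    have : 1 ≤ j := by omega
    exact_mod_cast this
  obtain ⟨B, hB⟩ : ∃ B : ℝ, B = K * C2 ^ 256 := ⟨_, rfl⟩
  have hB0 : 0 ≤ B := by rw [hB]; positivity
  refine ⟨16 * C1 + 16 * 512 * B / Real.log 2 ^ 2, by positivity, fun i n hi hin => ?_⟩
  have hn2 : 2 ≤ n := by omega
  have hF := Fp_pos hn2
  have hn' : (2 : ℝ) ≤ n := by exact_mod_cast hn2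
  have hL2 : Real.log 2 ≤ Real.log n := Real.log_le_log (by norm_num) hn'
  have hB1 : 0 ≤ 16 * 512 * B / Real.log 2 ^ 2 := by positivity
  by_cases hi256 : 256 ≤ i
  · have h1 := hbig i n hi256 hin
    have h2 : 0 ≤ (15 * C1 + 16 * 512 * B / Real.log 2 ^ 2) * (Real.log n ^ 2 * Fp n) := by
      positivity
    nlinarith
  push Not at hi256
  -- small terms
  have hsmall : ∀ j ∈ Finset.Icc i (n - i), (j < 256 ∨ n - j < 256) →
      Fp j * Fp (n - j) ≤ B * Fp n := by
    intro j hj hc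
    rw [Finset.mem_Icc] at hj
    have gen : ∀ a b : ℕ, 2 ≤ a → 2 ≤ b → a + b = n → a < 256 → Fp a * Fp b ≤ B * Fp n := by
      intro a b ha hb hab ha2
      have h1 := (hsh a b hb).2
      rw [show b + a = n by omega] at h1
      have h2 : C2 ^ a ≤ C2 ^ 256 := pow_le_pow_right₀ hC2 ha2.le
      calc Fp a * Fp b ≤ K * (C2 ^ 256 * Fp n) := by
            apply mul_le_mul (hFK a ha) _ (Fp_pos hb).le hK
            exact h1.trans (mul_le_mul_of_nonneg_right h2 hF.le)
        _ = _ := by rw [hB]; ring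
    rcases hc with hc | hc
    · exact gen j (n - j) (by omega) (by omega) (by omega) hc
    · rw [mul_comm]
      exact gen (n - j) j (by omega) (by omega) (by omega) hc
  have hsplit : ∑ j ∈ Finset.Icc i (n - i), Fp j * Fp (n - j) ≤
      ∑ j ∈ Finset.Icc 256 (n - 256), Fp j * Fp (n - j) + 512 * (B * Fp n) := by
    rw [← Finset.sum_filter_add_sum_filter_not (Finset.Icc i (n - i))
      (fun j => 256 ≤ j ∧ 256 ≤ n - j)]
    apply add_le_add
    · apply Finset.sum_le_sum_of_subset_of_nonneg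
      · intro j hj
        rw [Finset.mem_filter, Finset.mem_Icc] at hj
        rw [Finset.mem_Icc]
        omega
      · intro j hj _
        rw [Finset.mem_Icc] at hj
        exact (mul_pos (Fp_pos (by omega)) (Fp_pos (by omega))).le
    · have hcard : ((Finset.Icc i (n - i)).filter (fun j => ¬ (256 ≤ j ∧ 256 ≤ n - j))).card ≤ 512 := by
        have h1 : (Finset.Icc i (n - i)).filter (fun j => ¬ (256 ≤ j ∧ 256 ≤ n - j)) ⊆
            Finset.range 256 ∪ (Finset.range 256).image (fun k => n - k) := by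
          intro j hj
          rw [Finset.mem_filter, Finset.mem_Icc] at hj
          rw [Finset.mem_union, Finset.mem_range, Finset.mem_image]
          by_cases h2 : j < 256
          · exact Or.inl h2
          · right
            refine ⟨n - j, ?_, by omega⟩
            rw [Finset.mem_range]
            omega
        refine (Finset.card_le_card h1).trans ((Finset.card_union_le _ _).trans ?_)
        have h2 := Finset.card_image_le (s := Finset.range 256) (f := fun k => n - k)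
        rw [Finset.card_range] at h2 ⊢
        omega
      calc ∑ j ∈ (Finset.Icc i (n - i)).filter (fun j => ¬ (256 ≤ j ∧ 256 ≤ n - j)),
            Fp j * Fp (n - j) ≤
            ∑ j ∈ (Finset.Icc i (n - i)).filter (fun j => ¬ (256 ≤ j ∧ 256 ≤ n - j)), B * Fp n := by
              apply Finset.sum_le_sum
              intro j hj
              rw [Finset.mem_filter] at hj
              apply hsmall j hj.1
              have := hj.2
              by_contra hcon
              push Not at hcon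
              exact this ⟨hcon.1, hcon.2⟩
        _ = (((Finset.Icc i (n - i)).filter (fun j => ¬ (256 ≤ j ∧ 256 ≤ n - j))).card : ℝ) *
            (B * Fp n) := by rw [Finset.sum_const, nsmul_eq_mul]
        _ ≤ 512 * (B * Fp n) := by
            apply mul_le_mul_of_nonneg_right _ (by positivity)
            exact_mod_cast hcard
  have hsi : Real.sqrt i ≤ 16 := by
    apply Real.sqrt_le_iff.mpr ⟨by norm_num, ?_⟩
    have : (i : ℝ) ≤ 256 := by exact_mod_cast hi256.le
    linarith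
  have hmid : ∑ j ∈ Finset.Icc 256 (n - 256), Fp j * Fp (n - j) ≤ C1 * Real.log n ^ 2 * Fp n := by
    by_cases hn512 : 2 * 256 ≤ n
    · have h1 := hbig 256 n le_rfl hn512
      have h2 : (1 : ℝ) ≤ Real.sqrt ((256 : ℕ) : ℝ) := by
        rw [Real.one_le_sqrt]; norm_num
      refine le_trans ?_ h1
      apply le_mul_of_one_le_left _ h2
      exact Finset.sum_nonneg fun j hj => by
        rw [Finset.mem_Icc] at hj
        exact (mul_pos (Fp_pos (by omega)) (Fp_pos (by omega))).le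
    · rw [Finset.Icc_eq_empty (by omega), Finset.sum_empty]
      positivity
  have hS0 : 0 ≤ ∑ j ∈ Finset.Icc i (n - i), Fp j * Fp (n - j) :=
    Finset.sum_nonneg fun j hj => by
      rw [Finset.mem_Icc] at hj
      exact (mul_pos (Fp_pos (by omega)) (Fp_pos (by omega))).le
  have h5 : 512 * (B * Fp n) ≤ 512 * B / Real.log 2 ^ 2 * (Real.log n ^ 2 * Fp n) := by
    have h6 : Real.log 2 ^ 2 ≤ Real.log n ^ 2 := pow_le_pow_left₀ hl2.le hL2 2
    rw [div_mul_eq_mul_div, le_div_iff₀ (by positivity)]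
    calc 512 * (B * Fp n) * Real.log 2 ^ 2 ≤ 512 * (B * Fp n) * Real.log n ^ 2 := by gcongr
      _ = _ := by ring
  calc Real.sqrt i * ∑ j ∈ Finset.Icc i (n - i), Fp j * Fp (n - j)
      ≤ 16 * (C1 * Real.log n ^ 2 * Fp n + 512 * B / Real.log 2 ^ 2 * (Real.log n ^ 2 * Fp n)) := by
        apply mul_le_mul hsi _ hS0 (by norm_num)
        linarith
    _ = _ := by ring

/-- **super-multiplicativity with a gain** -/
theorem super_mult : ∃ C : ℝ, 0 ≤ C ∧ ∀ n m : ℕ, 2 ≤ n → n ≤ m →
    n * (Fp n * Fp m) ≤ C * Real.log m ^ 2 * Fp (n + m) := by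
  obtain ⟨C1, hC1, hjoin⟩ := join_all
  obtain ⟨C2, hC2, hsh⟩ := shift
  obtain ⟨K, hK, hp⟩ := Pool.Agent.TH546.PC.point
  obtain ⟨D0, hD0, hconv⟩ := GG_conv
  obtain ⟨N0, hN0, hratio⟩ := GG_ratio
  have hl2 : 0 < Real.log 2 := Real.log_pos (by norm_num)
  have hC20 : 0 ≤ C2 := by linarith
  obtain ⟨D, hD⟩ : ∃ D : ℝ, D = 4 * D0 := ⟨_, rfl⟩
  have hD1 : 1 ≤ D := by rw [hD]; linarith
  obtain ⟨M0, hM0⟩ : ∃ M0 : ℕ, M0 = max (2 * N0 + 4) ⌈64 * D⌉₊ := ⟨_, rfl⟩
  refine ⟨128 * Real.sqrt D * C1 + K * C2 ^ M0 / Real.log 2 ^ 2, by positivity,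
    fun n m hn hnm => ?_⟩
  have hm : 2 ≤ m := hn.trans hnm
  have hn0 : (0 : ℝ) < n := by
    have : 0 < n := by omega
    exact_mod_cast this
  have hm' : (2 : ℝ) ≤ m := by exact_mod_cast hm
  have hFn := Fp_pos hn
  have hFm := Fp_pos hm
  have hFnm := Fp_pos (N := n + m) (by omega)
  have hL2 : Real.log 2 ≤ Real.log m := Real.log_le_log (by norm_num) hm'
  have hL0 : 0 < Real.log m := by linarith
  by_cases hc : n < M0
  · -- small `n`
    have h1 : n * Fp n ≤ K := by
      have := hp n hn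
      rw [le_div_iff₀ hn0] at this
      linarith
    have h2 := (hsh n m hm).2
    rw [add_comm m n] at h2
    have h3 : C2 ^ n ≤ C2 ^ M0 := pow_le_pow_right₀ hC2 hc.le
    have h4 : n * (Fp n * Fp m) ≤ K * (C2 ^ M0 * Fp (n + m)) := by
      calc n * (Fp n * Fp m) = (n * Fp n) * Fp m := by ring
        _ ≤ K * (C2 ^ M0 * Fp (n + m)) := by
            apply mul_le_mul h1 _ hFm.le hK
            exact h2.trans (mul_le_mul_of_nonneg_right h3 hFnm.le)
    have h5 : K * (C2 ^ M0 * Fp (n + m)) ≤ K * C2 ^ M0 / Real.log 2 ^ 2 * Real.log m ^ 2 * Fp (n + m) := by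
      have h6 : Real.log 2 ^ 2 ≤ Real.log m ^ 2 := pow_le_pow_left₀ hl2.le hL2 2
      have e : K * C2 ^ M0 / Real.log 2 ^ 2 * Real.log m ^ 2 * Fp (n + m) =
          (K * (C2 ^ M0 * Fp (n + m))) * (Real.log m ^ 2 / Real.log 2 ^ 2) := by ring
      rw [e]
      apply le_mul_of_one_le_right (by positivity)
      rw [le_div_iff₀ (by positivity), one_mul]
      exact h6
    have h6 : 0 ≤ 128 * Real.sqrt D * C1 * Real.log m ^ 2 * Fp (n + m) := by positivity
    calc n * (Fp n * Fp m) ≤ _ := h4.trans h5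
      _ ≤ _ := by linarith
  push Not at hc
  have hnN0 : 2 * N0 + 4 ≤ n := (le_max_left _ _).trans (hM0 ▸ hc)
  have hn64 : 64 * D ≤ n := by
    have h1 : ⌈64 * D⌉₊ ≤ n := (le_max_right _ _).trans (hM0 ▸ hc)
    exact (Nat.le_ceil _).trans (by exact_mod_cast h1)
  obtain ⟨κ, hκ⟩ : ∃ κ : ℕ, κ = ⌊Real.sqrt (n / (16 * D))⌋₊ := ⟨_, rfl⟩
  have hκ1 : (κ : ℝ) ≤ Real.sqrt (n / (16 * D)) := by rw [hκ]; exact Nat.floor_le (by positivity)
  have hκ2 : Real.sqrt (n / (16 * D)) < κ + 1 := by rw [hκ]; exact Nat.lt_floor_add_one _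
  have hsq2 : (2 : ℝ) ≤ Real.sqrt (n / (16 * D)) := by
    apply Real.le_sqrt_of_sq_le
    rw [le_div_iff₀ (by positivity)]
    linarith
  have hκ3 : Real.sqrt (n / (16 * D)) / 2 ≤ κ := by linarith
  have hκsq : (κ : ℝ) ^ 2 ≤ n / (16 * D) := by
    calc (κ : ℝ) ^ 2 ≤ Real.sqrt (n / (16 * D)) ^ 2 := by gcongr
      _ = n / (16 * D) := Real.sq_sqrt (by positivity)
  have hκn : 16 * D * (κ : ℝ) ^ 2 ≤ n := by
    rw [le_div_iff₀ (by positivity)] at hκsq
    linarith
  have hκ16 : 16 * κ ≤ n := by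
    have h1 : (κ : ℝ) ≤ κ ^ 2 := by
      have h2 : κ ≤ κ ^ 2 := Nat.le_self_pow (by norm_num) κ
      exact_mod_cast h2
    have h3 : (16 : ℝ) * κ ≤ n := by nlinarith
    exact_mod_cast h3
  -- one step
  have hone : ∀ N : ℕ, n ≤ N → ∀ k, k ∈ Finset.Icc 1 κ → Fp N ^ 2 / 2 ≤ Fp (N + k) * Fp (N - k) := by
    intro N hN k hk
    rw [Finset.mem_Icc] at hk
    have hN0' : (0 : ℝ) < N := hn0.trans_le (by exact_mod_cast hN)
    have hnN : (n : ℝ) ≤ N := by exact_mod_cast hN
    have hkκ : (k : ℝ) ≤ κ := by exact_mod_cast hk.2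
    have hkn : 16 * D * (k : ℝ) ^ 2 ≤ N := by
      refine le_trans ?_ (hκn.trans hnN)
      gcongr
    have h1 := almost_convex (g := Pool.Agent.TH546.PC.GG) (D := D) hD1 (N := N) (k := k)
      (fun m hm => GG_pos (by omega)) (fun m hm => by
        refine (hconv m (by omega)).trans ?_
        have h2 : D0 / (m : ℝ) ≤ D / N := by
          rw [hD]
          have hm0 : (0 : ℝ) < m := by
            have : 0 < m := by omega
            exact_mod_cast this
          rw [div_le_div_iff₀ hm0 hN0']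
          have h3 : N ≤ 4 * m := by omega
          have h4 : (N : ℝ) ≤ 4 * m := by exact_mod_cast h3
          nlinarith
        gcongr) (fun m hm => hratio m (by omega)) (by omega)
      (by
        have : 0 ≤ D * (k : ℝ) ^ 2 := by positivity
        linarith) (by omega)
    have h2 : (1 : ℝ) / 2 ≤ 1 - 8 * D * (k : ℝ) ^ 2 / N := by
      have : 8 * D * (k : ℝ) ^ 2 / N ≤ 1 / 2 := by
        rw [div_le_div_iff₀ hN0' (by norm_num)]
        linarith
      linarith
    have hG := GG_pos (N := N) (by omega)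
    have h3 : Pool.Agent.TH546.PC.GG N ^ 2 / 2 ≤
        Pool.Agent.TH546.PC.GG (N + k) * Pool.Agent.TH546.PC.GG (N - k) := by
      refine le_trans ?_ h1
      have : Pool.Agent.TH546.PC.GG N ^ 2 / 2 = 1 / 2 * Pool.Agent.TH546.PC.GG N ^ 2 := by ring
      rw [this]
      gcongr
    unfold Pool.Agent.TH546.PC.GG at h3
    have hkN : k ≤ N := by omega
    have hFa := Fp_pos (N := N + k) (by omega)
    have hFb := Fp_pos (N := N - k) (by omega)
    rw [Nat.cast_sub hkN, Nat.cast_add] at h3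
    have h4 : ((N : ℝ) + k) * Fp (N + k) * (((N : ℝ) - k) * Fp (N - k)) ≤
        (N : ℝ) ^ 2 * (Fp (N + k) * Fp (N - k)) := by
      have h5 : ((N : ℝ) + k) * ((N : ℝ) - k) ≤ (N : ℝ) ^ 2 := by nlinarith [sq_nonneg (k : ℝ)]
      calc _ = (((N : ℝ) + k) * ((N : ℝ) - k)) * (Fp (N + k) * Fp (N - k)) := by ring
        _ ≤ _ := by gcongr
    have h6 : (N : ℝ) ^ 2 * (Fp N ^ 2 / 2) ≤ (N : ℝ) ^ 2 * (Fp (N + k) * Fp (N - k)) := by
      calc (N : ℝ) ^ 2 * (Fp N ^ 2 / 2) = ((N : ℝ) * Fp N) ^ 2 / 2 := by ring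
        _ ≤ _ := h3.trans h4
    exact le_of_mul_le_mul_left h6 (by positivity)
  -- pairs
  have hpair : ∀ k ∈ Finset.Icc 1 κ, Fp n * Fp m ≤
      Fp (n + k) * Fp (n + m - (n + k)) + Fp (n - k) * Fp (n + m - (n - k)) := by
    intro k hk
    have h1 := hone n le_rfl k hk
    have h2 := hone m hnm k hk
    rw [Finset.mem_Icc] at hk
    rw [show n + m - (n + k) = m - k by omega, show n + m - (n - k) = m + k by omega]
    have a1 := Fp_pos (N := n + k) (by omega)
    have a2 := Fp_pos (N := n - k) (by omega)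
    have a3 := Fp_pos (N := m + k) (by omega)
    have a4 := Fp_pos (N := m - k) (by omega)
    have h3 : (Fp n * Fp m) ^ 2 / 4 ≤ (Fp (n + k) * Fp (m - k)) * (Fp (n - k) * Fp (m + k)) := by
      calc (Fp n * Fp m) ^ 2 / 4 = (Fp n ^ 2 / 2) * (Fp m ^ 2 / 2) := by ring
        _ ≤ (Fp (n + k) * Fp (n - k)) * (Fp (m + k) * Fp (m - k)) :=
            mul_le_mul h1 h2 (by positivity) (by positivity)
        _ = _ := by ring
    have h4 : 0 < Fp (n + k) * Fp (m - k) := by positivity
    have h5 : 0 < Fp (n - k) * Fp (m + k) := by positivity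
    have h6 : 0 < Fp n * Fp m := by positivity
    generalize Fp (n + k) * Fp (m - k) = u at *
    generalize Fp (n - k) * Fp (m + k) = v at *
    generalize Fp n * Fp m = w at *
    have h7 : w ^ 2 ≤ (u + v) ^ 2 := by nlinarith [sq_nonneg (u - v)]
    exact (pow_le_pow_iff_left₀ h6.le (by linarith) (by norm_num)).mp h7
  have hsum : κ * (Fp n * Fp m) ≤ ∑ k ∈ Finset.Icc 1 κ,
      (Fp (n + k) * Fp (n + m - (n + k)) + Fp (n - k) * Fp (n + m - (n - k))) := by
    calc κ * (Fp n * Fp m) = ∑ k ∈ Finset.Icc 1 κ, Fp n * Fp m := by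
          rw [Finset.sum_const, Nat.card_Icc, nsmul_eq_mul, Nat.add_sub_cancel]
      _ ≤ _ := Finset.sum_le_sum hpair
  rw [Finset.sum_add_distrib] at hsum
  obtain ⟨i, hi⟩ : ∃ i, i = n - κ := ⟨_, rfl⟩
  have hi2 : n ≤ 2 * i := by omega
  set S := ∑ j ∈ Finset.Icc i (n + m - i), Fp j * Fp (n + m - j) with hS
  have hposs : ∀ j ∈ Finset.Icc i (n + m - i), 0 ≤ Fp j * Fp (n + m - j) := fun j hj => by
    rw [Finset.mem_Icc] at hj
    exact (mul_pos (Fp_pos (by omega)) (Fp_pos (by omega))).le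
  have ha : ∑ k ∈ Finset.Icc 1 κ, Fp (n + k) * Fp (n + m - (n + k)) ≤ S := by
    have e : ∑ k ∈ Finset.Icc 1 κ, Fp (n + k) * Fp (n + m - (n + k)) =
        ∑ j ∈ (Finset.Icc 1 κ).image (fun k => n + k), Fp j * Fp (n + m - j) := by
      rw [Finset.sum_image]
      intro a _ b _ hab
      simpa using hab
    rw [e]
    apply Finset.sum_le_sum_of_subset_of_nonneg
    · intro j hj
      rw [Finset.mem_image] at hj
      obtain ⟨k, hk, rfl⟩ := hj
      rw [Finset.mem_Icc] at hk ⊢
      omega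
    · intro j hj _
      exact hposs j hj
  have hb : ∑ k ∈ Finset.Icc 1 κ, Fp (n - k) * Fp (n + m - (n - k)) ≤ S := by
    have e : ∑ k ∈ Finset.Icc 1 κ, Fp (n - k) * Fp (n + m - (n - k)) =
        ∑ j ∈ (Finset.Icc 1 κ).image (fun k => n - k), Fp j * Fp (n + m - j) := by
      rw [Finset.sum_image]
      intro a ha b hb hab
      rw [Finset.mem_coe, Finset.mem_Icc] at ha hb
      simp only at hab
      omega
    rw [e]
    apply Finset.sum_le_sum_of_subset_of_nonneg
    · intro j hj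
      rw [Finset.mem_image] at hj
      obtain ⟨k, hk, rfl⟩ := hj
      rw [Finset.mem_Icc] at hk ⊢
      omega
    · intro j hj _
      exact hposs j hj
  have hjo := hjoin i (n + m) (by omega) (by omega)
  rw [← hS] at hjo
  have hS0 : 0 ≤ S := Finset.sum_nonneg hposs
  have h1 : κ * (Fp n * Fp m) ≤ 2 * S := by linarith
  have hsn : 0 < Real.sqrt n := Real.sqrt_pos.mpr hn0
  have hsD0 : 0 < Real.sqrt D := Real.sqrt_pos.mpr (by linarith)
  have h2 : Real.sqrt n / (8 * Real.sqrt D) ≤ κ := by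
    refine le_trans (le_of_eq ?_) hκ3
    rw [Real.sqrt_div hn0.le, Real.sqrt_mul (by norm_num)]
    have : Real.sqrt 16 = 4 := by
      rw [show (16 : ℝ) = 4 ^ 2 by norm_num, Real.sqrt_sq (by norm_num)]
    rw [this]
    field_simp
    norm_num
  have hsi : Real.sqrt n / 2 ≤ Real.sqrt i := by
    apply Real.le_sqrt_of_sq_le
    rw [div_pow, Real.sq_sqrt hn0.le]
    have : (n : ℝ) ≤ 2 * i := by exact_mod_cast hi2
    have hi0 : (0 : ℝ) ≤ i := Nat.cast_nonneg _
    linarith
  have hlog : Real.log ((n + m : ℕ) : ℝ) ≤ 2 * Real.log m := by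
    have h3 : ((n + m : ℕ) : ℝ) ≤ (m : ℝ) ^ 2 := by
      have : n + m ≤ m ^ 2 := by nlinarith
      exact_mod_cast this
    have h4 := Real.log_le_log (by push_cast; positivity) h3
    rw [Real.log_pow] at h4
    exact_mod_cast h4
  have hlog0 : 0 ≤ Real.log ((n + m : ℕ) : ℝ) := Real.log_natCast_nonneg _
  have h3 : Real.sqrt n / 2 * (Real.sqrt n / (8 * Real.sqrt D) * (Fp n * Fp m)) ≤
      2 * (C1 * (2 * Real.log m) ^ 2 * Fp (n + m)) := by
    calc Real.sqrt n / 2 * (Real.sqrt n / (8 * Real.sqrt D) * (Fp n * Fp m)) ≤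
          Real.sqrt i * (κ * (Fp n * Fp m)) := by gcongr
      _ ≤ Real.sqrt i * (2 * S) := by gcongr
      _ = 2 * (Real.sqrt i * S) := by ring
      _ ≤ 2 * (C1 * Real.log ((n + m : ℕ) : ℝ) ^ 2 * Fp (n + m)) := by gcongr
      _ ≤ _ := by gcongr
  have h4 : Real.sqrt n * Real.sqrt n = n := Real.mul_self_sqrt hn0.le
  have h5 : n * (Fp n * Fp m) ≤ 128 * Real.sqrt D * C1 * Real.log m ^ 2 * Fp (n + m) := by
    have e : Real.sqrt n / 2 * (Real.sqrt n / (8 * Real.sqrt D) * (Fp n * Fp m)) =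
        (Real.sqrt n * Real.sqrt n) * (Fp n * Fp m) / (16 * Real.sqrt D) := by
      field_simp
      ring
    rw [e, h4, div_le_iff₀ (by positivity)] at h3
    calc n * (Fp n * Fp m) ≤ _ := h3
      _ = _ := by ring
  have h6 : 0 ≤ K * C2 ^ M0 / Real.log 2 ^ 2 * Real.log m ^ 2 * Fp (n + m) := by positivity
  linarith

end

end Pool.Agent.Q228.SAP
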