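import Pool.Agent.TH546.PC.Point
import Pool.Agent.TH508.LT.Fin2

/-!
# Join inequalities for the numbers of polygons of given perimeter

The number of cuts of a polygon has exponential moments (`choose_sum`), the number of polygons is at
least `μ^(2n) exp(-K (log n)^2)`; so the mean number of cuts at perimeter `2 n` is at most
`K (log n)^2`. With the chain inequality of `TH546.PC` this gives
`√i ∑_{i ≤ j ≤ n - i} p_{2j} p_{2(n-j)} ≤ K (log n)^2 p_{2n}`.
-/

set_option autoImplicit false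

namespace Pool.Agent.Q228.SAP

open Pool.Agent.W870.Pg H981 Filter Topology
open Pool.Agent.TH546.PC (VF MG mem_VF mem_MG chain_ineq GG_pos GG_conv GG_ratio almost_convex)

noncomputable section

/-! ### exponential moments of the number of cuts -/

/-- the base of the exponential moment -/
def yy : ℝ := 1 + (mu ^ 2)⁻¹ / 2

lemma yy_gt : 1 < yy := by
  have := mu_pos
  unfold yy
  have : 0 < (mu ^ 2)⁻¹ / 2 := by positivity
  linarith

lemma yy_sub : yy - 1 = (mu ^ 2)⁻¹ / 2 := by unfold yy; ring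

lemma cut_card_le {N : ℕ} {g : List V} (hg : g ∈ CanF N) : (cutset g).card ≤ N + 1 := by
  classical
  rw [mem_CanF] at hg
  have h1 : cutset g ⊆ Finset.range (g.length + 1) := by
    intro a ha
    unfold cutset at ha
    rw [Finset.mem_filter] at ha
    exact ha.1
  have h2 := Finset.card_le_card h1
  rw [Finset.card_range, hg.2] at h2
  exact h2

lemma half_sum (N R : ℕ) : ∑ m ∈ Finset.range R, (1 / 2 : ℝ) ^ m * ((N : ℝ) + 2 * m + 4) =
    2 * N + 12 - (1 / 2 : ℝ) ^ R * (2 * N + 4 * R + 12) := by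
  induction R with
  | zero => simp
  | succ R ih =>
    rw [Finset.sum_range_succ, ih]
    push_cast
    rw [pow_succ]
    ring

lemma cut_exp (N : ℕ) :
    ∑ g ∈ CanF N, yy ^ (cutset g).card ≤ (2 * N + 12) * mu ^ (N + 3) := by
  have hmu := mu_pos
  set x : ℝ := (mu ^ 2)⁻¹ / 2 with hx
  have hx0 : 0 < x := by rw [hx]; positivity
  have h1 : ∀ g ∈ CanF N, yy ^ (cutset g).card =
      ∑ m ∈ Finset.range (N + 2), x ^ m * ((cutset g).card.choose m : ℝ) := by
    intro g hg
    have h2 := cut_card_le hg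
    have h3 : yy = x + 1 := by unfold yy; rw [add_comm]
    rw [h3, add_pow]
    have h4 : ∑ m ∈ Finset.range ((cutset g).card + 1),
        x ^ m * 1 ^ ((cutset g).card - m) * ((cutset g).card.choose m : ℝ) =
        ∑ m ∈ Finset.range ((cutset g).card + 1), x ^ m * ((cutset g).card.choose m : ℝ) := by
      refine Finset.sum_congr rfl fun m _ => ?_
      rw [one_pow, mul_one]
    rw [h4]
    apply Finset.sum_subset
    · intro m hm
      rw [Finset.mem_range] at hm ⊢
      omega
    · intro m _ hm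
      rw [Finset.mem_range] at hm
      rw [Nat.choose_eq_zero_of_lt (by omega)]
      simp
  rw [Finset.sum_congr rfl h1, Finset.sum_comm]
  have h2 : ∀ m ∈ Finset.range (N + 2), ∑ g ∈ CanF N, x ^ m * ((cutset g).card.choose m : ℝ) ≤
      mu ^ (N + 3) * ((1 / 2 : ℝ) ^ m * ((N : ℝ) + 2 * m + 4)) := by
    intro m _
    rw [← Finset.mul_sum]
    calc x ^ m * ∑ g ∈ CanF N, ((cutset g).card.choose m : ℝ) ≤
          x ^ m * ((N + 2 * m + 4) * mu ^ (N + 2 * m + 3)) := by
            gcongr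
            exact choose_sum N m
      _ = _ := by
          have e : mu ^ (N + 2 * m + 3) = mu ^ (N + 3) * (mu ^ 2) ^ m := by
            rw [← pow_mul, ← pow_add]; congr 1; ring
          rw [e, hx, div_pow, inv_pow, div_pow, one_pow]
          have : (mu ^ 2) ^ m ≠ 0 := by positivity
          field_simp
  refine (Finset.sum_le_sum h2).trans ?_
  rw [← Finset.mul_sum, half_sum, mul_comm]
  apply mul_le_mul_of_nonneg_right _ (by positivity)
  have : 0 ≤ (1 / 2 : ℝ) ^ (N + 2) * (2 * N + 4 * ((N + 2 : ℕ) : ℝ) + 12) := by positivity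
  linarith

lemma q_le (q t : ℕ) : (q : ℝ) ≤ t + yy ^ q / (yy ^ t * (yy - 1)) := by
  have hy := yy_gt
  have hy1 : 0 < yy - 1 := by linarith
  have hy0 : 0 < yy := by linarith
  rcases Nat.le_total q t with h | h
  · have h1 : (q : ℝ) ≤ t := by exact_mod_cast h
    have h2 : 0 ≤ yy ^ q / (yy ^ t * (yy - 1)) := by positivity
    linarith
  · obtain ⟨u, rfl⟩ := Nat.exists_eq_add_of_le h
    have h1 := one_add_mul_le_pow (a := yy - 1) (by linarith) u
    have e : 1 + (yy - 1) = yy := by ring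
    rw [e] at h1
    have h2 : (u : ℝ) ≤ yy ^ (t + u) / (yy ^ t * (yy - 1)) := by
      rw [pow_add, mul_div_mul_left _ _ (by positivity), le_div_iff₀ hy1]
      linarith
    push_cast
    linarith

/-- **the mean number of cuts is at most `K (log n)^2`** -/
theorem cut_mean : ∃ C : ℝ, 0 ≤ C ∧ ∀ n : ℕ, 2 ≤ n →
    ∑ g ∈ CanF (2 * n - 1), ((cutset g).card : ℝ) ≤ C * Real.log n ^ 2 * PP n := by
  obtain ⟨K, hK, hPP⟩ := Pool.Agent.TH508.LT.sq_PP2
  have hmu := mu_pos
  have hmu1 : 1 ≤ mu := one_le_mu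
  have hy := yy_gt
  have hy0 : 0 < yy := by linarith
  have hly : 0 < Real.log yy := Real.log_pos hy
  have hl2 : 0 < Real.log 2 := Real.log_pos (by norm_num)
  set c0 : ℝ := Real.log (18 * mu ^ 4) with hc0
  have hc00 : 0 ≤ c0 := Real.log_nonneg (by
    have : 1 ≤ mu ^ 4 := one_le_pow₀ hmu1
    linarith)
  set C1 : ℝ := (K + 1 / Real.log 2 + c0 / Real.log 2 ^ 2) / Real.log yy + 2 / Real.log 2 ^ 2
    with hC1
  have hC10 : 0 ≤ C1 := by positivity
  refine ⟨2 * C1, by positivity, fun n hn => ?_⟩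
  have hn' : (2 : ℝ) ≤ n := by exact_mod_cast hn
  have hn0 : (0 : ℝ) < n := by linarith
  set L := Real.log n with hL
  have hL2 : Real.log 2 ≤ L := Real.log_le_log (by norm_num) hn'
  have hL0 : 0 < L := by linarith
  obtain ⟨t, ht⟩ : ∃ t : ℕ, t = ⌈(K * L ^ 2 + L + c0) / Real.log yy⌉₊ := ⟨_, rfl⟩
  have ht1 : (K * L ^ 2 + L + c0) / Real.log yy ≤ t := by rw [ht]; exact Nat.le_ceil _
  have ht2 : (t : ℝ) < (K * L ^ 2 + L + c0) / Real.log yy + 1 := by
    rw [ht]; exact Nat.ceil_lt_add_one (by positivity)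
  -- the power of the base
  have hyt : Real.exp (K * L ^ 2) * (n * (18 * mu ^ 4)) ≤ yy ^ t := by
    rw [div_le_iff₀ hly] at ht1
    have e1 : Real.exp (K * L ^ 2) * (n * (18 * mu ^ 4)) = Real.exp (K * L ^ 2 + L + c0) := by
      rw [Real.exp_add, Real.exp_add, hL, hc0, Real.exp_log hn0, Real.exp_log (by positivity)]
      ring
    have e2 : yy ^ t = Real.exp (t * Real.log yy) := by
      rw [mul_comm, Real.exp_mul, Real.exp_log hy0, Real.rpow_natCast]
    rw [e1, e2]
    exact Real.exp_le_exp.mpr ht1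
  have hPn := (hPP n hn).1
  have hP0 : 0 < PP n := PP_pos hn
  -- the sum
  have h1 : ∑ g ∈ CanF (2 * n - 1), ((cutset g).card : ℝ) ≤
      t * (nn n : ℝ) + (∑ g ∈ CanF (2 * n - 1), yy ^ (cutset g).card) / (yy ^ t * (yy - 1)) := by
    calc ∑ g ∈ CanF (2 * n - 1), ((cutset g).card : ℝ) ≤
          ∑ g ∈ CanF (2 * n - 1), ((t : ℝ) + yy ^ (cutset g).card / (yy ^ t * (yy - 1))) :=
          Finset.sum_le_sum fun g _ => q_le _ t
      _ = _ := by
          rw [Finset.sum_add_distrib, Finset.sum_const, nsmul_eq_mul, ← Finset.sum_div]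
          unfold nn
          ring
  have h2 : (∑ g ∈ CanF (2 * n - 1), yy ^ (cutset g).card) / (yy ^ t * (yy - 1)) ≤ PP n := by
    have h3 := cut_exp (2 * n - 1)
    have hy1 : 0 < yy - 1 := by linarith
    rw [div_le_iff₀ (by positivity)]
    refine h3.trans ?_
    have e1 : mu ^ (2 * n - 1 + 3) = mu ^ (2 * n) * mu ^ 2 := by
      rw [← pow_add]; congr 1; omega
    have e2 : (2 : ℝ) * ((2 * n - 1 : ℕ) : ℝ) + 12 ≤ 9 * n := by
      have : 2 * (2 * n - 1) + 12 ≤ 9 * n := by omega
      exact_mod_cast this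
    have e3 : yy - 1 = (mu ^ 2)⁻¹ / 2 := yy_sub
    calc (2 * ((2 * n - 1 : ℕ) : ℝ) + 12) * mu ^ (2 * n - 1 + 3)
        ≤ 9 * n * (mu ^ (2 * n) * mu ^ 2) := by rw [e1]; gcongr
      _ = (mu ^ (2 * n) * Real.exp (-(K * L ^ 2))) *
          ((Real.exp (K * L ^ 2) * (n * (18 * mu ^ 4))) * ((mu ^ 2)⁻¹ / 2)) := by
          rw [Real.exp_neg]
          have := (Real.exp_pos (K * L ^ 2)).ne'
          field_simp
          ring
      _ ≤ PP n * (yy ^ t * (yy - 1)) := by
          rw [e3]
          apply mul_le_mul hPn _ (by positivity) hP0.le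
          gcongr
  have h3 := nn_le_PP hn
  have h4 : (2 * (t : ℝ) + 1) * PP n ≤ 2 * C1 * L ^ 2 * PP n := by
    apply mul_le_mul_of_nonneg_right _ hP0.le
    have a1 : 1 ≤ L ^ 2 / Real.log 2 ^ 2 := by
      rw [le_div_iff₀ (by positivity), one_mul]
      exact pow_le_pow_left₀ hl2.le hL2 2
    have a2 : L ≤ L ^ 2 / Real.log 2 := by
      rw [le_div_iff₀ hl2]; nlinarith
    have a3 : c0 ≤ c0 / Real.log 2 ^ 2 * L ^ 2 := by
      calc c0 = c0 * 1 := (mul_one _).symm
        _ ≤ c0 * (L ^ 2 / Real.log 2 ^ 2) := by gcongr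
        _ = _ := by ring
    have a4 : (K * L ^ 2 + L + c0) / Real.log yy ≤
        (K + 1 / Real.log 2 + c0 / Real.log 2 ^ 2) / Real.log yy * L ^ 2 := by
      rw [div_mul_eq_mul_div]
      apply div_le_div_of_nonneg_right _ hly.le
      have : (K + 1 / Real.log 2 + c0 / Real.log 2 ^ 2) * L ^ 2 =
          K * L ^ 2 + L ^ 2 / Real.log 2 + c0 / Real.log 2 ^ 2 * L ^ 2 := by ring
      rw [this]
      linarith
    have a5 : 2 * C1 * L ^ 2 = 2 * ((K + 1 / Real.log 2 + c0 / Real.log 2 ^ 2) / Real.log yy * L ^ 2) +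
        4 * (L ^ 2 / Real.log 2 ^ 2) := by rw [hC1]; ring
    rw [a5]
    linarith
  have h5 : (t : ℝ) * (nn n : ℝ) ≤ t * (2 * PP n) := by gcongr
  linarith

/-! ### comparison of neighbouring perimeters -/

lemma shift_one : ∃ C : ℝ, 1 ≤ C ∧ ∀ n : ℕ, 2 ≤ n → Fp (n + 1) ≤ C * Fp n ∧ Fp n ≤ C * Fp (n + 1) := by
  obtain ⟨C1, hC1, h1⟩ := Fp_ratio
  obtain ⟨B, hB, hb⟩ := Pool.Agent.H739K.rN_bdd
  obtain ⟨N0, hN0, h2⟩ := GG_ratio
  obtain ⟨S, hS⟩ : ∃ S : ℝ, S = ∑ n ∈ Finset.Icc 2 N0, Fp n / Fp (n + 1) := ⟨_, rfl⟩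
  have hS0 : ∀ n ∈ Finset.Icc 2 N0, 0 ≤ Fp n / Fp (n + 1) := fun n hn => by
    rw [Finset.mem_Icc] at hn
    exact div_nonneg (Fp_pos hn.1).le (Fp_pos (by omega)).le
  have hS0' : 0 ≤ S := by rw [hS]; exact Finset.sum_nonneg hS0
  refine ⟨1 + C1 * B + 4 + S, by
    have : 0 ≤ C1 * B := by positivity
    linarith, fun n hn => ⟨?_, ?_⟩⟩
  · have h3 := h1 n hn
    have h4 : C1 * Real.sqrt (Real.log n ^ 9 / n) ≤ C1 * B := by
      have := hb n
      rw [Pool.Agent.H739K.rN_eq] at this
      gcongr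
    have h5 := (abs_le.mp (h3.trans h4)).2
    have hF := Fp_pos hn
    have h6 : Fp (n + 1) / Fp n ≤ 1 + C1 * B + 4 + S := by linarith
    rwa [div_le_iff₀ hF] at h6
  · have hF := Fp_pos hn
    have hF1 := Fp_pos (N := n + 1) (by omega)
    have hCB : 0 ≤ C1 * B := by positivity
    by_cases hc : N0 ≤ n
    · have h3 := h2 n hc
      unfold Pool.Agent.TH546.PC.GG at h3
      have hn0 : (0 : ℝ) < n := by
        have : 0 < n := by omega
        exact_mod_cast this
      have hn1 : (1 : ℝ) ≤ n := by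
        have : 1 ≤ n := by omega
        exact_mod_cast this
      push_cast at h3
      have h4 : (n : ℝ) * Fp n ≤ n * (4 * Fp (n + 1)) := by nlinarith
      have h5 := le_of_mul_le_mul_left h4 hn0
      have h6 : 0 ≤ (1 + C1 * B + S) * Fp (n + 1) := mul_nonneg (by linarith) hF1.le
      linarith
    · push Not at hc
      have h3 : Fp n / Fp (n + 1) ≤ S := by
        rw [hS]
        exact Finset.single_le_sum (f := fun n => Fp n / Fp (n + 1)) hS0
          (Finset.mem_Icc.mpr ⟨hn, hc.le⟩)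
      have h4 : Fp n ≤ S * Fp (n + 1) := by rwa [div_le_iff₀ hF1] at h3
      have h6 : 0 ≤ (1 + C1 * B + 4) * Fp (n + 1) := mul_nonneg (by linarith) hF1.le
      linarith

lemma shift : ∃ C : ℝ, 1 ≤ C ∧ ∀ k n : ℕ, 2 ≤ n →
    Fp (n + k) ≤ C ^ k * Fp n ∧ Fp n ≤ C ^ k * Fp (n + k) := by
  obtain ⟨C, hC, h⟩ := shift_one
  refine ⟨C, hC, fun k n hn => ?_⟩
  induction k with
  | zero => simp
  | succ k ih =>
    have h1 := h (n + k) (by omega)
    have hC0 : 0 ≤ C := by linarith
    rw [show n + (k + 1) = n + k + 1 by ring]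
    constructor
    · calc Fp (n + k + 1) ≤ C * Fp (n + k) := h1.1
        _ ≤ C * (C ^ k * Fp n) := by gcongr; exact ih.1
        _ = _ := by ring
    · calc Fp n ≤ C ^ k * Fp (n + k) := ih.2
        _ ≤ C ^ k * (C * Fp (n + k + 1)) := by gcongr; exact h1.2
        _ = _ := by ring

/-! ### the join inequality -/

/-- high polygons with `2 j` edges, normalised -/
def vf (h j : ℕ) : ℝ := ((VF h (2 * j - 1)).card : ℝ) / mu ^ (2 * j)

lemma vf_nonneg (h j : ℕ) : 0 ≤ vf h j := by
  have := mu_pos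
  unfold vf; positivity

theorem join_vf : ∃ C : ℝ, 0 ≤ C ∧ ∀ h n : ℕ, 2 ≤ n →
    h * ∑ j ∈ Finset.Icc 2 (n - 2), vf h j * vf h (n - j) ≤ C * Real.log n ^ 2 * Fp n := by
  classical
  obtain ⟨C1, hC1, hcut⟩ := cut_mean
  obtain ⟨C2, hC2, hsh⟩ := shift
  have hmu := mu_pos
  have hmu1 : 1 ≤ mu := one_le_mu
  have hC20 : 0 ≤ C2 := by linarith
  refine ⟨800 * (3 * (C1 * 9 * (C2 ^ 6 * mu ^ 12))), by positivity, fun h n hn => ?_⟩
  have hn' : (2 : ℝ) ≤ n := by exact_mod_cast hn
  have hn0 : (0 : ℝ) < n := by linarith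
  have hF := Fp_pos hn
  have hchain := chain_ineq h 0 (2 * n) (2 * n - 2)
  -- the right side
  have hR : ∀ a : ℕ, a ≤ 6 → ((MG h 1 (2 * (n + a) - 1)).card : ℝ) ≤
      C1 * 9 * (C2 ^ 6 * mu ^ 12) * (Real.log n ^ 2 * (Fp n * mu ^ (2 * n))) := by
    intro a ha
    have h1 : ((MG h 1 (2 * (n + a) - 1)).card : ℝ) ≤
        ∑ g ∈ CanF (2 * (n + a) - 1), ((cutset g).card : ℝ) := by
      have h2 : (MG h 1 (2 * (n + a) - 1)).card ≤
          ((CanF (2 * (n + a) - 1)).sigma (fun g => Finset.powersetCard 1 (cutset g))).card := by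
        unfold MG
        exact Finset.card_le_card (Finset.filter_subset _ _)
      rw [Finset.card_sigma] at h2
      calc ((MG h 1 (2 * (n + a) - 1)).card : ℝ) ≤
            ((∑ g ∈ CanF (2 * (n + a) - 1), (Finset.powersetCard 1 (cutset g)).card : ℕ) : ℝ) := by
              exact_mod_cast h2
        _ = _ := by
            push_cast
            refine Finset.sum_congr rfl fun g _ => ?_
            rw [Finset.card_powersetCard, Nat.choose_one_right]
    refine h1.trans ((hcut (n + a) (by omega)).trans ?_)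
    have hlog : Real.log ((n + a : ℕ) : ℝ) ≤ 3 * Real.log n := by
      have h3 : ((n + a : ℕ) : ℝ) ≤ (n : ℝ) ^ 3 := by
        have : n + a ≤ n ^ 3 := by
          have h4 : n * 4 ≤ n ^ 3 := by
            have : 2 * 2 ≤ n * n := Nat.mul_le_mul hn hn
            calc n * 4 ≤ n * (n * n) := Nat.mul_le_mul_left n this
              _ = n ^ 3 := by ring
          omega
        exact_mod_cast this
      have h4 := Real.log_le_log (by push_cast; positivity) h3
      rw [Real.log_pow] at h4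
      exact_mod_cast h4
    have hlog0 : 0 ≤ Real.log ((n + a : ℕ) : ℝ) := Real.log_natCast_nonneg _
    have hP : PP (n + a) ≤ C2 ^ 6 * mu ^ 12 * (Fp n * mu ^ (2 * n)) := by
      have h5 := (hsh a n hn).1
      have e : PP (n + a) = Fp (n + a) * mu ^ (2 * (n + a)) := by
        unfold Fp; field_simp
      have e2 : mu ^ (2 * (n + a)) = mu ^ (2 * a) * mu ^ (2 * n) := by
        rw [← pow_add]; congr 1; ring
      rw [e, e2]
      have h6 : C2 ^ a ≤ C2 ^ 6 := pow_le_pow_right₀ hC2 ha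
      have h7 : mu ^ (2 * a) ≤ mu ^ 12 := pow_le_pow_right₀ hmu1 (by omega)
      calc Fp (n + a) * (mu ^ (2 * a) * mu ^ (2 * n)) ≤
            (C2 ^ 6 * Fp n) * (mu ^ 12 * mu ^ (2 * n)) := by
              apply mul_le_mul _ _ (by positivity) (by positivity)
              · exact h5.trans (mul_le_mul_of_nonneg_right h6 hF.le)
              · exact mul_le_mul_of_nonneg_right h7 (by positivity)
        _ = _ := by ring
    have hPP0 : 0 ≤ PP (n + a) := (PP_pos (N := n + a) (by omega)).le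
    calc C1 * Real.log ((n + a : ℕ) : ℝ) ^ 2 * PP (n + a) ≤
          C1 * (3 * Real.log n) ^ 2 * (C2 ^ 6 * mu ^ 12 * (Fp n * mu ^ (2 * n))) := by
            gcongr
      _ = _ := by ring
  have hRR : ((800 * ∑ c ∈ ({9, 11, 13} : Finset ℕ), (MG h (0 + 1) (2 * n - 2 + c)).card : ℕ) : ℝ) ≤
      800 * (3 * (C1 * 9 * (C2 ^ 6 * mu ^ 12) * (Real.log n ^ 2 * (Fp n * mu ^ (2 * n))))) := by
    have e : ∑ c ∈ ({9, 11, 13} : Finset ℕ), (MG h (0 + 1) (2 * n - 2 + c)).card =
        (MG h 1 (2 * (n + 4) - 1)).card + (MG h 1 (2 * (n + 5) - 1)).card +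
          (MG h 1 (2 * (n + 6) - 1)).card := by
      rw [Finset.sum_insert (by decide), Finset.sum_insert (by decide), Finset.sum_singleton]
      rw [show 2 * n - 2 + 9 = 2 * (n + 4) - 1 by omega,
        show 2 * n - 2 + 11 = 2 * (n + 5) - 1 by omega,
        show 2 * n - 2 + 13 = 2 * (n + 6) - 1 by omega, zero_add, add_assoc]
    rw [e]
    push_cast
    have a1 := hR 4 (by norm_num)
    have a2 := hR 5 (by norm_num)
    have a3 := hR 6 (by norm_num)
    linarith
  -- the left side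
  have hLL : h * ∑ j ∈ Finset.Icc 2 (n - 2), vf h j * vf h (n - j) ≤
      ((∑ m ∈ (Finset.range (2 * n)).filter (fun m => m ≤ 2 * n - 2),
        (VF h m).card * ((MG h 0 (2 * n - 2 - m)).card * h) : ℕ) : ℝ) / mu ^ (2 * n) := by
    rw [le_div_iff₀ (by positivity)]
    have h1 : ∀ j ∈ Finset.Icc 2 (n - 2), vf h j * vf h (n - j) * mu ^ (2 * n) * h ≤
        (((VF h (2 * j - 1)).card * ((MG h 0 (2 * n - 2 - (2 * j - 1))).card * h) : ℕ) : ℝ) := by
      intro j hj
      rw [Finset.mem_Icc] at hj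
      have h2 : (VF h (2 * (n - j) - 1)).card ≤ (MG h 0 (2 * n - 2 - (2 * j - 1))).card := by
        refine Finset.card_le_card_of_injOn (fun g => ⟨g, ∅⟩) ?_ ?_
        · intro g hg
          rw [Finset.mem_coe, mem_VF] at hg
          rw [Finset.mem_coe, mem_MG]
          refine ⟨⟨⟨hg.1.1, by simp only; rw [hg.1.2]; omega⟩, by simp, by simp⟩, ?_, ?_⟩
          · have := hg.2
            simp only
            omega
          · intro a ha
            simp at ha
        · intro g _ g' _ hgg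
          simpa using hgg
      have e : mu ^ (2 * n) = mu ^ (2 * j) * mu ^ (2 * (n - j)) := by
        rw [← pow_add]; congr 1; omega
      have h3 : ((VF h (2 * (n - j) - 1)).card : ℝ) ≤
          ((MG h 0 (2 * n - 2 - (2 * j - 1))).card : ℝ) := by exact_mod_cast h2
      calc vf h j * vf h (n - j) * mu ^ (2 * n) * h =
            ((VF h (2 * j - 1)).card : ℝ) * (((VF h (2 * (n - j) - 1)).card : ℝ) * h) := by
              unfold vf
              rw [e]
              field_simp
        _ ≤ ((VF h (2 * j - 1)).card : ℝ) *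
            (((MG h 0 (2 * n - 2 - (2 * j - 1))).card : ℝ) * h) := by gcongr
        _ = _ := by push_cast; ring
    calc h * (∑ j ∈ Finset.Icc 2 (n - 2), vf h j * vf h (n - j)) * mu ^ (2 * n)
        = ∑ j ∈ Finset.Icc 2 (n - 2), vf h j * vf h (n - j) * mu ^ (2 * n) * h := by
          rw [Finset.mul_sum, Finset.sum_mul]
          refine Finset.sum_congr rfl fun j _ => ?_
          ring
      _ ≤ ∑ j ∈ Finset.Icc 2 (n - 2),
          (((VF h (2 * j - 1)).card * ((MG h 0 (2 * n - 2 - (2 * j - 1))).card * h) : ℕ) : ℝ) :=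
          Finset.sum_le_sum h1
      _ = ((∑ m ∈ (Finset.Icc 2 (n - 2)).image (fun j => 2 * j - 1),
          (VF h m).card * ((MG h 0 (2 * n - 2 - m)).card * h) : ℕ) : ℝ) := by
          rw [Finset.sum_image]
          · push_cast
            rfl
          · intro a ha b hb hab
            rw [Finset.mem_coe, Finset.mem_Icc] at ha hb
            simp only at hab
            omega
      _ ≤ _ := by
          have : ∑ m ∈ (Finset.Icc 2 (n - 2)).image (fun j => 2 * j - 1),
              (VF h m).card * ((MG h 0 (2 * n - 2 - m)).card * h) ≤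
              ∑ m ∈ (Finset.range (2 * n)).filter (fun m => m ≤ 2 * n - 2),
              (VF h m).card * ((MG h 0 (2 * n - 2 - m)).card * h) := by
            apply Finset.sum_le_sum_of_subset
            intro m hm
            rw [Finset.mem_image] at hm
            obtain ⟨j, hj, rfl⟩ := hm
            rw [Finset.mem_Icc] at hj
            rw [Finset.mem_filter, Finset.mem_range]
            omega
          exact_mod_cast this
  refine hLL.trans ?_
  rw [div_le_iff₀ (by positivity)]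
  have h6 : ((∑ m ∈ (Finset.range (2 * n)).filter (fun m => m ≤ 2 * n - 2),
      (VF h m).card * ((MG h 0 (2 * n - 2 - m)).card * h) : ℕ) : ℝ) ≤
      ((800 * ∑ c ∈ ({9, 11, 13} : Finset ℕ), (MG h (0 + 1) (2 * n - 2 + c)).card : ℕ) : ℝ) := by
    exact_mod_cast hchain
  calc _ ≤ _ := h6.trans hRR
    _ = _ := by ring

end

end Pool.Agent.Q228.SAP
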