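import Pool.Agent.Q228.SAP.Fin

/-!
# Counts of polygons of large area, and means times counts
-/

set_option autoImplicit false

namespace Pool.Agent.Q228.SAP

open Finset Pool.Agent.H976R2 Pool.Agent.H924P Pool.Agent.H739K Filter Topology
open Pool.Agent.W870.Pg (LF mem_LF loops_eq le_width le_height sum_swp)
open scoped Classical

noncomputable section

/-! ### the area is at most width times height -/

lemma encl_wh {m : ℕ} [NeZero m] {f : ZMod m → ℤ × ℤ}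
    (hs : ∀ i : ZMod m, |(f (i+1)).1 - (f i).1| + |(f (i+1)).2 - (f i).2| = 1)
    {x0 x1 y0 y1 : ℤ} (hx : ∀ i, x0 ≤ (f i).1 ∧ (f i).1 ≤ x1)
    (hy : ∀ i, y0 ≤ (f i).2 ∧ (f i).2 ≤ y1) {c : ℤ × ℤ} (hc : Encl m f c) :
    (x0 ≤ c.1 ∧ c.1 < x1) ∧ (y0 ≤ c.2 ∧ c.2 < y1) := by
  unfold Encl at hc
  have hne : ∃ k, Above m f c.1 c.2 k := by
    by_contra hcon
    push Not at hcon
    have : IsEmpty {k : ZMod m // Above m f c.1 c.2 k} := ⟨fun k => hcon k.1 k.2⟩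
    rw [Nat.card_of_isEmpty] at hc
    exact absurd hc (by decide)
  obtain ⟨k, hk1, hk2⟩ := hne
  have h1 := hx k
  have h2 := hx (k + 1)
  have h3 := hy k
  refine ⟨⟨by omega, by omega⟩, ?_, by omega⟩
  by_contra hlt
  push Not at hlt
  have h4 : Nat.card {k : ZMod m // Above m f c.1 c.2 k} =
      Nat.card {k : ZMod m // (((f k).1 = c.1 ∧ (f (k + 1)).1 = c.1 + 1) ∨
      ((f k).1 = c.1 + 1 ∧ (f (k + 1)).1 = c.1))} := by
    apply Nat.card_congr
    apply Equiv.subtypeEquivRight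
    intro k
    unfold Above
    have h5 := hy k
    constructor
    · rintro ⟨h, _⟩
      exact h
    · intro h
      exact ⟨h, by omega⟩
  rw [h4] at hc
  exact (Nat.not_odd_iff_even.2 (even_cross f hs c.1)) hc

theorem area_le_wh {m : ℕ} [NeZero m] {f : ZMod m → ℤ × ℤ}
    (hs : ∀ i : ZMod m, |(f (i+1)).1 - (f i).1| + |(f (i+1)).2 - (f i).2| = 1) :
    area m f ≤ width m f * height m f := by
  obtain ⟨i0, -, hi0⟩ := Finset.exists_min_image (Finset.univ : Finset (ZMod m))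
    (fun i => (f i).1) ⟨0, Finset.mem_univ _⟩
  obtain ⟨j0, -, hj0⟩ := Finset.exists_min_image (Finset.univ : Finset (ZMod m))
    (fun i => (f i).2) ⟨0, Finset.mem_univ _⟩
  have hx : ∀ i, (f i0).1 ≤ (f i).1 ∧ (f i).1 ≤ (f i0).1 + width m f := fun i => by
    have a1 := hi0 i (Finset.mem_univ _)
    have a3 := le_width f i i0
    omega
  have hy : ∀ i, (f j0).2 ≤ (f i).2 ∧ (f i).2 ≤ (f j0).2 + height m f := fun i => by
    have a1 := hj0 i (Finset.mem_univ _)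
    have a3 := le_height f i j0
    omega
  let S : Finset (ℤ × ℤ) := Finset.Ico (f i0).1 ((f i0).1 + width m f) ×ˢ
    Finset.Ico (f j0).2 ((f j0).2 + height m f)
  have hS : ∀ c : {c : ℤ × ℤ // Encl m f c}, c.1 ∈ S := by
    intro c
    have := encl_wh hs hx hy c.2
    rw [Finset.mem_product, Finset.mem_Ico, Finset.mem_Ico]
    exact this
  have h1 : Nat.card {c : ℤ × ℤ // Encl m f c} ≤ Nat.card S :=
    Nat.card_le_card_of_injective (fun c => (⟨c.1, hS c⟩ : S)) (by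
      intro c d h
      have := congrArg Subtype.val h
      exact Subtype.ext this)
  unfold area
  refine h1.trans (le_of_eq ?_)
  rw [Nat.card_eq_fintype_card, Fintype.card_coe, Finset.card_product, Int.card_Ico, Int.card_Ico]
  have e1 : ((f i0).1 + (width m f : ℤ) - (f i0).1).toNat = width m f := by omega
  have e2 : ((f j0).2 + (height m f : ℤ) - (f j0).2).toNat = height m f := by omega
  rw [e1, e2]

/-! ### polygons of large area -/

/-- number of loops of area at least `a` -/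
def an (N a : ℕ) : ℕ := ((LF (2 * N)).filter (fun f => a ≤ area (2 * N) f)).card

lemma card_an {N : ℕ} (hN : 2 ≤ N) (a : ℕ) :
    Nat.card {f : ZMod (2 * N) → ℤ × ℤ // IsLoop (2 * N) f ∧ a ≤ area (2 * N) f} = an N a := by
  have : NeZero (2 * N) := ⟨by omega⟩
  unfold an
  refine Nat.subtype_card _ fun f => ?_
  rw [Finset.mem_filter, mem_LF]

lemma an_le {N : ℕ} (hN : 2 ≤ N) (a : ℕ) (ha : 1 ≤ a) :
    an N a ≤ 2 * wn N (Nat.sqrt (a - 1) + 1) := by
  have : NeZero (2 * N) := ⟨by omega⟩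
  obtain ⟨r, hr⟩ : ∃ r, r = Nat.sqrt (a - 1) + 1 := ⟨_, rfl⟩
  rw [← hr]
  have hr1 : (r - 1) * (r - 1) < a := by
    have := Nat.sqrt_le (a - 1)
    have e : r - 1 = Nat.sqrt (a - 1) := by omega
    rw [e]
    omega
  have h2 : (∑ f ∈ LF (2 * N), if r ≤ height (2 * N) f then 1 else 0) =
      ∑ f ∈ LF (2 * N), if r ≤ width (2 * N) f then 1 else 0 :=
    sum_swp (m := 2 * N) (fun f => if r ≤ width (2 * N) f then 1 else 0)
  have h3 : an N a ≤ ∑ f ∈ LF (2 * N), ((if r ≤ width (2 * N) f then 1 else 0) +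
      (if r ≤ height (2 * N) f then 1 else 0)) := by
    unfold an
    rw [Finset.card_filter]
    apply Finset.sum_le_sum
    intro f hf
    rw [mem_LF] at hf
    have h5 := area_le_wh hf.2.2
    by_cases h1 : a ≤ area (2 * N) f
    · rw [if_pos h1]
      by_contra hcon
      have c1 : ¬ r ≤ width (2 * N) f := by
        intro h; rw [if_pos h] at hcon; omega
      have c2 : ¬ r ≤ height (2 * N) f := by
        intro h; rw [if_pos h] at hcon; omega
      have c3 : width (2 * N) f * height (2 * N) f ≤ (r - 1) * (r - 1) :=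
        Nat.mul_le_mul (by omega) (by omega)
      omega
    · rw [if_neg h1]
      exact Nat.zero_le _
  have h4 : (∑ f ∈ LF (2 * N), if r ≤ width (2 * N) f then 1 else 0) = wn N r := by
    unfold wn
    rw [Finset.card_filter]
  rw [Finset.sum_add_distrib, h2, h4] at h3
  omega

lemma sqrt_le_r (a : ℕ) : Real.sqrt a ≤ ((Nat.sqrt (a - 1) + 1 : ℕ) : ℝ) := by
  apply Real.sqrt_le_iff.mpr ⟨Nat.cast_nonneg _, ?_⟩
  have h := Nat.lt_succ_sqrt (a - 1)
  have h2 : a ≤ (Nat.sqrt (a - 1) + 1) ^ 2 := by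
    rw [pow_two]
    have : (a - 1).sqrt.succ = (a - 1).sqrt + 1 := rfl
    rw [this] at h
    omega
  exact_mod_cast h2

/-- wide polygons at fixed perimeter -/
theorem wn_bound : ∃ C : ℝ, 0 ≤ C ∧ ∀ n : ℕ, 2 ≤ n → ∀ y : ℕ, 1 ≤ y →
    (wn n y : ℝ) / (4 * n) ≤ C / (y * Real.sqrt n) * H981.mu ^ (2 * n) := by
  obtain ⟨C, hC, h⟩ := bn_bound
  refine ⟨C, hC, fun n hn y hy => le_trans ?_ (h n hn y hy)⟩
  have : wn n y ≤ bn n y := by
    apply Finset.card_le_card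
    intro f hf
    rw [Finset.mem_filter] at hf ⊢
    exact ⟨hf.1, by omega⟩
  have h2 : (wn n y : ℝ) ≤ bn n y := by exact_mod_cast this
  gcongr

/-- polygons of large area at fixed perimeter -/
theorem an_bound : ∃ C : ℝ, 0 ≤ C ∧ ∀ n : ℕ, 2 ≤ n → ∀ a : ℕ, 1 ≤ a →
    (an n a : ℝ) / (4 * n) ≤ C / (Real.sqrt a * Real.sqrt n) * H981.mu ^ (2 * n) := by
  obtain ⟨C, hC, h⟩ := wn_bound
  refine ⟨2 * C, by positivity, fun n hn a ha => ?_⟩
  have h1 := h n hn (Nat.sqrt (a - 1) + 1) (by omega)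
  have h2 : (an n a : ℝ) ≤ 2 * wn n (Nat.sqrt (a - 1) + 1) := by exact_mod_cast an_le hn a ha
  have ha0 : (0 : ℝ) < a := by exact_mod_cast ha
  have hn0 : (0 : ℝ) < n := by
    have : 0 < n := by omega
    exact_mod_cast this
  have hsa : 0 < Real.sqrt a := Real.sqrt_pos.mpr ha0
  have hsn : 0 < Real.sqrt n := Real.sqrt_pos.mpr hn0
  have hmu := H981.mu_pos
  have h3 := sqrt_le_r a
  calc (an n a : ℝ) / (4 * n) ≤ (2 * wn n (Nat.sqrt (a - 1) + 1)) / (4 * n) := by gcongr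
    _ = 2 * ((wn n (Nat.sqrt (a - 1) + 1) : ℝ) / (4 * n)) := by ring
    _ ≤ 2 * (C / (((Nat.sqrt (a - 1) + 1 : ℕ) : ℝ) * Real.sqrt n) * H981.mu ^ (2 * n)) := by gcongr
    _ ≤ 2 * (C / (Real.sqrt a * Real.sqrt n) * H981.mu ^ (2 * n)) := by gcongr
    _ = _ := by ring

/-- critical tail for the area -/
theorem an_tail : ∃ C : ℝ, 0 ≤ C ∧ ∀ a : ℕ, 1 ≤ a → ∀ n : ℕ,
    ∑ j ∈ Finset.Icc 2 n, (an j a : ℝ) / (4 * j) / H981.mu ^ (2 * j) ≤ C / Real.sqrt a := by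
  obtain ⟨C, hC, h⟩ := wn_tail
  refine ⟨2 * C, by positivity, fun a ha n => ?_⟩
  have h1 := h (Nat.sqrt (a - 1) + 1) (by omega) n
  have ha0 : (0 : ℝ) < a := by exact_mod_cast ha
  have hsa : 0 < Real.sqrt a := Real.sqrt_pos.mpr ha0
  have hmu := H981.mu_pos
  have h3 := sqrt_le_r a
  have h4 : ∑ j ∈ Finset.Icc 2 n, (an j a : ℝ) / (4 * j) / H981.mu ^ (2 * j) ≤
      2 * ∑ j ∈ Finset.Icc 2 n,
        (wn j (Nat.sqrt (a - 1) + 1) : ℝ) / (4 * j) / H981.mu ^ (2 * j) := by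
    rw [Finset.mul_sum]
    apply Finset.sum_le_sum
    intro j hj
    rw [Finset.mem_Icc] at hj
    have h5 : (an j a : ℝ) ≤ 2 * wn j (Nat.sqrt (a - 1) + 1) := by exact_mod_cast an_le hj.1 a ha
    calc (an j a : ℝ) / (4 * j) / H981.mu ^ (2 * j) ≤
          (2 * wn j (Nat.sqrt (a - 1) + 1)) / (4 * j) / H981.mu ^ (2 * j) := by gcongr
      _ = _ := by ring
  calc _ ≤ _ := h4
    _ ≤ 2 * (C / ((Nat.sqrt (a - 1) + 1 : ℕ) : ℝ)) := by linarith
    _ ≤ 2 * (C / Real.sqrt a) := by gcongr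
    _ = _ := by ring

/-! ### layers -/

lemma pow_layer_one (b k M : ℕ) : ((min b M : ℕ) : ℝ) ^ (k + 1) ≤
    ∑ a ∈ Finset.Icc 1 M, (if a ≤ b then ((k : ℝ) + 1) * (a : ℝ) ^ k else 0) := by
  induction M with
  | zero => simp
  | succ M ih =>
    rw [Finset.sum_Icc_succ_top (by omega)]
    split_ifs with h
    · rw [min_eq_right h]
      rw [min_eq_right (show M ≤ b by omega)] at ih
      have h1 := abs_pow_sub_pow_le ((M : ℝ) + 1) (M : ℝ) (k + 1)
      have hM0 : (0 : ℝ) ≤ M := Nat.cast_nonneg M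
      have h2 : max |(M : ℝ) + 1| |(M : ℝ)| = (M : ℝ) + 1 := by
        rw [abs_of_nonneg (by linarith), abs_of_nonneg hM0]
        exact max_eq_left (by linarith)
      rw [h2, Nat.add_sub_cancel] at h1
      have h3 : |(M : ℝ) + 1 - M| = 1 := by
        rw [show (M : ℝ) + 1 - M = 1 by ring, abs_one]
      rw [h3, one_mul] at h1
      have h4 := (abs_le.mp h1).2
      push_cast at h4 ⊢
      linarith
    · rw [min_eq_left (show b ≤ M + 1 by omega), add_zero]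
      rwa [min_eq_left (show b ≤ M by omega)] at ih

lemma pow_layer {ι : Type*} (s : Finset ι) (F : ι → ℕ) (M k : ℕ) (hF : ∀ f ∈ s, F f ≤ M) :
    ∑ f ∈ s, (F f : ℝ) ^ (k + 1) ≤
      ∑ a ∈ Finset.Icc 1 M, ((k : ℝ) + 1) * (a : ℝ) ^ k * ((s.filter (fun f => a ≤ F f)).card : ℝ) := by
  have h1 : ∀ f ∈ s, (F f : ℝ) ^ (k + 1) ≤
      ∑ a ∈ Finset.Icc 1 M, (if a ≤ F f then ((k : ℝ) + 1) * (a : ℝ) ^ k else 0) := by
    intro f hf
    have := pow_layer_one (F f) k M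
    rwa [min_eq_left (hF f hf)] at this
  refine (Finset.sum_le_sum h1).trans (le_of_eq ?_)
  rw [Finset.sum_comm]
  refine Finset.sum_congr rfl fun a _ => ?_
  rw [← Finset.sum_filter, Finset.sum_const, nsmul_eq_mul, mul_comm]

/-- sum of inverse square roots -/
lemma sum_inv_sqrt (M : ℕ) : ∑ a ∈ Finset.Icc 1 M, 1 / Real.sqrt a ≤ 2 * Real.sqrt M := by
  induction M with
  | zero => simp
  | succ M ih =>
    rw [Finset.sum_Icc_succ_top (by omega)]
    have hM0 : (0 : ℝ) ≤ M := Nat.cast_nonneg M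
    have h1 : 0 < Real.sqrt ((M + 1 : ℕ) : ℝ) := Real.sqrt_pos.mpr (by push_cast; linarith)
    have h2 : Real.sqrt ((M + 1 : ℕ) : ℝ) ^ 2 = (M : ℝ) + 1 := by
      rw [Real.sq_sqrt (Nat.cast_nonneg _)]; push_cast; ring
    have h3 : Real.sqrt (M : ℝ) ^ 2 = M := Real.sq_sqrt hM0
    have h4 : 1 / Real.sqrt ((M + 1 : ℕ) : ℝ) ≤
        2 * (Real.sqrt ((M + 1 : ℕ) : ℝ) - Real.sqrt M) := by
      rw [div_le_iff₀ h1]
      nlinarith [sq_nonneg (Real.sqrt ((M + 1 : ℕ) : ℝ) - Real.sqrt M)]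
    linarith

lemma sum_inv (M : ℕ) : ∑ a ∈ Finset.Icc 1 M, 1 / (a : ℝ) ≤ 1 + Real.log M := by
  have h := harmonic_le_one_add_log M
  refine le_trans (le_of_eq ?_) h
  rw [harmonic_eq_sum_Icc]
  push_cast
  refine Finset.sum_congr rfl fun a _ => ?_
  rw [one_div]

/-- area of a loop of perimeter `2 N` -/
lemma area_le_sq {N : ℕ} (hN : 2 ≤ N) {f : ZMod (2 * N) → ℤ × ℤ} (hf : IsLoop (2 * N) f) :
    area (2 * N) f ≤ 16 * N ^ 2 := by
  have : NeZero (2 * N) := ⟨by omega⟩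
  have h := all_area hf
  calc area (2 * N) f ≤ (2 * (2 * N)) ^ 2 := h
    _ = _ := by ring

lemma width_le_lin {N : ℕ} (hN : 2 ≤ N) {f : ZMod (2 * N) → ℤ × ℤ} (hf : IsLoop (2 * N) f) :
    width (2 * N) f ≤ 4 * N := by
  have : NeZero (2 * N) := ⟨by omega⟩
  have h := all_width hf
  omega

/-- moments of the area times the number of polygons -/
lemma area_layer {N : ℕ} (hN : 2 ≤ N) (k M : ℕ) (hM : 16 * N ^ 2 ≤ M) :
    me N (fun f => (area (2 * N) f : ℝ) ^ (k + 1)) * H981.PP N ≤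
      ((k : ℝ) + 1) * ∑ a ∈ Finset.Icc 1 M, (a : ℝ) ^ k * ((an N a : ℝ) / (4 * N)) := by
  have : NeZero (2 * N) := ⟨by omega⟩
  rw [me_mul_PP hN]
  have h1 := pow_layer (LF (2 * N)) (fun f => area (2 * N) f) M k
    (fun f hf => (area_le_sq hN (mem_LF.mp hf)).trans hM)
  have hN0 : (0 : ℝ) < 4 * N := by
    have : (2 : ℝ) ≤ N := by exact_mod_cast hN
    linarith
  rw [div_le_iff₀ hN0]
  refine h1.trans (le_of_eq ?_)
  rw [Finset.mul_sum, Finset.sum_mul]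
  refine Finset.sum_congr rfl fun a _ => ?_
  unfold an
  field_simp

lemma width_layer {N : ℕ} (hN : 2 ≤ N) (k M : ℕ) (hM : 4 * N ≤ M) :
    me N (fun f => (width (2 * N) f : ℝ) ^ (k + 1)) * H981.PP N ≤
      ((k : ℝ) + 1) * ∑ a ∈ Finset.Icc 1 M, (a : ℝ) ^ k * ((wn N a : ℝ) / (4 * N)) := by
  have : NeZero (2 * N) := ⟨by omega⟩
  rw [me_mul_PP hN]
  have h1 := pow_layer (LF (2 * N)) (fun f => width (2 * N) f) M k
    (fun f hf => (width_le_lin hN (mem_LF.mp hf)).trans hM)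
  have hN0 : (0 : ℝ) < 4 * N := by
    have : (2 : ℝ) ≤ N := by exact_mod_cast hN
    linarith
  rw [div_le_iff₀ hN0]
  refine h1.trans (le_of_eq ?_)
  rw [Finset.mul_sum, Finset.sum_mul]
  refine Finset.sum_congr rfl fun a _ => ?_
  unfold wn
  field_simp

/-- the sum of `a^k/√a` -/
lemma sum_pow_sqrt (k M : ℕ) : ∑ a ∈ Finset.Icc 1 M, (a : ℝ) ^ k * (1 / Real.sqrt a) ≤
    2 * (M : ℝ) ^ k * Real.sqrt M := by
  calc ∑ a ∈ Finset.Icc 1 M, (a : ℝ) ^ k * (1 / Real.sqrt a)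
      ≤ ∑ a ∈ Finset.Icc 1 M, (M : ℝ) ^ k * (1 / Real.sqrt a) := by
        apply Finset.sum_le_sum
        intro a ha
        have : (a : ℝ) ≤ M := by exact_mod_cast (Finset.mem_Icc.mp ha).2
        gcongr
    _ = (M : ℝ) ^ k * ∑ a ∈ Finset.Icc 1 M, 1 / Real.sqrt a := by rw [Finset.mul_sum]
    _ ≤ (M : ℝ) ^ k * (2 * Real.sqrt M) :=
        mul_le_mul_of_nonneg_left (sum_inv_sqrt M) (by positivity)
    _ = _ := by ring

/-- **moments of the area times the number of polygons** -/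
theorem area_moment (k : ℕ) : ∃ C : ℝ, 0 ≤ C ∧ ∀ n : ℕ, 2 ≤ n →
    me n (fun f => (area (2 * n) f : ℝ) ^ (k + 1)) * H981.PP n ≤
      C * ((n : ℝ) ^ (2 * k) * Real.sqrt n) * H981.mu ^ (2 * n) := by
  obtain ⟨C, hC, h⟩ := an_bound
  refine ⟨((k : ℝ) + 1) * C * (8 * 16 ^ k), by positivity, fun n hn => ?_⟩
  have hn0 : (0 : ℝ) < n := by
    have : 0 < n := by omega
    exact_mod_cast this
  have hsn : 0 < Real.sqrt n := Real.sqrt_pos.mpr hn0
  have hmu := H981.mu_pos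
  refine (area_layer hn k (16 * n ^ 2) le_rfl).trans ?_
  have h1 : ∑ a ∈ Finset.Icc (1 : ℕ) (16 * n ^ 2), (a : ℝ) ^ k * ((an n a : ℝ) / (4 * n)) ≤
      C / Real.sqrt n * H981.mu ^ (2 * n) * ∑ a ∈ Finset.Icc (1 : ℕ) (16 * n ^ 2),
        (a : ℝ) ^ k * (1 / Real.sqrt a) := by
    rw [Finset.mul_sum]
    apply Finset.sum_le_sum
    intro a ha
    rw [Finset.mem_Icc] at ha
    have h2 := h n hn a ha.1
    have ha0 : (0 : ℝ) < a := by exact_mod_cast ha.1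
    calc (a : ℝ) ^ k * ((an n a : ℝ) / (4 * n)) ≤
          (a : ℝ) ^ k * (C / (Real.sqrt a * Real.sqrt n) * H981.mu ^ (2 * n)) := by gcongr
      _ = _ := by field_simp
  have h2 := sum_pow_sqrt k (16 * n ^ 2)
  have h3 : Real.sqrt ((16 * n ^ 2 : ℕ) : ℝ) = 4 * n := by
    push_cast
    rw [show (16 : ℝ) * (n : ℝ) ^ 2 = (4 * n) ^ 2 by ring, Real.sqrt_sq (by positivity)]
  rw [h3] at h2
  have h4 : Real.sqrt n * Real.sqrt n = n := Real.mul_self_sqrt hn0.le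
  calc ((k : ℝ) + 1) * ∑ a ∈ Finset.Icc (1 : ℕ) (16 * n ^ 2), (a : ℝ) ^ k * ((an n a : ℝ) / (4 * n))
      ≤ ((k : ℝ) + 1) * (C / Real.sqrt n * H981.mu ^ (2 * n) *
          (2 * ((16 * n ^ 2 : ℕ) : ℝ) ^ k * (4 * n))) := by
        gcongr
        refine h1.trans ?_
        gcongr
    _ = ((k : ℝ) + 1) * C * (8 * 16 ^ k) * ((n : ℝ) ^ (2 * k) * (n / Real.sqrt n)) *
          H981.mu ^ (2 * n) := by
        push_cast
        rw [mul_pow, ← pow_mul]
        field_simp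
        ring
    _ = _ := by
        rw [Real.div_sqrt]

/-- **critical sums of the moments of the area** -/
theorem area_sum (k : ℕ) : ∃ C : ℝ, 0 ≤ C ∧ ∀ n : ℕ, 2 ≤ n →
    ∑ j ∈ Finset.Icc 2 n, me j (fun f => (area (2 * j) f : ℝ) ^ (k + 1)) * H981.PP j /
      H981.mu ^ (2 * j) ≤ C * (n : ℝ) ^ (2 * k + 1) := by
  obtain ⟨C, hC, h⟩ := an_tail
  refine ⟨((k : ℝ) + 1) * C * (8 * 16 ^ k), by positivity, fun n hn => ?_⟩
  have hmu := H981.mu_pos
  have h1 : ∀ j ∈ Finset.Icc 2 n, me j (fun f => (area (2 * j) f : ℝ) ^ (k + 1)) * H981.PP j /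
      H981.mu ^ (2 * j) ≤ ((k : ℝ) + 1) * ∑ a ∈ Finset.Icc (1 : ℕ) (16 * n ^ 2),
        (a : ℝ) ^ k * ((an j a : ℝ) / (4 * j) / H981.mu ^ (2 * j)) := by
    intro j hj
    rw [Finset.mem_Icc] at hj
    rw [div_le_iff₀ (by positivity)]
    refine (area_layer hj.1 k (16 * n ^ 2) (by have := Nat.pow_le_pow_left hj.2 2; omega)).trans
      (le_of_eq ?_)
    rw [mul_assoc, Finset.sum_mul]
    congr 1
    refine Finset.sum_congr rfl fun a _ => ?_
    field_simp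
  refine (Finset.sum_le_sum h1).trans ?_
  rw [← Finset.mul_sum, Finset.sum_comm]
  have h2 : ∑ a ∈ Finset.Icc (1 : ℕ) (16 * n ^ 2), ∑ j ∈ Finset.Icc 2 n,
      (a : ℝ) ^ k * ((an j a : ℝ) / (4 * j) / H981.mu ^ (2 * j)) ≤
      C * ∑ a ∈ Finset.Icc (1 : ℕ) (16 * n ^ 2), (a : ℝ) ^ k * (1 / Real.sqrt a) := by
    rw [Finset.mul_sum]
    apply Finset.sum_le_sum
    intro a ha
    rw [Finset.mem_Icc] at ha
    rw [← Finset.mul_sum]
    have h3 := h a ha.1 n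
    calc (a : ℝ) ^ k * ∑ j ∈ Finset.Icc 2 n, (an j a : ℝ) / (4 * j) / H981.mu ^ (2 * j)
        ≤ (a : ℝ) ^ k * (C / Real.sqrt a) := by gcongr
      _ = _ := by ring
  have h3 := sum_pow_sqrt k (16 * n ^ 2)
  have h4 : Real.sqrt ((16 * n ^ 2 : ℕ) : ℝ) = 4 * n := by
    push_cast
    rw [show (16 : ℝ) * (n : ℝ) ^ 2 = (4 * n) ^ 2 by ring, Real.sqrt_sq (by positivity)]
  rw [h4] at h3
  calc ((k : ℝ) + 1) * ∑ a ∈ Finset.Icc (1 : ℕ) (16 * n ^ 2), ∑ j ∈ Finset.Icc 2 n,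
        (a : ℝ) ^ k * ((an j a : ℝ) / (4 * j) / H981.mu ^ (2 * j))
      ≤ ((k : ℝ) + 1) * (C * (2 * ((16 * n ^ 2 : ℕ) : ℝ) ^ k * (4 * n))) := by
        gcongr
        exact h2.trans (mul_le_mul_of_nonneg_left h3 hC)
    _ = _ := by
        push_cast
        rw [mul_pow, ← pow_mul]
        ring

/-- **the mean width times the number of polygons** -/
theorem width_mean : ∃ C : ℝ, 0 ≤ C ∧ ∀ n : ℕ, 2 ≤ n →
    MW n * H981.PP n ≤ C * (Real.log n / Real.sqrt n) * H981.mu ^ (2 * n) := by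
  obtain ⟨C, hC, h⟩ := wn_bound
  have hl2 : 0 < Real.log 2 := Real.log_pos (by norm_num)
  refine ⟨C * (3 / Real.log 2 + 1), by positivity, fun n hn => ?_⟩
  have hn0 : (0 : ℝ) < n := by
    have : 0 < n := by omega
    exact_mod_cast this
  have hsn : 0 < Real.sqrt n := Real.sqrt_pos.mpr hn0
  have hmu := H981.mu_pos
  have h0 := width_layer hn 0 (4 * n) le_rfl
  have e0 : me n (fun f => (width (2 * n) f : ℝ) ^ (0 + 1)) = MW n := by
    unfold MW; simp only [zero_add, pow_one]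
  rw [e0] at h0
  refine h0.trans ?_
  have h1 : ∑ a ∈ Finset.Icc 1 (4 * n), (a : ℝ) ^ 0 * ((wn n a : ℝ) / (4 * n)) ≤
      C / Real.sqrt n * H981.mu ^ (2 * n) * ∑ a ∈ Finset.Icc 1 (4 * n), 1 / (a : ℝ) := by
    rw [Finset.mul_sum]
    apply Finset.sum_le_sum
    intro a ha
    rw [Finset.mem_Icc] at ha
    have h2 := h n hn a ha.1
    have ha0 : (0 : ℝ) < a := by exact_mod_cast ha.1
    rw [pow_zero, one_mul]
    refine h2.trans (le_of_eq ?_)
    field_simp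
  have h2 := sum_inv (4 * n)
  have h3 : 1 + Real.log ((4 * n : ℕ) : ℝ) ≤ (3 / Real.log 2 + 1) * Real.log n := by
    have hln : Real.log 2 ≤ Real.log n := Real.log_le_log (by norm_num) (by exact_mod_cast hn)
    push_cast
    rw [Real.log_mul (by norm_num) hn0.ne']
    have h4 : Real.log 4 = 2 * Real.log 2 := by
      rw [show (4 : ℝ) = 2 ^ 2 by norm_num, Real.log_pow]; norm_num
    have hlt : Real.log 2 < 1 := by
      have := Real.log_two_lt_d9; linarith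
    have h5 : 3 ≤ 3 / Real.log 2 * Real.log n := by
      rw [div_mul_eq_mul_div, le_div_iff₀ hl2]
      linarith
    rw [h4]
    linarith
  calc ((0 : ℕ) + 1 : ℝ) * ∑ a ∈ Finset.Icc 1 (4 * n), (a : ℝ) ^ 0 * ((wn n a : ℝ) / (4 * n))
      ≤ 1 * (C / Real.sqrt n * H981.mu ^ (2 * n) * ((3 / Real.log 2 + 1) * Real.log n)) := by
        rw [Nat.cast_zero, zero_add]
        rw [one_mul, one_mul]
        refine h1.trans ?_
        apply mul_le_mul_of_nonneg_left (h2.trans h3) (by positivity)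
    _ = _ := by ring

/-- **higher moments of the width times the number of polygons** -/
theorem width_moment (k : ℕ) : ∃ C : ℝ, 0 ≤ C ∧ ∀ n : ℕ, 2 ≤ n →
    me n (fun f => (width (2 * n) f : ℝ) ^ (k + 2)) * H981.PP n ≤
      C * ((n : ℝ) ^ k * Real.sqrt n) * H981.mu ^ (2 * n) := by
  obtain ⟨C, hC, h⟩ := wn_bound
  refine ⟨((k : ℝ) + 2) * C * 4 ^ (k + 1), by positivity, fun n hn => ?_⟩
  have hn0 : (0 : ℝ) < n := by
    have : 0 < n := by omega
    exact_mod_cast this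
  have hsn : 0 < Real.sqrt n := Real.sqrt_pos.mpr hn0
  have hmu := H981.mu_pos
  refine (width_layer hn (k + 1) (4 * n) le_rfl).trans ?_
  have h1 : ∑ a ∈ Finset.Icc 1 (4 * n), (a : ℝ) ^ (k + 1) * ((wn n a : ℝ) / (4 * n)) ≤
      ∑ a ∈ Finset.Icc 1 (4 * n), (4 * (n : ℝ)) ^ k * (C / Real.sqrt n * H981.mu ^ (2 * n)) := by
    apply Finset.sum_le_sum
    intro a ha
    rw [Finset.mem_Icc] at ha
    have h2 := h n hn a ha.1
    have ha0 : (0 : ℝ) < a := by exact_mod_cast ha.1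
    have ha4 : (a : ℝ) ≤ 4 * n := by exact_mod_cast ha.2
    calc (a : ℝ) ^ (k + 1) * ((wn n a : ℝ) / (4 * n)) ≤
          (a : ℝ) ^ (k + 1) * (C / (a * Real.sqrt n) * H981.mu ^ (2 * n)) := by gcongr
      _ = (a : ℝ) ^ k * (C / Real.sqrt n * H981.mu ^ (2 * n)) := by
          rw [pow_succ]; field_simp
      _ ≤ _ := by gcongr
  rw [Finset.sum_const, Nat.card_Icc, nsmul_eq_mul, Nat.add_sub_cancel] at h1
  push_cast at h1 ⊢
  calc ((k : ℝ) + 1 + 1) * ∑ a ∈ Finset.Icc 1 (4 * n), (a : ℝ) ^ (k + 1) * ((wn n a : ℝ) / (4 * n))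
      ≤ ((k : ℝ) + 1 + 1) * (4 * n * ((4 * (n : ℝ)) ^ k * (C / Real.sqrt n * H981.mu ^ (2 * n)))) := by
        gcongr
    _ = ((k : ℝ) + 2) * C * 4 ^ (k + 1) * ((n : ℝ) ^ k * (n / Real.sqrt n)) * H981.mu ^ (2 * n) := by
        rw [mul_pow, pow_succ]
        ring
    _ = _ := by rw [Real.div_sqrt]

/-- **critical sums of the moments of the width** -/
theorem width_sum (k : ℕ) : ∃ C : ℝ, 0 ≤ C ∧ ∀ n : ℕ, 2 ≤ n →
    ∑ j ∈ Finset.Icc 2 n, me j (fun f => (width (2 * j) f : ℝ) ^ (k + 2)) * H981.PP j /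
      H981.mu ^ (2 * j) ≤ C * (n : ℝ) ^ (k + 1) := by
  obtain ⟨C, hC, h⟩ := wn_tail
  refine ⟨((k : ℝ) + 2) * C * 4 ^ (k + 1), by positivity, fun n hn => ?_⟩
  have hmu := H981.mu_pos
  have hn0 : (0 : ℝ) < n := by
    have : 0 < n := by omega
    exact_mod_cast this
  have h1 : ∀ j ∈ Finset.Icc 2 n, me j (fun f => (width (2 * j) f : ℝ) ^ (k + 2)) * H981.PP j /
      H981.mu ^ (2 * j) ≤ ((k : ℝ) + 2) * ∑ a ∈ Finset.Icc 1 (4 * n),
        (a : ℝ) ^ (k + 1) * ((wn j a : ℝ) / (4 * j) / H981.mu ^ (2 * j)) := by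
    intro j hj
    rw [Finset.mem_Icc] at hj
    rw [div_le_iff₀ (by positivity)]
    refine (width_layer hj.1 (k + 1) (4 * n) (by omega)).trans (le_of_eq ?_)
    rw [mul_assoc, Finset.sum_mul]
    push_cast
    rw [show (k : ℝ) + 1 + 1 = k + 2 by ring]
    congr 1
    refine Finset.sum_congr rfl fun a _ => ?_
    field_simp
  refine (Finset.sum_le_sum h1).trans ?_
  rw [← Finset.mul_sum, Finset.sum_comm]
  have h2 : ∑ a ∈ Finset.Icc 1 (4 * n), ∑ j ∈ Finset.Icc 2 n,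
      (a : ℝ) ^ (k + 1) * ((wn j a : ℝ) / (4 * j) / H981.mu ^ (2 * j)) ≤
      ∑ a ∈ Finset.Icc 1 (4 * n), (4 * (n : ℝ)) ^ k * C := by
    apply Finset.sum_le_sum
    intro a ha
    rw [Finset.mem_Icc] at ha
    rw [← Finset.mul_sum]
    have h3 := h a ha.1 n
    have ha0 : (0 : ℝ) < a := by exact_mod_cast ha.1
    have ha4 : (a : ℝ) ≤ 4 * n := by exact_mod_cast ha.2
    calc (a : ℝ) ^ (k + 1) * ∑ j ∈ Finset.Icc 2 n, (wn j a : ℝ) / (4 * j) / H981.mu ^ (2 * j)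
        ≤ (a : ℝ) ^ (k + 1) * (C / a) := by gcongr
      _ = (a : ℝ) ^ k * C := by rw [pow_succ]; field_simp
      _ ≤ _ := by gcongr
  rw [Finset.sum_const, Nat.card_Icc, nsmul_eq_mul, Nat.add_sub_cancel] at h2
  push_cast at h2
  calc ((k : ℝ) + 2) * ∑ a ∈ Finset.Icc 1 (4 * n), ∑ j ∈ Finset.Icc 2 n,
        (a : ℝ) ^ (k + 1) * ((wn j a : ℝ) / (4 * j) / H981.mu ^ (2 * j))
      ≤ ((k : ℝ) + 2) * (4 * n * ((4 * (n : ℝ)) ^ k * C)) := by gcongr
    _ = _ := by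
        rw [mul_pow]
        ring

end

end Pool.Agent.Q228.SAP
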