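import Pool.Agent.Q228.SAP.Joint

/-!
# The area is invariant under the exchange of the coordinates
-/

set_option autoImplicit false
set_option linter.unusedVariables false
set_option linter.unusedSectionVars false

namespace Pool.Agent.Q228.SAP

open Finset Pool.Agent.H976R2 Pool.Agent.H976R2.Lip Pool.Agent.H924P
open Pool.Agent.H739K hiding rN f0 f1 f2 f3 f4
open scoped Classical

noncomputable section

/-- exchange of the coordinates -/
def sw {m : ℕ} (f : ZMod m → ℤ × ℤ) : ZMod m → ℤ × ℤ := fun k => ((f k).2, (f k).1)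

lemma sw_loop {m : ℕ} {f : ZMod m → ℤ × ℤ} (hf : IsLoop m f) : IsLoop m (sw f) := by
  obtain ⟨h0, hinj, hs⟩ := hf
  refine ⟨?_, ?_, ?_⟩
  · change ((f 0).2, (f 0).1) = 0
    rw [h0]
    rfl
  · intro a b hab
    apply hinj
    have h1 := congrArg Prod.fst hab
    have h2 := congrArg Prod.snd hab
    exact Prod.ext h2 h1
  · intro i
    change |(f (i + 1)).2 - (f i).2| + |(f (i + 1)).1 - (f i).1| = 1
    rw [add_comm]
    exact hs i

/-- the number of edges which leave a quadrant is even -/
lemma even_quadrant {m : ℕ} [NeZero m] {f : ZMod m → ℤ × ℤ}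
    (hs : ∀ i : ZMod m, |(f (i+1)).1 - (f i).1| + |(f (i+1)).2 - (f i).2| = 1) (a b : ℤ) :
    Even (Nat.card {k : ZMod m // Above m f a b k} +
      Nat.card {k : ZMod m // Above m (sw f) b a k}) := by
  have e1 : Nat.card {k : ZMod m // Above m f a b k} =
      ∑ k : ZMod m, (if Above m f a b k then 1 else 0) := by
    rw [Nat.card_eq_fintype_card, Fintype.card_subtype, Finset.card_filter]
  have e2 : Nat.card {k : ZMod m // Above m (sw f) b a k} =
      ∑ k : ZMod m, (if Above m (sw f) b a k then 1 else 0) := by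
    rw [Nat.card_eq_fintype_card, Fintype.card_subtype, Finset.card_filter]
  have key : ∀ k : ZMod m, (if Above m f a b k then 1 else 0) +
      (if Above m (sw f) b a k then 1 else 0) +
      2 * (if (a < (f k).1 ∧ b < (f k).2) ∧ (a < (f (k + 1)).1 ∧ b < (f (k + 1)).2) then 1 else 0) =
      (if a < (f k).1 ∧ b < (f k).2 then 1 else 0) +
        (if a < (f (k + 1)).1 ∧ b < (f (k + 1)).2 then (1 : ℕ) else 0) := by
    intro k
    have h := hs k
    unfold Above sw
    simp only
    have hx := abs_cases ((f (k + 1)).1 - (f k).1)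
    have hy := abs_cases ((f (k + 1)).2 - (f k).2)
    generalize (f (k + 1)).1 = x' at *
    generalize (f (k + 1)).2 = y' at *
    generalize (f k).1 = x at *
    generalize (f k).2 = y at *
    split_ifs <;> omega
  have hsh : ∑ k : ZMod m, (if a < (f (k + 1)).1 ∧ b < (f (k + 1)).2 then (1 : ℕ) else 0) =
      ∑ k : ZMod m, (if a < (f k).1 ∧ b < (f k).2 then (1 : ℕ) else 0) :=
    Fintype.sum_equiv (Equiv.addRight (1 : ZMod m)) _ _ (fun k => rfl)
  have hsum := Finset.sum_congr (rfl : (Finset.univ : Finset (ZMod m)) = Finset.univ)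
    (fun k _ => key k)
  simp only [Finset.sum_add_distrib] at hsum
  rw [hsh, ← Finset.mul_sum] at hsum
  rw [e1, e2, Nat.even_iff]
  omega

theorem area_sw {m : ℕ} [NeZero m] {f : ZMod m → ℤ × ℤ}
    (hs : ∀ i : ZMod m, |(f (i+1)).1 - (f i).1| + |(f (i+1)).2 - (f i).2| = 1) :
    area m (sw f) = area m f := by
  unfold area
  refine Nat.card_congr ((Equiv.prodComm ℤ ℤ).subtypeEquiv fun c => ?_)
  unfold Encl
  have h := even_quadrant hs c.2 c.1
  simp only [Equiv.prodComm_apply, Prod.fst_swap, Prod.snd_swap]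
  rw [Nat.even_add] at h
  rw [← Nat.not_even_iff_odd, ← Nat.not_even_iff_odd, h]

/-- the area is at least a quarter of the perimeter -/
theorem area_ge_quarter {m : ℕ} (hm : 4 ≤ m) {f : ZMod m → ℤ × ℤ} (hf : IsLoop m f) :
    m ≤ 4 * area m f := by
  have : NeZero m := ⟨by omega⟩
  have h1 := HOR_proof m f hm hf
  have h2 := HOR_proof m (sw f) hm (sw_loop hf)
  rw [area_sw hf.2.2] at h2
  have h3 := hor_add_ver hf
  have h4 : Nat.card {k : ZMod m // ((sw f) (k + 1)).2 = ((sw f) k).2} =
      Nat.card {k : ZMod m // (f (k + 1)).1 = (f k).1} := rfl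
  omega

/-- means are invariant -/
theorem me_sw {N : ℕ} (hN : 2 ≤ N) (F : (ZMod (2 * N) → ℤ × ℤ) → ℝ) :
    me N (fun f => F (sw f)) = me N F := by
  unfold me
  congr 1
  exact SWAP_proof (2 * N) (by omega) F

end

end Pool.Agent.Q228.SAP
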