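import Pool.Agent.Q228.SAP.JoinF
import Pool.Agent.Q228.SAP.Fin

/-!
# Join inequalities for wide polygons
-/

set_option autoImplicit false

namespace Pool.Agent.Q228.SAP

open Finset Pool.Agent.H976R2 Pool.Agent.H924P Pool.Agent.H739K Filter Topology
open Pool.Agent.W870.Pg (LF CanF ht mem_LF mem_CanF loops_eq Fp Fp_pos)
open Pool.Agent.TH546.PC (VF mem_VF)
open scoped Classical

noncomputable section

/-- normalised number of polygons of width at least `x` -/
def wf (x j : ℕ) : ℝ := (wn j x : ℝ) / (4 * j) / H981.mu ^ (2 * j)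

lemma wf_nonneg (x j : ℕ) : 0 ≤ wf x j := by
  have := H981.mu_pos
  unfold wf; positivity

lemma wf_le_Fp {j : ℕ} (hj : 2 ≤ j) (x : ℕ) : wf x j ≤ Fp j := by
  have hmu := H981.mu_pos
  have hj0 : (0 : ℝ) < 4 * j := by
    have : (2 : ℝ) ≤ j := by exact_mod_cast hj
    linarith
  have h1 : (wn j x : ℝ) ≤ ((LF (2 * j)).card : ℝ) := by
    unfold wn; exact_mod_cast Finset.card_le_card (Finset.filter_subset _ _)
  rw [loops_eq (by omega)] at h1
  unfold wf Fp
  apply div_le_div_of_nonneg_right _ (by positivity)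
  rw [div_le_iff₀ hj0]
  linarith

lemma wf_le_vf {j : ℕ} (hj : 2 ≤ j) {x h : ℕ} (hx : 2 * h + 6 ≤ x) : wf x j ≤ vf h j := by
  have hmu := H981.mu_pos
  have hj0 : (0 : ℝ) < 4 * j := by
    have : (2 : ℝ) ≤ j := by exact_mod_cast hj
    linarith
  have h1 := wn_le hj x
  have h2 : cn j x ≤ (VF h (2 * j - 1)).card := by
    apply Finset.card_le_card
    intro g hg
    rw [Finset.mem_filter, mem_CanF] at hg
    rw [mem_VF]
    exact ⟨hg.1, by omega⟩
  have h3 : (cn j x : ℝ) ≤ ((VF h (2 * j - 1)).card : ℝ) := by exact_mod_cast h2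
  unfold wf vf
  apply div_le_div_of_nonneg_right _ (by positivity)
  rw [div_le_iff₀ hj0]
  calc (wn j x : ℝ) ≤ 4 * j * cn j x := h1
    _ ≤ 4 * j * ((VF h (2 * j - 1)).card : ℝ) := by gcongr
    _ = _ := by ring

/-- **pairs of wide polygons** -/
theorem wide_join : ∃ C : ℝ, 0 ≤ C ∧ ∀ x n : ℕ, 2 ≤ n →
    x * ∑ j ∈ Finset.Icc 2 (n - 2), wf x j * wf x (n - j) ≤ C * Real.log n ^ 2 * Fp n := by
  obtain ⟨C1, hC1, h1⟩ := join_vf
  obtain ⟨C2, hC2, h2⟩ := join_all
  refine ⟨16 * C1 + 8 * C2, by positivity, fun x n hn => ?_⟩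
  have hF := Fp_pos hn
  by_cases hx8 : 8 ≤ x
  · obtain ⟨h, hh⟩ : ∃ h, h = (x - 6) / 2 := ⟨_, rfl⟩
    have hx16 : x ≤ 16 * h := by omega
    have h3 := h1 h n hn
    have h4 : ∑ j ∈ Finset.Icc 2 (n - 2), wf x j * wf x (n - j) ≤
        ∑ j ∈ Finset.Icc 2 (n - 2), vf h j * vf h (n - j) := by
      apply Finset.sum_le_sum
      intro j hj
      rw [Finset.mem_Icc] at hj
      exact mul_le_mul (wf_le_vf hj.1 (by omega)) (wf_le_vf (by omega) (by omega))
        (wf_nonneg _ _) (vf_nonneg _ _)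
    have h5 : 0 ≤ ∑ j ∈ Finset.Icc 2 (n - 2), wf x j * wf x (n - j) :=
      Finset.sum_nonneg fun j _ => mul_nonneg (wf_nonneg _ _) (wf_nonneg _ _)
    have h6 : (x : ℝ) ≤ 16 * h := by exact_mod_cast hx16
    calc x * ∑ j ∈ Finset.Icc 2 (n - 2), wf x j * wf x (n - j)
        ≤ 16 * h * ∑ j ∈ Finset.Icc 2 (n - 2), vf h j * vf h (n - j) := by
          apply mul_le_mul h6 h4 h5 (by positivity)
      _ = 16 * (h * ∑ j ∈ Finset.Icc 2 (n - 2), vf h j * vf h (n - j)) := by ring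
      _ ≤ 16 * (C1 * Real.log n ^ 2 * Fp n) := by gcongr
      _ ≤ _ := by
          have : 0 ≤ 8 * C2 * Real.log n ^ 2 * Fp n := by positivity
          linarith
  · push Not at hx8
    by_cases hn4 : 4 ≤ n
    · have h3 := h2 2 n le_rfl (by omega)
      have h4 : ∑ j ∈ Finset.Icc 2 (n - 2), wf x j * wf x (n - j) ≤
          ∑ j ∈ Finset.Icc 2 (n - 2), Fp j * Fp (n - j) := by
        apply Finset.sum_le_sum
        intro j hj
        rw [Finset.mem_Icc] at hj
        exact mul_le_mul (wf_le_Fp hj.1 x) (wf_le_Fp (by omega) x)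
          (wf_nonneg _ _) (Fp_pos hj.1).le
      have h5 : 0 ≤ ∑ j ∈ Finset.Icc 2 (n - 2), Fp j * Fp (n - j) :=
        Finset.sum_nonneg fun j hj => by
          rw [Finset.mem_Icc] at hj
          exact (mul_pos (Fp_pos hj.1) (Fp_pos (by omega))).le
      have h6 : (1 : ℝ) ≤ Real.sqrt ((2 : ℕ) : ℝ) := by
        rw [Real.one_le_sqrt]; norm_num
      have h7 : ∑ j ∈ Finset.Icc 2 (n - 2), Fp j * Fp (n - j) ≤ C2 * Real.log n ^ 2 * Fp n :=
        (le_mul_of_one_le_left h5 h6).trans h3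
      have h8 : (x : ℝ) ≤ 8 := by exact_mod_cast hx8.le
      calc x * ∑ j ∈ Finset.Icc 2 (n - 2), wf x j * wf x (n - j)
          ≤ 8 * (C2 * Real.log n ^ 2 * Fp n) := by
            apply mul_le_mul h8 (h4.trans h7) _ (by norm_num)
            exact Finset.sum_nonneg fun j _ => mul_nonneg (wf_nonneg _ _) (wf_nonneg _ _)
        _ ≤ _ := by
            have : 0 ≤ 16 * C1 * Real.log n ^ 2 * Fp n := by positivity
            linarith
    · rw [Finset.Icc_eq_empty (by omega), Finset.sum_empty, mul_zero]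
      positivity

/-- dyadic levels -/
lemma dyadic (m R : ℕ) (hm : m < 2 ^ R) : (m : ℝ) ≤
    2 * ∑ k ∈ Finset.range R, (if 2 ^ k ≤ m then (2 : ℝ) ^ k else 0) := by
  rcases Nat.eq_zero_or_pos m with rfl | h0
  · have : 0 ≤ ∑ k ∈ Finset.range R, (if 2 ^ k ≤ 0 then (2 : ℝ) ^ k else 0) :=
      Finset.sum_nonneg fun k _ => by split_ifs <;> positivity
    push_cast
    linarith
  · obtain ⟨r, hr⟩ : ∃ r, r = Nat.log 2 m := ⟨_, rfl⟩
    have h1 : 2 ^ r ≤ m := by rw [hr]; exact Nat.pow_log_le_self 2 (by omega)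
    have h2 : m < 2 ^ (r + 1) := by rw [hr]; exact Nat.lt_pow_succ_log_self (by norm_num) m
    have h3 : r < R := by
      by_contra hcon
      push Not at hcon
      have : 2 ^ R ≤ 2 ^ r := Nat.pow_le_pow_right (by norm_num) hcon
      omega
    have h4 : (2 : ℝ) ^ r ≤ ∑ k ∈ Finset.range R, (if 2 ^ k ≤ m then (2 : ℝ) ^ k else 0) := by
      have h5 := Finset.single_le_sum (f := fun k => (if 2 ^ k ≤ m then (2 : ℝ) ^ k else 0))
        (s := Finset.range R) (fun k _ => by split_ifs <;> positivity)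
        (Finset.mem_range.mpr h3)
      simp only [if_pos h1] at h5
      exact h5
    have h6 : (m : ℝ) ≤ 2 ^ (r + 1) := by exact_mod_cast h2.le
    rw [pow_succ] at h6
    linarith

/-- **the smaller of two independent widths** -/
theorem min_join : ∃ C : ℝ, 0 ≤ C ∧ ∀ n : ℕ, 2 ≤ n →
    ∑ j ∈ Finset.Icc 2 (n - 2), (∑ f ∈ LF (2 * j), ∑ g ∈ LF (2 * (n - j)),
      ((min (width (2 * j) f) (width (2 * (n - j)) g) : ℕ) : ℝ)) / (4 * j) / (4 * ((n - j : ℕ) : ℝ)) ≤
      C * Real.log n ^ 3 * (Fp n * H981.mu ^ (2 * n)) := by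
  obtain ⟨C, hC, h⟩ := wide_join
  have hl2 : 0 < Real.log 2 := Real.log_pos (by norm_num)
  refine ⟨2 * C * (4 / Real.log 2), by positivity, fun n hn => ?_⟩
  have hmu := H981.mu_pos
  have hF := Fp_pos hn
  have hn' : (2 : ℝ) ≤ n := by exact_mod_cast hn
  have hL2 : Real.log 2 ≤ Real.log n := Real.log_le_log (by norm_num) hn'
  obtain ⟨R, hR⟩ : ∃ R, R = Nat.log 2 (4 * n) + 1 := ⟨_, rfl⟩
  have hR1 : 4 * n < 2 ^ R := by rw [hR]; exact Nat.lt_pow_succ_log_self (by norm_num) _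
  have hR2 : (R : ℝ) ≤ 4 / Real.log 2 * Real.log n := by
    have h2 : ((Nat.log 2 (4 * n) : ℕ) : ℝ) * Real.log 2 ≤ Real.log (4 * n) := by
      rw [← Real.log_pow]
      apply Real.log_le_log (by positivity)
      exact_mod_cast Nat.pow_log_le_self 2 (by omega : 4 * n ≠ 0)
    have h3 : Real.log (4 * n) = 2 * Real.log 2 + Real.log n := by
      rw [Real.log_mul (by norm_num) (by linarith)]
      congr 1
      rw [show (4 : ℝ) = 2 ^ 2 by norm_num, Real.log_pow]; norm_num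
    rw [hR, div_mul_eq_mul_div, le_div_iff₀ hl2]
    push_cast
    nlinarith
  -- each term
  have hterm : ∀ j ∈ Finset.Icc 2 (n - 2), (∑ f ∈ LF (2 * j), ∑ g ∈ LF (2 * (n - j)),
      ((min (width (2 * j) f) (width (2 * (n - j)) g) : ℕ) : ℝ)) / (4 * j) / (4 * ((n - j : ℕ) : ℝ)) ≤
      2 * ∑ k ∈ Finset.range R, (2 : ℝ) ^ k * (wf (2 ^ k) j * wf (2 ^ k) (n - j)) *
        H981.mu ^ (2 * n) := by
    intro j hj
    rw [Finset.mem_Icc] at hj
    have : NeZero (2 * j) := ⟨by omega⟩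
    have hj0 : (0 : ℝ) < 4 * j := by
      have : (2 : ℝ) ≤ j := by exact_mod_cast hj.1
      linarith
    have hnj : 2 ≤ n - j := by omega
    have hnj0 : (0 : ℝ) < 4 * ((n - j : ℕ) : ℝ) := by
      have : (2 : ℝ) ≤ ((n - j : ℕ) : ℝ) := by exact_mod_cast hnj
      linarith
    have h1 : ∀ f ∈ LF (2 * j), ∀ g ∈ LF (2 * (n - j)),
        ((min (width (2 * j) f) (width (2 * (n - j)) g) : ℕ) : ℝ) ≤
        2 * ∑ k ∈ Finset.range R, (2 : ℝ) ^ k * ((if 2 ^ k ≤ width (2 * j) f then 1 else 0) *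
          (if 2 ^ k ≤ width (2 * (n - j)) g then 1 else 0)) := by
      intro f hf g _
      have hw := (all_width (mem_LF.mp hf))
      have h2 := dyadic (min (width (2 * j) f) (width (2 * (n - j)) g)) R (by
        refine lt_of_le_of_lt (min_le_left _ _) ?_
        omega)
      refine h2.trans (le_of_eq ?_)
      congr 1
      refine Finset.sum_congr rfl fun k _ => ?_
      by_cases a1 : 2 ^ k ≤ width (2 * j) f <;> by_cases a2 : 2 ^ k ≤ width (2 * (n - j)) g
      · rw [if_pos (le_min a1 a2), if_pos a1, if_pos a2]; ring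
      · rw [if_neg (fun h => a2 (h.trans (min_le_right _ _))), if_pos a1, if_neg a2]; ring
      · rw [if_neg (fun h => a1 (h.trans (min_le_left _ _))), if_neg a1, if_pos a2]; ring
      · rw [if_neg (fun h => a1 (h.trans (min_le_left _ _))), if_neg a1, if_neg a2]; ring
    have h2 : ∑ f ∈ LF (2 * j), ∑ g ∈ LF (2 * (n - j)),
        ((min (width (2 * j) f) (width (2 * (n - j)) g) : ℕ) : ℝ) ≤
        2 * ∑ k ∈ Finset.range R, (2 : ℝ) ^ k * ((wn j (2 ^ k) : ℝ) * (wn (n - j) (2 ^ k) : ℝ)) := by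
      calc _ ≤ ∑ f ∈ LF (2 * j), ∑ g ∈ LF (2 * (n - j)),
            2 * ∑ k ∈ Finset.range R, (2 : ℝ) ^ k * ((if 2 ^ k ≤ width (2 * j) f then 1 else 0) *
              (if 2 ^ k ≤ width (2 * (n - j)) g then 1 else 0)) :=
            Finset.sum_le_sum fun f hf => Finset.sum_le_sum fun g hg => h1 f hf g hg
        _ = 2 * ∑ k ∈ Finset.range R, (2 : ℝ) ^ k *
            ((∑ f ∈ LF (2 * j), (if 2 ^ k ≤ width (2 * j) f then (1 : ℝ) else 0)) *
              (∑ g ∈ LF (2 * (n - j)), (if 2 ^ k ≤ width (2 * (n - j)) g then (1 : ℝ) else 0))) := by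
            simp only [← Finset.mul_sum]
            congr 1
            rw [Finset.sum_congr rfl fun f _ => Finset.sum_comm, Finset.sum_comm]
            refine Finset.sum_congr rfl fun k _ => ?_
            rw [Finset.sum_mul_sum, Finset.mul_sum]
            refine Finset.sum_congr rfl fun f _ => ?_
            rw [Finset.mul_sum]
        _ = _ := by
            have e : ∀ (i k : ℕ), ∑ f ∈ LF (2 * i), (if 2 ^ k ≤ width (2 * i) f then (1 : ℝ) else 0) =
                (wn i (2 ^ k) : ℝ) := by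
              intro i k
              unfold wn
              rw [Finset.card_filter]
              push_cast
              rfl
            congr 1
            refine Finset.sum_congr rfl fun k _ => ?_
            rw [e, e]
    rw [div_le_iff₀ hnj0, div_le_iff₀ hj0]
    refine h2.trans (le_of_eq ?_)
    rw [Finset.mul_sum, Finset.mul_sum, Finset.sum_mul, Finset.sum_mul]
    refine Finset.sum_congr rfl fun k _ => ?_
    have e2 : H981.mu ^ (2 * n) = H981.mu ^ (2 * j) * H981.mu ^ (2 * (n - j)) := by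
      rw [← pow_add]; congr 1; omega
    unfold wf
    rw [e2]
    have hj1 : (j : ℝ) ≠ 0 := by intro h0; rw [h0] at hj0; linarith
    have hnj1 : ((n - j : ℕ) : ℝ) ≠ 0 := by intro h0; rw [h0] at hnj0; linarith
    field_simp
  refine (Finset.sum_le_sum hterm).trans ?_
  rw [← Finset.mul_sum, Finset.sum_comm]
  have h5 : ∀ k ∈ Finset.range R, ∑ j ∈ Finset.Icc 2 (n - 2),
      (2 : ℝ) ^ k * (wf (2 ^ k) j * wf (2 ^ k) (n - j)) * H981.mu ^ (2 * n) ≤
      C * Real.log n ^ 2 * (Fp n * H981.mu ^ (2 * n)) := by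
    intro k _
    have h6 := h (2 ^ k) n hn
    push_cast at h6
    calc ∑ j ∈ Finset.Icc 2 (n - 2),
          (2 : ℝ) ^ k * (wf (2 ^ k) j * wf (2 ^ k) (n - j)) * H981.mu ^ (2 * n) =
          (2 ^ k * ∑ j ∈ Finset.Icc 2 (n - 2), wf (2 ^ k) j * wf (2 ^ k) (n - j)) *
            H981.mu ^ (2 * n) := by
            rw [Finset.mul_sum, Finset.sum_mul]
      _ ≤ (C * Real.log n ^ 2 * Fp n) * H981.mu ^ (2 * n) := by gcongr
      _ = _ := by ring
  calc 2 * ∑ k ∈ Finset.range R, ∑ j ∈ Finset.Icc 2 (n - 2),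
        (2 : ℝ) ^ k * (wf (2 ^ k) j * wf (2 ^ k) (n - j)) * H981.mu ^ (2 * n)
      ≤ 2 * ∑ k ∈ Finset.range R, C * Real.log n ^ 2 * (Fp n * H981.mu ^ (2 * n)) := by
        gcongr with k hk
        exact h5 k hk
    _ = 2 * (R * (C * Real.log n ^ 2 * (Fp n * H981.mu ^ (2 * n)))) := by
        rw [Finset.sum_const, Finset.card_range, nsmul_eq_mul]
    _ ≤ 2 * (4 / Real.log 2 * Real.log n * (C * Real.log n ^ 2 * (Fp n * H981.mu ^ (2 * n)))) := by
        gcongr
    _ = _ := by ring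

end

end Pool.Agent.Q228.SAP
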