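import Pool.Agent.Q228.SAP.Joint
import Pool.Agent.W387.Q.AreaLaw

/-!
# Convergence in distribution along sparse sequences: functionals of polygons with values in a
metric space
-/

set_option autoImplicit false
set_option linter.unusedVariables false
set_option linter.unusedSectionVars false

namespace Pool.Agent.Q228.SAP

open Finset Pool.Agent.H976R2 Pool.Agent.H924P
open Pool.Agent.H739K hiding rN f0 f1 f2 f3 f4
open Filter Topology MeasureTheory

noncomputable section

open Pool.Agent.W387.Q (rN)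

/-- from Lipschitz functions to bounded continuous functions, along sparse sequences -/
theorem weak_gen [X : Pool.Agent.W387.Q.Ex] {Ω : Type*} [MetricSpace Ω] [MeasurableSpace Ω]
    [BorelSpace Ω] [Nonempty Ω]
    (law : ℕ → Measure Ω) (hp : ∀ n, IsProbabilityMeasure (law n)) (K : ℝ) (hK0 : 0 ≤ K)
    (hK : ∀ n : ℕ, 2 ≤ n → ∀ g : Ω → ℝ, (∀ x y, |g x - g y| ≤ dist x y) → (∀ x, |g x| ≤ 1) →
      |∫ x, g x ∂(law (n + 1)) - ∫ x, g x ∂(law n)| ≤ K * rN n)
    (s : ℕ → ℕ) (hs : Tendsto s atTop atTop)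
    (hgap : Tendsto (fun k => ((s (k + 1) : ℝ) - s k) * rN (s k)) atTop (𝓝 0))
    (ν : Measure Ω) [IsProbabilityMeasure ν]
    (h : ∀ g : Ω → ℝ, Continuous g → (∃ C, ∀ x, |g x| ≤ C) →
      Tendsto (fun k => ∫ x, g x ∂(law (s k))) atTop (𝓝 (∫ x, g x ∂ν)))
    (g : Ω → ℝ) (hg : Continuous g) (hgb : ∃ C, ∀ x, |g x| ≤ C) :
    Tendsto (fun n => ∫ x, g x ∂(law n)) atTop (𝓝 (∫ x, g x ∂ν)) := by
  -- the special Lipschitz functions
  have h1 : ∀ g : Ω → ℝ, (∀ x y, |g x - g y| ≤ dist x y) → (∀ x, |g x| ≤ 1) →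
      Tendsto (fun n => ∫ x, g x ∂(law n)) atTop (𝓝 (∫ x, g x ∂ν)) := by
    intro g hgl hg1
    have hcont : Continuous g := by
      have : LipschitzWith 1 g := LipschitzWith.of_dist_le_mul (fun x y => by
        rw [Real.dist_eq, NNReal.coe_one, one_mul]
        exact hgl x y)
      exact this.continuous
    refine Pool.Agent.W387.Q.add_gen (fun n => ∫ x, g x ∂(law n)) K hK0 ?_ s hs hgap _
      (h g hcont ⟨1, hg1⟩)
    filter_upwards [eventually_ge_atTop 2] with n hn
    exact hK n hn g hgl hg1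
  obtain ⟨x0⟩ := ‹Nonempty Ω›
  -- probability measures
  obtain ⟨νp, hνp⟩ : ∃ νp : ProbabilityMeasure Ω, (νp : Measure Ω) = ν := ⟨⟨ν, inferInstance⟩, rfl⟩
  let plaw : ℕ → ProbabilityMeasure Ω := fun n => ⟨law n, hp n⟩
  have hw : Tendsto plaw atTop (𝓝 νp) := by
    rw [tendsto_iff_forall_lipschitz_integral_tendsto]
    rintro f ⟨C, hC⟩ ⟨Λ, hΛ⟩
    obtain ⟨M, hM⟩ : ∃ M : ℝ, M = |C| + (Λ : ℝ) + 1 := ⟨_, rfl⟩
    have hM0 : 0 < M := by rw [hM]; positivity
    have hf0 : ∀ x, |f x - f x0| ≤ M := fun x => by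
      have h2 := hC x x0
      rw [Real.dist_eq] at h2
      have := le_abs_self C
      have h3 : (0 : ℝ) ≤ Λ := Λ.2
      rw [hM]; linarith
    have hfl : ∀ x y, |f x - f y| ≤ M * dist x y := fun x y => by
      have h2 := hΛ.dist_le_mul x y
      rw [Real.dist_eq] at h2
      have h3 : (Λ : ℝ) ≤ M := by
        rw [hM]; have := abs_nonneg C; linarith
      exact h2.trans (mul_le_mul_of_nonneg_right h3 dist_nonneg)
    have h2 := h1 (fun x => (f x - f x0) / M) (fun x y => by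
        rw [← sub_div, sub_sub_sub_cancel_right, abs_div, abs_of_pos hM0, div_le_iff₀ hM0]
        linarith [hfl x y]) (fun x => by
        rw [abs_div, abs_of_pos hM0, div_le_one hM0]
        exact hf0 x)
    have hint : ∀ μ : Measure Ω, IsProbabilityMeasure μ → Integrable f μ := fun μ _ => by
      refine Integrable.of_bound hΛ.continuous.aestronglyMeasurable (|f x0| + M)
        (Eventually.of_forall fun x => ?_)
      rw [Real.norm_eq_abs]
      have : f x = f x0 + (f x - f x0) := by ring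
      rw [this]
      exact (abs_add_le _ _).trans (by linarith [hf0 x])
    have hE : ∀ μ : Measure Ω, IsProbabilityMeasure μ →
        ∫ x, f x ∂μ = M * (∫ x, (f x - f x0) / M ∂μ) + f x0 := fun μ hμ => by
      rw [integral_div, integral_sub (hint μ hμ) (integrable_const _), integral_const]
      simp only [probReal_univ, smul_eq_mul, one_mul]
      field_simp
      ring
    have h3 : Tendsto (fun n => M * (∫ x, (f x - f x0) / M ∂(law n)) + f x0) atTop
        (𝓝 (M * (∫ x, (f x - f x0) / M ∂ν) + f x0)) := (h2.const_mul M).add_const _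
    rw [← hE ν inferInstance] at h3
    rw [hνp]
    refine h3.congr' ?_
    filter_upwards with n
    show _ = ∫ x, f x ∂(law n)
    rw [hE (law n) (hp n)]
  rw [ProbabilityMeasure.tendsto_iff_forall_integral_tendsto] at hw
  obtain ⟨C, hC⟩ := hgb
  have h4 := hw (BoundedContinuousFunction.ofNormedAddCommGroup g hg C (fun x => by
    rw [Real.norm_eq_abs]; exact hC x))
  rw [hνp] at h4
  exact h4

/-- the law of a functional of the polygons (for `N ≥ 2`) -/
def plw {Ω : Type*} [MeasurableSpace Ω] (x0 : Ω) (T : (N : ℕ) → (ZMod (2 * N) → ℤ × ℤ) → Ω)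
    (N : ℕ) : Measure Ω :=
  if 2 ≤ N then (((KP (2 * N - 1)).card : ENNReal))⁻¹ •
    ∑ w ∈ KP (2 * N - 1), Measure.dirac (T N (lp (2 * N) w)) else Measure.dirac x0

theorem plw_prob {Ω : Type*} [MeasurableSpace Ω] (x0 : Ω)
    (T : (N : ℕ) → (ZMod (2 * N) → ℤ × ℤ) → Ω) (N : ℕ) : IsProbabilityMeasure (plw x0 T N) := by
  unfold plw
  split_ifs with h
  · constructor
    rw [Measure.smul_apply, Measure.finsetSum_apply]
    simp only [measure_univ, Finset.sum_const, nsmul_eq_mul, mul_one, smul_eq_mul]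
    exact ENNReal.inv_mul_cancel (by exact_mod_cast Pool.Agent.W387.Q.AL.card_ne h)
      (ENNReal.natCast_ne_top _)
  · infer_instance

theorem plw_integral {Ω : Type*} [MetricSpace Ω] [MeasurableSpace Ω] [BorelSpace Ω] (x0 : Ω)
    (T : (N : ℕ) → (ZMod (2 * N) → ℤ × ℤ) → Ω) {N : ℕ} (hN : 2 ≤ N) (g : Ω → ℝ) :
    ∫ x, g x ∂(plw x0 T N) = me N (fun f => g (T N f)) := by
  unfold plw
  rw [if_pos hN, integral_smul_measure, integral_finsetSum_measure, F4x.me_eq CONV_proof hN]
  · simp only [integral_dirac, ENNReal.toReal_inv, ENNReal.toReal_natCast, smul_eq_mul]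
    rw [inv_mul_eq_div]
  · intro w hw
    exact integrable_dirac (by simp)

/-- the sparse criterion for functionals of the polygons -/
theorem weak_me [X : Pool.Agent.W387.Q.Ex] {Ω : Type*} [MetricSpace Ω] [MeasurableSpace Ω]
    [BorelSpace Ω] [Nonempty Ω] (T : (N : ℕ) → (ZMod (2 * N) → ℤ × ℤ) → Ω) (K : ℝ) (hK0 : 0 ≤ K)
    (hK : ∀ n : ℕ, 2 ≤ n → ∀ g : Ω → ℝ, (∀ x y, |g x - g y| ≤ dist x y) → (∀ x, |g x| ≤ 1) →
      |me (n + 1) (fun f => g (T (n + 1) f)) - me n (fun f => g (T n f))| ≤ K * rN n)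
    (s : ℕ → ℕ) (hs : Tendsto s atTop atTop)
    (hgap : Tendsto (fun k => ((s (k + 1) : ℝ) - s k) * rN (s k)) atTop (𝓝 0))
    (ν : Measure Ω) [IsProbabilityMeasure ν]
    (h : ∀ g : Ω → ℝ, Continuous g → (∃ C, ∀ x, |g x| ≤ C) →
      Tendsto (fun k => me (s k) (fun f => g (T (s k) f))) atTop (𝓝 (∫ x, g x ∂ν)))
    (g : Ω → ℝ) (hg : Continuous g) (hgb : ∃ C, ∀ x, |g x| ≤ C) :
    Tendsto (fun n => me n (fun f => g (T n f))) atTop (𝓝 (∫ x, g x ∂ν)) := by
  obtain ⟨x0⟩ := ‹Nonempty Ω›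
  have : Nonempty Ω := ⟨x0⟩
  have h1 := weak_gen (plw x0 T) (plw_prob x0 T) K hK0 (fun n hn g h1 h2 => by
    rw [plw_integral x0 T (by omega), plw_integral x0 T hn]
    exact hK n hn g h1 h2) s hs hgap ν (fun g hg hgb => by
      refine (h g hg hgb).congr' ?_
      filter_upwards [hs.eventually_ge_atTop 2] with k hk
      rw [plw_integral x0 T hk]) g hg hgb
  refine h1.congr' ?_
  filter_upwards [eventually_ge_atTop 2] with n hn
  rw [plw_integral x0 T hn]

end

end Pool.Agent.Q228.SAP
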