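import Pool.Agent.TH546.PC.Point

/-!
# The window bound for weighted numbers of polygons

For a weight `φ` which is nearly invariant under insertions the numbers
`g N = (∑ φ over the polygons of perimeter 2 N) μ^(-2N)` are almost log-convex, so that `g N` is at
most `C / √N` times the sum of `g j` over `N / 2 < j ≤ 2 N`, with `C` depending only on the
Lipschitz constant of the weight.
-/

set_option autoImplicit false

namespace Pool.Agent.Q228.SAP

open Finset Pool.Agent.H976R2 Pool.Agent.H924P Pool.Agent.H739K Filter Topology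

noncomputable section

/-- normalised total weight -/
def gg (φ : List Dir → ℝ) (N : ℕ) : ℝ := mm φ (2 * N - 1) / H981.mu ^ (2 * N)

lemma mu1 : 1 ≤ H981.mu := by have := bnd.1; linarith

lemma gg_pos {L : ℝ} {φ : List Dir → ℝ} (h : ∀ m, 3 ≤ m → Nice L m φ) {N : ℕ} (hN : 2 ≤ N) :
    0 < gg φ N := by
  unfold gg
  have hmu := mu1
  have h1 := F0_mm_pos (h (2 * N - 1) (by omega)) le_rfl (by omega)
    (F0_card_pos bnd (2 * N - 1) (by omega) (by omega))
  positivity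

/-- almost log-convexity -/
lemma gg_conv (L : ℝ) (hL : 0 ≤ L) : ∃ D : ℝ, 1 ≤ D ∧ ∀ φ : List Dir → ℝ,
    (∀ m, 3 ≤ m → Nice L m φ) → ∀ m : ℕ, 2 ≤ m →
    gg φ (m + 1) ^ 2 ≤ gg φ m * gg φ (m + 2) + D / m * gg φ m ^ 2 := by
  obtain ⟨D, hD, h⟩ := RATIO_proof bnd L hL
  refine ⟨max D 1, le_max_right _ _, fun φ hφ m hm => ?_⟩
  have hmu1 := mu1
  have hmu : 0 < H981.mu := by linarith
  have h1 := h (2 * m - 1) φ (by omega) (by omega) (hφ _ (by omega))
  have e1 : 2 * m - 1 + 2 = 2 * (m + 1) - 1 := by omega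
  have e2 : 2 * m - 1 + 4 = 2 * (m + 2) - 1 := by omega
  rw [e1, e2] at h1
  have hm0 : (0 : ℝ) < m := by
    have : 0 < m := by omega
    exact_mod_cast this
  have h2 : D / ((2 * m - 1 : ℕ) : ℝ) ≤ max D 1 / m := by
    have h3 : (m : ℝ) ≤ ((2 * m - 1 : ℕ) : ℝ) := by
      have : m ≤ 2 * m - 1 := by omega
      exact_mod_cast this
    exact div_le_div₀ (by positivity) (le_max_left _ _) hm0 h3
  unfold gg
  set P := H981.mu ^ (2 * m) with hP
  have hP0 : 0 < P := pow_pos hmu _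
  have e3 : H981.mu ^ (2 * (m + 1)) = P * H981.mu ^ 2 := by rw [hP, ← pow_add]; congr 1
  have e4 : H981.mu ^ (2 * (m + 2)) = P * H981.mu ^ 4 := by rw [hP, ← pow_add]; congr 1
  rw [e3, e4]
  have hmu4 : 1 ≤ H981.mu ^ 4 := one_le_pow₀ hmu1
  have hc : 0 ≤ max D 1 / (m : ℝ) := by positivity
  set a := mm φ (2 * m - 1)
  set b := mm φ (2 * (m + 1) - 1)
  set c := mm φ (2 * (m + 2) - 1)
  have hmu4' : 0 < H981.mu ^ 4 := by positivity
  have h4 : b ^ 2 ≤ a * c + max D 1 / m * a ^ 2 * H981.mu ^ 4 := by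
    calc b ^ 2 ≤ a * c + D / ((2 * m - 1 : ℕ) : ℝ) * a ^ 2 := h1
      _ ≤ a * c + max D 1 / m * a ^ 2 := by gcongr
      _ ≤ a * c + max D 1 / m * a ^ 2 * H981.mu ^ 4 := by
          have : 0 ≤ max D 1 / m * a ^ 2 := by positivity
          have := le_mul_of_one_le_right this hmu4
          linarith
  have e5 : (b / (P * H981.mu ^ 2)) ^ 2 = b ^ 2 / (P ^ 2 * H981.mu ^ 4) := by
    rw [div_pow]; ring_nf
  have e6 : a / P * (c / (P * H981.mu ^ 4)) + max D 1 / m * (a / P) ^ 2 =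
      (a * c + max D 1 / m * a ^ 2 * H981.mu ^ 4) / (P ^ 2 * H981.mu ^ 4) := by
    field_simp
  rw [e5, e6]
  exact div_le_div_of_nonneg_right h4 (by positivity)

/-- the ratios tend to one, uniformly -/
lemma gg_ratio (L : ℝ) (hL : 0 ≤ L) : ∃ N0 : ℕ, 2 ≤ N0 ∧ ∀ φ : List Dir → ℝ,
    (∀ m, 3 ≤ m → Nice L m φ) → ∀ m : ℕ, N0 ≤ m → gg φ m ≤ 2 * gg φ (m + 1) := by
  obtain ⟨C, hC⟩ := main' L hL
  have hlim := F0_rt_tendsto
  have hev : ∀ᶠ m : ℕ in atTop, rt m < 1 / (2 * (|C| + 1)) :=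
    hlim.eventually (gt_mem_nhds (by positivity))
  obtain ⟨n0, hn0⟩ := eventually_atTop.mp hev
  refine ⟨max 2 n0, le_max_left _ _, fun φ hφ m hm => ?_⟩
  have hm2 : 2 ≤ m := (le_max_left _ _).trans hm
  have hmn : n0 ≤ m := (le_max_right _ _).trans hm
  have h1 := hn0 (2 * m - 1) (by omega)
  have h2 := hC (2 * m - 1) φ (by omega) (by omega) (fun k hk _ _ => hφ k hk)
  have h3 : C * rt (2 * m - 1) ≤ 1 / 2 := by
    have h4 : 0 ≤ rt (2 * m - 1) := F0_rt_nonneg _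
    calc C * rt (2 * m - 1) ≤ (|C| + 1) * (1 / (2 * (|C| + 1))) := by
          apply mul_le_mul _ h1.le h4 (by positivity)
          have := le_abs_self C
          linarith
      _ = 1 / 2 := by field_simp
  have h5 := (abs_le.mp (h2.trans h3)).1
  have e : 2 * m - 1 + 2 = 2 * (m + 1) - 1 := by omega
  rw [e] at h5
  have hmu1 := mu1
  have hmu : 0 < H981.mu := by linarith
  have hp := gg_pos hφ hm2
  have hp1 := gg_pos hφ (show 2 ≤ m + 1 by omega)
  have e2 : mm φ (2 * (m + 1) - 1) / (H981.mu ^ 2 * mm φ (2 * m - 1)) = gg φ (m + 1) / gg φ m := by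
    unfold gg
    have : H981.mu ^ (2 * (m + 1)) = H981.mu ^ (2 * m) * H981.mu ^ 2 := by
      rw [← pow_add]; congr 1
    rw [this]
    have h7 : mm φ (2 * m - 1) ≠ 0 := by
      intro h0
      unfold gg at hp
      rw [h0, zero_div] at hp
      exact lt_irrefl _ hp
    field_simp
  rw [e2] at h5
  have h6 : 1 / 2 ≤ gg φ (m + 1) / gg φ m := by linarith
  rw [div_le_div_iff₀ (by norm_num) hp] at h6
  linarith

/-- **The window bound** -/
theorem window (L : ℝ) (hL : 0 ≤ L) : ∃ C : ℝ, 0 ≤ C ∧ ∀ φ : List Dir → ℝ,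
    (∀ m, 3 ≤ m → Nice L m φ) → ∀ n : ℕ, 2 ≤ n →
    gg φ n ≤ C / Real.sqrt n * ∑ j ∈ Finset.Icc (n / 2 + 1) (2 * n), gg φ j := by
  obtain ⟨D0, hD0, hconv⟩ := gg_conv L hL
  obtain ⟨N0, hN0, hratio⟩ := gg_ratio L hL
  obtain ⟨D, hD⟩ : ∃ D : ℝ, D = 4 * D0 := ⟨_, rfl⟩
  have hD1 : 1 ≤ D := by rw [hD]; linarith
  obtain ⟨M0, hM0⟩ : ∃ M0 : ℕ, M0 = max (2 * N0 + 4) ⌈64 * D⌉₊ := ⟨_, rfl⟩
  refine ⟨Real.sqrt M0 + 32 * D, by positivity, fun φ hφ n hn => ?_⟩
  have hn0 : (0 : ℝ) < n := by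
    have : 0 < n := by omega
    exact_mod_cast this
  have hsn : 0 < Real.sqrt n := Real.sqrt_pos.mpr hn0
  have hpos : ∀ j ∈ Finset.Icc (n / 2 + 1) (2 * n), 0 ≤ gg φ j := fun j hj =>
    (gg_pos hφ (by rw [Finset.mem_Icc] at hj; omega)).le
  set S := ∑ j ∈ Finset.Icc (n / 2 + 1) (2 * n), gg φ j with hS
  have hS0 : 0 ≤ S := Finset.sum_nonneg hpos
  have hnS : gg φ n ≤ S :=
    Finset.single_le_sum (f := gg φ) hpos (Finset.mem_Icc.mpr ⟨by omega, by omega⟩)
  rw [div_mul_eq_mul_div, le_div_iff₀ hsn]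
  by_cases hc : n < M0
  · have h2 : Real.sqrt n ≤ Real.sqrt M0 := Real.sqrt_le_sqrt (by exact_mod_cast hc.le)
    calc gg φ n * Real.sqrt n ≤ S * Real.sqrt M0 := mul_le_mul hnS h2 hsn.le hS0
      _ ≤ (Real.sqrt M0 + 32 * D) * S := by
          have : 0 ≤ 32 * D * S := by positivity
          linarith
  push Not at hc
  have hnN0 : 2 * N0 + 4 ≤ n := (le_max_left _ _).trans (hM0 ▸ hc)
  have hn64 : 64 * D ≤ n := by
    have h1 : ⌈64 * D⌉₊ ≤ n := (le_max_right _ _).trans (hM0 ▸ hc)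
    exact (Nat.le_ceil _).trans (by exact_mod_cast h1)
  obtain ⟨κ, hκ⟩ : ∃ κ : ℕ, κ = ⌊Real.sqrt (n / (16 * D))⌋₊ := ⟨_, rfl⟩
  have hκ1 : (κ : ℝ) ≤ Real.sqrt (n / (16 * D)) := by rw [hκ]; exact Nat.floor_le (by positivity)
  have hκ2 : Real.sqrt (n / (16 * D)) < κ + 1 := by rw [hκ]; exact Nat.lt_floor_add_one _
  have hsq2 : (2 : ℝ) ≤ Real.sqrt (n / (16 * D)) := by
    apply Real.le_sqrt_of_sq_le
    rw [le_div_iff₀ (by positivity)]
    linarith
  have hκ3 : Real.sqrt (n / (16 * D)) / 2 ≤ κ := by linarith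
  have hκsq : (κ : ℝ) ^ 2 ≤ n / (16 * D) := by
    calc (κ : ℝ) ^ 2 ≤ Real.sqrt (n / (16 * D)) ^ 2 := by gcongr
      _ = n / (16 * D) := Real.sq_sqrt (by positivity)
  have hκn : 16 * D * (κ : ℝ) ^ 2 ≤ n := by
    rw [le_div_iff₀ (by positivity)] at hκsq
    linarith
  have hκ16 : 16 * κ ≤ n := by
    have h1 : (κ : ℝ) ≤ κ ^ 2 := by
      have h2 : κ ≤ κ ^ 2 := Nat.le_self_pow (by norm_num) κ
      exact_mod_cast h2
    have h3 : (16 : ℝ) * κ ≤ n := by nlinarith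
    exact_mod_cast h3
  have hpair : ∀ k, k ∈ Finset.Icc 1 κ → gg φ n ≤ gg φ (n + k) + gg φ (n - k) := by
    intro k hk
    rw [Finset.mem_Icc] at hk
    have hkκ : (k : ℝ) ≤ κ := by exact_mod_cast hk.2
    have hkn : 16 * D * (k : ℝ) ^ 2 ≤ n := by
      refine le_trans ?_ hκn
      gcongr
    have h1 := Pool.Agent.TH546.PC.almost_convex (g := gg φ) (D := D) hD1 (N := n) (k := k)
      (fun m hm => gg_pos hφ (by omega)) (fun m hm => by
        refine (hconv φ hφ m (by omega)).trans ?_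
        have h2 : D0 / (m : ℝ) ≤ D / n := by
          rw [hD]
          have hm0 : (0 : ℝ) < m := by
            have : 0 < m := by omega
            exact_mod_cast this
          rw [div_le_div_iff₀ hm0 hn0]
          have h3 : n ≤ 4 * m := by omega
          have h4 : (n : ℝ) ≤ 4 * m := by exact_mod_cast h3
          nlinarith
        gcongr) (fun m hm => hratio φ hφ m (by omega)) (by omega)
      (by
        have : 0 ≤ D * (k : ℝ) ^ 2 := by positivity
        linarith) (by omega)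
    have h2 : (1 : ℝ) / 2 ≤ 1 - 8 * D * (k : ℝ) ^ 2 / n := by
      have : 8 * D * (k : ℝ) ^ 2 / n ≤ 1 / 2 := by
        rw [div_le_div_iff₀ hn0 (by norm_num)]
        linarith
      linarith
    have hG := gg_pos hφ hn
    have hGa := gg_pos hφ (show 2 ≤ n + k by omega)
    have hGb := gg_pos hφ (show 2 ≤ n - k by omega)
    have h3 : gg φ n ^ 2 / 2 ≤ gg φ (n + k) * gg φ (n - k) := by
      refine le_trans ?_ h1
      have : gg φ n ^ 2 / 2 = 1 / 2 * gg φ n ^ 2 := by ring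
      rw [this]
      gcongr
    nlinarith [sq_nonneg (gg φ (n + k) - gg φ (n - k))]
  have hsum : κ * gg φ n ≤ ∑ k ∈ Finset.Icc 1 κ, (gg φ (n + k) + gg φ (n - k)) := by
    calc κ * gg φ n = ∑ k ∈ Finset.Icc 1 κ, gg φ n := by
          rw [Finset.sum_const, Nat.card_Icc, nsmul_eq_mul, Nat.add_sub_cancel]
      _ ≤ _ := Finset.sum_le_sum hpair
  rw [Finset.sum_add_distrib] at hsum
  have ha : ∑ k ∈ Finset.Icc 1 κ, gg φ (n + k) ≤ S := by
    have e : ∑ k ∈ Finset.Icc 1 κ, gg φ (n + k) =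
        ∑ j ∈ (Finset.Icc 1 κ).image (fun k => n + k), gg φ j := by
      rw [Finset.sum_image]
      intro a _ b _ hab
      simpa using hab
    rw [e]
    apply Finset.sum_le_sum_of_subset_of_nonneg
    · intro j hj
      rw [Finset.mem_image] at hj
      obtain ⟨k, hk, rfl⟩ := hj
      rw [Finset.mem_Icc] at hk ⊢
      omega
    · intro j hj _
      exact hpos j hj
  have hb : ∑ k ∈ Finset.Icc 1 κ, gg φ (n - k) ≤ S := by
    have e : ∑ k ∈ Finset.Icc 1 κ, gg φ (n - k) =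
        ∑ j ∈ (Finset.Icc 1 κ).image (fun k => n - k), gg φ j := by
      rw [Finset.sum_image]
      intro a ha b hb hab
      rw [Finset.mem_coe, Finset.mem_Icc] at ha hb
      simp only at hab
      omega
    rw [e]
    apply Finset.sum_le_sum_of_subset_of_nonneg
    · intro j hj
      rw [Finset.mem_image] at hj
      obtain ⟨k, hk, rfl⟩ := hj
      rw [Finset.mem_Icc] at hk ⊢
      omega
    · intro j hj _
      exact hpos j hj
  have h1 : κ * gg φ n ≤ 2 * S := by linarith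
  have h2 : Real.sqrt n / (8 * Real.sqrt D) ≤ κ := by
    refine le_trans (le_of_eq ?_) hκ3
    rw [Real.sqrt_div hn0.le, Real.sqrt_mul (by norm_num)]
    have : Real.sqrt 16 = 4 := by
      rw [show (16 : ℝ) = 4 ^ 2 by norm_num, Real.sqrt_sq (by norm_num)]
    rw [this]
    field_simp
    norm_num
  have hsD : Real.sqrt D ≤ D := by
    rw [Real.sqrt_le_left (by linarith)]
    nlinarith
  have hsD0 : 0 < Real.sqrt D := Real.sqrt_pos.mpr (by linarith)
  have hG := (gg_pos hφ hn).le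
  have h3 : Real.sqrt n / (8 * Real.sqrt D) * gg φ n ≤ 2 * S := by
    refine le_trans ?_ h1
    gcongr
  have h4 : gg φ n * Real.sqrt n ≤ 16 * Real.sqrt D * S := by
    have e : Real.sqrt n / (8 * Real.sqrt D) * gg φ n =
        gg φ n * Real.sqrt n / (8 * Real.sqrt D) := by
      field_simp
    rw [e, div_le_iff₀ (by positivity)] at h3
    linarith
  refine h4.trans ?_
  apply mul_le_mul_of_nonneg_right _ hS0
  have := Real.sqrt_nonneg (M0 : ℝ)
  linarith

end

end Pool.Agent.Q228.SAP
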